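import Pool.Agent.H624U.Basic

/-!
# AA: the main estimate (A) by induction (k colours; port of H624C.AA)
-/

set_option autoImplicit false

namespace Pool.Agent.H624U

open Finset Pool.Agent.H624C
open scoped Classical

namespace AA

/-! ### a linear functional -/

/-- time sum -/
noncomputable def L (c : ℝ) (t1 : ℕ) (f : ℕ → ℝ) : ℝ := c * ∑ t ∈ range t1, f t

theorem L_add (c : ℝ) (t1 : ℕ) (f g : ℕ → ℝ) :
    L c t1 (fun t => f t + g t) = L c t1 f + L c t1 g := by
  unfold L; rw [Finset.sum_add_distrib, mul_add]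

theorem L_sum {ι : Type*} (c : ℝ) (t1 : ℕ) (s : Finset ι) (f : ι → ℕ → ℝ) :
    L c t1 (fun t => ∑ i ∈ s, f i t) = ∑ i ∈ s, L c t1 (f i) := by
  unfold L; rw [Finset.sum_comm, Finset.mul_sum]

theorem L_mul (c r : ℝ) (t1 : ℕ) (f : ℕ → ℝ) :
    L c t1 (fun t => r * f t) = r * L c t1 f := by
  unfold L; rw [← Finset.mul_sum]; ring

theorem L_const (c r : ℝ) (t1 : ℕ) : L c t1 (fun _ => r) = (c * t1) * r := by
  unfold L; rw [Finset.sum_const, Finset.card_range, nsmul_eq_mul]; ring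

theorem L_mono {c : ℝ} (hc : 0 ≤ c) {t1 : ℕ} {f g : ℕ → ℝ} (h : ∀ t, t < t1 → f t ≤ g t) :
    L c t1 f ≤ L c t1 g := by
  unfold L
  exact mul_le_mul_of_nonneg_left (Finset.sum_le_sum (fun t ht => h t (Finset.mem_range.mp ht))) hc

/-! ### sums over subsets -/

theorem sum_pow_card_le {n : ℕ} (A : Finset (Fin n)) {x : ℝ} (hx : 0 ≤ x) :
    ∑ W ∈ A.powerset, x ^ W.card ≤ Real.exp (x * n) := by
  have h1 := Finset.sum_pow_mul_eq_add_pow x 1 A
  simp only [one_pow, mul_one] at h1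
  rw [h1]
  have h2 : x + 1 ≤ Real.exp x := Real.add_one_le_exp x
  have h3 : A.card ≤ n := by
    have := Finset.card_le_univ A
    rwa [Fintype.card_fin] at this
  calc (x + 1) ^ A.card ≤ (x + 1) ^ n := pow_le_pow_right₀ (by linarith) h3
    _ ≤ Real.exp x ^ n := pow_le_pow_left₀ (by linarith) h2 n
    _ = Real.exp (x * n) := by rw [← Real.exp_nat_mul, mul_comm]

theorem sum_swap {n : ℕ} (A : Finset (Fin n)) (f : Fin n → Finset (Fin n) → ℝ) :
    ∑ v ∈ A, ∑ W ∈ (A.erase v).powerset, f v W = ∑ W ∈ A.powerset, ∑ v ∈ A \ W, f v W := by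
  apply Finset.sum_comm'
  intro v W
  simp only [Finset.mem_powerset, Finset.mem_sdiff]
  constructor
  · rintro ⟨h1, h2⟩
    exact ⟨⟨h1, fun h => (Finset.mem_erase.mp (h2 h)).1 rfl⟩, h2.trans (Finset.erase_subset _ _)⟩
  · rintro ⟨⟨h1, h2⟩, h3⟩
    exact ⟨h1, fun x hx => Finset.mem_erase.mpr ⟨fun h => h2 (h ▸ hx), h3 hx⟩⟩

theorem sum_degX_le {k n : ℕ} (R : Set (KCol k n)) {S T : Finset (Fin n)} (hT : T ⊆ S) (ω : Om n) :
    ∑ v ∈ T, (KdegX R S ω v : ℝ) ≤ (KX R S ω : ℝ) := by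
  have h1 : KX R S ω = ∑ v ∈ S, KdegX R S ω v := by
    unfold KX KdegX
    rw [Finset.card_filter, Finset.sum_product]
    apply Finset.sum_congr rfl
    intro v _
    rw [Finset.card_filter]
    apply Finset.sum_congr rfl
    intro z _
    simp only [ne_comm]
  rw [h1]
  push_cast
  exact Finset.sum_le_sum_of_subset_of_nonneg hT (fun _ _ _ => Nat.cast_nonneg _)

theorem pow_le_fac (r k : ℕ) : (r : ℝ) ^ k ≤ (k.factorial : ℝ) * Real.exp 1 ^ r := by
  have h1 := Real.pow_div_factorial_le_exp (x := (r : ℝ)) (Nat.cast_nonneg r) k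
  have h2 : (0:ℝ) < k.factorial := by exact_mod_cast Nat.factorial_pos k
  rw [div_le_iff₀ h2] at h1
  have h3 : Real.exp 1 ^ r = Real.exp r := by rw [← Real.exp_nat_mul, mul_one]
  rw [h3]
  linarith

theorem sq_le_four_pow (r : ℕ) : (r : ℝ) ^ 2 ≤ 4 ^ r := by
  have h1 : (r:ℝ) ≤ 2 ^ r := by exact_mod_cast (Nat.lt_two_pow_self).le
  calc (r:ℝ) ^ 2 ≤ (2 ^ r) ^ 2 := pow_le_pow_left₀ (Nat.cast_nonneg r) h1 2
    _ = 4 ^ r := by rw [← pow_mul, mul_comm, pow_mul]; norm_num

theorem one_sub_pow_ge {p q Λ : ℝ} {n : ℕ} (h0 : 0 ≤ p) (hpq : p ≤ q) (hq : q ≤ 1 / 2)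
    (hqn : q * n = Λ) {m : ℕ} (hm : m ≤ n) : 1 ≤ Real.exp (2 * Λ) * (1 - p) ^ m := by
  have h1 : (1 - p) ^ n ≤ (1 - p) ^ m := pow_le_pow_of_le_one (by linarith) (by linarith) hm
  have h2 : (1 - q) ^ n ≤ (1 - p) ^ n := pow_le_pow_left₀ (by linarith) (by linarith) n
  have h3 : 1 ≤ Real.exp (2 * q) * (1 - q) := by
    have := Real.add_one_le_exp (2 * q)
    nlinarith
  have h4 : Real.exp (2 * Λ) * (1 - q) ^ n = (Real.exp (2 * q) * (1 - q)) ^ n := by
    rw [mul_pow, ← Real.exp_nat_mul]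
    congr 2
    rw [← hqn]; ring
  have h5 : 1 ≤ Real.exp (2 * Λ) * (1 - q) ^ n := by
    rw [h4]; exact one_le_pow₀ h3
  have h6 : Real.exp (2 * Λ) * (1 - q) ^ n ≤ Real.exp (2 * Λ) * (1 - p) ^ m :=
    mul_le_mul_of_nonneg_left (h2.trans h1) (Real.exp_pos _).le
  linarith

/-! ### the bound for the terms with fixed `v` and `W` -/

/-- `E [alive √X]` -/
noncomputable def EX {k n : ℕ} (p : ℝ) (R : Set (KCol k n)) (S : Finset (Fin n)) : ℝ :=
  E p (fun ω => ind (KAlive R S ω) * √(KX R S ω : ℝ))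

theorem EX_nonneg {k n : ℕ} {p : ℝ} (h0 : 0 ≤ p) (h1 : p ≤ 1) (R : Set (KCol k n))
    (S : Finset (Fin n)) : 0 ≤ EX p R S :=
  E_nonneg h0 h1 (fun _ => mul_nonneg (ind_nonneg _) (Real.sqrt_nonneg _))

theorem G_le (h3 : T_large) {k n : ℕ} {p : ℝ} (h0 : 0 ≤ p) (h1 : p ≤ 1) (R : Set (KCol k n))
    (S Y : Finset (Fin n)) : KG p R S Y ≤ EX p (KRY R Y) S + 1 := by
  unfold KG EX
  have e1 : E p (fun ω => ind (KAlive (KRY R Y) S ω) * (Kcs R S ω Y : ℝ)) ≤
      E p (fun ω => ind (KAlive (KRY R Y) S ω) * √(KX (KRY R Y) S ω : ℝ) + 1) := by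
    apply E_mono h0 h1
    intro ω
    by_cases h : KAlive (KRY R Y) S ω
    · rw [ind_true h, one_mul, one_mul]
      exact h3 k n S Y R ω h
    · rw [ind_false h]; linarith
  rw [E_add, E_const] at e1
  exact e1

theorem vW_bound (h2 : T_small) (h3 : T_large) {k n D : ℕ} {p q Λ : ℝ} (h0 : 0 ≤ p) (hpq : p ≤ q)
    (hq : q ≤ 1 / 2) (hqn : q * n = Λ) {S K W : Finset (Fin n)} {R : Set (KCol k n)} {v : Fin n}
    (hv : v ∈ S) (hKS : K ⊆ (S.erase v) \ W) (hR : KDep K R) (hvW : v ∉ W) :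
    ∑ Y ∈ ((S.erase v) \ W).powerset, ((W.card : ℝ) * p) ^ (Y.card + 1) *
        KG p R ((S.erase v) \ W) Y ≤
      (W.card : ℝ) ^ (D + 1) * q * Real.exp (2 * Λ) *
        E p (fun ω => ind (KAlive R (S \ W) ω) * (KdegX R (S \ W) ω v : ℝ)) +
      ∑ Y ∈ ((S.erase v) \ W).powerset, ((1 / 2) ^ D * (W.card * q) * (2 * (W.card * q)) ^ Y.card) *
        (EX p (KRY R Y) ((S.erase v) \ W) + 1) := by
  have h1 : p ≤ 1 := by linarith
  have hq0 : 0 ≤ q := h0.trans hpq
  set S'' := (S.erase v) \ W with hS''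
  have hvS'' : v ∉ S'' := by rw [hS'']; simp
  have hins : insert v S'' = S \ W := by
    rw [hS'']
    ext x
    simp only [Finset.mem_insert, Finset.mem_sdiff, Finset.mem_erase]
    constructor
    · rintro (rfl | ⟨⟨h, h'⟩, h''⟩)
      · exact ⟨hv, hvW⟩
      · exact ⟨h', h''⟩
    · rintro ⟨h, h'⟩
      by_cases hx : x = v
      · exact Or.inl hx
      · exact Or.inr ⟨⟨hx, h⟩, h'⟩
  have hsm := h2 k n p S'' K v R hvS'' hKS hR
  rw [hins] at hsm
  have hcard : S''.card ≤ n := by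
    have := Finset.card_le_univ S''
    rwa [Fintype.card_fin] at this
  have hE0 : ∀ Y, 0 ≤ EX p (KRY R Y) S'' + 1 := fun Y => by
    have := EX_nonneg h0 h1 (KRY R Y) S''
    linarith
  have key : ∀ Y ∈ S''.powerset, ((W.card : ℝ) * p) ^ (Y.card + 1) * KG p R S'' Y ≤
      ((W.card : ℝ) ^ (D + 1) * q * Real.exp (2 * Λ)) *
        (p ^ Y.card * (1 - p) ^ (S''.card - Y.card) * KG p R S'' Y) +
      ((1 / 2) ^ D * (W.card * q) * (2 * (W.card * q)) ^ Y.card) *
        (EX p (KRY R Y) S'' + 1) := by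
    intro Y hY
    have hG := KG_nonneg h0 h1 R S'' Y
    have hW0 : (0:ℝ) ≤ W.card := Nat.cast_nonneg _
    have h1p : 0 ≤ 1 - p := by linarith
    by_cases hYD : Y.card ≤ D
    · -- small `Y`
      have n2 : 0 ≤ ((1 / 2) ^ D * (W.card * q) * (2 * (W.card * q)) ^ Y.card) *
        (EX p (KRY R Y) S'' + 1) := mul_nonneg (by positivity) (hE0 Y)
      have n1 : ((W.card : ℝ) * p) ^ (Y.card + 1) ≤
          ((W.card : ℝ) ^ (D + 1) * q * Real.exp (2 * Λ)) *
          (p ^ Y.card * (1 - p) ^ (S''.card - Y.card)) := by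
        have k1 : (W.card : ℝ) ^ (Y.card + 1) ≤ (W.card : ℝ) ^ (D + 1) := by
          rcases Nat.eq_zero_or_pos W.card with h | h
          · rw [h]; simp
          · exact pow_le_pow_right₀ (by exact_mod_cast h) (by omega)
        have k2 := one_sub_pow_ge h0 hpq hq hqn (m := S''.card - Y.card) (by omega)
        have k3 : ((W.card : ℝ) * p) ^ (Y.card + 1) = (W.card : ℝ) ^ (Y.card + 1) * p * p ^ Y.card := by
          rw [mul_pow, pow_succ p]; ring
        rw [k3]
        have k4 : (W.card : ℝ) ^ (Y.card + 1) * p * p ^ Y.card ≤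
            (W.card : ℝ) ^ (D + 1) * q * p ^ Y.card :=
          mul_le_mul_of_nonneg_right (mul_le_mul k1 hpq h0 (by positivity)) (by positivity)
        have k5 : (W.card : ℝ) ^ (D + 1) * q * p ^ Y.card * 1 ≤
            (W.card : ℝ) ^ (D + 1) * q * p ^ Y.card *
              (Real.exp (2 * Λ) * (1 - p) ^ (S''.card - Y.card)) :=
          mul_le_mul_of_nonneg_left k2 (by positivity)
        calc _ ≤ _ := k4
          _ = (W.card : ℝ) ^ (D + 1) * q * p ^ Y.card * 1 := by ring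
          _ ≤ _ := k5
          _ = _ := by ring
      have n3 := mul_le_mul_of_nonneg_right n1 hG
      calc _ ≤ _ := n3
        _ = ((W.card : ℝ) ^ (D + 1) * q * Real.exp (2 * Λ)) *
          (p ^ Y.card * (1 - p) ^ (S''.card - Y.card) * KG p R S'' Y) := by ring
        _ ≤ _ := by linarith
    · -- large `Y`
      push Not at hYD
      have n2 : 0 ≤ ((W.card : ℝ) ^ (D + 1) * q * Real.exp (2 * Λ)) *
        (p ^ Y.card * (1 - p) ^ (S''.card - Y.card) * KG p R S'' Y) := by positivity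
      have n1 : ((W.card : ℝ) * p) ^ (Y.card + 1) ≤
          (1 / 2) ^ D * (W.card * q) * (2 * (W.card * q)) ^ Y.card := by
        have k1 : ((W.card : ℝ) * p) ^ (Y.card + 1) ≤ ((W.card : ℝ) * q) ^ (Y.card + 1) :=
          pow_le_pow_left₀ (by positivity) (mul_le_mul_of_nonneg_left hpq hW0) _
        have k2 : ((W.card : ℝ) * q) ^ (Y.card + 1) =
            (1 / 2) ^ Y.card * (W.card * q) * (2 * (W.card * q)) ^ Y.card := by
          rw [mul_pow 2 ((W.card:ℝ) * q), pow_succ ((W.card:ℝ) * q)]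
          have : ((1:ℝ) / 2) ^ Y.card * 2 ^ Y.card = 1 := by
            rw [← mul_pow]; norm_num
          calc ((W.card:ℝ) * q) ^ Y.card * ((W.card:ℝ) * q)
              = (((1:ℝ) / 2) ^ Y.card * 2 ^ Y.card) *
                (((W.card:ℝ) * q) ^ Y.card * ((W.card:ℝ) * q)) := by rw [this, one_mul]
            _ = _ := by ring
        rw [k2] at k1
        refine k1.trans ?_
        have k3 : ((1:ℝ) / 2) ^ Y.card ≤ (1 / 2) ^ D :=
          pow_le_pow_of_le_one (by norm_num) (by norm_num) hYD.le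
        apply mul_le_mul_of_nonneg_right _ (by positivity)
        exact mul_le_mul_of_nonneg_right k3 (by positivity)
      have n3 := mul_le_mul n1 (G_le h3 h0 h1 R S'' Y) hG (by positivity)
      linarith
  refine (Finset.sum_le_sum key).trans ?_
  rw [Finset.sum_add_distrib, ← Finset.mul_sum, hsm]

end AA

open AA in
theorem AA_thm (h1 : T_step) (h2 : T_small) (h3 : T_large) : T_A := by
  intro k Λ hk hΛ
  obtain ⟨D, hD⟩ : ∃ D : ℕ, (1 / 2 : ℝ) ^ D * (Λ * Real.exp (2 * Real.exp (4 * Λ) * Λ)) ≤ 1 / 4 := by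
    have ht : Filter.Tendsto (fun D : ℕ => (1 / 2 : ℝ) ^ D *
        (Λ * Real.exp (2 * Real.exp (4 * Λ) * Λ))) Filter.atTop (nhds (0 *
        (Λ * Real.exp (2 * Real.exp (4 * Λ) * Λ)))) :=
      (tendsto_pow_atTop_nhds_zero_of_lt_one (by norm_num) (by norm_num)).mul_const _
    rw [zero_mul] at ht
    have := (ht.eventually (ge_mem_nhds (show (0:ℝ) < 1 / 4 by norm_num))).exists
    exact this
  set b : ℝ := 2 * (Λ + Λ ^ 2) with hb
  set C4 : ℝ := 4 * Λ * Real.exp (2 * Λ) * ((D + 1).factorial * Real.exp (Real.exp 1 * Λ)) with hC4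
  set a : ℝ := 2 * (Λ ^ 2 * Real.exp (4 * Λ) + C4 + b + Λ) with ha
  have hb0 : 0 ≤ b := by positivity
  have hC40 : 0 ≤ C4 := by positivity
  have ha0 : 0 ≤ a := by positivity
  refine ⟨a, b, ha0, hb0, ?_⟩
  rintro n M t1 ⟨hn, hΛn, hM, ht1, hKS⟩
  have hn' : (0:ℝ) < n := by exact_mod_cast hn
  have hM' : (0:ℝ) < M := by exact_mod_cast hM
  set q : ℝ := Λ / n with hqdef
  have hqn : q * n = Λ := by rw [hqdef]; field_simp
  have hq0 : 0 ≤ q := by positivity
  have hq : q ≤ 1 / 2 := by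
    rw [hqdef, div_le_iff₀ hn']; linarith
  have hpt : ∀ t, t < t1 → (t:ℝ) / M ≤ q := by
    intro t ht
    rw [hqdef, div_le_div_iff₀ hM' hn']
    have : (t:ℝ) ≤ t1 := by exact_mod_cast ht.le
    nlinarith
  have hp0 : ∀ t : ℕ, 0 ≤ (t:ℝ) / M := fun t => by positivity
  set c : ℝ := (n:ℝ) / M with hc
  have hc0 : 0 ≤ c := by positivity
  have hct : c * t1 ≤ Λ := by
    rw [hc, div_mul_eq_mul_div, div_le_iff₀ hM']
    linarith
  have hct0 : 0 ≤ c * t1 := by positivity
  -- the statement by strong induction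
  suffices hmain : ∀ (m : ℕ) (S : Finset (Fin n)), S.card = m → ∀ (K : Finset (Fin n))
      (R : Set (KCol k n)), K ⊆ S → KDep K R →
      L c t1 (fun t => EX ((t : ℝ) / M) R S) ≤ a + b * K.card by
    intro S K R hK hR
    exact hmain S.card S rfl K R hK hR
  intro m
  induction m using Nat.strong_induction_on with
  | _ m ih =>
  intro S hSm K R hK hR
  -- one step at each time
  have hstep : ∀ t, t < t1 → EX ((t:ℝ) / M) R S ≤
      (K.card : ℝ) + ∑ v ∈ S \ K, ((K.card : ℝ) * q + ∑ W ∈ ((S \ K).erase v).powerset,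
        (q ^ W.card * ((W.card : ℝ) ^ 2 * q) +
          ((q ^ W.card * ((W.card : ℝ) ^ (D + 1) * q * Real.exp (2 * Λ))) *
            E ((t:ℝ) / M) (fun ω => ind (KAlive R (S \ W) ω) * (KdegX R (S \ W) ω v : ℝ)) +
          ∑ Y ∈ ((S.erase v) \ W).powerset,
            (q ^ W.card * ((1 / 2) ^ D * (W.card * q) * (2 * (W.card * q)) ^ Y.card)) *
            (EX ((t:ℝ) / M) (KRY R Y) ((S.erase v) \ W) + 1)))) := by
    intro t ht
    have p0 := hp0 t
    have pq := hpt t ht
    have p1 : (t:ℝ) / M ≤ 1 := by linarith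
    refine (h1 k n ((t:ℝ) / M) hk p0 p1 S K R hK hR).trans ?_
    have : ∀ v ∈ S \ K, ((K.card : ℝ) * ((t:ℝ) / M) + ∑ W ∈ ((S \ K).erase v).powerset,
        ((t:ℝ) / M) ^ W.card * ((W.card : ℝ) ^ 2 * ((t:ℝ) / M) +
        ∑ Y ∈ ((S.erase v) \ W).powerset,
          ((W.card : ℝ) * ((t:ℝ) / M)) ^ (Y.card + 1) * KG ((t:ℝ) / M) R ((S.erase v) \ W) Y)) ≤
        ((K.card : ℝ) * q + ∑ W ∈ ((S \ K).erase v).powerset,
        (q ^ W.card * ((W.card : ℝ) ^ 2 * q) +
          ((q ^ W.card * ((W.card : ℝ) ^ (D + 1) * q * Real.exp (2 * Λ))) *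
            E ((t:ℝ) / M) (fun ω => ind (KAlive R (S \ W) ω) * (KdegX R (S \ W) ω v : ℝ)) +
          ∑ Y ∈ ((S.erase v) \ W).powerset,
            (q ^ W.card * ((1 / 2) ^ D * (W.card * q) * (2 * (W.card * q)) ^ Y.card)) *
            (EX ((t:ℝ) / M) (KRY R Y) ((S.erase v) \ W) + 1)))) := by
      intro v hv
      have hvS : v ∈ S := (Finset.mem_sdiff.mp hv).1
      have hvK : v ∉ K := (Finset.mem_sdiff.mp hv).2
      apply add_le_add (mul_le_mul_of_nonneg_left pq (Nat.cast_nonneg _))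
      apply Finset.sum_le_sum
      intro W hW
      rw [Finset.mem_powerset] at hW
      have hvW : v ∉ W := fun h => (Finset.mem_erase.mp (hW h)).1 rfl
      have hKS' : K ⊆ (S.erase v) \ W := by
        intro x hx
        rw [Finset.mem_sdiff, Finset.mem_erase]
        refine ⟨⟨fun h => hvK (h ▸ hx), hK hx⟩, fun h => ?_⟩
        exact (Finset.mem_sdiff.mp (Finset.mem_of_mem_erase (hW h))).2 hx
      have hvw := vW_bound h2 h3 (D := D) p0 pq hq hqn hvS hKS' hR hvW
      have hpw : ((t:ℝ) / M) ^ W.card ≤ q ^ W.card := pow_le_pow_left₀ p0 pq _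
      have e1 : (W.card : ℝ) ^ 2 * ((t:ℝ) / M) ≤ (W.card : ℝ) ^ 2 * q :=
        mul_le_mul_of_nonneg_left pq (by positivity)
      have e2 := add_le_add e1 hvw
      have n0 : 0 ≤ (W.card : ℝ) ^ 2 * ((t:ℝ) / M) +
          ∑ Y ∈ ((S.erase v) \ W).powerset,
          ((W.card : ℝ) * ((t:ℝ) / M)) ^ (Y.card + 1) * KG ((t:ℝ) / M) R ((S.erase v) \ W) Y := by
        apply add_nonneg (by positivity)
        apply Finset.sum_nonneg
        intro Y _
        exact mul_nonneg (by positivity) (KG_nonneg p0 p1 _ _ _)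
      have e3 := mul_le_mul hpw e2 n0 (pow_nonneg hq0 _)
      refine e3.trans (le_of_eq ?_)
      rw [mul_add, mul_add, Finset.mul_sum]
      congr 1
      congr 1
      · ring
      · apply Finset.sum_congr rfl
        intro Y _
        ring
    linarith [Finset.sum_le_sum this]
  refine (L_mono hc0 hstep).trans ?_
  simp only [L_add, L_sum, L_mul, L_const]
  -- the terms
  set A := S \ K with hA
  have hAn : (A.card : ℝ) ≤ n := by
    have := Finset.card_le_univ A
    rw [Fintype.card_fin] at this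
    exact_mod_cast this
  have hK0 : (0:ℝ) ≤ K.card := Nat.cast_nonneg _
  -- split the big sum
  have hsplit : ∑ v ∈ A, ((K.card : ℝ) * (c * t1 * q) + ∑ W ∈ (A.erase v).powerset,
        (q ^ W.card * ((W.card : ℝ) ^ 2 * (c * t1 * q)) +
          ((q ^ W.card * ((W.card : ℝ) ^ (D + 1) * q * Real.exp (2 * Λ))) *
            L c t1 (fun t => E ((t:ℝ) / M)
              (fun ω => ind (KAlive R (S \ W) ω) * (KdegX R (S \ W) ω v : ℝ))) +
          ∑ Y ∈ ((S.erase v) \ W).powerset,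
            (q ^ W.card * ((1 / 2) ^ D * (W.card * q) * (2 * (W.card * q)) ^ Y.card)) *
            (L c t1 (fun t => EX ((t:ℝ) / M) (KRY R Y) ((S.erase v) \ W)) + c * t1 * 1)))) =
      ∑ v ∈ A, ((K.card : ℝ) * (c * t1 * q)) +
      ∑ v ∈ A, ∑ W ∈ (A.erase v).powerset, (q ^ W.card * ((W.card : ℝ) ^ 2 * (c * t1 * q))) +
      ∑ v ∈ A, ∑ W ∈ (A.erase v).powerset,
        ((q ^ W.card * ((W.card : ℝ) ^ (D + 1) * q * Real.exp (2 * Λ))) *
            L c t1 (fun t => E ((t:ℝ) / M)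
              (fun ω => ind (KAlive R (S \ W) ω) * (KdegX R (S \ W) ω v : ℝ)))) +
      ∑ v ∈ A, ∑ W ∈ (A.erase v).powerset, ∑ Y ∈ ((S.erase v) \ W).powerset,
            (q ^ W.card * ((1 / 2) ^ D * (W.card * q) * (2 * (W.card * q)) ^ Y.card)) *
            (L c t1 (fun t => EX ((t:ℝ) / M) (KRY R Y) ((S.erase v) \ W)) + c * t1 * 1) := by
    simp only [Finset.sum_add_distrib]
    ring
  rw [hsplit]
  -- T1
  have T1 : c * t1 * (K.card : ℝ) ≤ Λ * K.card := mul_le_mul_of_nonneg_right hct hK0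
  -- T2
  have T2 : ∑ v ∈ A, ((K.card : ℝ) * (c * t1 * q)) ≤ Λ ^ 2 * K.card := by
    rw [show (K.card : ℝ) * (c * t1 * q) = c * t1 * ((K.card : ℝ) * q) by ring]
    rw [Finset.sum_const, nsmul_eq_mul]
    have e1 : c * t1 * ((K.card : ℝ) * q) ≤ Λ * ((K.card : ℝ) * q) :=
      mul_le_mul_of_nonneg_right hct (by positivity)
    have e2 : (A.card : ℝ) * (c * t1 * ((K.card : ℝ) * q)) ≤ n * (Λ * ((K.card : ℝ) * q)) :=
      mul_le_mul hAn e1 (by positivity) hn'.le
    calc _ ≤ _ := e2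
      _ = Λ * K.card * (q * n) := by ring
      _ = Λ ^ 2 * K.card := by rw [hqn]; ring
  -- T3
  have T3 : ∑ v ∈ A, ∑ W ∈ (A.erase v).powerset,
      (q ^ W.card * ((W.card : ℝ) ^ 2 * (c * t1 * q))) ≤ Λ ^ 2 * Real.exp (4 * Λ) := by
    have e1 : ∀ v ∈ A, ∑ W ∈ (A.erase v).powerset,
        (q ^ W.card * ((W.card : ℝ) ^ 2 * (c * t1 * q))) ≤ Λ * q * Real.exp (4 * Λ) := by
      intro v _
      have e2 : ∀ W ∈ (A.erase v).powerset, q ^ W.card * ((W.card : ℝ) ^ 2 * (c * t1 * q)) ≤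
          Λ * q * (4 * q) ^ W.card := by
        intro W _
        rw [show q ^ W.card * ((W.card : ℝ) ^ 2 * (c * t1 * q)) =
          c * t1 * (q ^ W.card * ((W.card : ℝ) ^ 2 * q)) by ring]
        have k1 : q ^ W.card * ((W.card : ℝ) ^ 2 * q) ≤ q ^ W.card * (4 ^ W.card * q) :=
          mul_le_mul_of_nonneg_left (mul_le_mul_of_nonneg_right (sq_le_four_pow _) hq0)
            (by positivity)
        have k2 := mul_le_mul hct k1 (by positivity) hΛ.le
        calc _ ≤ _ := k2
          _ = Λ * q * (4 * q) ^ W.card := by rw [mul_pow]; ring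
      refine (Finset.sum_le_sum e2).trans ?_
      rw [← Finset.mul_sum]
      apply mul_le_mul_of_nonneg_left _ (by positivity)
      have := sum_pow_card_le (A.erase v) (x := 4 * q) (by positivity)
      rwa [show 4 * q * n = 4 * Λ by rw [← hqn]; ring] at this
    refine (Finset.sum_le_sum e1).trans ?_
    rw [Finset.sum_const, nsmul_eq_mul]
    have e3 : (A.card : ℝ) * (Λ * q * Real.exp (4 * Λ)) ≤ n * (Λ * q * Real.exp (4 * Λ)) :=
      mul_le_mul_of_nonneg_right hAn (by positivity)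
    calc _ ≤ _ := e3
      _ = Λ * Real.exp (4 * Λ) * (q * n) := by ring
      _ = _ := by rw [hqn]; ring
  -- T4
  have T4 : ∑ v ∈ A, ∑ W ∈ (A.erase v).powerset,
        ((q ^ W.card * ((W.card : ℝ) ^ (D + 1) * q * Real.exp (2 * Λ))) *
            L c t1 (fun t => E ((t:ℝ) / M)
              (fun ω => ind (KAlive R (S \ W) ω) * (KdegX R (S \ W) ω v : ℝ)))) ≤ C4 := by
    rw [sum_swap]
    have e1 : ∀ W ∈ A.powerset, ∑ v ∈ A \ W,
        ((q ^ W.card * ((W.card : ℝ) ^ (D + 1) * q * Real.exp (2 * Λ))) *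
            L c t1 (fun t => E ((t:ℝ) / M)
              (fun ω => ind (KAlive R (S \ W) ω) * (KdegX R (S \ W) ω v : ℝ)))) ≤
        (4 * Λ * Real.exp (2 * Λ) * (D + 1).factorial) * (Real.exp 1 * q) ^ W.card := by
      intro W _
      rw [← Finset.mul_sum, ← L_sum]
      have k1 : L c t1 (fun t => ∑ v ∈ A \ W, E ((t:ℝ) / M)
          (fun ω => ind (KAlive R (S \ W) ω) * (KdegX R (S \ W) ω v : ℝ))) ≤ 4 * n := by
        have k2 : L c t1 (fun t => ∑ v ∈ A \ W, E ((t:ℝ) / M)
            (fun ω => ind (KAlive R (S \ W) ω) * (KdegX R (S \ W) ω v : ℝ))) ≤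
            L c t1 (fun t => E ((t:ℝ) / M)
              (fun ω => ind (KAlive R (S \ W) ω) * (KX R (S \ W) ω : ℝ))) := by
          apply L_mono hc0
          intro t ht
          rw [← E_sum]
          apply E_mono (hp0 t) (by linarith [hpt t ht])
          intro ω
          rw [← Finset.mul_sum]
          apply mul_le_mul_of_nonneg_left _ (ind_nonneg _)
          apply sum_degX_le
          intro x hx
          rw [hA] at hx
          simp only [Finset.mem_sdiff] at hx ⊢
          exact ⟨hx.1.1, hx.2⟩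
        refine k2.trans ?_
        unfold L
        have k3 := mul_le_mul_of_nonneg_left (hKS R (S \ W)) hc0
        refine k3.trans (le_of_eq ?_)
        rw [hc]; field_simp
      have k4 := mul_le_mul_of_nonneg_left k1
        (show 0 ≤ q ^ W.card * ((W.card : ℝ) ^ (D + 1) * q * Real.exp (2 * Λ)) by positivity)
      refine k4.trans ?_
      have k5 := pow_le_fac W.card (D + 1)
      have k6 : q ^ W.card * ((W.card : ℝ) ^ (D + 1) * q * Real.exp (2 * Λ)) * (4 * n) =
          (4 * (q * n) * Real.exp (2 * Λ)) * (q ^ W.card * (W.card : ℝ) ^ (D + 1)) := by ring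
      rw [k6, hqn, mul_pow]
      have k7 : q ^ W.card * (W.card : ℝ) ^ (D + 1) ≤
          q ^ W.card * ((D + 1).factorial * Real.exp 1 ^ W.card) :=
        mul_le_mul_of_nonneg_left k5 (by positivity)
      have k8 := mul_le_mul_of_nonneg_left k7
        (show 0 ≤ 4 * Λ * Real.exp (2 * Λ) by positivity)
      refine k8.trans (le_of_eq ?_)
      ring
    refine (Finset.sum_le_sum e1).trans ?_
    rw [← Finset.mul_sum]
    have e2 := sum_pow_card_le A (x := Real.exp 1 * q) (by positivity)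
    rw [show Real.exp 1 * q * n = Real.exp 1 * Λ by rw [← hqn]; ring] at e2
    have e3 := mul_le_mul_of_nonneg_left e2
      (show 0 ≤ 4 * Λ * Real.exp (2 * Λ) * ((D + 1).factorial : ℝ) by positivity)
    refine e3.trans (le_of_eq ?_)
    rw [hC4]; ring
  -- T5
  have T5 : ∑ v ∈ A, ∑ W ∈ (A.erase v).powerset, ∑ Y ∈ ((S.erase v) \ W).powerset,
            (q ^ W.card * ((1 / 2) ^ D * (W.card * q) * (2 * (W.card * q)) ^ Y.card)) *
            (L c t1 (fun t => EX ((t:ℝ) / M) (KRY R Y) ((S.erase v) \ W)) + c * t1 * 1) ≤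
      1 / 4 * (a + b * K.card + b + Λ) := by
    set B : ℝ := a + b * K.card + b + Λ with hB
    have hB0 : 0 ≤ B := by positivity
    have e1 : ∀ v ∈ A, ∑ W ∈ (A.erase v).powerset, ∑ Y ∈ ((S.erase v) \ W).powerset,
            (q ^ W.card * ((1 / 2) ^ D * (W.card * q) * (2 * (W.card * q)) ^ Y.card)) *
            (L c t1 (fun t => EX ((t:ℝ) / M) (KRY R Y) ((S.erase v) \ W)) + c * t1 * 1) ≤
            (1 / 2) ^ D * q * B * Real.exp (2 * Real.exp (4 * Λ) * Λ) := by
      intro v hv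
      have hvS : v ∈ S := (Finset.mem_sdiff.mp hv).1
      have hvK : v ∉ K := (Finset.mem_sdiff.mp hv).2
      have e2 : ∀ W ∈ (A.erase v).powerset, ∑ Y ∈ ((S.erase v) \ W).powerset,
            (q ^ W.card * ((1 / 2) ^ D * (W.card * q) * (2 * (W.card * q)) ^ Y.card)) *
            (L c t1 (fun t => EX ((t:ℝ) / M) (KRY R Y) ((S.erase v) \ W)) + c * t1 * 1) ≤
            ((1 / 2) ^ D * q * B) * (2 * Real.exp (4 * Λ) * q) ^ W.card := by
        intro W hW
        rw [Finset.mem_powerset] at hW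
        have hKS' : K ⊆ (S.erase v) \ W := by
          intro x hx
          rw [Finset.mem_sdiff, Finset.mem_erase]
          refine ⟨⟨fun h => hvK (h ▸ hx), hK hx⟩, fun h => ?_⟩
          exact (Finset.mem_sdiff.mp (Finset.mem_of_mem_erase (hW h))).2 hx
        have e3 : ∀ Y ∈ ((S.erase v) \ W).powerset,
            (q ^ W.card * ((1 / 2) ^ D * (W.card * q) * (2 * (W.card * q)) ^ Y.card)) *
            (L c t1 (fun t => EX ((t:ℝ) / M) (KRY R Y) ((S.erase v) \ W)) + c * t1 * 1) ≤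
            (q ^ W.card * ((1 / 2) ^ D * (W.card * q)) * B) * (4 * (W.card * q)) ^ Y.card := by
          intro Y hY
          rw [Finset.mem_powerset] at hY
          have hcard : ((S.erase v) \ W).card < m := by
            rw [← hSm]
            calc ((S.erase v) \ W).card ≤ (S.erase v).card :=
                  Finset.card_le_card Finset.sdiff_subset
              _ < S.card := Finset.card_erase_lt_of_mem hvS
          have hi := ih _ hcard ((S.erase v) \ W) rfl (K ∪ Y) (KRY R Y)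
            (Finset.union_subset hKS' hY) (KDep_KRY hR)
          have hKY : ((K ∪ Y).card : ℝ) ≤ K.card + Y.card := by
            exact_mod_cast Finset.card_union_le K Y
          have h2Y : (Y.card : ℝ) ≤ 2 ^ Y.card := by exact_mod_cast (Nat.lt_two_pow_self).le
          have h1Y : (1:ℝ) ≤ 2 ^ Y.card := one_le_pow₀ (by norm_num)
          have k1 : L c t1 (fun t => EX ((t:ℝ) / M) (KRY R Y) ((S.erase v) \ W)) + c * t1 * 1 ≤
              B * 2 ^ Y.card := by
            have : b * ((K ∪ Y).card : ℝ) ≤ b * (K.card + Y.card) :=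
              mul_le_mul_of_nonneg_left hKY hb0
            have k2 : a + b * (K.card + Y.card) + Λ ≤ B * 2 ^ Y.card := by
              have r1 : (a + b * K.card + Λ) * 1 ≤ (a + b * K.card + Λ) * 2 ^ Y.card :=
                mul_le_mul_of_nonneg_left h1Y (by positivity)
              have r2 : b * Y.card ≤ b * 2 ^ Y.card := mul_le_mul_of_nonneg_left h2Y hb0
              rw [hB]
              calc a + b * (K.card + Y.card) + Λ = (a + b * K.card + Λ) * 1 + b * Y.card := by ring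
                _ ≤ (a + b * K.card + Λ) * 2 ^ Y.card + b * 2 ^ Y.card := add_le_add r1 r2
                _ = _ := by ring
            linarith
          have k3 := mul_le_mul_of_nonneg_left k1
            (show 0 ≤ q ^ W.card * ((1 / 2) ^ D * (W.card * q) * (2 * (W.card * q)) ^ Y.card)
              by positivity)
          refine k3.trans (le_of_eq ?_)
          have k4 : (4 * ((W.card:ℝ) * q)) ^ Y.card = (2 * (W.card * q)) ^ Y.card * 2 ^ Y.card := by
            rw [← mul_pow]; congr 1; ring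
          rw [k4]; ring
        refine (Finset.sum_le_sum e3).trans ?_
        rw [← Finset.mul_sum]
        have e4 := sum_pow_card_le ((S.erase v) \ W) (x := 4 * (W.card * q)) (by positivity)
        rw [show 4 * ((W.card:ℝ) * q) * n = W.card * (4 * Λ) by rw [← hqn]; ring,
          Real.exp_nat_mul] at e4
        have e5 := mul_le_mul_of_nonneg_left e4
          (show 0 ≤ q ^ W.card * ((1 / 2) ^ D * (W.card * q)) * B by positivity)
        refine e5.trans ?_
        have h2W : (W.card : ℝ) ≤ 2 ^ W.card := by exact_mod_cast (Nat.lt_two_pow_self).le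
        have e6 : q ^ W.card * ((1 / 2) ^ D * (W.card * q)) * B * Real.exp (4 * Λ) ^ W.card =
            (((1 / 2) ^ D * q * B) * (q ^ W.card * Real.exp (4 * Λ) ^ W.card)) * W.card := by ring
        rw [e6]
        have e7 := mul_le_mul_of_nonneg_left h2W
          (show 0 ≤ ((1 / 2) ^ D * q * B) * (q ^ W.card * Real.exp (4 * Λ) ^ W.card) by positivity)
        refine e7.trans (le_of_eq ?_)
        rw [mul_pow, mul_pow]; ring
      refine (Finset.sum_le_sum e2).trans ?_
      rw [← Finset.mul_sum]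
      have e8 := sum_pow_card_le (A.erase v) (x := 2 * Real.exp (4 * Λ) * q) (by positivity)
      rw [show 2 * Real.exp (4 * Λ) * q * n = 2 * Real.exp (4 * Λ) * Λ by rw [← hqn]; ring] at e8
      exact mul_le_mul_of_nonneg_left e8 (by positivity)
    refine (Finset.sum_le_sum e1).trans ?_
    rw [Finset.sum_const, nsmul_eq_mul]
    have e9 : (A.card : ℝ) * ((1 / 2) ^ D * q * B * Real.exp (2 * Real.exp (4 * Λ) * Λ)) ≤
        n * ((1 / 2) ^ D * q * B * Real.exp (2 * Real.exp (4 * Λ) * Λ)) :=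
      mul_le_mul_of_nonneg_right hAn (by positivity)
    refine e9.trans ?_
    have e10 : (n:ℝ) * ((1 / 2) ^ D * q * B * Real.exp (2 * Real.exp (4 * Λ) * Λ)) =
        ((1 / 2) ^ D * ((q * n) * Real.exp (2 * Real.exp (4 * Λ) * Λ))) * B := by ring
    rw [e10, hqn]
    exact mul_le_mul_of_nonneg_right hD hB0
  have hfin : Λ * K.card + (Λ ^ 2 * K.card + Λ ^ 2 * Real.exp (4 * Λ) + C4 +
      1 / 4 * (a + b * K.card + b + Λ)) ≤ a + b * K.card := by
    have h1 : b * (K.card:ℝ) = 2 * (Λ + Λ ^ 2) * K.card := by rw [hb]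
    have h2 : 0 ≤ b * (K.card:ℝ) := by positivity
    have h3 : 0 ≤ Λ ^ 2 * Real.exp (4 * Λ) := by positivity
    rw [ha]
    nlinarith
  linarith

end Pool.Agent.H624U
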