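import Pool.Agent.H624U.Defs

/-!
# Basic lemmas (k colours), port of H624C.Basic
-/

set_option autoImplicit false

namespace Pool.Agent.H624U

open Finset Pool.Agent.H624C
open scoped Classical

section Sollemmas

variable {k n : ℕ}

theorem KProper_congr {ω ω' : Om n} {S : Finset (Fin n)} {σ : KCol k n}
    (h : ∀ a ∈ S, ∀ b ∈ S, a ≠ b → (s(a, b) ∈ ω ↔ s(a, b) ∈ ω')) :
    KProper ω S σ ↔ KProper ω' S σ := by
  constructor
  · intro H a ha b hb hab hm
    exact H a ha b hb hab ((h a ha b hb hab).2 hm)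
  · intro H a ha b hb hab hm
    exact H a ha b hb hab ((h a ha b hb hab).1 hm)

/-- locality: `KSol R S ω` depends only on the pairs inside `S` -/
theorem KSol_congr {ω ω' : Om n} {S : Finset (Fin n)} (R : Set (KCol k n))
    (h : ∀ a ∈ S, ∀ b ∈ S, a ≠ b → (s(a, b) ∈ ω ↔ s(a, b) ∈ ω')) :
    KSol R S ω = KSol R S ω' := by
  ext σ
  simp only [KSol, Set.mem_setOf_eq, KProper_congr h]

/-- removing coordinates that are not inside `S` does not change the solutions -/
theorem KSol_sdiff {ω B : Om n} {S : Finset (Fin n)} (R : Set (KCol k n))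
    (h : ∀ a ∈ S, ∀ b ∈ S, s(a, b) ∉ B) : KSol R S (ω \ B) = KSol R S ω := by
  apply KSol_congr
  intro a ha b hb _
  simp [Finset.mem_sdiff, h a ha b hb]

theorem KAlive_of_sol {R : Set (KCol k n)} {S : Finset (Fin n)} {ω ω' : Om n}
    (h : KSol R S ω = KSol R S ω') : KAlive R S ω ↔ KAlive R S ω' := by
  unfold KAlive; rw [h]

theorem KSame_of_sol {R : Set (KCol k n)} {S : Finset (Fin n)} {ω ω' : Om n}
    (h : KSol R S ω = KSol R S ω') (a b : Fin n) : KSame R S ω a b ↔ KSame R S ω' a b := by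
  unfold KSame; rw [h]

theorem KCov_of_sol {R : Set (KCol k n)} {S : Finset (Fin n)} {ω ω' : Om n}
    (h : KSol R S ω = KSol R S ω') (Y : Finset (Fin n)) : KCov R S ω Y ↔ KCov R S ω' Y := by
  unfold KCov; rw [h]

theorem KX_of_sol {R : Set (KCol k n)} {S : Finset (Fin n)} {ω ω' : Om n}
    (h : KSol R S ω = KSol R S ω') : KX R S ω = KX R S ω' := by
  unfold KX; simp only [KSame, h]

theorem Kcs_of_sol {R : Set (KCol k n)} {S : Finset (Fin n)} {ω ω' : Om n}
    (h : KSol R S ω = KSol R S ω') (Y : Finset (Fin n)) : Kcs R S ω Y = Kcs R S ω' Y := by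
  unfold Kcs; simp only [KCov, h]

/-- `¬ KCov` is the same as being alive with the star constraint -/
theorem not_KCov_iff {R : Set (KCol k n)} {S Y : Finset (Fin n)} {ω : Om n} :
    ¬ KCov R S ω Y ↔ KAlive (KRY R Y) S ω := by
  constructor
  · intro h
    unfold KCov at h
    push Not at h
    obtain ⟨σ, hσ, s, hs⟩ := h
    exact ⟨σ, hσ.1, hσ.2, s, hs⟩
  · rintro ⟨σ, h1, h2, s, hs⟩ hc
    obtain ⟨y, hy, hys⟩ := hc σ ⟨h1, h2⟩ s
    exact hs y hy hys

theorem KProper.mono {ω : Om n} {S S' : Finset (Fin n)} {σ : KCol k n} (h : KProper ω S σ)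
    (hS : S' ⊆ S) : KProper ω S' σ :=
  fun a ha b hb hab hm => h a (hS ha) b (hS hb) hab hm

theorem KSol_mono {R : Set (KCol k n)} {ω : Om n} {S S' : Finset (Fin n)} (hS : S' ⊆ S) :
    KSol R S ω ⊆ KSol R S' ω := fun _ h => ⟨h.1.mono hS, h.2⟩

theorem KAlive.mono {R : Set (KCol k n)} {ω : Om n} {S S' : Finset (Fin n)} (h : KAlive R S ω)
    (hS : S' ⊆ S) : KAlive R S' ω := by
  obtain ⟨σ, hσ⟩ := h
  exact ⟨σ, KSol_mono hS hσ⟩

theorem KDep_KRY {K Y : Finset (Fin n)} {R : Set (KCol k n)} (h : KDep K R) :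
    KDep (K ∪ Y) (KRY R Y) := by
  intro σ τ hst
  have h1 : σ ∈ R ↔ τ ∈ R := h σ τ (fun v hv => hst v (mem_union_left _ hv))
  have h2 : ∀ s : Fin k, (∀ y ∈ Y, σ y ≠ s) ↔ (∀ y ∈ Y, τ y ≠ s) := by
    intro s
    constructor
    · intro H y hy; rw [← hst y (mem_union_right _ hy)]; exact H y hy
    · intro H y hy; rw [hst y (mem_union_right _ hy)]; exact H y hy
  simp only [KRY, Set.mem_setOf_eq, h1, h2]

theorem KDep_univ (K : Finset (Fin n)) : KDep K (Set.univ : Set (KCol k n)) := by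
  intro σ τ _; simp

theorem KG_nonneg {p : ℝ} (h0 : 0 ≤ p) (h1 : p ≤ 1) (R : Set (KCol k n)) (S Y : Finset (Fin n)) :
    0 ≤ KG p R S Y :=
  E_nonneg h0 h1 (fun _ => mul_nonneg (ind_nonneg _) (Nat.cast_nonneg _))

end Sollemmas

end Pool.Agent.H624U
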