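import Pool.Agent.H624U.Basic

/-!
# CB: covering tuples are rare
-/

set_option autoImplicit false

namespace Pool.Agent.H624U

open Finset Pool.Agent.H624C
open scoped Classical

namespace CB

/-- image of the prefix of length `m` -/
noncomputable def Yn {l n : ℕ} (w : Fin l → Fin n) (m : ℕ) : Finset (Fin n) :=
  (univ.filter (fun i : Fin l => (i : ℕ) < m)).image w

theorem Yn_zero {l n : ℕ} (w : Fin l → Fin n) : Yn w 0 = ∅ := by
  unfold Yn; simp

theorem Yn_full {l n : ℕ} (w : Fin l → Fin n) : Yn w l = univ.image w := by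
  unfold Yn
  congr 1
  ext i; simp

theorem Yn_succ {l n : ℕ} (w : Fin l → Fin n) (j : Fin l) :
    Yn w ((j : ℕ) + 1) = insert (w j) (Yn w j) := by
  unfold Yn
  rw [← image_insert]
  congr 1
  ext i
  simp only [mem_filter, mem_univ, true_and, mem_insert]
  constructor
  · intro h
    rcases Nat.lt_succ_iff_lt_or_eq.mp h with h1 | h1
    · exact Or.inr h1
    · exact Or.inl (Fin.ext h1)
  · rintro (h | h)
    · rw [h]; exact Nat.lt_succ_self _
    · exact Nat.lt_succ_of_lt h

theorem Yn_update {l n : ℕ} (w : Fin l → Fin n) (j : Fin l) (z : Fin n) :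
    Yn (Function.update w j z) j = Yn w j := by
  unfold Yn
  apply image_congr
  intro i hi
  simp only [coe_filter, mem_univ, true_and] at hi
  have : i ≠ j := by
    intro h
    subst h
    exact lt_irrefl _ (show (i : ℕ) < i from hi)
  simp [Function.update_of_ne this]

theorem Yn_subset {l n : ℕ} (w : Fin l → Fin n) (j : Fin l) (S : Finset (Fin n))
    (h : ∀ i, i ≠ j → w i ∈ S) : Yn w j ⊆ S := by
  unfold Yn
  intro x hx
  rw [mem_image] at hx
  obtain ⟨i, hi, rfl⟩ := hx
  simp only [mem_filter, mem_univ, true_and] at hi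
  apply h
  intro e
  rw [e] at hi
  exact lt_irrefl _ hi

theorem Yn_card {l n : ℕ} (w : Fin l → Fin n) (m : ℕ) : (Yn w m).card ≤ l := by
  unfold Yn
  refine card_image_le.trans ?_
  calc _ ≤ (univ : Finset (Fin l)).card := card_le_card (filter_subset _ _)
    _ = l := by simp

theorem card_ind {ι : Type} (s : Finset ι) (P : ι → Prop) [DecidablePred P] :
    ((s.filter P).card : ℝ) = ∑ i ∈ s, ind (P i) := by
  rw [← card_filter_eq_sum_ind]
  congr!

/-- averaging over one coordinate -/
theorem avg {l n : ℕ} (j : Fin l) (F : (Fin l → Fin n) → ℝ) :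
    ∑ w, ∑ z : Fin n, F (Function.update w j z) = n * ∑ w, F w := by
  have hinv : Function.Involutive (fun q : (Fin l → Fin n) × Fin n =>
      (Function.update q.1 j q.2, q.1 j)) := by
    rintro ⟨w, z⟩
    simp
  calc ∑ w, ∑ z : Fin n, F (Function.update w j z)
      = ∑ q : (Fin l → Fin n) × Fin n, F (Function.update q.1 j q.2) := by
        rw [Fintype.sum_prod_type]
    _ = ∑ q : (Fin l → Fin n) × Fin n, F q.1 :=
        Fintype.sum_equiv hinv.toPerm _ _ (fun q => rfl)
    _ = n * ∑ w, F w := by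
        rw [Fintype.sum_prod_type]
        simp only [sum_const, card_univ, Fintype.card_fin, nsmul_eq_mul]
        rw [mul_sum]

/-- first covering prefix -/
theorem first {k l n : ℕ} (hk : 3 ≤ k) (R : Set (KCol k n)) (S : Finset (Fin n)) (ω : Om n)
    (w : Fin l → Fin n) (ha : KAlive R S ω) (hc : KCov R S ω (univ.image w)) :
    ∃ j : Fin l, KAlive (KRY R (Yn w j)) S ω ∧ KCov R S ω (insert (w j) (Yn w j)) := by
  by_contra hcon
  push Not at hcon
  have h0 : ¬ KCov R S ω (Yn w 0) := by
    rw [Yn_zero]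
    intro h
    obtain ⟨σ, hσ⟩ := ha
    obtain ⟨y, hy, _⟩ := h σ hσ ⟨0, by omega⟩
    simp at hy
  have hall : ∀ m, m ≤ l → ¬ KCov R S ω (Yn w m) := by
    intro m
    induction m with
    | zero => intro _; exact h0
    | succ m ih =>
      intro hm
      have h1 := ih (by omega)
      rw [not_KCov_iff] at h1
      have h2 := hcon ⟨m, by omega⟩ h1
      have h3 := Yn_succ w ⟨m, by omega⟩
      simp only at h3
      rw [h3]
      exact h2
  exact hall l le_rfl (by rw [Yn_full]; exact hc)

end CB

open CB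

theorem CB_thm (hA : T_A) (hL : T_large) : T_covb := by
  intro k l Λ hk hΛ
  obtain ⟨a, b, ha, hb, hAA⟩ := hA k Λ hk hΛ
  refine ⟨l * (a + b * l + b + Λ), by positivity, ?_⟩
  intro n M t1 hstd S K R hKS hdep
  have hstd' := hstd
  obtain ⟨hn, hn2, hM, ht1, _⟩ := hstd'
  have hn0 : (0:ℝ) < n := by exact_mod_cast hn
  have hM0 : (0:ℝ) < M := by exact_mod_cast hM
  have hp : ∀ t ∈ range t1, 0 ≤ (t : ℝ) / M ∧ (t : ℝ) / M ≤ 1 := by
    intro t ht
    rw [mem_range] at ht
    refine ⟨by positivity, ?_⟩
    rw [div_le_one hM0]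
    have h1 : (t : ℝ) ≤ t1 := by exact_mod_cast ht.le
    have h2 : (t1 : ℝ) * n ≤ M * n := by nlinarith
    have h3 : (t1 : ℝ) ≤ M := le_of_mul_le_mul_right h2 hn0
    linarith
  -- pointwise bound
  set Fj : Fin l → Om n → (Fin l → Fin n) → ℝ := fun j ω w =>
    ind (∀ i, i ≠ j → w i ∈ S) * (ind (KAlive (KRY R (Yn w j)) S ω) * (Kcs R S ω (Yn w j) : ℝ))
    with hFj
  have hpt : ∀ ω : Om n, (n : ℝ) * (ind (KAlive R S ω) * (Kcovn l R S ω : ℝ)) ≤
      ∑ j : Fin l, ∑ w : Fin l → Fin n, Fj j ω w := by
    intro ω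
    by_cases hal : KAlive R S ω
    · rw [ind_true hal, one_mul]
      have h1 : (Kcovn l R S ω : ℝ) ≤ ∑ j : Fin l, ∑ w : Fin l → Fin n,
          ind ((∀ i, w i ∈ S) ∧ KAlive (KRY R (Yn w j)) S ω ∧
            KCov R S ω (insert (w j) (Yn w j))) := by
        unfold Kcovn
        rw [card_ind, sum_comm]
        refine sum_le_sum fun w _ => ?_
        by_cases hw : (∀ i, w i ∈ S) ∧ KCov R S ω (univ.image w)
        · rw [ind_true hw]
          obtain ⟨j, hj1, hj2⟩ := first hk R S ω w hal hw.2
          have h2 : (1:ℝ) = ind ((∀ i, w i ∈ S) ∧ KAlive (KRY R (Yn w j)) S ω ∧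
            KCov R S ω (insert (w j) (Yn w j))) := (ind_true ⟨hw.1, hj1, hj2⟩).symm
          rw [h2]
          exact single_le_sum (f := fun j : Fin l => ind ((∀ i, w i ∈ S) ∧
            KAlive (KRY R (Yn w j)) S ω ∧ KCov R S ω (insert (w j) (Yn w j))))
            (fun _ _ => ind_nonneg _) (mem_univ j)
        · rw [ind_false hw]
          exact sum_nonneg fun _ _ => ind_nonneg _
      refine (mul_le_mul_of_nonneg_left h1 hn0.le).trans ?_
      rw [mul_sum]
      refine sum_le_sum fun j _ => ?_
      rw [← avg j]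
      refine sum_le_sum fun w _ => ?_
      simp only [hFj, Yn_update, Function.update_self]
      by_cases hw : ∀ i, i ≠ j → w i ∈ S
      · rw [ind_true hw, one_mul]
        by_cases hy : KAlive (KRY R (Yn w j)) S ω
        · rw [ind_true hy, one_mul]
          unfold Kcs
          rw [card_ind]
          have e1 : ∑ z ∈ S, ind (KCov R S ω (insert z (Yn w j))) =
              ∑ z : Fin n, ind (z ∈ S ∧ KCov R S ω (insert z (Yn w j))) := by
            rw [← sum_subset (subset_univ S)]
            · refine sum_congr rfl fun z hz => ?_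
              rw [ind_and, ind_true hz, one_mul]
            · intro z _ hz
              exact ind_false (fun h => hz h.1)
          rw [e1]
          refine sum_le_sum fun z _ => ?_
          apply ind_mono
          rintro ⟨h3, _, h5⟩
          refine ⟨?_, h5⟩
          have := h3 j
          rwa [Function.update_self] at this
        · rw [ind_false hy, zero_mul]
          refine le_of_eq (sum_eq_zero fun z _ => ?_)
          exact ind_false (fun h => hy h.2.1)
      · rw [ind_false hw, zero_mul]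
        refine le_of_eq (sum_eq_zero fun z _ => ?_)
        apply ind_false
        rintro ⟨h3, _⟩
        apply hw
        intro i hi
        have := h3 i
        rwa [Function.update_of_ne hi] at this
    · rw [ind_false hal, zero_mul, mul_zero]
      refine sum_nonneg fun j _ => sum_nonneg fun w _ => ?_
      simp only [hFj]
      exact mul_nonneg (ind_nonneg _) (mul_nonneg (ind_nonneg _) (Nat.cast_nonneg _))
  -- one tuple
  have hone : ∀ (j : Fin l) (w : Fin l → Fin n), (n : ℝ) / M * ∑ t ∈ range t1,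
      E ((t : ℝ) / M) (fun ω => Fj j ω w) ≤ a + b * (K.card + l) + Λ := by
    intro j w
    by_cases hw : ∀ i, i ≠ j → w i ∈ S
    · have hYS : Yn w j ⊆ S := Yn_subset w j S hw
      have hmain := hAA n M t1 hstd S (K ∪ Yn w j) (KRY R (Yn w j)) (union_subset hKS hYS)
        (KDep_KRY hdep)
      have hcard : ((K ∪ Yn w j).card : ℝ) ≤ K.card + l := by
        have h1 := card_union_le K (Yn w j)
        have h2 := Yn_card w j
        exact_mod_cast h1.trans (by omega)
      have hterm : ∀ t ∈ range t1, E ((t : ℝ) / M) (fun ω => Fj j ω w) ≤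
          E ((t : ℝ) / M) (fun ω => ind (KAlive (KRY R (Yn w j)) S ω) *
            √(KX (KRY R (Yn w j)) S ω : ℝ)) + 1 := by
        intro t ht
        obtain ⟨p0, p1⟩ := hp t ht
        have e1 : E ((t : ℝ) / M) (fun ω : Om n => ind (KAlive (KRY R (Yn w j)) S ω) *
            √(KX (KRY R (Yn w j)) S ω : ℝ)) + 1 = E ((t : ℝ) / M) (fun ω : Om n =>
            ind (KAlive (KRY R (Yn w j)) S ω) * √(KX (KRY R (Yn w j)) S ω : ℝ) + 1) := by
          rw [E_add, E_one]
        rw [e1]
        apply E_mono p0 p1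
        intro ω
        simp only [hFj]
        rw [ind_true hw, one_mul]
        by_cases hy : KAlive (KRY R (Yn w j)) S ω
        · rw [ind_true hy, one_mul, one_mul]
          exact hL k n S (Yn w j) R ω hy
        · rw [ind_false hy, zero_mul, zero_mul, zero_add]
          exact zero_le_one
      have hsum := sum_le_sum hterm
      rw [sum_add_distrib, sum_const, card_range, nsmul_eq_mul, mul_one] at hsum
      have hnM : 0 ≤ (n : ℝ) / M := by positivity
      have h3 := mul_le_mul_of_nonneg_left hsum hnM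
      rw [mul_add] at h3
      have h4 : (n : ℝ) / M * t1 ≤ Λ := by
        rw [div_mul_eq_mul_div, div_le_iff₀ hM0]; linarith
      have h5 : b * ((K ∪ Yn w j).card : ℝ) ≤ b * (K.card + l) := mul_le_mul_of_nonneg_left hcard hb
      linarith
    · have hz : ∀ t, E ((t : ℝ) / M) (fun ω => Fj j ω w) = 0 := by
        intro t
        have : (fun ω => Fj j ω w) = fun _ => (0:ℝ) := by
          funext ω
          simp only [hFj]
          rw [ind_false hw, zero_mul]
        rw [this, E_zero]
      simp only [hz, sum_const_zero, mul_zero]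
      positivity
  -- assembly
  have hE : ∀ t ∈ range t1, (n : ℝ) * E ((t : ℝ) / M) (fun ω => ind (KAlive R S ω) *
      (Kcovn l R S ω : ℝ)) ≤ ∑ j : Fin l, ∑ w : Fin l → Fin n,
        E ((t : ℝ) / M) (fun ω => Fj j ω w) := by
    intro t ht
    obtain ⟨p0, p1⟩ := hp t ht
    rw [← E_mul_left]
    refine (E_mono p0 p1 hpt).trans (le_of_eq ?_)
    rw [E_sum]
    refine sum_congr rfl fun j _ => ?_
    rw [E_sum]
  have h6 : (n : ℝ) ^ 2 / M * ∑ t ∈ range t1, E ((t : ℝ) / M)
      (fun ω => ind (KAlive R S ω) * (Kcovn l R S ω : ℝ)) ≤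
      ∑ j : Fin l, ∑ w : Fin l → Fin n, (n : ℝ) / M * ∑ t ∈ range t1,
        E ((t : ℝ) / M) (fun ω => Fj j ω w) := by
    have e1 : (n : ℝ) ^ 2 / M * ∑ t ∈ range t1, E ((t : ℝ) / M)
      (fun ω => ind (KAlive R S ω) * (Kcovn l R S ω : ℝ)) = (n : ℝ) / M * ∑ t ∈ range t1,
        (n : ℝ) * E ((t : ℝ) / M) (fun ω => ind (KAlive R S ω) * (Kcovn l R S ω : ℝ)) := by
      rw [← mul_sum]; ring
    have e2 : ∑ j : Fin l, ∑ w : Fin l → Fin n, (n : ℝ) / M * ∑ t ∈ range t1,
        E ((t : ℝ) / M) (fun ω => Fj j ω w) = (n : ℝ) / M * ∑ t ∈ range t1,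
          ∑ j : Fin l, ∑ w : Fin l → Fin n, E ((t : ℝ) / M) (fun ω => Fj j ω w) := by
      simp only [← mul_sum]
      congr 1
      rw [sum_comm]
      calc _ = ∑ j : Fin l, ∑ t ∈ range t1, ∑ w : Fin l → Fin n,
            E ((t : ℝ) / M) (fun ω => Fj j ω w) := ?_
        _ = _ := sum_comm
      rw [sum_comm]
      exact sum_congr rfl fun j _ => sum_comm
    rw [e1, e2]
    exact mul_le_mul_of_nonneg_left (sum_le_sum hE) (by positivity)
  refine h6.trans ?_
  calc _ ≤ ∑ _j : Fin l, ∑ _w : Fin l → Fin n, (a + b * (K.card + l) + Λ) :=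
        sum_le_sum fun j _ => sum_le_sum fun w _ => hone j w
    _ = l * ((n : ℝ) ^ l * (a + b * (K.card + l) + Λ)) := by
        simp only [sum_const, card_univ, Fintype.card_fin, Fintype.card_fun, nsmul_eq_mul]
        push_cast
        ring
    _ ≤ l * ((n : ℝ) ^ l * ((a + b * l + b + Λ) * (1 + K.card))) := by
        have hK0 : (0:ℝ) ≤ K.card := Nat.cast_nonneg _
        have hl0 : (0:ℝ) ≤ l := Nat.cast_nonneg _
        have : a + b * (K.card + l) + Λ ≤ (a + b * l + b + Λ) * (1 + K.card) := by
          have h7 : 0 ≤ (a + b * l + Λ) * K.card := by positivity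
          nlinarith
        gcongr
    _ = _ := by ring

end Pool.Agent.H624U
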