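import Pool.Agent.H624U.Basic
import Pool.Agent.H624C.SU

/-! CT (helper676): counting good gadget data. -/

set_option autoImplicit false

namespace Pool.Agent.H624U

open Finset Pool.Agent.H624C
open scoped Classical

noncomputable section

namespace CT

theorem card_filter_inst {α : Type} (s : Finset α) (P : α → Prop) (i j : DecidablePred P) :
    (@Finset.filter α P i s).card = (@Finset.filter α P j s).card := by
  have h : i = j := Subsingleton.elim i j
  rw [h]

theorem le_of_inst {α : Type} (f1 f2 : Fintype α) (P : α → Prop) (i j : DecidablePred P) (x : ℝ)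
    (h : x ≤ ((@Finset.filter α P i (@Finset.univ α f1)).card : ℝ)) :
    x ≤ ((@Finset.filter α P j (@Finset.univ α f2)).card : ℝ) := by
  have h1 : f1 = f2 := Subsingleton.elim _ _
  subst h1
  rw [← card_filter_inst _ P i j]
  exact h

/-- the row of a slot -/
def row {k l : ℕ} (s : Slt k l) : Fin (l + 1 + k) := s.1 s.2.2

/-- the dense relation -/
def FF (k l : ℕ) {n : ℕ} (ω : Om n) (v : Fin (l + 1 + k) → Fin n) : Prop :=
  ∀ σ ∈ KSol (Set.univ : Set (KCol k n)) Finset.univ ω,
    (∀ s, ∃ i : Fin (l + 1), σ (v (Fin.castAdd k i)) = s) ∨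
      ∀ s, ∃ i : Fin k, σ (v (Fin.natAdd (l + 1) i)) = s

/-- arrays all of whose transversals are in the relation kill all solutions -/
theorem kld_of {k l n : ℕ} {ω : Om n} (Y : Fin (l + 1 + k) → Slt k l → Fin n)
    (hY : ∀ J : Fin (l + 1 + k) → Slt k l, FF k l ω (fun i => Y i (J i)))
    (σ : KCol k n) (hσ : σ ∈ KSol (Set.univ : Set (KCol k n)) Finset.univ ω) :
    Kld σ (fun s => Y (row s) s) := by
  have hclaim : ∀ s0 : Fin k, ∃ r : Fin (l + 1 + k), ∀ s : Slt k l, row s = r →
      σ (Y r s) = s0 := by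
    by_cases h1 : ∀ s0 : Fin k, ∃ i : Fin (l + 1), ∀ s : Slt k l, row s = Fin.castAdd k i →
        σ (Y (Fin.castAdd k i) s) = s0
    · intro s0
      obtain ⟨i, hi⟩ := h1 s0
      exact ⟨_, hi⟩
    by_cases h2 : ∀ s0 : Fin k, ∃ i : Fin k, ∀ s : Slt k l, row s = Fin.natAdd (l + 1) i →
        σ (Y (Fin.natAdd (l + 1) i) s) = s0
    · intro s0
      obtain ⟨i, hi⟩ := h2 s0
      exact ⟨_, hi⟩
    exfalso
    push Not at h1 h2
    obtain ⟨s1, h1⟩ := h1
    obtain ⟨s2, h2⟩ := h2
    choose f1 hf1 using h1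
    choose f2 hf2 using h2
    rcases hY (Fin.addCases f1 f2) σ hσ with h3 | h3
    · obtain ⟨i, hi⟩ := h3 s1
      simp only [Fin.addCases_left] at hi
      exact (hf1 i).2 hi
    · obtain ⟨i, hi⟩ := h3 s2
      simp only [Fin.addCases_right] at hi
      exact (hf2 i).2 hi
  have hle : k - 2 ≤ k := Nat.sub_le _ _
  choose R hR using hclaim
  refine ⟨fun i => R (Fin.castLE hle i), Fin.castLE hle, Fin.castLE_injective hle, ?_⟩
  intro j i
  exact hR (Fin.castLE hle i) _ rfl

/-- the number of arrays against the number of diagonals -/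
theorem diag_count {N n : ℕ} {Q : Type} [Fintype Q] [DecidableEq Q] (ρ : Q → Fin N)
    (A : Finset (Fin N → Q → Fin n)) (B : Finset (Q → Fin n))
    (hAB : ∀ Y ∈ A, (fun s => Y (ρ s) s) ∈ B) :
    A.card * n ^ Fintype.card Q ≤ B.card * n ^ (N * Fintype.card Q) := by
  have h1 : A.card * n ^ Fintype.card Q = (A ×ˢ (univ : Finset (Q → Fin n))).card := by
    rw [Finset.card_product, Finset.card_univ, Fintype.card_fun, Fintype.card_fin]
  have h2 : B.card * n ^ (N * Fintype.card Q) =
      (B ×ˢ (univ : Finset (Fin N → Q → Fin n))).card := by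
    rw [Finset.card_product, Finset.card_univ, Fintype.card_fun, Fintype.card_fun,
      Fintype.card_fin, Fintype.card_fin, ← pow_mul, mul_comm N]
  rw [h1, h2]
  refine Finset.card_le_card_of_injOn
    (fun q => (fun s => q.1 (ρ s) s, fun r s => if r = ρ s then q.2 s else q.1 r s)) ?_ ?_
  · rintro ⟨Y, z⟩ h
    obtain ⟨h3, -⟩ := Finset.mem_product.1 (Finset.mem_coe.1 h)
    exact Finset.mem_coe.2 (Finset.mem_product.2 ⟨hAB Y h3, Finset.mem_univ _⟩)
  · rintro ⟨Y, z⟩ - ⟨Y', z'⟩ - h
    obtain ⟨h3, h4⟩ := Prod.mk.injEq _ _ _ _ ▸ h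
    have h5 : ∀ s, Y (ρ s) s = Y' (ρ s) s := fun s => congrFun h3 s
    have h6 : ∀ r s, (if r = ρ s then z s else Y r s) = if r = ρ s then z' s else Y' r s :=
      fun r s => congrFun (congrFun h4 r) s
    refine Prod.ext ?_ ?_
    · funext r s
      by_cases h7 : r = ρ s
      · rw [h7]; exact h5 s
      · have := h6 r s
        rw [if_neg h7, if_neg h7] at this
        exact this
    · funext s
      have := h6 (ρ s) s
      rw [if_pos rfl, if_pos rfl] at this
      exact this

/-- non-injective maps -/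
theorem noninj {n : ℕ} {Q : Type} [Fintype Q] [DecidableEq Q] :
    n * ((univ : Finset (Q → Fin n)).filter (fun y => ¬ Function.Injective y)).card ≤
      Fintype.card Q ^ 2 * n ^ Fintype.card Q := by
  have h1 : (univ : Finset (Q → Fin n)).filter (fun y => ¬ Function.Injective y) ⊆
      (univ : Finset (Q × Q)).biUnion (fun q => (univ : Finset (Q → Fin n)).filter
        (fun y => q.1 ≠ q.2 ∧ y q.1 = y q.2)) := by
    intro y hy
    obtain ⟨-, hy⟩ := Finset.mem_filter.1 hy
    unfold Function.Injective at hy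
    push Not at hy
    obtain ⟨a, b, hab, hne⟩ := hy
    exact Finset.mem_biUnion.2 ⟨(a, b), Finset.mem_univ _, Finset.mem_filter.2
      ⟨Finset.mem_univ _, hne, hab⟩⟩
  have h2 : ∀ q : Q × Q, n * ((univ : Finset (Q → Fin n)).filter
      (fun y => q.1 ≠ q.2 ∧ y q.1 = y q.2)).card ≤ n ^ Fintype.card Q := by
    intro q
    have h3 : n * ((univ : Finset (Q → Fin n)).filter
      (fun y => q.1 ≠ q.2 ∧ y q.1 = y q.2)).card = ((univ : Finset (Fin n)) ×ˢ
        ((univ : Finset (Q → Fin n)).filter (fun y => q.1 ≠ q.2 ∧ y q.1 = y q.2))).card := by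
      rw [Finset.card_product, Finset.card_univ, Fintype.card_fin]
    have h4 : n ^ Fintype.card Q = (univ : Finset (Q → Fin n)).card := by
      rw [Finset.card_univ, Fintype.card_fun, Fintype.card_fin]
    rw [h3, h4]
    refine Finset.card_le_card_of_injOn (fun t => Function.update t.2 q.1 t.1)
      (fun _ _ => Finset.mem_coe.2 (Finset.mem_univ _)) ?_
    rintro ⟨z, y⟩ hy ⟨z', y'⟩ hy' h
    obtain ⟨-, h5⟩ := Finset.mem_product.1 (Finset.mem_coe.1 hy)
    obtain ⟨-, h6⟩ := Finset.mem_product.1 (Finset.mem_coe.1 hy')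
    obtain ⟨-, hne, h7⟩ := Finset.mem_filter.1 h5
    obtain ⟨-, -, h8⟩ := Finset.mem_filter.1 h6
    have h9 : ∀ s, Function.update y q.1 z s = Function.update y' q.1 z' s :=
      fun s => congrFun h s
    have h10 : ∀ s, s ≠ q.1 → y s = y' s := by
      intro s hs
      have := h9 s
      rwa [Function.update_of_ne hs, Function.update_of_ne hs] at this
    refine Prod.ext ?_ ?_
    · have := h9 q.1
      rwa [Function.update_self, Function.update_self] at this
    · funext s
      by_cases hs : s = q.1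
      · rw [hs]
        show y q.1 = y' q.1
        have h7' : y q.1 = y q.2 := h7
        have h8' : y' q.1 = y' q.2 := h8
        rw [h7', h8']
        exact h10 q.2 (Ne.symm hne)
      · exact h10 s hs
  calc n * ((univ : Finset (Q → Fin n)).filter (fun y => ¬ Function.Injective y)).card
      ≤ n * ∑ q : Q × Q, ((univ : Finset (Q → Fin n)).filter
        (fun y => q.1 ≠ q.2 ∧ y q.1 = y q.2)).card :=
        Nat.mul_le_mul_left _ ((Finset.card_le_card h1).trans Finset.card_biUnion_le)
    _ = ∑ q : Q × Q, n * ((univ : Finset (Q → Fin n)).filter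
        (fun y => q.1 ≠ q.2 ∧ y q.1 = y q.2)).card := Finset.mul_sum _ _ _
    _ ≤ ∑ _q : Q × Q, n ^ Fintype.card Q := Finset.sum_le_sum (fun q _ => h2 q)
    _ = Fintype.card Q ^ 2 * n ^ Fintype.card Q := by
        rw [Finset.sum_const, Finset.card_univ, Fintype.card_prod, smul_eq_mul, sq]

/-- the relation is dense -/
theorem FF_count (hJ : T_jump) {k m0 d m1 l n : ℕ} {ω : Om n} (hk : 3 ≤ k)
    (hT : Thr k m0 d m1) (hdn : d ≤ n) :
    DG k m0 d m1 l ω * d ^ k ≤
      ((univ : Finset (Fin (l + 1 + k) → Fin n)).filter (FF k l ω)).card := by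
  have h1 : ∀ q : (Fin l → Fin n) × Fin n, gpair k m0 d m1 l ω q →
      d ^ k ≤ ((univ : Finset (Fin k → Fin n)).filter (fun w' =>
        FF k l ω (Fin.append (Fin.snoc q.1 q.2 : Fin (l + 1) → Fin n) w'))).card := by
    intro q hq
    obtain ⟨-, h2, h3⟩ := hq
    have h4 := (hJ k m0 d m1 n ω (insert q.2 (univ.image q.1)) hk hT hdn h2 h3).1
    refine h4.trans (Finset.card_le_card ?_)
    intro w' hw'
    obtain ⟨-, h5⟩ := Finset.mem_filter.1 hw'
    refine Finset.mem_filter.2 ⟨Finset.mem_univ _, ?_⟩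
    intro σ hσ
    rcases h5 σ hσ with h6 | h6
    · left
      intro s
      obtain ⟨y, hy, hys⟩ := h6 s
      rcases Finset.mem_insert.1 hy with rfl | hy
      · refine ⟨Fin.last l, ?_⟩
        rw [Fin.append_left, Fin.snoc_last]
        exact hys
      · obtain ⟨i, -, rfl⟩ := Finset.mem_image.1 hy
        refine ⟨i.castSucc, ?_⟩
        rw [Fin.append_left, Fin.snoc_castSucc]
        exact hys
    · right
      intro s
      obtain ⟨i, hi⟩ := h6 s
      refine ⟨i, ?_⟩
      rw [Fin.append_right]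
      exact hi
  have h2 : DG k m0 d m1 l ω * d ^ k ≤
      ∑ q ∈ (univ : Finset ((Fin l → Fin n) × Fin n)).filter (gpair k m0 d m1 l ω),
        ((univ : Finset (Fin k → Fin n)).filter (fun w' =>
          FF k l ω (Fin.append (Fin.snoc q.1 q.2 : Fin (l + 1) → Fin n) w'))).card := by
    unfold DG
    rw [← smul_eq_mul, ← Finset.sum_const]
    exact Finset.sum_le_sum (fun q hq => h1 q (Finset.mem_filter.1 hq).2)
  refine h2.trans ?_
  rw [← Finset.card_sigma]
  refine Finset.card_le_card_of_injOn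
    (fun t => Fin.append (Fin.snoc t.1.1 t.1.2 : Fin (l + 1) → Fin n) t.2) ?_ ?_
  · intro t ht
    obtain ⟨-, h3⟩ := Finset.mem_sigma.1 (Finset.mem_coe.1 ht)
    exact Finset.mem_coe.2 (Finset.mem_filter.2 ⟨Finset.mem_univ _, (Finset.mem_filter.1 h3).2⟩)
  · rintro ⟨⟨w, b⟩, w'⟩ - ⟨⟨v, c⟩, v'⟩ - h
    have h3 : ∀ i, Fin.append (Fin.snoc w b : Fin (l + 1) → Fin n) w' i =
      Fin.append (Fin.snoc v c : Fin (l + 1) → Fin n) v' i := fun i => congrFun h i
    have h4 : w' = v' := by
      funext i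
      have := h3 (Fin.natAdd (l + 1) i)
      rwa [Fin.append_right, Fin.append_right] at this
    have h5 : b = c := by
      have := h3 (Fin.castAdd k (Fin.last l))
      rwa [Fin.append_left, Fin.append_left, Fin.snoc_last, Fin.snoc_last] at this
    have h6 : w = v := by
      funext i
      have := h3 (Fin.castAdd k i.castSucc)
      rwa [Fin.append_left, Fin.append_left, Fin.snoc_castSucc, Fin.snoc_castSucc] at this
    subst h4 h5 h6
    rfl

end CT

open CT in
theorem CT_thm (hJ : T_jump) : T_cnt := by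
  intro k l c δ hk hc hδ
  set q := Fintype.card (Slt k l) with hq
  set β := c * δ ^ k with hβ
  have hβ0 : 0 < β := by positivity
  set b := β ^ (q ^ (l + 1 + k)) with hb
  have hb0 : 0 < b := by positivity
  refine ⟨c / 2 * (b / 2), ⌈2 * (q : ℝ) ^ 2 / b⌉₊ + 1, by positivity, ?_⟩
  intro n hn m0 d m1 ω hT hdn hdδ hDG
  have hn0 : 0 < n := by omega
  have hnR : (0 : ℝ) < n := by exact_mod_cast hn0
  have hnb : 2 * (q : ℝ) ^ 2 / b ≤ n := by
    refine (Nat.le_ceil _).trans ?_
    exact_mod_cast (by omega : ⌈2 * (q : ℝ) ^ 2 / b⌉₊ ≤ n)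
  -- good stars
  set W := (univ : Finset (Fin l → Fin n)).filter (fun w => c / 2 * (n : ℝ) ≤
    (((univ : Finset (Fin n)).filter (fun b => gpair k m0 d m1 l ω (w, b))).card : ℝ)) with hW
  have hWc : c / 2 * (n : ℝ) ^ l ≤ (W.card : ℝ) := by
    have h1 : (DG k m0 d m1 l ω : ℝ) = ∑ w : Fin l → Fin n,
        (((univ : Finset (Fin n)).filter (fun b => gpair k m0 d m1 l ω (w, b))).card : ℝ) := by
      unfold DG
      rw [← Nat.cast_sum]
      congr 1
      rw [Finset.card_filter, Fintype.sum_prod_type]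
      refine Finset.sum_congr rfl (fun w _ => ?_)
      rw [Finset.card_filter]
    have h2 : ∀ w : Fin l → Fin n,
        (((univ : Finset (Fin n)).filter (fun b => gpair k m0 d m1 l ω (w, b))).card : ℝ) ≤
          c / 2 * (n : ℝ) + (if w ∈ W then (n : ℝ) else 0) := by
      intro w
      by_cases hw : w ∈ W
      · rw [if_pos hw]
        have h3 : ((univ : Finset (Fin n)).filter
            (fun b => gpair k m0 d m1 l ω (w, b))).card ≤ n := by
          refine (Finset.card_le_univ _).trans ?_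
          rw [Fintype.card_fin]
        have h4 : (((univ : Finset (Fin n)).filter
            (fun b => gpair k m0 d m1 l ω (w, b))).card : ℝ) ≤ n := by exact_mod_cast h3
        have : 0 ≤ c / 2 * (n : ℝ) := by positivity
        linarith
      · rw [if_neg hw, add_zero]
        by_contra h3
        exact hw (Finset.mem_filter.2 ⟨Finset.mem_univ _, (not_le.1 h3).le⟩)
    have h3 : (DG k m0 d m1 l ω : ℝ) ≤ (n : ℝ) ^ l * (c / 2 * n) + W.card * n := by
      rw [h1]
      refine (Finset.sum_le_sum (fun w _ => h2 w)).trans ?_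
      rw [Finset.sum_add_distrib, Finset.sum_const, Finset.card_univ, Fintype.card_fun,
        Fintype.card_fin, Fintype.card_fin, nsmul_eq_mul, Finset.sum_ite_mem,
        Finset.univ_inter, Finset.sum_const, nsmul_eq_mul]
      push_cast
      rfl
    have h4 : c / 2 * (n : ℝ) ^ l * n ≤ W.card * n := by
      have h5 : c * (n : ℝ) ^ (l + 1) = c * (n : ℝ) ^ l * n := by rw [pow_succ]; ring
      rw [h5] at hDG
      linarith
    exact le_of_mul_le_mul_right h4 hnR
  -- the relation
  have hFF := FF_count hJ (l := l) (ω := ω) hk hT hdn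
  have hFF2 : β * (Fintype.card (Fin n) : ℝ) ^ (l + 1 + k) ≤
      (((univ : Finset (Fin (l + 1 + k) → Fin n)).filter (FF k l ω)).card : ℝ) := by
    have h1 : ((DG k m0 d m1 l ω * d ^ k : ℕ) : ℝ) ≤
      (((univ : Finset (Fin (l + 1 + k) → Fin n)).filter (FF k l ω)).card : ℝ) := by
      exact_mod_cast hFF
    refine le_trans ?_ h1
    push_cast
    rw [Fintype.card_fin, hβ]
    have h2 : (δ * n) ^ k ≤ (d : ℝ) ^ k := pow_le_pow_left₀ (by positivity) hdδ k
    calc c * δ ^ k * (n : ℝ) ^ (l + 1 + k) = (c * (n : ℝ) ^ (l + 1)) * (δ * n) ^ k := by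
          rw [pow_add _ (l + 1) k, mul_pow]; ring
      _ ≤ _ := by gcongr
  have hSU := SU_thm (l + 1 + k) (Slt k l) (Fin n) (FF k l ω) β hβ0.le
    (by rw [Fintype.card_fin]; exact hn0) hFF2
  rw [← hq, Fintype.card_fin, ← hb] at hSU
  set A := (univ : Finset (Fin (l + 1 + k) → Slt k l → Fin n)).filter
    (fun y => ∀ J : Fin (l + 1 + k) → Slt k l, FF k l ω (fun i => y i (J i))) with hA
  have hSU2 : b * (n : ℝ) ^ ((l + 1 + k) * q) ≤ (A.card : ℝ) := by
    rw [hA]
    exact le_of_inst _ _ _ _ _ _ hSU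
  set B := (univ : Finset (Slt k l → Fin n)).filter
    (fun y => ∀ σ ∈ KSol (Set.univ : Set (KCol k n)) Finset.univ ω, Kld σ y) with hB
  have hAB := diag_count (fun s : Slt k l => row s) A B (by
    intro Y hY
    obtain ⟨-, hY⟩ := Finset.mem_filter.1 hY
    exact Finset.mem_filter.2 ⟨Finset.mem_univ _, fun σ hσ => kld_of Y hY σ hσ⟩)
  rw [← hq] at hAB
  have hBc : b * (n : ℝ) ^ q ≤ (B.card : ℝ) := by
    have h1 : (A.card : ℝ) * (n : ℝ) ^ q ≤ B.card * (n : ℝ) ^ ((l + 1 + k) * q) := by
      exact_mod_cast hAB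
    have h2 : b * (n : ℝ) ^ q * (n : ℝ) ^ ((l + 1 + k) * q) ≤
        B.card * (n : ℝ) ^ ((l + 1 + k) * q) := by
      calc b * (n : ℝ) ^ q * (n : ℝ) ^ ((l + 1 + k) * q) =
          b * (n : ℝ) ^ ((l + 1 + k) * q) * (n : ℝ) ^ q := by ring
        _ ≤ A.card * (n : ℝ) ^ q := by gcongr
        _ ≤ _ := h1
    exact le_of_mul_le_mul_right h2 (by positivity)
  have hNI : (((univ : Finset (Slt k l → Fin n)).filter
      (fun y => ¬ Function.Injective y)).card : ℝ) ≤ b / 2 * (n : ℝ) ^ q := by
    have h1 := noninj (n := n) (Q := Slt k l)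
    rw [← hq] at h1
    have h2 : (n : ℝ) * (((univ : Finset (Slt k l → Fin n)).filter
      (fun y => ¬ Function.Injective y)).card : ℝ) ≤ (q : ℝ) ^ 2 * (n : ℝ) ^ q := by
      exact_mod_cast h1
    have h3 : (q : ℝ) ^ 2 ≤ b / 2 * n := by
      rw [div_le_iff₀ hb0] at hnb
      linarith
    have h4 : (n : ℝ) * (((univ : Finset (Slt k l → Fin n)).filter
      (fun y => ¬ Function.Injective y)).card : ℝ) ≤ n * (b / 2 * (n : ℝ) ^ q) := by
      calc _ ≤ (q : ℝ) ^ 2 * (n : ℝ) ^ q := h2
        _ ≤ b / 2 * n * (n : ℝ) ^ q := by gcongr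
        _ = _ := by ring
    exact le_of_mul_le_mul_left h4 hnR
  have hBI : b / 2 * (n : ℝ) ^ q ≤ ((B.filter (fun y => Function.Injective y)).card : ℝ) := by
    have h1 : B.card ≤ (B.filter (fun y => Function.Injective y)).card +
        ((univ : Finset (Slt k l → Fin n)).filter (fun y => ¬ Function.Injective y)).card := by
      rw [← Finset.card_filter_add_card_filter_not (s := B) (fun y => Function.Injective y)]
      refine Nat.add_le_add_left (Finset.card_le_card ?_) _
      intro y hy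
      exact Finset.mem_filter.2 ⟨Finset.mem_univ _, (Finset.mem_filter.1 hy).2⟩
    have h2 : (B.card : ℝ) ≤ ((B.filter (fun y => Function.Injective y)).card : ℝ) +
        (((univ : Finset (Slt k l → Fin n)).filter
          (fun y => ¬ Function.Injective y)).card : ℝ) := by exact_mod_cast h1
    linarith
  have hfin : W ×ˢ (B.filter (fun y => Function.Injective y)) ⊆
      (univ : Finset ((Fin l → Fin n) × (Slt k l → Fin n))).filter
        (fun q => Dat k m0 d m1 l c ω q.1 q.2) := by
    rintro ⟨w, y⟩ h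
    obtain ⟨h1, h2⟩ := Finset.mem_product.1 h
    obtain ⟨h3, h4⟩ := Finset.mem_filter.1 h2
    obtain ⟨-, h5⟩ := Finset.mem_filter.1 h3
    obtain ⟨-, h6⟩ := Finset.mem_filter.1 h1
    refine Finset.mem_filter.2 ⟨Finset.mem_univ _, ?_, h6, h4, h5⟩
    have h7 : 0 < ((univ : Finset (Fin n)).filter (fun b => gpair k m0 d m1 l ω (w, b))).card := by
      by_contra h8
      have h9 : ((univ : Finset (Fin n)).filter
        (fun b => gpair k m0 d m1 l ω (w, b))).card = 0 := by omega
      have h10 : c / 2 * (n : ℝ) ≤ (((univ : Finset (Fin n)).filter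
        (fun b => gpair k m0 d m1 l ω (w, b))).card : ℝ) := h6
      rw [h9, Nat.cast_zero] at h10
      have : 0 < c / 2 * (n : ℝ) := by positivity
      linarith
    obtain ⟨b', hb'⟩ := Finset.card_pos.1 h7
    exact (Finset.mem_filter.1 hb').2.1
  have hcard := Finset.card_le_card hfin
  rw [Finset.card_product] at hcard
  have hcard2 : (W.card : ℝ) * ((B.filter (fun y => Function.Injective y)).card : ℝ) ≤
      (((univ : Finset ((Fin l → Fin n) × (Slt k l → Fin n))).filter
        (fun q => Dat k m0 d m1 l c ω q.1 q.2)).card : ℝ) := by exact_mod_cast hcard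
  refine le_trans ?_ hcard2
  calc c / 2 * (b / 2) * (n : ℝ) ^ (l + q) = (c / 2 * (n : ℝ) ^ l) * (b / 2 * (n : ℝ) ^ q) := by
        rw [pow_add]; ring
    _ ≤ _ := by gcongr

end

end Pool.Agent.H624U
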