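import Pool.Agent.H624U.Defs

/-!
# CV: translation to `SimpleGraph`
-/

set_option autoImplicit false

namespace Pool.Agent.H624U

open Finset Pool.Agent.H624C
open scoped Classical

noncomputable section

namespace CV

variable {k n : ℕ} {ω : Om n}

/-- vertex set of a subgraph -/
def VS (H : (SimpleGraph.fromEdgeSet (ω : Set (Sym2 (Fin n)))).Subgraph) : Finset (Fin n) :=
  univ.filter (fun v => v ∈ H.verts)

/-- edge set of a subgraph -/
def ES (H : (SimpleGraph.fromEdgeSet (ω : Set (Sym2 (Fin n)))).Subgraph) : Om n :=
  ω.filter (fun e => e ∈ H.edgeSet)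

theorem mem_VS (H : (SimpleGraph.fromEdgeSet (ω : Set (Sym2 (Fin n)))).Subgraph) (v : Fin n) :
    v ∈ VS H ↔ v ∈ H.verts := by simp [VS]

theorem mem_ES (H : (SimpleGraph.fromEdgeSet (ω : Set (Sym2 (Fin n)))).Subgraph) (a b : Fin n) :
    s(a, b) ∈ ES H ↔ H.Adj a b := by
  unfold ES
  rw [mem_filter, SimpleGraph.Subgraph.mem_edgeSet]
  constructor
  · exact fun h => h.2
  · intro h
    have h1 := H.adj_sub h
    rw [SimpleGraph.fromEdgeSet_adj] at h1
    exact ⟨h1.1, h⟩

/-- a proper colouring of the pair gives a colouring of the subgraph -/
def toCol (H : (SimpleGraph.fromEdgeSet (ω : Set (Sym2 (Fin n)))).Subgraph) (σ : KCol k n)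
    (h : KProper (ES H) (VS H) σ) : H.coe.Coloring (Fin k) :=
  SimpleGraph.Coloring.mk (fun v => σ v.1) (by
    intro a b hab
    have hab' : H.Adj a.1 b.1 := hab
    have hne : a.1 ≠ b.1 := (H.adj_sub hab').ne
    exact h a.1 ((mem_VS H _).2 a.2) b.1 ((mem_VS H _).2 b.2) hne ((mem_ES H _ _).2 hab'))

theorem toCol_apply (H : (SimpleGraph.fromEdgeSet (ω : Set (Sym2 (Fin n)))).Subgraph)
    (σ : KCol k n) (h : KProper (ES H) (VS H) σ) (v : H.verts) : toCol H σ h v = σ v.1 := rfl

theorem allcol (hk : 3 ≤ k) (H : (SimpleGraph.fromEdgeSet (ω : Set (Sym2 (Fin n)))).Subgraph)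
    (hH : H.coe.chromaticNumber = k) (σ : KCol k n) (h : KProper (ES H) (VS H) σ) (s : Fin k) :
    ∃ v ∈ VS H, σ v = s := by
  by_contra hcon
  push Not at hcon
  let C : H.coe.Coloring {c : Fin k // c ≠ s} :=
    SimpleGraph.Coloring.mk (fun v => ⟨σ v.1, hcon v.1 ((mem_VS H _).2 v.2)⟩) (by
      intro a b hab he
      have := (toCol H σ h).valid hab
      apply this
      rw [toCol_apply, toCol_apply]
      exact congrArg Subtype.val he)
  have h1 : H.coe.Colorable (Fintype.card {c : Fin k // c ≠ s}) := C.colorable
  have h2 : Fintype.card {c : Fin k // c ≠ s} = k - 1 := by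
    rw [Fintype.card_subtype_compl, Fintype.card_fin]
    simp
  rw [h2] at h1
  have h3 := SimpleGraph.chromaticNumber_le_iff_colorable.2 h1
  rw [hH] at h3
  have h4 : k ≤ k - 1 := by exact_mod_cast h3
  omega

end CV

open CV

theorem CV_thm : T_conv := by
  intro k n ω hk
  constructor
  · rintro ⟨C⟩
    refine ⟨fun v => C v, ?_, trivial⟩
    intro a _ b _ hne hab
    exact C.valid (by rw [SimpleGraph.fromEdgeSet_adj]; exact ⟨hab, hne⟩)
  · rintro ⟨H, ⟨hH, huniq⟩, hiso⟩
    refine ⟨VS H, ES H, filter_subset _ _, ⟨?_, allcol hk H hH, ?_⟩, ?_⟩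
    · have h1 : H.coe.Colorable k := SimpleGraph.chromaticNumber_le_iff_colorable.1 hH.le
      obtain ⟨C⟩ := h1
      refine ⟨fun v => if h : v ∈ H.verts then C ⟨v, h⟩ else ⟨0, by omega⟩, ?_⟩
      intro a ha b hb _ hab
      rw [mem_VS] at ha hb
      rw [mem_ES] at hab
      simp only [dif_pos ha, dif_pos hb]
      exact C.valid hab
    · intro σ τ hσ hτ
      obtain ⟨π, hπ⟩ := huniq (toCol H σ hσ) (toCol H τ hτ)
      exact ⟨π, fun v hv => hπ ⟨v, (mem_VS H v).1 hv⟩⟩
    · intro hcard
      apply hiso
      -- the subgraph is complete
      have hcomp : ∀ a ∈ VS H, ∀ b ∈ VS H, a ≠ b → H.Adj a b := by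
        intro a ha b hb hab
        by_contra hadj
        let σ : KCol k n := fun x => if x = a ∨ x = b then ⟨0, by omega⟩ else ⟨1, by omega⟩
        have hσ : KProper (ES H) (VS H) σ := by
          intro x hx y hy hxy he
          rw [mem_ES] at he
          have h3 : ∃ c, VS H = {a, b, c} := by
            obtain ⟨c, hc1, hc2⟩ : ∃ c ∈ VS H, c ∉ ({a, b} : Finset (Fin n)) := by
              by_contra hcon
              push Not at hcon
              have := card_le_card (fun x hx => hcon x hx : VS H ⊆ {a, b})
              have h4 := card_le_two (a := a) (b := b)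
              omega
            refine ⟨c, (eq_of_subset_of_card_le ?_ ?_).symm⟩
            · intro z hz
              simp only [mem_insert, mem_singleton] at hz
              rcases hz with rfl | rfl | rfl
              · exact ha
              · exact hb
              · exact hc1
            · simp only [mem_insert, mem_singleton, not_or] at hc2
              rw [hcard, card_insert_of_notMem, card_insert_of_notMem, card_singleton]
              · simp only [mem_singleton]; exact fun h => hc2.2 h.symm
              · simp only [mem_insert, mem_singleton, not_or]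
                exact ⟨hab, fun h => hc2.1 h.symm⟩
          obtain ⟨c, hc⟩ := h3
          rw [hc] at hx hy
          simp only [mem_insert, mem_singleton] at hx hy
          have hca : c ≠ a := by
            rintro rfl
            rw [hc] at hcard
            have : ({c, b, c} : Finset (Fin n)) ⊆ {c, b} := by
              intro z; simp only [mem_insert, mem_singleton]; tauto
            have h5 := card_le_card this
            have h4 := card_le_two (a := c) (b := b)
            omega
          have hcb : c ≠ b := by
            rintro rfl
            rw [hc] at hcard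
            have : ({a, c, c} : Finset (Fin n)) ⊆ {a, c} := by
              intro z; simp only [mem_insert, mem_singleton]; tauto
            have h5 := card_le_card this
            have h4 := card_le_two (a := a) (b := c)
            omega
          have h01 : (⟨0, by omega⟩ : Fin k) ≠ ⟨1, by omega⟩ := by
            intro h; simpa using congrArg Fin.val h
          have e1 : σ a = ⟨0, by omega⟩ := if_pos (Or.inl rfl)
          have e2 : σ b = ⟨0, by omega⟩ := if_pos (Or.inr rfl)
          have e3 : σ c = ⟨1, by omega⟩ := if_neg (by tauto)
          rcases hx with rfl | rfl | rfl <;> rcases hy with rfl | rfl | rfl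
          · exact absurd rfl hxy
          · exact absurd he hadj
          · rw [e1, e3]; exact h01
          · exact absurd he.symm hadj
          · exact absurd rfl hxy
          · rw [e2, e3]; exact h01
          · rw [e1, e3]; exact h01.symm
          · rw [e2, e3]; exact h01.symm
          · exact absurd rfl hxy
        obtain ⟨v, -, hv⟩ := allcol hk H hH σ hσ ⟨2, by omega⟩
        simp only [σ] at hv
        split_ifs at hv
        · simpa using congrArg Fin.val hv
        · simpa using congrArg Fin.val hv
      have hc3 : Fintype.card H.verts = 3 := by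
        rw [← hcard]
        apply Fintype.card_of_subtype
        intro x
        exact mem_VS H x
      have e : H.verts ≃ Fin 3 := Fintype.equivFinOfCardEq hc3
      refine ⟨⟨e, ?_⟩⟩
      intro a b
      rw [SimpleGraph.top_adj]
      constructor
      · intro hne
        exact hcomp a.1 ((mem_VS H _).2 a.2) b.1 ((mem_VS H _).2 b.2)
          (fun h => hne (by rw [Subtype.ext h]))
      · intro hadj h
        have : a = b := e.injective h
        rw [this] at hadj
        exact H.coe.irrefl hadj

end

end Pool.Agent.H624U
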