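import Pool.Agent.H624U.Defs

/-!
# Uniquely k-colourable subgraphs: intermediate statements
-/

set_option autoImplicit false

namespace Pool.Agent.H624U

open Finset Pool.Agent.H624C
open scoped Classical

noncomputable section

/-- EX: star decomposition of the random graph on `n + 1` vertices -/
def T_ext : Prop := ∀ (n : ℕ) (p : ℝ) (f : Om (n + 1) → ℝ), 0 ≤ p → p ≤ 1 →
  (∀ ω, f (insert s(Fin.last n, Fin.last n) ω) = f ω) →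
  E p f = E p (fun ω : Om n => ∑ N : Finset (Fin n),
    p ^ N.card * (1 - p) ^ (n - N.card) * f (ext ω N))

/-- DX: exchangeability bound for star jumps -/
def T_deg : Prop := ∀ (P : ∀ n : ℕ, Om n → Prop), Fam P → ∀ (n : ℕ) (p : ℝ), 0 ≤ p → p ≤ 1 →
  ((n : ℝ) + 1) * E p (fun ω : Om n => ∑ N : Finset (Fin n),
    p ^ N.card * (1 - p) ^ (n - N.card) *
      ∑ z : Fin n, ind (¬ P (n + 1) (ext ω N) ∧ P (n + 1) (ext ω (insert z N)))) ≤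
    2 * E p (fun ω : Om (n + 1) => ind (¬ P (n + 1) ω) * (J (P (n + 1)) ω : ℝ))

/-- DX: difference of the probabilities for `n` and `n + 1` -/
def T_diff : Prop := ∀ (P : ∀ n : ℕ, Om n → Prop), Fam P → ∀ (n : ℕ) (p : ℝ), 0 ≤ p → p ≤ 1 →
  E p (fun ω : Om n => ind (¬ P n ω)) - E p (fun ω : Om (n + 1) => ind (¬ P (n + 1) ω)) =
    E p (fun ω : Om n => ∑ N : Finset (Fin n), p ^ N.card * (1 - p) ^ (n - N.card) *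
      ind (¬ P n ω ∧ P (n + 1) (ext ω N)))

/-- DR: a vertex number at which the integrated probability drops -/
def T_drop : Prop := ∀ ε' Λ' : ℝ, 0 < ε' → 0 < Λ' →
  ∃ (R : ℕ) (Λ c γ : ℝ) (n0 : ℕ), 0 < R ∧ 0 < Λ ∧ 0 < c ∧ 0 < γ ∧
  ∀ P : (∀ n : ℕ, Om n → Prop), ∀ N ≥ n0, ∀ M ≥ (R * N) ^ 5,
  ∀ t1 : ℕ, t1 = ⌊Λ * M / N⌋₊ →
  (∀ t : ℕ, (t : ℝ) * N ≤ ε' * M → t ≤ M →
    3 / 4 ≤ E ((t : ℝ) / M) (fun ω : Om N => ind (¬ P N ω))) →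
  (∀ t : ℕ, Λ' * M ≤ (t : ℝ) * (R * N : ℕ) → t ≤ M →
    E ((t : ℝ) / M) (fun ω : Om (R * N) => ind (¬ P (R * N) ω)) ≤ γ) →
  ∃ n, N ≤ n ∧ n < R * N ∧
    c * M ≤ (n : ℝ) ^ 2 * ∑ t ∈ range t1, (E ((t : ℝ) / M) (fun ω : Om n => ind (¬ P n ω)) -
      E ((t : ℝ) / M) (fun ω : Om (n + 1) => ind (¬ P (n + 1) ω)))

/-- SJ: from a drop to a star-jump mass -/
def T_star : Prop := ∀ (R : ℕ) (Λ c : ℝ), 0 < R → 0 < Λ → 0 < c →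
  ∃ (ε c' : ℝ) (D n0 : ℕ), 0 < ε ∧ ε < Λ ∧ 0 < c' ∧
  ∀ P : (∀ n : ℕ, Om n → Prop), Fam P → ∀ N ≥ n0, ∀ M ≥ (R * N) ^ 5,
  ∀ t0 t1 : ℕ, t0 = ⌈ε * M / N⌉₊ → t1 = ⌊Λ * M / N⌋₊ → ∀ n, N ≤ n → n < R * N →
    c * M ≤ (n : ℝ) ^ 2 * ∑ t ∈ range t1, (E ((t : ℝ) / M) (fun ω : Om n => ind (¬ P n ω)) -
      E ((t : ℝ) / M) (fun ω : Om (n + 1) => ind (¬ P (n + 1) ω))) →
    ∃ l ≤ D, c' * M ≤ (n : ℝ) ^ 2 * ∑ t ∈ Ico t0 t1, E ((t : ℝ) / M)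
      (fun ω : Om n => (DJ P l ω : ℝ) / (n : ℝ) ^ (l + 1))

/-- L0: a pendant vertex never produces a jump -/
def T_l0 : Prop := ∀ (k m0 d m1 n : ℕ) (ω : Om n) (q : (Fin 0 → Fin n) × Fin n), 3 ≤ k →
  ¬ gpair k m0 d m1 0 ω q

/-- MS: star-jump mass for `PV` without `SL` -/
def T_mass : Prop := ∀ k : ℕ, 3 ≤ k →
  ∃ (R : ℕ) (Λ ε c δ : ℝ) (D n0 : ℕ), 0 < R ∧ 0 < ε ∧ ε < Λ ∧ 0 < c ∧ 0 < δ ∧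
  ∀ N ≥ n0, ∀ M ≥ (R * N) ^ 5, ∀ t0 t1 : ℕ, t0 = ⌈ε * M / N⌉₊ → t1 = ⌊Λ * M / N⌋₊ →
  ∃ n, N ≤ n ∧ n < R * N ∧ ∃ m0 d m1 l : ℕ, Thr k m0 d m1 ∧ d ≤ n ∧ δ * n ≤ d ∧
    1 ≤ l ∧ l ≤ D ∧
    c * M ≤ (n : ℝ) ^ 2 * ∑ t ∈ Ico t0 t1, E ((t : ℝ) / M)
      (fun ω : Om n => (DG k m0 d m1 l ω : ℝ) / (n : ℝ) ^ (l + 1))

/-- VS: many good data are visited by the label process -/
def T_vis : Prop := ∀ k : ℕ, 3 ≤ k →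
  ∃ (R : ℕ) (Λ ε c c7 : ℝ) (D n0 : ℕ), 0 < R ∧ 0 < ε ∧ ε < Λ ∧ 0 < c ∧ 0 < c7 ∧
  ∀ N ≥ n0, ∀ M ≥ (R * N) ^ 5, ∀ t0 t1 : ℕ, t0 = ⌈ε * M / N⌉₊ → t1 = ⌊Λ * M / N⌋₊ →
  ∃ n, N ≤ n ∧ n < R * N ∧ ∃ m0 d m1 l : ℕ, 1 ≤ l ∧ l ≤ D ∧
    c7 * (n : ℝ) ^ (l + Fintype.card (Slt k l)) * (M : ℝ) ^ nI n ≤
      ∑ w : Fin l → Fin n, ∑ y : Slt k l → Fin n, ∑ T : Lab n M,
        ind (∃ t, t0 ≤ t ∧ t < t1 ∧ Dat k m0 d m1 l c (op t T) w y)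

end

end Pool.Agent.H624U
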