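import Pool.Agent.H624U.Basic
import Pool.Agent.H624U.Defs2

/-!
# DR: a drop of the integrated probability
-/

set_option autoImplicit false

namespace Pool.Agent.H624U

open Finset Pool.Agent.H624C
open scoped Classical

/-- DR -/
theorem DR_thm : T_drop := by
  intro ε' Λ' hε' hΛ'
  obtain ⟨R, hR2, hRL⟩ : ∃ R : ℕ, 2 ≤ R ∧ 8 * Λ' / ε' ≤ R :=
    ⟨max 2 ⌈8 * Λ' / ε'⌉₊, le_max_left _ _, by
      push_cast
      exact le_trans (Nat.le_ceil _) (le_max_right _ _)⟩
  have hR0 : 0 < R := by omega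
  have hR' : (0 : ℝ) < R := by exact_mod_cast hR0
  set Λ : ℝ := 2 * ε' + 1 with hΛ
  have hΛ0 : 0 < Λ := by positivity
  set γ : ℝ := ε' / (8 * Λ) with hγ
  refine ⟨R, Λ, ε' / (4 * R), γ, max 1 (max ⌈Λ⌉₊ ⌈4 / ε'⌉₊), hR0, hΛ0, by positivity,
    by positivity, ?_⟩
  intro P N hN M hM t1 ht1 hlow hhigh
  have hN1 : 1 ≤ N := le_trans (le_max_left _ _) hN
  have hN1' : (1 : ℝ) ≤ N := by exact_mod_cast hN1
  have hN0 : (0 : ℝ) < N := by linarith
  have hNΛ : Λ ≤ N := by
    have h1 : ⌈Λ⌉₊ ≤ N := le_trans ((le_max_left _ _).trans (le_max_right _ _)) hN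
    exact le_trans (Nat.le_ceil _) (by exact_mod_cast h1)
  have hNε : 4 / ε' ≤ N := by
    have h1 : ⌈4 / ε'⌉₊ ≤ N := le_trans ((le_max_right _ _).trans (le_max_right _ _)) hN
    exact le_trans (Nat.le_ceil _) (by exact_mod_cast h1)
  have hNM : N * N ≤ M := by
    refine le_trans ?_ hM
    have h1 : N ≤ R * N := Nat.le_mul_of_pos_left _ hR0
    have h2 : 1 ≤ R * N := le_trans hN1 h1
    calc N * N ≤ (R * N) * (R * N) := Nat.mul_le_mul h1 h1
      _ = (R * N) ^ 2 := by ring
      _ ≤ (R * N) ^ 5 := Nat.pow_le_pow_right h2 (by norm_num)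
  have hNM' : (N : ℝ) * N ≤ M := by exact_mod_cast hNM
  have hM0 : (0 : ℝ) < M := by nlinarith
  set x : ℝ := M / N with hx
  have hx0 : 0 < x := by positivity
  have hxN : (N : ℝ) ≤ x := by rw [hx, le_div_iff₀ hN0]; exact hNM'
  have hx1 : 1 ≤ x := by linarith
  have hxM : x * N = M := by rw [hx]; field_simp
  have hxle : x ≤ M := by rw [hx]; exact div_le_self hM0.le hN1'
  have ht1' : (t1 : ℝ) ≤ Λ * x := by
    rw [ht1, hx, ← mul_div_assoc]
    exact Nat.floor_le (by positivity)
  have ht1M : t1 ≤ M := by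
    have : (t1 : ℝ) ≤ M := by
      calc (t1 : ℝ) ≤ Λ * x := ht1'
        _ ≤ N * x := mul_le_mul_of_nonneg_right hNΛ hx0.le
        _ = M := by rw [mul_comm, hxM]
    exact_mod_cast this
  have hp : ∀ t ∈ range t1, 0 ≤ (t : ℝ) / M ∧ (t : ℝ) / M ≤ 1 := by
    intro t ht
    refine ⟨by positivity, ?_⟩
    rw [div_le_one hM0]
    have : t ≤ M := by
      have := mem_range.1 ht
      omega
    exact_mod_cast this
  set T : ℕ → ℝ := fun n => ∑ t ∈ range t1, E ((t : ℝ) / M) (fun ω : Om n => ind (¬ P n ω))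
    with hT
  -- lower bound for `T N`
  have hlo : 3 / 4 * (ε' * x) ≤ T N := by
    set s := ⌊ε' * x⌋₊ + 1 with hs
    have hs1 : s ≤ t1 := by
      rw [ht1, Nat.le_floor_iff (by positivity), hs]
      push_cast
      have h1 : (⌊ε' * x⌋₊ : ℝ) ≤ ε' * x := Nat.floor_le (by positivity)
      have h2 : Λ * M / N = Λ * x := by rw [hx, mul_div_assoc]
      rw [h2, hΛ]
      nlinarith
    have h2 : ∑ _t ∈ range s, (3 / 4 : ℝ) ≤
        ∑ t ∈ range s, E ((t : ℝ) / M) (fun ω : Om N => ind (¬ P N ω)) := by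
      refine sum_le_sum fun t ht => hlow t ?_ ?_
      · have h3 : t ≤ ⌊ε' * x⌋₊ := by
          have := mem_range.1 ht
          omega
        have h4 : (t : ℝ) ≤ ε' * x := le_trans (by exact_mod_cast h3) (Nat.floor_le (by positivity))
        calc (t : ℝ) * N ≤ ε' * x * N := mul_le_mul_of_nonneg_right h4 hN0.le
          _ = ε' * M := by rw [mul_assoc, hxM]
      · have := mem_range.1 ht
        omega
    have h3 : ∑ t ∈ range s, E ((t : ℝ) / M) (fun ω : Om N => ind (¬ P N ω)) ≤ T N := by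
      refine sum_le_sum_of_subset_of_nonneg (range_mono hs1) fun t ht _ => ?_
      exact E_nonneg (hp t ht).1 (hp t ht).2 fun _ => ind_nonneg _
    rw [sum_const, card_range, nsmul_eq_mul] at h2
    have h4 : ε' * x ≤ s := by
      rw [hs]
      push_cast
      exact (Nat.lt_floor_add_one _).le
    linarith
  -- upper bound for `T (R * N)`
  have hup : T (R * N) ≤ ε' / 4 * x + 1 := by
    have h1 : ∀ t ∈ range t1, E ((t : ℝ) / M) (fun ω : Om (R * N) => ind (¬ P (R * N) ω)) ≤
        ind ((t : ℝ) * (R * N : ℕ) < Λ' * M) + γ := by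
      intro t ht
      by_cases h : (t : ℝ) * (R * N : ℕ) < Λ' * M
      · rw [ind_true h]
        have := E_ind_le_one (hp t ht).1 (hp t ht).2 (fun ω : Om (R * N) => ¬ P (R * N) ω)
        have hγ0 : 0 < γ := by positivity
        linarith
      · rw [ind_false h, zero_add]
        exact hhigh t (not_lt.1 h) (by have := mem_range.1 ht; omega)
    have h2 : T (R * N) ≤ ∑ t ∈ range t1, (ind ((t : ℝ) * (R * N : ℕ) < Λ' * M) + γ) :=
      sum_le_sum h1
    rw [sum_add_distrib, sum_const, card_range, nsmul_eq_mul] at h2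
    have h3 : ∑ t ∈ range t1, ind ((t : ℝ) * (R * N : ℕ) < Λ' * M) ≤ ε' / 8 * x + 1 := by
      rw [← card_filter_eq_sum_ind (range t1) (fun t : ℕ => (t : ℝ) * (R * N : ℕ) < Λ' * M)]
      have h4 : (range t1).filter (fun t : ℕ => (t : ℝ) * (R * N : ℕ) < Λ' * M) ⊆
          range ⌈ε' / 8 * x⌉₊ := by
        intro t ht
        rw [mem_filter] at ht
        rw [mem_range, Nat.lt_ceil]
        have h5 := ht.2
        push_cast at h5
        have h6 : 8 * Λ' ≤ R * ε' := by
          rw [div_le_iff₀ hε'] at hRL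
          linarith
        rw [← hxM] at h5
        have h7 : (t : ℝ) * R < Λ' * x := by
          have : ((t : ℝ) * R) * N < (Λ' * x) * N := by nlinarith
          exact lt_of_mul_lt_mul_right this hN0.le
        have h8 : (t : ℝ) * R < (ε' / 8 * x) * R := by nlinarith
        exact lt_of_mul_lt_mul_right h8 hR'.le
      have h5 := card_le_card h4
      rw [card_range] at h5
      have h6 : (⌈ε' / 8 * x⌉₊ : ℝ) ≤ ε' / 8 * x + 1 := (Nat.ceil_lt_add_one (by positivity)).le
      exact le_trans (by exact_mod_cast h5) h6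
    have h4 : (t1 : ℝ) * γ ≤ ε' / 8 * x := by
      calc (t1 : ℝ) * γ ≤ (Λ * x) * γ := mul_le_mul_of_nonneg_right ht1' (by positivity)
        _ = ε' / 8 * x := by rw [hγ]; field_simp
    linarith
  -- telescoping
  have hdiff : ε' / 4 * x ≤ T N - T (R * N) := by
    have h1 : 4 ≤ ε' * x := by
      have : 4 ≤ ε' * N := by
        rw [div_le_iff₀ hε'] at hNε
        linarith
      nlinarith
    linarith
  have htel : ∑ i ∈ range (R * N - N), (T (N + i) - T (N + (i + 1))) = T N - T (R * N) := by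
    have h1 := Finset.sum_range_sub' (fun i => T (N + i)) (R * N - N)
    rw [h1]
    simp only [Nat.add_zero]
    congr 2
    have : N ≤ R * N := Nat.le_mul_of_pos_left _ hR0
    omega
  have hRN : (R * N - N : ℕ) ≤ R * N := Nat.sub_le _ _
  have hne : (range (R * N - N)).Nonempty := by
    rw [nonempty_range_iff]
    have : 2 * N ≤ R * N := Nat.mul_le_mul_right _ hR2
    omega
  obtain ⟨i, hi, hle⟩ := Finset.exists_le_of_sum_le (s := range (R * N - N))
    (f := fun _ => ε' / 4 * x / (R * N)) (g := fun i => T (N + i) - T (N + (i + 1))) hne (by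
      rw [htel, sum_const, card_range, nsmul_eq_mul]
      refine le_trans ?_ hdiff
      have h1 : ((R * N - N : ℕ) : ℝ) ≤ R * N := by exact_mod_cast hRN
      calc ((R * N - N : ℕ) : ℝ) * (ε' / 4 * x / (R * N))
          ≤ (R * N) * (ε' / 4 * x / (R * N)) :=
            mul_le_mul_of_nonneg_right h1 (by positivity)
        _ = ε' / 4 * x := by field_simp)
  refine ⟨N + i, Nat.le_add_right _ _, ?_, ?_⟩
  · have := mem_range.1 hi
    omega
  · rw [Finset.sum_sub_distrib]
    have h1 : T (N + i) - T (N + (i + 1)) =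
      (∑ t ∈ range t1, E ((t : ℝ) / M) (fun ω : Om (N + i) => ind (¬ P (N + i) ω))) -
      ∑ t ∈ range t1, E ((t : ℝ) / M) (fun ω : Om (N + i + 1) => ind (¬ P (N + i + 1) ω)) := rfl
    rw [← h1]
    have h2 : (N : ℝ) ^ 2 ≤ ((N + i : ℕ) : ℝ) ^ 2 := by
      apply pow_le_pow_left₀ hN0.le
      push_cast
      have : (0 : ℝ) ≤ i := Nat.cast_nonneg _
      linarith
    calc ε' / (4 * R) * M = (N : ℝ) ^ 2 * (ε' / 4 * x / (R * N)) := by
          rw [← hxM]; field_simp
      _ ≤ (N : ℝ) ^ 2 * (T (N + i) - T (N + (i + 1))) :=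
          mul_le_mul_of_nonneg_left hle (by positivity)
      _ ≤ _ := mul_le_mul_of_nonneg_right h2 (le_trans (by positivity) hle)

end Pool.Agent.H624U
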