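import Pool.Agent.H624U.Basic

/-! Task DT of helper624 (helper155): the soft gadget lemma. -/

set_option autoImplicit false

namespace Pool.Agent.H624U

open Finset Pool.Agent.H624C
open scoped Classical

namespace DT

lemma list3 {K : Type*} (s0 s1 s2 y0 y1 y2 : K) (A01 A02 A12 : Prop)
    (h0 : y0 ≠ s0 ∨ (¬ A01 ∧ ¬ A02)) (h1 : y1 ≠ s1 ∨ (¬ A01 ∧ ¬ A12))
    (h2 : y2 ≠ s2 ∨ (¬ A02 ∧ ¬ A12)) (hne : y0 ≠ s0 ∨ y1 ≠ s1 ∨ y2 ≠ s2)
    (p01 : A01 → s0 ≠ s1) (p02 : A02 → s0 ≠ s2) (p12 : A12 → s1 ≠ s2) :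
    ∃ t0 t1 t2 : K, (t0 = s0 ∨ t0 = y0) ∧ (t1 = s1 ∨ t1 = y1) ∧ (t2 = s2 ∨ t2 = y2) ∧
      (t0 ≠ s0 ∨ t1 ≠ s1 ∨ t2 ≠ s2) ∧ (A01 → t0 ≠ t1) ∧ (A02 → t0 ≠ t2) ∧ (A12 → t1 ≠ t2) := by
  by_contra hcon
  have key : ∀ t0 t1 t2 : K, (t0 = s0 ∨ t0 = y0) → (t1 = s1 ∨ t1 = y1) → (t2 = s2 ∨ t2 = y2) →
      (t0 = s0 ∧ t1 = s1 ∧ t2 = s2) ∨ (A01 ∧ t0 = t1) ∨ (A02 ∧ t0 = t2) ∨ (A12 ∧ t1 = t2) := by
    intro t0 t1 t2 a b c
    by_contra h
    push Not at h
    apply hcon
    refine ⟨t0, t1, t2, a, b, c, ?_, h.2.1, h.2.2.1, h.2.2.2⟩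
    by_contra h'
    push Not at h'
    exact h.1 h'.1 h'.2.1 h'.2.2
  have c1 := key y0 s1 s2 (Or.inr rfl) (Or.inl rfl) (Or.inl rfl)
  have c2 := key s0 y1 s2 (Or.inl rfl) (Or.inr rfl) (Or.inl rfl)
  have c3 := key s0 s1 y2 (Or.inl rfl) (Or.inl rfl) (Or.inr rfl)
  have c4 := key y0 y1 s2 (Or.inr rfl) (Or.inr rfl) (Or.inl rfl)
  have c5 := key y0 s1 y2 (Or.inr rfl) (Or.inl rfl) (Or.inr rfl)
  have c6 := key s0 y1 y2 (Or.inl rfl) (Or.inr rfl) (Or.inr rfl)
  have c7 := key y0 y1 y2 (Or.inr rfl) (Or.inr rfl) (Or.inr rfl)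
  clear hcon key
  grind (splits := 30)

variable {k n : ℕ}

lemma F1 {S : Finset (Fin n)} {η : Om n} (hU : UC k S η) {σ : KCol k n} (hσ : KProper η S σ)
    {x : Fin n} (hx : x ∈ S) {j : Fin k} (hj : σ x ≠ j) :
    ∃ z ∈ S, s(x, z) ∈ η ∧ σ z = j := by
  by_contra hcon
  push Not at hcon
  set τ : KCol k n := Function.update σ x j with hτ
  have hτx : τ x = j := by rw [hτ, Function.update_self]
  have hτn : ∀ v, v ≠ x → τ v = σ v := by
    intro v hv
    rw [hτ, Function.update_of_ne hv]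
  have hτp : KProper η S τ := by
    intro a ha b hb hab hm
    by_cases hax : a = x
    · subst hax
      rw [hτx, hτn b hab.symm]
      exact (hcon b hb hm).symm
    · by_cases hbx : b = x
      · subst hbx
        rw [hτx, hτn a hab]
        exact hcon a ha (by rw [Sym2.eq_swap]; exact hm)
      · rw [hτn a hax, hτn b hbx]
        exact hσ a ha b hb hab hm
  obtain ⟨π, hπ⟩ := hU.2.2 σ τ hσ hτp
  obtain ⟨v, hv, hvx⟩ := hU.2.1 τ hτp (σ x)
  have hvne : v ≠ x := by
    rintro rfl
    rw [hτx] at hvx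
    exact hj hvx.symm
  rw [hτn v hvne] at hvx
  have h1 := hπ v hv
  rw [hτn v hvne, hvx] at h1
  have h2 := hπ x hx
  rw [hτx] at h2
  exact hj (h1.trans h2.symm)

lemma F2 {S U : Finset (Fin n)} {η : Om n} (hU : UC k S η) {σ τ : KCol k n}
    (hσ : KProper η S σ) (hτ : KProper η S τ) (hag : ∀ v ∈ S, v ∉ U → τ v = σ v)
    {u : Fin n} (hu : u ∈ S) (hdiff : τ u ≠ σ u) :
    ∃ a b : Fin k, a ≠ b ∧ ∀ v ∈ S, v ∉ U → σ v ≠ a ∧ σ v ≠ b := by
  obtain ⟨π, hπ⟩ := hU.2.2 σ τ hσ hτ
  have h1 : π (σ u) ≠ σ u := by rw [← hπ u hu]; exact hdiff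
  refine ⟨σ u, π (σ u), h1.symm, ?_⟩
  intro v hv hvU
  have h2 : π (σ v) = σ v := by rw [← hπ v hv]; exact hag v hv hvU
  constructor
  · intro h
    rw [h] at h2
    exact h1 h2
  · intro h
    rw [h] at h2
    exact h1 (π.injective h2)

/-- if the graph has a uniquely colourable subgraph meeting a planted triangle: contradiction -/
lemma tri_free {l : ℕ} {n n' : ℕ} {ι : Fin n → Fin n'}
    {ρ : Rts k l → Fin n'} {w : Fin l → Fin n} {y : Slt k l → Fin n} {ω' : Om n'} (hk : 3 ≤ k)
    (hsp : Split ι ρ) (hpl : Planted ι ρ w y ω') (hinj : Function.Injective y)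
    {S : Finset (Fin n')} {η : Om n'} (hη : η ⊆ ω') (hU : UC k S η) (hS3 : S.card ≠ 3)
    (φ : Gad k l) (j₀ : Fin 3) (hj₀ : ρ (some (φ, j₀)) ∈ S) : False := by
  obtain ⟨σ, hσ⟩ := hU.1
  set r : Fin 3 → Fin n' := fun j => ρ (some (φ, j)) with hr
  have hrinj : ∀ j j', r j = r j' → j = j' := by
    intro j j' h
    have := hsp.2.1 h
    simpa using this
  -- neighbours outside the triangle
  have hnb : ∀ j, ∀ z ∈ S, (∀ j', z ≠ r j') → s(r j, z) ∈ η → ∃ i, z = ι (y (φ, j, i)) := by
    intro j z hz hzr hm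
    rcases hsp.2.2.2 z with ⟨x, rfl⟩ | ⟨q, rfl⟩
    · obtain ⟨i, hi⟩ := (hpl.2.1 φ j x).1 (hη hm)
      exact ⟨i, by rw [hi]⟩
    · exfalso
      have hne : (some (φ, j) : Rts k l) ≠ q := by
        intro h
        exact hzr j (by rw [← h])
      obtain ⟨φ', j1, j2, h1, h2⟩ := (hpl.2.2 (some (φ, j)) q hne).1 (hη hm)
      have h3 : φ = φ' ∧ j = j1 := by simpa using h1
      apply hzr j2
      rw [h2, ← h3.1]
  -- lists
  have hlist : ∀ j : Fin 3, ∃ c' : Fin k, c' ≠ σ (r j) ∧
      ∀ z ∈ S, (∀ j', z ≠ r j') → s(r j, z) ∈ η → σ z ≠ c' := by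
    intro j
    by_contra hcon
    push Not at hcon
    have hcard : (univ : Finset (Fin k)).card ≤
        (insert (σ (r j)) ((univ : Finset (Fin (k - 2))).image
          (fun i => σ (ι (y (φ, j, i)))))).card := by
      apply Finset.card_le_card
      intro c' _
      by_cases hc : c' = σ (r j)
      · rw [hc]; exact mem_insert_self _ _
      · obtain ⟨z, hz, hzr, hm, hzc⟩ := hcon c' hc
        obtain ⟨i, rfl⟩ := hnb j z hz hzr hm
        exact mem_insert_of_mem (mem_image.2 ⟨i, mem_univ _, hzc⟩)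
    have h1 := Finset.card_insert_le (σ (r j)) ((univ : Finset (Fin (k - 2))).image
          (fun i => σ (ι (y (φ, j, i)))))
    have h2 : ((univ : Finset (Fin (k - 2))).image (fun i => σ (ι (y (φ, j, i))))).card ≤
        k - 2 := by
      refine Finset.card_image_le.trans ?_
      simp
    rw [Finset.card_univ, Fintype.card_fin] at hcard
    omega
  choose Y hY1 hY2 using hlist
  set y' : Fin 3 → Fin k := fun j => if r j ∈ S then Y j else σ (r j) with hy'
  set A : Fin 3 → Fin 3 → Prop := fun j j' => r j ∈ S ∧ r j' ∈ S ∧ s(r j, r j') ∈ η with hA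
  have hyne : ∀ j, r j ∈ S → y' j ≠ σ (r j) := by
    intro j hj
    rw [hy']
    simp only [hj, if_true]
    exact hY1 j
  have hAp : ∀ j j', j ≠ j' → A j j' → σ (r j) ≠ σ (r j') := by
    intro j j' hne h
    exact hσ _ h.1 _ h.2.1 (fun he => hne (hrinj _ _ he)) h.2.2
  have hd : ∀ j, y' j ≠ σ (r j) ∨ ∀ j', ¬ A j j' ∧ ¬ A j' j := by
    intro j
    by_cases hj : r j ∈ S
    · exact Or.inl (hyne j hj)
    · right
      intro j'
      exact ⟨fun h => hj h.1, fun h => hj h.2.1⟩
  obtain ⟨t0, t1, t2, e0, e1, e2, hne, q01, q02, q12⟩ :=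
    list3 (σ (r 0)) (σ (r 1)) (σ (r 2)) (y' 0) (y' 1) (y' 2) (A 0 1) (A 0 2) (A 1 2)
      ((hd 0).imp id fun h => ⟨(h 1).1, (h 2).1⟩) ((hd 1).imp id fun h => ⟨(h 0).2, (h 2).1⟩)
      ((hd 2).imp id fun h => ⟨(h 0).2, (h 1).2⟩)
      (by
        have := hyne j₀ hj₀
        fin_cases j₀
        · exact Or.inl this
        · exact Or.inr (Or.inl this)
        · exact Or.inr (Or.inr this))
      (hAp 0 1 (by decide)) (hAp 0 2 (by decide)) (hAp 1 2 (by decide))
  set t : Fin 3 → Fin k := ![t0, t1, t2] with ht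
  have ht0 : t 0 = t0 := rfl
  have ht1 : t 1 = t1 := rfl
  have ht2 : t 2 = t2 := rfl
  have hte : ∀ j, t j = σ (r j) ∨ t j = y' j := by
    intro j
    fin_cases j
    · exact e0
    · exact e1
    · exact e2
  have htA : ∀ j j', j ≠ j' → A j j' → t j ≠ t j' := by
    have hsymm : ∀ j j', A j j' → A j' j := by
      intro j j' h
      exact ⟨h.2.1, h.1, by rw [Sym2.eq_swap]; exact h.2.2⟩
    intro j j' hne' h
    fin_cases j <;> fin_cases j'
    · exact absurd rfl hne'
    · exact q01 h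
    · exact q02 h
    · exact (q01 (hsymm _ _ h)).symm
    · exact absurd rfl hne'
    · exact q12 h
    · exact (q02 (hsymm _ _ h)).symm
    · exact (q12 (hsymm _ _ h)).symm
    · exact absurd rfl hne'
  -- the new colouring
  set U : Finset (Fin n') := (univ : Finset (Fin 3)).image r with hUdef
  set τ : KCol k n' := fun v => if h : ∃ j, v = r j then t h.choose else σ v with hτ
  have hτr : ∀ j, τ (r j) = t j := by
    intro j
    have h : ∃ j', r j = r j' := ⟨j, rfl⟩
    rw [hτ]
    simp only [h, dif_pos]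
    rw [← hrinj _ _ h.choose_spec]
  have hτn : ∀ v, (∀ j, v ≠ r j) → τ v = σ v := by
    intro v hv
    have h : ¬ ∃ j, v = r j := by push Not; exact hv
    rw [hτ]
    simp only [h, dif_neg, not_false_eq_true]
  have hmix : ∀ j, ∀ z ∈ S, r j ∈ S → (∀ j', z ≠ r j') → s(r j, z) ∈ η → t j ≠ σ z := by
    intro j z hz hj hzr hm
    rcases hte j with h | h
    · rw [h]
      exact hσ _ hj _ hz (fun he => hzr j he.symm) hm
    · rw [h, hy']
      simp only [hj, if_true]
      exact (hY2 j z hz hzr hm).symm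
  have hτp : KProper η S τ := by
    intro a ha b hb hab hm
    by_cases haU : ∃ j, a = r j
    · obtain ⟨j, rfl⟩ := haU
      by_cases hbU : ∃ j', b = r j'
      · obtain ⟨j', rfl⟩ := hbU
        rw [hτr, hτr]
        exact htA j j' (fun h => hab (by rw [h])) ⟨ha, hb, hm⟩
      · push Not at hbU
        rw [hτr, hτn b hbU]
        exact hmix j b hb ha hbU hm
    · push Not at haU
      by_cases hbU : ∃ j', b = r j'
      · obtain ⟨j', rfl⟩ := hbU
        rw [hτr, hτn a haU]
        exact (hmix j' a ha hb haU (by rw [Sym2.eq_swap]; exact hm)).symm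
      · push Not at hbU
        rw [hτn a haU, hτn b hbU]
        exact hσ a ha b hb hab hm
  have hdiff : ∃ j, r j ∈ S ∧ τ (r j) ≠ σ (r j) := by
    have hstep : ∀ j, t j ≠ σ (r j) → ∃ j, r j ∈ S ∧ τ (r j) ≠ σ (r j) := by
      intro j hj
      refine ⟨j, ?_, by rw [hτr]; exact hj⟩
      by_contra hjS
      rcases hte j with h | h
      · exact hj h
      · rw [hy'] at h
        simp only [hjS, if_false] at h
        exact hj h
    rcases hne with h | h | h
    · exact hstep 0 h
    · exact hstep 1 h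
    · exact hstep 2 h
  obtain ⟨j1, hj1, hj1d⟩ := hdiff
  have hUmem : ∀ v, v ∉ U → ∀ j, v ≠ r j := by
    intro v hv j h
    exact hv (mem_image.2 ⟨j, mem_univ _, h.symm⟩)
  obtain ⟨a, b, hab, hmiss⟩ := F2 (U := U) hU hσ hτp
    (fun v _ hvU => hτn v (hUmem v hvU)) hj1 hj1d
  by_cases hSU : ∃ x ∈ S, x ∉ U
  · obtain ⟨x, hx, hxU⟩ := hSU
    have hm := hmiss x hx hxU
    obtain ⟨za, hza, hzam, hzac⟩ := F1 hU hσ hx hm.1
    obtain ⟨zb, hzb, hzbm, hzbc⟩ := F1 hU hσ hx hm.2
    have hzaU : za ∈ U := by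
      by_contra h
      exact (hmiss za hza h).1 hzac
    have hzbU : zb ∈ U := by
      by_contra h
      exact (hmiss zb hzb h).2 hzbc
    obtain ⟨ja, -, hja⟩ := mem_image.1 hzaU
    obtain ⟨jb, -, hjb⟩ := mem_image.1 hzbU
    subst hja
    subst hjb
    have hjne : ja ≠ jb := by
      rintro rfl
      exact hab (hzac.symm.trans hzbc)
    obtain ⟨i, hi⟩ := hnb ja x hx (hUmem x hxU) (by rw [Sym2.eq_swap]; exact hzam)
    obtain ⟨i', hi'⟩ := hnb jb x hx (hUmem x hxU) (by rw [Sym2.eq_swap]; exact hzbm)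
    have h1 := hinj (hsp.1 (hi.symm.trans hi'))
    simp only [Prod.mk.injEq, true_and] at h1
    exact hjne h1.1
  · push Not at hSU
    have h1 : S.card ≤ 3 := by
      calc S.card ≤ U.card := Finset.card_le_card hSU
        _ ≤ (univ : Finset (Fin 3)).card := Finset.card_image_le
        _ = 3 := by simp
    have h2 : k ≤ S.card := by
      have : (univ : Finset (Fin k)) ⊆ S.image σ := by
        intro s _
        obtain ⟨v, hv, hvs⟩ := hU.2.1 σ hσ s
        exact mem_image.2 ⟨v, hv, hvs⟩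
      have h3 := (Finset.card_le_card this).trans Finset.card_image_le
      simpa using h3
    omega

/-- pull back of a uniquely colourable graph along an injection -/
lemma UC_pull {m n : ℕ} {θ : Fin m → Fin n} (hθ : Function.Injective θ) {S : Finset (Fin n)}
    {η : Om n} (hU : UC k S η) (hS : ∀ v ∈ S, ∃ x, θ x = v) (η' : Om m)
    (hη' : ∀ a b, a ≠ b → (s(a, b) ∈ η' ↔ s(θ a, θ b) ∈ η)) :
    UC k ((univ : Finset (Fin m)).filter fun x => θ x ∈ S) η' := by
  have hpull : ∀ σ : KCol k n, KProper η S σ →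
      KProper η' ((univ : Finset (Fin m)).filter fun x => θ x ∈ S) (fun x => σ (θ x)) := by
    intro σ hσ a ha b hb hab hm
    simp only [mem_filter, mem_univ, true_and] at ha hb
    exact hσ _ ha _ hb (fun h => hab (hθ h)) ((hη' a b hab).1 hm)
  have hpush : ∀ σ' : KCol k m,
      KProper η' ((univ : Finset (Fin m)).filter fun x => θ x ∈ S) σ' →
      ∃ σ : KCol k n, KProper η S σ ∧ ∀ x, θ x ∈ S → σ (θ x) = σ' x := by
    intro σ' hσ'
    obtain ⟨σ₀, -⟩ := hU.1
    set σ : KCol k n := Function.extend θ σ' σ₀ with hσd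
    have hσx : ∀ x, σ (θ x) = σ' x := fun x => hθ.extend_apply _ _ x
    refine ⟨σ, ?_, fun x _ => hσx x⟩
    intro a ha b hb hab hm
    obtain ⟨x, rfl⟩ := hS a ha
    obtain ⟨y, rfl⟩ := hS b hb
    rw [hσx, hσx]
    have hxy : x ≠ y := fun h => hab (by rw [h])
    exact hσ' x (by simpa using ha) y (by simpa using hb) hxy ((hη' x y hxy).2 hm)
  refine ⟨?_, ?_, ?_⟩
  · obtain ⟨σ, hσ⟩ := hU.1
    exact ⟨_, hpull σ hσ⟩
  · intro σ' hσ' s
    obtain ⟨σ, hσ, hx⟩ := hpush σ' hσ'
    obtain ⟨v, hv, hvs⟩ := hU.2.1 σ hσ s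
    obtain ⟨x, rfl⟩ := hS v hv
    exact ⟨x, by simpa using hv, by rw [← hx x hv]; exact hvs⟩
  · intro σ' τ' hσ' hτ'
    obtain ⟨σ, hσ, hx⟩ := hpush σ' hσ'
    obtain ⟨τ, hτ, hx'⟩ := hpush τ' hτ'
    obtain ⟨π, hπ⟩ := hU.2.2 σ τ hσ hτ
    refine ⟨π, ?_⟩
    intro v hv
    simp only [mem_filter, mem_univ, true_and] at hv
    rw [← hx v hv, ← hx' v hv]
    exact hπ _ hv

end DT

open DT in
theorem DT_thm : T_det := by
  intro k m0 d m1 l c n n' ι ρ w y ω' hk hsp hpl hdat
  obtain ⟨hPV, -, hinj, hkill⟩ := hdat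
  constructor
  · rintro ⟨τ, hτ, -⟩
    have hσ : (fun x => τ (ι x)) ∈ KSol (Set.univ : Set (KCol k n)) Finset.univ (pull ι ω') := by
      refine ⟨?_, Set.mem_univ _⟩
      intro a _ b _ hab hm
      refine hτ _ (mem_univ _) _ (mem_univ _) (fun h => hab (hsp.1 h)) ?_
      simpa [pull] using hm
    obtain ⟨φ, g, hg, hgk⟩ := hkill _ hσ
    -- colours of the three triangle vertices
    set s : Fin 3 → Fin k := fun j => τ (ρ (some (φ, j))) with hs
    have hs1 : Function.Injective s := by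
      intro j j' h
      by_contra hne
      refine hτ (ρ (some (φ, j))) (mem_univ _) (ρ (some (φ, j'))) (mem_univ _) ?_ ?_ h
      · intro he
        have := hsp.2.1 he
        simp at this
        exact hne this
      · rw [hpl.2.2 _ _ (by simpa using hne)]
        exact ⟨φ, j, j', rfl, rfl⟩
    have hs2 : ∀ j i, s j ≠ g i := by
      intro j i
      rw [← hgk j i]
      refine hτ (ρ (some (φ, j))) (mem_univ _) (ι (y (φ, j, i))) (mem_univ _) ?_ ?_
      · exact fun h => hsp.2.2.1 _ _ h.symm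
      · exact (hpl.2.1 φ j _).2 ⟨i, rfl⟩
    have hcard : ((univ : Finset (Fin 3)).image s ∪ (univ : Finset (Fin (k - 2))).image g).card ≤
        k := by
      refine (Finset.card_le_univ _).trans ?_
      simp
    rw [Finset.card_union_of_disjoint, Finset.card_image_of_injective _ hs1,
      Finset.card_image_of_injective _ hg] at hcard
    · simp at hcard
      omega
    · rw [Finset.disjoint_left]
      intro c' h1 h2
      obtain ⟨j, -, hj⟩ := mem_image.1 h1
      obtain ⟨i, -, hi⟩ := mem_image.1 h2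
      exact hs2 j i (hj.trans hi.symm)
  · rintro ⟨S, η, hη, hU, hS3⟩
    have hno : ∀ φ j, ρ (some (φ, j)) ∉ S := by
      intro φ j h
      exact tri_free hk hsp hpl hinj hη hU hS3 φ j h
    apply hPV
    right
    left
    set θ : Fin (n + 1) → Fin n' := Fin.snoc ι (ρ none) with hθ
    have hθl : θ (Fin.last n) = ρ none := by rw [hθ]; exact Fin.snoc_last _ _
    have hθc : ∀ x : Fin n, θ x.castSucc = ι x := by
      intro x; rw [hθ]; exact Fin.snoc_castSucc _ _ _
    have hθinj : Function.Injective θ := by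
      intro a b h
      induction a using Fin.lastCases with
      | last =>
        induction b using Fin.lastCases with
        | last => rfl
        | cast b =>
          rw [hθl, hθc] at h
          exact absurd h.symm (hsp.2.2.1 _ _)
      | cast a =>
        induction b using Fin.lastCases with
        | last =>
          rw [hθl, hθc] at h
          exact absurd h (hsp.2.2.1 _ _)
        | cast b =>
          rw [hθc, hθc] at h
          rw [hsp.1 h]
    have hS : ∀ v ∈ S, ∃ x, θ x = v := by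
      intro v hv
      rcases hsp.2.2.2 v with ⟨x, rfl⟩ | ⟨q, rfl⟩
      · exact ⟨x.castSucc, hθc x⟩
      · rcases q with _ | ⟨φ, j⟩
        · exact ⟨Fin.last n, hθl⟩
        · exact absurd hv (hno φ j)
    set η' : Om (n + 1) := (univ : Finset (Sym2 (Fin (n + 1)))).filter
      (fun e => ¬ e.IsDiag ∧ e.map θ ∈ η) with hη'
    have hmem : ∀ a b, a ≠ b → (s(a, b) ∈ η' ↔ s(θ a, θ b) ∈ η) := by
      intro a b hab
      rw [hη', mem_filter]
      simp [hab]
    refine ⟨(univ : Finset (Fin (n + 1))).filter fun x => θ x ∈ S, η', ?_,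
      UC_pull hθinj hU hS η' hmem, ?_⟩
    · intro e he
      induction e using Sym2.ind with
      | _ a b =>
        have hab : a ≠ b := by
          intro h
          rw [hη', mem_filter] at he
          exact he.2.1 (by rw [h]; exact Sym2.mk_isDiag_iff.2 rfl)
        have hm := hη ((hmem a b hab).1 he)
        unfold ext
        rw [mem_union]
        induction a using Fin.lastCases with
        | last =>
          induction b using Fin.lastCases with
          | last => exact absurd rfl hab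
          | cast b =>
            right
            rw [hθl, hθc] at hm
            obtain ⟨i, hi⟩ := (hpl.1 b).1 hm
            exact mem_image.2 ⟨b, mem_image.2 ⟨i, mem_univ _, hi.symm⟩, rfl⟩
        | cast a =>
          induction b using Fin.lastCases with
          | last =>
            right
            rw [hθl, hθc, Sym2.eq_swap] at hm
            obtain ⟨i, hi⟩ := (hpl.1 a).1 hm
            exact mem_image.2 ⟨a, mem_image.2 ⟨i, mem_univ _, hi.symm⟩, Sym2.eq_swap⟩
          | cast b =>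
            left
            rw [hθc, hθc] at hm
            refine mem_image.2 ⟨s(a, b), ?_, rfl⟩
            rw [pull, mem_filter]
            exact ⟨mem_univ _, hm⟩
    · have hcard : ((univ : Finset (Fin (n + 1))).filter fun x => θ x ∈ S).card = S.card := by
        rw [← Finset.card_image_of_injective _ hθinj]
        congr 1
        ext v
        simp only [mem_image, mem_filter, mem_univ, true_and]
        constructor
        · rintro ⟨x, hx, rfl⟩
          exact hx
        · intro hv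
          obtain ⟨x, rfl⟩ := hS v hv
          exact ⟨x, hv, rfl⟩
      rw [hcard]
      exact hS3

end Pool.Agent.H624U
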