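import Pool.Agent.H624U.Basic
import Pool.Agent.H624U.Defs2
import Pool.Agent.H624C.CM

/-!
# DU: positive time implies positive visiting probability
-/

set_option autoImplicit false

namespace Pool.Agent.H624U

open Finset Pool.Agent.H624C
open scoped Classical

namespace DUx

theorem op_congr' {n M t : ℕ} {T T' : Lab n M}
    (h : ∀ e, T e = T' e ∨ (t ≤ (T e : ℕ) ∧ t ≤ (T' e : ℕ))) : op t T = op t T' := by
  ext e
  simp only [op, mem_filter, mem_univ, true_and]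
  rcases h e with h | ⟨h1, h2⟩
  · rw [h]
  · omega

/-- the set counted by `Zm` -/
noncomputable def ZS {k n : ℕ} (m : ℕ) (R : Set (KCol k n)) (ω : Om n) :
    Finset (Fin m → Fin n × Fin n) :=
  (Finset.univ : Finset (Fin m → Fin n × Fin n)).filter (fun e =>
    (∀ i, (e i).1 ≠ (e i).2) ∧ ∀ σ ∈ KSol R Finset.univ ω, ∃ i, σ (e i).1 = σ (e i).2)

theorem Zm_eq {k n : ℕ} (m : ℕ) (R : Set (KCol k n)) (ω : Om n) :
    Zm m R ω = (ZS m R ω).card := rfl

theorem KSol_anti {k n : ℕ} {R : Set (KCol k n)} {ω ω' : Om n} (h : ω ⊆ ω') :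
    KSol R Finset.univ ω' ⊆ KSol R Finset.univ ω :=
  fun _ hσ => ⟨fun a ha b hb hab hm => hσ.1 a ha b hb hab (h hm), hσ.2⟩

theorem Zm_mono {k n : ℕ} (m : ℕ) (R : Set (KCol k n)) {ω ω' : Om n} (h : ω ⊆ ω') :
    Zm m R ω ≤ Zm m R ω' := by
  rw [Zm_eq, Zm_eq]
  apply Finset.card_le_card
  intro e he
  unfold ZS at he ⊢
  rw [Finset.mem_filter] at he ⊢
  exact ⟨he.1, he.2.1, fun σ hσ => he.2.2 σ (KSol_anti h hσ)⟩

/-- the property: dead or many killing `m`-tuples -/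
def PM {k n : ℕ} (m : ℕ) (x : ℝ) (R : Set (KCol k n)) (ω : Om n) : Prop :=
  ¬ KAlive R Finset.univ ω ∨ x * (n : ℝ) ^ (2 * m) ≤ (Zm m R ω : ℝ)

theorem PM_mono {k n : ℕ} (m : ℕ) (x : ℝ) (R : Set (KCol k n)) : Mono (PM m x R) := by
  intro ω ω' h hP
  rcases hP with hP | hP
  · left
    intro ⟨σ, hσ⟩
    exact hP ⟨σ, KSol_anti h hσ⟩
  · right
    refine hP.trans ?_
    exact_mod_cast Zm_mono m R h

/-- completions of a pair -/
noncomputable def CS {k n : ℕ} (m : ℕ) (R : Set (KCol k n)) (ω : Om n) (q : Fin n × Fin n) :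
    Finset (Fin m → Fin n × Fin n) :=
  (Finset.univ : Finset (Fin m → Fin n × Fin n)).filter (fun e =>
    (Fin.cons q e : Fin (m + 1) → Fin n × Fin n) ∈ ZS (m + 1) R ω)

theorem card_ZS_succ {k n : ℕ} (m : ℕ) (R : Set (KCol k n)) (ω : Om n) :
    (ZS (m + 1) R ω).card = ∑ q : Fin n × Fin n, (CS m R ω q).card := by
  unfold CS
  rw [← Finset.card_sigma]
  refine Finset.card_bij' (fun e _ => (⟨e 0, Fin.tail e⟩ : Σ _ : Fin n × Fin n, (Fin m → Fin n × Fin n)))
    (fun s _ => (Fin.cons s.1 s.2 : Fin (m + 1) → Fin n × Fin n)) ?_ ?_ ?_ ?_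
  · intro e he
    rw [Finset.mem_sigma]
    refine ⟨mem_univ _, ?_⟩
    rw [Finset.mem_filter]
    refine ⟨mem_univ _, ?_⟩
    show Fin.cons (e 0) (Fin.tail e) ∈ ZS (m + 1) R ω
    rw [Fin.cons_self_tail]
    exact he
  · rintro ⟨q, e⟩ hs
    rw [Finset.mem_sigma, Finset.mem_filter] at hs
    exact hs.2.2
  · intro e _
    exact Fin.cons_self_tail e
  · rintro ⟨q, e⟩ _
    simp

theorem CS_sub {k n : ℕ} (m : ℕ) (R : Set (KCol k n)) (ω : Om n) (q : Fin n × Fin n) :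
    CS m R ω q ⊆ ZS m R (insert s(q.1, q.2) ω) := by
  intro e he
  unfold CS at he
  rw [Finset.mem_filter] at he
  have h := he.2
  unfold ZS at h ⊢
  rw [Finset.mem_filter] at h ⊢
  obtain ⟨_, h1, h2⟩ := h
  have hq : q.1 ≠ q.2 := by simpa using h1 0
  refine ⟨mem_univ _, fun i => by simpa using h1 i.succ, ?_⟩
  intro σ hσ
  obtain ⟨i, hi⟩ := h2 σ (KSol_anti (Finset.subset_insert _ _) hσ)
  rcases Fin.eq_zero_or_eq_succ i with rfl | ⟨j, rfl⟩
  · exfalso
    rw [Fin.cons_zero] at hi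
    exact hσ.1 q.1 (mem_univ _) q.2 (mem_univ _) hq (Finset.mem_insert_self _ _) hi
  · exact ⟨j, by simpa using hi⟩

theorem J_ge {k n : ℕ} (m : ℕ) (hn : 0 < n) {x : ℝ} (hx : 0 < x) (R : Set (KCol k n)) (ω : Om n)
    (h : x * (n : ℝ) ^ (2 * (m + 1)) ≤ (Zm (m + 1) R ω : ℝ)) :
    x / 4 * (n : ℝ) ^ 2 ≤ (J (PM m (x / 2) R) ω : ℝ) := by
  have hn' : (0:ℝ) < n := by exact_mod_cast hn
  set G : Finset (Fin n × Fin n) := Finset.univ.filter
    (fun q => x / 2 * (n : ℝ) ^ (2 * m) ≤ ((CS m R ω q).card : ℝ)) with hG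
  have hcs : ∀ q, ((CS m R ω q).card : ℝ) ≤ (n : ℝ) ^ (2 * m) := by
    intro q
    have h1 : (CS m R ω q).card ≤ Fintype.card (Fin m → Fin n × Fin n) := Finset.card_le_univ _
    have h2 : Fintype.card (Fin m → Fin n × Fin n) = n ^ (2 * m) := by
      rw [Fintype.card_fun, Fintype.card_prod, Fintype.card_fin, Fintype.card_fin, pow_mul]
      congr 1; ring
    rw [h2] at h1
    exact_mod_cast h1
  have hGc : x / 2 * (n : ℝ) ^ 2 ≤ (G.card : ℝ) := by
    have h1 : (Zm (m + 1) R ω : ℝ) = ∑ q : Fin n × Fin n, ((CS m R ω q).card : ℝ) := by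
      rw [Zm_eq, card_ZS_succ]; push_cast; rfl
    have h2 : ∑ q : Fin n × Fin n, ((CS m R ω q).card : ℝ) ≤
        ∑ q : Fin n × Fin n, (ind (q ∈ G) * (n : ℝ) ^ (2 * m) + x / 2 * (n : ℝ) ^ (2 * m)) := by
      apply Finset.sum_le_sum
      intro q _
      by_cases hq : q ∈ G
      · rw [ind_true hq]
        have := hcs q
        have h3 : 0 ≤ x / 2 * (n : ℝ) ^ (2 * m) := by positivity
        linarith
      · rw [ind_false hq]
        rw [hG, Finset.mem_filter] at hq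
        push Not at hq
        have := hq (mem_univ _)
        linarith
    have h3 : ∑ q : Fin n × Fin n, (ind (q ∈ G) * (n : ℝ) ^ (2 * m) + x / 2 * (n : ℝ) ^ (2 * m)) =
        (G.card : ℝ) * (n : ℝ) ^ (2 * m) + x / 2 * (n : ℝ) ^ (2 * m) * (n : ℝ) ^ 2 := by
      have hind : ∑ q : Fin n × Fin n, ind (q ∈ G) = (G.card : ℝ) := by
        have e1 := card_filter_eq_sum_ind (Finset.univ : Finset (Fin n × Fin n)) (fun q => q ∈ G)
        rw [← e1]
        congr 2
        ext q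
        simp
      rw [Finset.sum_add_distrib, ← Finset.sum_mul, hind, Finset.sum_const,
        Finset.card_univ, Fintype.card_prod, Fintype.card_fin, nsmul_eq_mul]
      push_cast
      ring
    have h4 : (n : ℝ) ^ (2 * (m + 1)) = (n : ℝ) ^ (2 * m) * (n : ℝ) ^ 2 := by
      rw [← pow_add]; congr 1
    rw [h1, h4] at h
    have h5 : x * ((n : ℝ) ^ (2 * m) * (n : ℝ) ^ 2) ≤
        (G.card : ℝ) * (n : ℝ) ^ (2 * m) + x / 2 * (n : ℝ) ^ (2 * m) * (n : ℝ) ^ 2 := by
      linarith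
    have hpos : 0 < (n : ℝ) ^ (2 * m) := by positivity
    have h6 : (x / 2 * (n : ℝ) ^ 2) * (n : ℝ) ^ (2 * m) ≤ (G.card : ℝ) * (n : ℝ) ^ (2 * m) := by
      nlinarith
    exact le_of_mul_le_mul_right h6 hpos
  -- unordered pairs
  have hsub : G.image (fun q => s(q.1, q.2)) ⊆
      ((Finset.univ : Finset (Sym2 (Fin n))).filter (fun e => PM m (x / 2) R (insert e ω))) := by
    intro e he
    rw [Finset.mem_image] at he
    obtain ⟨q, hq, rfl⟩ := he
    rw [Finset.mem_filter]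
    refine ⟨mem_univ _, Or.inr ?_⟩
    rw [hG, Finset.mem_filter] at hq
    refine hq.2.trans ?_
    rw [Zm_eq]
    exact_mod_cast Finset.card_le_card (CS_sub m R ω q)
  have himg : G.card ≤ 2 * (G.image (fun q => s(q.1, q.2))).card := by
    refine Finset.card_le_mul_card_image G 2 ?_
    intro e _
    induction e using Sym2.ind with
    | _ a b =>
      have : G.filter (fun q => s(q.1, q.2) = s(a, b)) ⊆ {(a, b), (b, a)} := by
        intro q hq
        rw [Finset.mem_filter, Sym2.eq_iff] at hq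
        rw [Finset.mem_insert, Finset.mem_singleton]
        rcases hq.2 with ⟨h1, h2⟩ | ⟨h1, h2⟩
        · exact Or.inl (Prod.ext h1 h2)
        · exact Or.inr (Prod.ext h1 h2)
      exact (Finset.card_le_card this).trans Finset.card_le_two
  have hJ : ((G.image (fun q => s(q.1, q.2))).card : ℝ) ≤ (J (PM m (x / 2) R) ω : ℝ) := by
    have : (G.image (fun q => s(q.1, q.2))).card ≤ J (PM m (x / 2) R) ω := by
      unfold J
      exact Finset.card_le_card hsub
    exact_mod_cast this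
  have himg' : (G.card : ℝ) ≤ 2 * ((G.image (fun q => s(q.1, q.2))).card : ℝ) := by
    exact_mod_cast himg
  linarith

/-- one application of the jump bound -/
theorem one_app (h1 : T_mpu) {k n M t0 t1 : ℕ} {R : Set (KCol k n)} {B : Om n → Prop}
    (hn : 0 < n) (hM : n ^ 5 ≤ M) (ht : 2 * t1 ≤ M) (m : ℕ) {x : ℝ} (hx : 0 < x)
    (Q : Om n → Prop) (hQB : ∀ ω, Q ω → B ω)
    (hQ : ∀ ω, Q ω → x * (n : ℝ) ^ (2 * (m + 1)) ≤ (Zm (m + 1) R ω : ℝ))
    (hQ2 : ∀ ω, Q ω → ¬ PM m (x / 2) R ω) :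
    x / 4 * (n : ℝ) ^ 2 * ∑ t ∈ Ico t0 t1, ∑ T : Lab n M, ind (Q (op t T)) ≤
      M * ((∑ T : Lab n M, ind (∃ t, t0 ≤ t ∧ t < t1 ∧ B (op t T))) + (M : ℝ) ^ nI n / n) := by
  have hH : Adapted (fun (t : ℕ) (T : Lab n M) => t0 ≤ t ∧ Q (op t T)) := by
    intro t T T' h
    have := op_congr' h
    rintro ⟨a, b⟩
    exact ⟨a, this ▸ b⟩
  have hmp := h1 n M t1 (PM m (x / 2) R) (fun t T => t0 ≤ t ∧ Q (op t T)) hn hM (by omega)
    (PM_mono _ _ _) hH (fun t T h => hQ2 _ h.2)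
  have hM0 : (0:ℝ) ≤ M := Nat.cast_nonneg _
  have hr : (M : ℝ) * ((∑ T : Lab n M, ind (∃ t, t < t1 ∧ (t0 ≤ t ∧ Q (op t T)) ∧
      PM m (x / 2) R (op (t + 1) T))) + (M : ℝ) ^ nI n / n) ≤
      M * ((∑ T : Lab n M, ind (∃ t, t0 ≤ t ∧ t < t1 ∧ B (op t T))) + (M : ℝ) ^ nI n / n) := by
    apply mul_le_mul_of_nonneg_left _ hM0
    apply add_le_add _ le_rfl
    apply Finset.sum_le_sum
    intro T _
    apply ind_mono
    rintro ⟨t, a, ⟨b, c⟩, _⟩
    exact ⟨t, b, a, hQB _ c⟩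
  refine le_trans ?_ (hmp.trans hr)
  have hl : ∑ t ∈ Ico t0 t1, ∑ T : Lab n M, x / 4 * (n : ℝ) ^ 2 * ind (Q (op t T)) ≤
      ∑ t ∈ range t1, ∑ T : Lab n M, ind (t0 ≤ t ∧ Q (op t T)) * (J (PM m (x / 2) R) (op t T) : ℝ) := by
    have hle : ∑ t ∈ Ico t0 t1, ∑ T : Lab n M, x / 4 * (n : ℝ) ^ 2 * ind (Q (op t T)) ≤
        ∑ t ∈ Ico t0 t1, ∑ T : Lab n M,
          ind (t0 ≤ t ∧ Q (op t T)) * (J (PM m (x / 2) R) (op t T) : ℝ) := by
      apply Finset.sum_le_sum
      intro t htm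
      apply Finset.sum_le_sum
      intro T _
      rw [Finset.mem_Ico] at htm
      by_cases hq : Q (op t T)
      · rw [ind_true hq, ind_true ⟨htm.1, hq⟩, mul_one, one_mul]
        exact J_ge m hn hx R _ (hQ _ hq)
      · rw [ind_false hq, mul_zero]
        exact mul_nonneg (ind_nonneg _) (Nat.cast_nonneg _)
    refine hle.trans ?_
    apply Finset.sum_le_sum_of_subset_of_nonneg
    · intro t htm
      rw [Finset.mem_Ico] at htm
      rw [Finset.mem_range]; exact htm.2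
    · intro t _ _
      exact Finset.sum_nonneg (fun T _ => mul_nonneg (ind_nonneg _) (Nat.cast_nonneg _))
  refine le_trans (le_of_eq ?_) hl
  simp only [← Finset.mul_sum]

end DUx

open DUx in
theorem DU_thm (h1 : T_mpu) : T_dur := by
  intro c hc
  refine ⟨48 / c, by positivity, ?_⟩
  intro k n M t0 t1 R B hn hM ht hB
  have hn' : (0:ℝ) < n := by exact_mod_cast hn
  have hMpos : 0 < M := lt_of_lt_of_le (pow_pos hn 5) hM
  have hM' : (0:ℝ) < M := by exact_mod_cast hMpos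
  set V : ℝ := ∑ T : Lab n M, ind (∃ t, t0 ≤ t ∧ t < t1 ∧ B (op t T)) with hV
  set Mn : ℝ := (M : ℝ) ^ nI n with hMn
  have hMn0 : 0 < Mn := by positivity
  have hV0 : 0 ≤ V := Finset.sum_nonneg (fun T _ => ind_nonneg _)
  -- the three pieces
  set Q2 : Om n → Prop := fun ω => B ω ∧ ¬ PM 2 (c / 2) R ω with hQ2
  set Q1 : Om n → Prop := fun ω => B ω ∧ PM 2 (c / 2) R ω ∧ ¬ PM 1 (c / 2 / 2) R ω with hQ1
  set Q0 : Om n → Prop := fun ω => B ω ∧ PM 1 (c / 2 / 2) R ω with hQ0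
  have a2 := one_app h1 (t0 := t0) (R := R) (B := B) hn hM ht 2 hc Q2 (fun ω h => h.1)
    (fun ω h => (hB ω h.1).2) (fun ω h => h.2)
  have a1 := one_app h1 (t0 := t0) (R := R) (B := B) hn hM ht 1 (half_pos hc) Q1 (fun ω h => h.1)
    (fun ω h => by
      rcases h.2.1 with h' | h'
      · exact absurd (hB ω h.1).1 h'
      · exact h')
    (fun ω h => h.2.2)
  have a0 := one_app h1 (t0 := t0) (R := R) (B := B) hn hM ht 0 (half_pos (half_pos hc)) Q0
    (fun ω h => h.1)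
    (fun ω h => by
      rcases h.2 with h' | h'
      · exact absurd (hB ω h.1).1 h'
      · exact h')
    (fun ω h => by
      intro h'
      rcases h' with h' | h'
      · exact h' (hB ω h.1).1
      · have hz : Zm 0 R ω = 0 := by
          rw [Zm_eq, Finset.card_eq_zero]
          unfold ZS
          rw [Finset.filter_eq_empty_iff]
          rintro e _ ⟨_, h2⟩
          obtain ⟨σ, hσ⟩ := (hB ω h.1).1
          obtain ⟨i, _⟩ := h2 σ hσ
          exact i.elim0
        rw [hz] at h'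
        simp at h'
        linarith)
  have hS : ∀ Q : Om n → Prop, 0 ≤ ∑ t ∈ Ico t0 t1, ∑ T : Lab n M, ind (Q (op t T)) := fun Q =>
    Finset.sum_nonneg (fun t _ => Finset.sum_nonneg (fun T _ => ind_nonneg _))
  have hsum : ∑ t ∈ Ico t0 t1, ∑ T : Lab n M, ind (B (op t T)) ≤
      ∑ t ∈ Ico t0 t1, ∑ T : Lab n M, ind (Q2 (op t T)) +
      ∑ t ∈ Ico t0 t1, ∑ T : Lab n M, ind (Q1 (op t T)) +
      ∑ t ∈ Ico t0 t1, ∑ T : Lab n M, ind (Q0 (op t T)) := by
    rw [← Finset.sum_add_distrib, ← Finset.sum_add_distrib]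
    apply Finset.sum_le_sum
    intro t _
    rw [← Finset.sum_add_distrib, ← Finset.sum_add_distrib]
    apply Finset.sum_le_sum
    intro T _
    by_cases hb : B (op t T)
    · by_cases p2 : PM 2 (c / 2) R (op t T)
      · by_cases p1 : PM 1 (c / 2 / 2) R (op t T)
        · have := ind_true (P := Q0 (op t T)) ⟨hb, p1⟩
          have g1 := ind_nonneg (Q2 (op t T))
          have g2 := ind_nonneg (Q1 (op t T))
          have g3 := ind_le_one (B (op t T))
          linarith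
        · have := ind_true (P := Q1 (op t T)) ⟨hb, p2, p1⟩
          have g1 := ind_nonneg (Q2 (op t T))
          have g2 := ind_nonneg (Q0 (op t T))
          have g3 := ind_le_one (B (op t T))
          linarith
      · have := ind_true (P := Q2 (op t T)) ⟨hb, p2⟩
        have g1 := ind_nonneg (Q1 (op t T))
        have g2 := ind_nonneg (Q0 (op t T))
        have g3 := ind_le_one (B (op t T))
        linarith
    · rw [ind_false hb]
      have g1 := ind_nonneg (Q1 (op t T))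
      have g2 := ind_nonneg (Q0 (op t T))
      have g3 := ind_nonneg (Q2 (op t T))
      linarith
  have hlab : ∀ t ∈ Ico t0 t1, ∑ T : Lab n M, ind (B (op t T)) =
      Mn * E ((t : ℝ) / M) (fun ω => ind (B ω)) := by
    intro t htm
    rw [Finset.mem_Ico] at htm
    exact CM_label n M t hMpos (by omega) (fun ω => ind (B ω))
  have hB2 : ∑ t ∈ Ico t0 t1, ∑ T : Lab n M, ind (B (op t T)) =
      Mn * ∑ t ∈ Ico t0 t1, E ((t : ℝ) / M) (fun ω => ind (B ω)) := by
    rw [Finset.mul_sum]; exact Finset.sum_congr rfl hlab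
  set S2 := ∑ t ∈ Ico t0 t1, ∑ T : Lab n M, ind (Q2 (op t T)) with hS2
  set S1 := ∑ t ∈ Ico t0 t1, ∑ T : Lab n M, ind (Q1 (op t T)) with hS1
  set S0 := ∑ t ∈ Ico t0 t1, ∑ T : Lab n M, ind (Q0 (op t T)) with hS0
  set SE := ∑ t ∈ Ico t0 t1, E ((t : ℝ) / M) (fun ω => ind (B ω)) with hSE
  have hS2' : 0 ≤ S2 := hS Q2
  have hS1' : 0 ≤ S1 := hS Q1
  have hS0' : 0 ≤ S0 := hS Q0
  rw [hB2] at hsum
  have hn2 : 0 < (n : ℝ) ^ 2 := by positivity
  have key : c / 16 * (n : ℝ) ^ 2 * (Mn * SE) ≤ 3 * (M * (V + Mn / n)) := by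
    have b2 : c / 16 * (n : ℝ) ^ 2 * S2 ≤ M * (V + Mn / n) := by
      refine le_trans ?_ a2
      apply mul_le_mul_of_nonneg_right _ hS2'
      apply mul_le_mul_of_nonneg_right _ hn2.le
      linarith
    have b1 : c / 16 * (n : ℝ) ^ 2 * S1 ≤ M * (V + Mn / n) := by
      refine le_trans ?_ a1
      apply mul_le_mul_of_nonneg_right _ hS1'
      apply mul_le_mul_of_nonneg_right _ hn2.le
      linarith
    have b0 : c / 16 * (n : ℝ) ^ 2 * S0 ≤ M * (V + Mn / n) := by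
      refine le_trans ?_ a0
      apply mul_le_mul_of_nonneg_right _ hS0'
      apply mul_le_mul_of_nonneg_right _ hn2.le
      linarith
    have b3 := mul_le_mul_of_nonneg_left hsum (show 0 ≤ c / 16 * (n : ℝ) ^ 2 by positivity)
    linarith
  have e1 : 48 / c * M * (V / Mn + 1 / n) = (3 * (M * (V + Mn / n))) * (16 / (c * Mn)) := by
    field_simp
    norm_num
  rw [e1]
  have e2 : (n : ℝ) ^ 2 * SE = (c / 16 * (n : ℝ) ^ 2 * (Mn * SE)) * (16 / (c * Mn)) := by
    field_simp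
  rw [e2]
  exact mul_le_mul_of_nonneg_right key (by positivity)

end Pool.Agent.H624U
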