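import Pool.Agent.H624U.Basic
import Pool.Agent.H624U.Defs2
import Pool.Agent.H624C.CM

/-!
# DX: exchangeability and difference
-/

set_option autoImplicit false

namespace Pool.Agent.H624U

open Finset Pool.Agent.H624C
open scoped Classical

noncomputable section

namespace DX

theorem mem_pull {m n : ℕ} {ι : Fin m → Fin n} {ω : Om n} {e : Sym2 (Fin m)} :
    e ∈ pull ι ω ↔ e.map ι ∈ ω := by
  unfold pull
  simp

theorem ext_insert {n : ℕ} (ω : Om n) (N : Finset (Fin n)) (z : Fin n) :
    insert s(Fin.last n, z.castSucc) (ext ω N) = ext ω (insert z N) := by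
  unfold ext
  rw [image_insert, union_insert]

theorem pull_ext {n : ℕ} (ω : Om n) (N : Finset (Fin n)) : pull Fin.castSucc (ext ω N) = ω := by
  have hcs : Function.Injective (Fin.castSucc : Fin n → Fin (n + 1)) := Fin.castSucc_injective n
  ext e
  rw [mem_pull]
  unfold ext
  rw [mem_union, mem_image, mem_image]
  constructor
  · rintro (⟨e', he', h⟩ | ⟨y, -, h⟩)
    · rw [← Sym2.map.injective hcs h]
      exact he'
    · exfalso
      induction e using Sym2.ind with
      | _ a b =>
        rw [Sym2.map_mk, Sym2.eq_iff] at h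
        rcases h with ⟨h, -⟩ | ⟨h, -⟩
        · exact (Fin.castSucc_lt_last a).ne h.symm
        · exact (Fin.castSucc_lt_last b).ne h.symm
  · exact fun h => Or.inl ⟨e, h, rfl⟩

/-- `P` is insensitive to diagonal pairs -/
theorem diag_iff {P : ∀ n : ℕ, Om n → Prop} (hP : Fam P) {n : ℕ} (ω : Om n) {e : Sym2 (Fin n)}
    (he : e.IsDiag) : P n (insert e ω) ↔ P n ω :=
  ⟨hP.diag n ω e he, hP.mono n _ _ (subset_insert _ _)⟩

/-- number of vertices `u` such that the edge `vu` produces `P` -/
def f {n : ℕ} (P : Om n → Prop) (v : Fin n) (ω : Om n) : ℝ :=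
  ∑ u : Fin n, ind (u ≠ v ∧ ¬ P ω ∧ P (insert s(v, u) ω))

theorem insert_swap {n : ℕ} (a b : Sym2 (Fin n)) (ω : Om n) :
    insert a (insert b ω) = insert b (insert a ω) := by
  ext e
  simp only [mem_insert]
  tauto

theorem last_diag (n : ℕ) : (s(Fin.last n, Fin.last n) : Sym2 (Fin (n + 1))).IsDiag := by
  rw [Sym2.mk_isDiag_iff]

theorem f_last_diag {P : ∀ n : ℕ, Om n → Prop} (hP : Fam P) {n : ℕ} (ω : Om (n + 1)) :
    f (P (n + 1)) (Fin.last n) (insert s(Fin.last n, Fin.last n) ω) =
      f (P (n + 1)) (Fin.last n) ω := by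
  unfold f
  refine Finset.sum_congr rfl (fun u _ => ind_congr ?_)
  rw [diag_iff hP ω (last_diag n), insert_swap, diag_iff hP _ (last_diag n)]

theorem f_last_ext {n : ℕ} (P : Om (n + 1) → Prop) (ω : Om n)
    (N : Finset (Fin n)) : f P (Fin.last n) (ext ω N) =
      ∑ z : Fin n, ind (¬ P (ext ω N) ∧ P (ext ω (insert z N))) := by
  unfold f
  rw [Fin.sum_univ_castSucc]
  have h0 : ind (Fin.last n ≠ Fin.last n ∧ ¬ P (ext ω N) ∧
      P (insert s(Fin.last n, Fin.last n) (ext ω N))) = 0 := ind_false (fun h => h.1 rfl)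
  rw [h0, add_zero]
  refine Finset.sum_congr rfl (fun z _ => ind_congr ?_)
  rw [ext_insert]
  constructor
  · exact fun h => h.2
  · exact fun h => ⟨(Fin.castSucc_lt_last z).ne, h⟩

theorem pull_pull {n : ℕ} (ι : Equiv.Perm (Fin n)) (hι : ∀ x, ι (ι x) = x) (ω : Om n) :
    pull ι (pull ι ω) = ω := by
  ext e
  rw [mem_pull, mem_pull, Sym2.map_map]
  have : (ι ∘ ι : Fin n → Fin n) = id := funext hι
  rw [this, Sym2.map_id]
  rfl

theorem P_pull {P : ∀ n : ℕ, Om n → Prop} (hP : Fam P) {n : ℕ} (ι : Equiv.Perm (Fin n))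
    (hι : ∀ x, ι (ι x) = x) (ω : Om n) : P n (pull ι ω) ↔ P n ω := by
  constructor
  · exact hP.inv n n ι ι.injective ω
  · intro h
    apply hP.inv n n ι ι.injective
    rw [pull_pull ι hι]
    exact h

theorem insert_pull {n : ℕ} (ι : Equiv.Perm (Fin n)) (e : Sym2 (Fin n)) (ω : Om n) :
    insert e (pull ι ω) = pull ι (insert (e.map ι) ω) := by
  ext e'
  rw [mem_insert, mem_pull, mem_pull, mem_insert, (Sym2.map.injective ι.injective).eq_iff]

theorem f_pull {P : ∀ n : ℕ, Om n → Prop} (hP : Fam P) {n : ℕ} (v w : Fin n) (ω : Om n) :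
    f (P n) w (pull (Equiv.swap v w) ω) = f (P n) v ω := by
  unfold f
  have hι : ∀ x, (Equiv.swap v w) ((Equiv.swap v w) x) = x := fun x => Equiv.swap_apply_self v w x
  rw [← Equiv.sum_comp (Equiv.swap v w) (fun u => ind (u ≠ v ∧ ¬ P n ω ∧ P n (insert s(v, u) ω)))]
  refine Finset.sum_congr rfl (fun u _ => ind_congr ?_)
  rw [P_pull hP _ hι, insert_pull, P_pull hP _ hι, Sym2.map_mk]
  have h1 : (Equiv.swap v w) w = v := Equiv.swap_apply_right v w
  rw [h1]
  have h2 : (Equiv.swap v w) u ≠ v ↔ u ≠ w := by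
    rw [not_iff_not]
    constructor
    · intro h
      have := congrArg (Equiv.swap v w) h
      rw [hι, Equiv.swap_apply_left] at this
      exact this
    · rintro rfl
      exact h1
  rw [h2]

theorem sum_f_le {n : ℕ} (P : Om n → Prop) (ω : Om n) :
    ∑ v : Fin n, f P v ω ≤ 2 * (ind (¬ P ω) * (J P ω : ℝ)) := by
  unfold f
  by_cases hP : P ω
  · have h0 : ∀ v : Fin n, ∑ u : Fin n, ind (u ≠ v ∧ ¬ P ω ∧ P (insert s(v, u) ω)) = 0 :=
      fun v => Finset.sum_eq_zero (fun u _ => ind_false (fun h => h.2.1 hP))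
    rw [Finset.sum_eq_zero (fun v _ => h0 v), ind_false (fun h => h hP)]
    simp
  · rw [ind_true hP, one_mul]
    rw [← Fintype.sum_prod_type' (f := fun v u => ind (u ≠ v ∧ ¬ P ω ∧ P (insert s(v, u) ω)))]
    rw [← card_filter_eq_sum_ind]
    have key : (univ.filter (fun x : Fin n × Fin n =>
        x.2 ≠ x.1 ∧ ¬ P ω ∧ P (insert s(x.1, x.2) ω))).card ≤ 2 * J P ω := by
      unfold J
      apply Finset.card_le_mul_card_image_of_maps_to (f := fun x : Fin n × Fin n => s(x.1, x.2))
      · intro x hx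
        exact mem_filter.2 ⟨mem_univ _, (mem_filter.1 hx).2.2.2⟩
      · intro e _
        induction e using Sym2.ind with
        | _ a b =>
          calc _ ≤ ({(a, b), (b, a)} : Finset (Fin n × Fin n)).card := by
                apply card_le_card
                intro x hx
                have h := (mem_filter.1 hx).2
                rw [Sym2.eq_iff] at h
                rw [mem_insert, mem_singleton]
                rcases h with h | h
                · exact Or.inl (Prod.ext h.1 h.2)
                · exact Or.inr (Prod.ext h.1 h.2)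
            _ ≤ 2 := card_le_two
    exact_mod_cast key

theorem weights {n : ℕ} (p : ℝ) :
    ∑ N : Finset (Fin n), p ^ N.card * (1 - p) ^ (n - N.card) = 1 := by
  have h := Finset.sum_pow_mul_eq_add_pow p (1 - p) (Finset.univ : Finset (Fin n))
  simp only [Finset.powerset_univ, Finset.card_univ, Fintype.card_fin] at h
  rw [h]
  simp

end DX

open DX in
theorem DX_thm (h1 : T_ext) : T_deg ∧ T_diff := by
  constructor
  · intro P hP n p hp0 hp1
    have e1 : E p (fun ω : Om n => ∑ N : Finset (Fin n),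
        p ^ N.card * (1 - p) ^ (n - N.card) *
          ∑ z : Fin n, ind (¬ P (n + 1) (ext ω N) ∧ P (n + 1) (ext ω (insert z N)))) =
        E p (f (P (n + 1)) (Fin.last n)) := by
      rw [h1 n p (f (P (n + 1)) (Fin.last n)) hp0 hp1 (fun ω => f_last_diag hP ω)]
      apply E_congr
      intro ω
      refine Finset.sum_congr rfl (fun N _ => ?_)
      rw [f_last_ext]
    have e2 : ∀ v : Fin (n + 1), E p (f (P (n + 1)) v) = E p (f (P (n + 1)) (Fin.last n)) := by
      intro v
      rw [← CM_comap (n + 1) (n + 1) p (Equiv.swap v (Fin.last n)) (Equiv.injective _)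
        (f (P (n + 1)) (Fin.last n))]
      apply E_congr
      intro ω
      rw [f_pull hP]
    have e3 : ((n : ℝ) + 1) * E p (f (P (n + 1)) (Fin.last n)) =
        E p (fun ω => ∑ v : Fin (n + 1), f (P (n + 1)) v ω) := by
      rw [E_sum]
      have : ∀ v : Fin (n + 1), E p (fun ω => f (P (n + 1)) v ω) =
          E p (f (P (n + 1)) (Fin.last n)) := fun v => e2 v
      rw [Finset.sum_congr rfl (fun v _ => this v), Finset.sum_const, card_univ, Fintype.card_fin,
        nsmul_eq_mul]
      push_cast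
      rfl
    rw [e1, e3, ← E_mul_left]
    exact E_mono hp0 hp1 (fun ω => sum_f_le _ ω)
  · intro P hP n p hp0 hp1
    have e1 := h1 n p (fun ω => ind (¬ P (n + 1) ω)) hp0 hp1 (fun ω => by
      rw [diag_iff hP ω (last_diag n)])
    rw [e1]
    have e2 : E p (fun ω : Om n => ind (¬ P n ω)) = E p (fun ω : Om n => ∑ N : Finset (Fin n),
        p ^ N.card * (1 - p) ^ (n - N.card) * ind (¬ P n ω)) := by
      apply E_congr
      intro ω
      rw [← Finset.sum_mul, weights, one_mul]
    rw [e2, ← E_sub]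
    apply E_congr
    intro ω
    rw [← Finset.sum_sub_distrib]
    refine Finset.sum_congr rfl (fun N _ => ?_)
    rw [← mul_sub]
    congr 1
    have hmono : P n ω → P (n + 1) (ext ω N) := fun h =>
      hP.inv n (n + 1) Fin.castSucc (Fin.castSucc_injective n) _ (by rw [pull_ext]; exact h)
    by_cases ha : P n ω
    · rw [ind_false (P := ¬ P n ω) (fun h => h ha), ind_false (P := ¬ P (n + 1) (ext ω N))
        (fun h => h (hmono ha)), ind_false (fun h => h.1 ha), sub_zero]
    · by_cases hb : P (n + 1) (ext ω N)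
      · rw [ind_true ha, ind_false (P := ¬ P (n + 1) (ext ω N)) (fun h => h hb),
          ind_true ⟨ha, hb⟩, sub_zero]
      · rw [ind_true ha, ind_true hb, ind_false (fun h => hb h.2), sub_self]

end

end Pool.Agent.H624U
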