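import Pool.Agent.H624C.Basic

/-!
# Uniquely k-colourable subgraphs at the chromatic number jump: definitions and statements

Second project of helper624 (problem MP_73831e): for every k at least 3, with probability bounded
away from 0 for infinitely many n, the first non-k-colourable graph of the random graph process
contains no uniquely k-colourable subgraph other than a triangle.

`Om n`, `E`, `ind`, `pull`, `Lab`, `op`, `Stage` are those of `Pool.Agent.H624C`.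
All colour-dependent definitions have the prefix `K` (number of colours `k` arbitrary).
All statements of tasks are `Prop`s named `T_...`.
-/

set_option autoImplicit false

namespace Pool.Agent.H624U

open Finset Pool.Agent.H624C
open scoped Classical

noncomputable section

/-! ### colourings with `k` colours -/

abbrev KCol (k n : ℕ) := Fin n → Fin k

/-- `σ` is proper on the subgraph of `ω` induced by `S` -/
def KProper {k n : ℕ} (ω : Om n) (S : Finset (Fin n)) (σ : KCol k n) : Prop :=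
  ∀ a ∈ S, ∀ b ∈ S, a ≠ b → s(a, b) ∈ ω → σ a ≠ σ b

def KSol {k n : ℕ} (R : Set (KCol k n)) (S : Finset (Fin n)) (ω : Om n) : Set (KCol k n) :=
  {σ | KProper ω S σ ∧ σ ∈ R}

def KAlive {k n : ℕ} (R : Set (KCol k n)) (S : Finset (Fin n)) (ω : Om n) : Prop :=
  (KSol R S ω).Nonempty

/-- the graph `ω` is `k`-colourable -/
abbrev KAliveU (k : ℕ) {n : ℕ} (ω : Om n) : Prop :=
  KAlive (Set.univ : Set (KCol k n)) Finset.univ ω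

def KSame {k n : ℕ} (R : Set (KCol k n)) (S : Finset (Fin n)) (ω : Om n) (a b : Fin n) : Prop :=
  ∀ σ ∈ KSol R S ω, σ a = σ b

def KX {k n : ℕ} (R : Set (KCol k n)) (S : Finset (Fin n)) (ω : Om n) : ℕ :=
  ((S ×ˢ S).filter (fun q => q.1 ≠ q.2 ∧ KSame R S ω q.1 q.2)).card

def KdegX {k n : ℕ} (R : Set (KCol k n)) (S : Finset (Fin n)) (ω : Om n) (v : Fin n) : ℕ :=
  (S.filter (fun z => z ≠ v ∧ KSame R S ω v z)).card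

/-- every solution uses all `k` colours on `Y` -/
def KCov {k n : ℕ} (R : Set (KCol k n)) (S : Finset (Fin n)) (ω : Om n) (Y : Finset (Fin n)) :
    Prop := ∀ σ ∈ KSol R S ω, ∀ s : Fin k, ∃ y ∈ Y, σ y = s

def Kcs {k n : ℕ} (R : Set (KCol k n)) (S : Finset (Fin n)) (ω : Om n) (Y : Finset (Fin n)) : ℕ :=
  (S.filter (fun z => KCov R S ω (insert z Y))).card

/-- background `R` and `Y` misses a colour -/
def KRY {k n : ℕ} (R : Set (KCol k n)) (Y : Finset (Fin n)) : Set (KCol k n) :=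
  {σ | σ ∈ R ∧ ∃ s : Fin k, ∀ y ∈ Y, σ y ≠ s}

def KNC {k n : ℕ} (R : Set (KCol k n)) (S : Finset (Fin n)) (ω : Om n) (W : Finset (Fin n)) :
    Prop := ∀ σ ∈ KSol R S ω, ¬ ∃ s : Fin k, ∀ w ∈ W, σ w = s

def KDep {k n : ℕ} (K : Finset (Fin n)) (R : Set (KCol k n)) : Prop :=
  ∀ σ τ : KCol k n, (∀ v ∈ K, σ v = τ v) → (σ ∈ R ↔ τ ∈ R)

def KG {k n : ℕ} (p : ℝ) (R : Set (KCol k n)) (S Y : Finset (Fin n)) : ℝ :=
  E p (fun ω => ind (KAlive (KRY R Y) S ω) * (Kcs R S ω Y : ℝ))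

/-! ### M: monotone properties in the label process -/

def Mono {n : ℕ} (P : Om n → Prop) : Prop := ∀ ω ω', ω ⊆ ω' → P ω → P ω'

/-- number of pairs whose addition produces `P` -/
def J {n : ℕ} (P : Om n → Prop) (ω : Om n) : ℕ :=
  ((Finset.univ : Finset (Sym2 (Fin n))).filter (fun e => P (insert e ω))).card

/-- `H t` depends only on the labels `< t` -/
def Adapted {n M : ℕ} (H : ℕ → Lab n M → Prop) : Prop :=
  ∀ (t : ℕ) (T T' : Lab n M),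
    (∀ e, T e = T' e ∨ (t ≤ (T e : ℕ) ∧ t ≤ (T' e : ℕ))) → H t T → H t T'

/-- number of labels -/
abbrev nI (n : ℕ) : ℕ := Fintype.card (Sym2 (Fin n))

/-- MU: upper bound for jump sums -/
def T_mpu : Prop := ∀ (n M t1 : ℕ) (P : Om n → Prop) (H : ℕ → Lab n M → Prop),
  0 < n → n ^ 5 ≤ M → t1 ≤ M → Mono P → Adapted H → (∀ t T, H t T → ¬ P (op t T)) →
  ∑ t ∈ range t1, ∑ T : Lab n M, ind (H t T) * (J P (op t T) : ℝ) ≤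
    M * ((∑ T : Lab n M, ind (∃ t, t < t1 ∧ H t T ∧ P (op (t + 1) T))) + (M : ℝ) ^ nI n / n)

/-- corollary of MU at fixed times -/
def T_mpu1 : Prop := ∀ (n M t1 : ℕ) (P : Om n → Prop), 0 < n → n ^ 5 ≤ M → t1 ≤ M → Mono P →
  ∑ t ∈ range t1, E ((t : ℝ) / M) (fun ω => ind (¬ P ω) * (J P ω : ℝ)) ≤
    M * (E ((t1 : ℝ) / M) (fun ω => ind (P ω)) + 1 / n)

/-- the kill sum is bounded (`k` colours) -/
def KKS (k n M t1 : ℕ) : Prop := ∀ (R : Set (KCol k n)) (S : Finset (Fin n)),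
  ∑ t ∈ range t1, E ((t : ℝ) / M) (fun ω => ind (KAlive R S ω) * (KX R S ω : ℝ)) ≤ 4 * M

/-- KS -/
def T_ks : Prop := ∀ k n M t1 : ℕ, 0 < n → n ^ 5 ≤ M → t1 ≤ M → KKS k n M t1

/-! ### A: the main estimate for `k` colours (port of H624C) -/

def T_E1 : Prop := ∀ (k n : ℕ) (p : ℝ), 3 ≤ k → 0 ≤ p → p ≤ 1 →
  ∀ (S K W : Finset (Fin n)) (R : Set (KCol k n)), K ⊆ S → W ⊆ S → Disjoint W K → KDep K R →
  E p (fun ω => ind (KAlive R S ω ∧ KNC R S ω W)) ≤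
    (W.card : ℝ) ^ 2 * p +
      ∑ Y ∈ (S \ W).powerset, ((W.card : ℝ) * p) ^ (Y.card + 1) * KG p R (S \ W) Y

def T_step : Prop := ∀ (k n : ℕ) (p : ℝ), 3 ≤ k → 0 ≤ p → p ≤ 1 →
  ∀ (S K : Finset (Fin n)) (R : Set (KCol k n)), K ⊆ S → KDep K R →
  E p (fun ω => ind (KAlive R S ω) * √(KX R S ω : ℝ)) ≤
    (K.card : ℝ) + ∑ v ∈ S \ K, ((K.card : ℝ) * p +
      ∑ W ∈ ((S \ K).erase v).powerset, p ^ W.card * ((W.card : ℝ) ^ 2 * p +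
        ∑ Y ∈ ((S.erase v) \ W).powerset,
          ((W.card : ℝ) * p) ^ (Y.card + 1) * KG p R ((S.erase v) \ W) Y))

def T_small : Prop := ∀ (k n : ℕ) (p : ℝ) (S K : Finset (Fin n)) (v : Fin n)
  (R : Set (KCol k n)), v ∉ S → K ⊆ S → KDep K R →
  ∑ Y ∈ S.powerset, p ^ Y.card * (1 - p) ^ (S.card - Y.card) * KG p R S Y =
    E p (fun ω => ind (KAlive R (insert v S) ω) * (KdegX R (insert v S) ω v : ℝ))

def T_large : Prop := ∀ (k n : ℕ) (S Y : Finset (Fin n)) (R : Set (KCol k n)) (ω : Om n),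
  KAlive (KRY R Y) S ω → (Kcs R S ω Y : ℝ) ≤ √(KX (KRY R Y) S ω : ℝ) + 1

/-- the standard hypotheses on `n, M, t1` -/
def Std (Λ : ℝ) (k n M t1 : ℕ) : Prop :=
  0 < n ∧ 2 * Λ ≤ n ∧ 0 < M ∧ (t1 : ℝ) * n ≤ Λ * M ∧ KKS k n M t1

def T_A : Prop := ∀ (k : ℕ) (Λ : ℝ), 3 ≤ k → 0 < Λ → ∃ a b : ℝ, 0 ≤ a ∧ 0 ≤ b ∧
  ∀ (n M t1 : ℕ), Std Λ k n M t1 →
  ∀ (S K : Finset (Fin n)) (R : Set (KCol k n)), K ⊆ S → KDep K R →
    (n : ℝ) / M * ∑ t ∈ range t1, E ((t : ℝ) / M)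
      (fun ω => ind (KAlive R S ω) * √(KX R S ω : ℝ)) ≤ a + b * K.card

/-! ### B: covering tuples and merging -/

/-- number of covering `l`-tuples of `S` -/
def Kcovn {k n : ℕ} (l : ℕ) (R : Set (KCol k n)) (S : Finset (Fin n)) (ω : Om n) : ℕ :=
  ((Finset.univ : Finset (Fin l → Fin n)).filter
    (fun w => (∀ i, w i ∈ S) ∧ KCov R S ω (univ.image w))).card

/-- B1 -/
def T_covb : Prop := ∀ (k l : ℕ) (Λ : ℝ), 3 ≤ k → 0 < Λ → ∃ C : ℝ, 0 ≤ C ∧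
  ∀ (n M t1 : ℕ), Std Λ k n M t1 →
  ∀ (S K : Finset (Fin n)) (R : Set (KCol k n)), K ⊆ S → KDep K R →
    (n : ℝ) ^ 2 / M * ∑ t ∈ range t1, E ((t : ℝ) / M)
      (fun ω => ind (KAlive R S ω) * (Kcovn l R S ω : ℝ)) ≤ C * (1 + K.card) * (n : ℝ) ^ l

/-- number of `w ∈ S^l` which are covered by all solutions that are constant on `W` -/
def Kmrg {k n : ℕ} (l : ℕ) (R : Set (KCol k n)) (S W : Finset (Fin n)) (ω : Om n) : ℕ :=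
  ((Finset.univ : Finset (Fin l → Fin n)).filter
    (fun w => (∀ i, w i ∈ S) ∧ ∀ σ ∈ KSol R S ω, (∃ s, ∀ x ∈ W, σ x = s) →
      ∀ s, ∃ i, σ (w i) = s)).card

/-- B2: bounded merging sum with a second star -/
def T_mrg : Prop := ∀ (k l r : ℕ) (Λ : ℝ), 3 ≤ k → 0 < Λ → ∃ C : ℝ, 0 ≤ C ∧
  ∀ (n M t1 : ℕ), Std Λ k n M t1 → ∀ W : Finset (Fin n), W.card ≤ r →
    (n : ℝ) ^ 2 / M * ∑ t ∈ range t1, E ((t : ℝ) / M)
      (fun ω => ind (KAliveU k ω) *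
        (Kmrg l (Set.univ : Set (KCol k n)) Finset.univ W ω : ℝ)) ≤ C * (n : ℝ) ^ l

/-! ### C: uniquely colourable subgraphs -/

/-- the graph with vertex set `S` and edge set `η` (pairs inside `S`) is uniquely `k`-colourable -/
def UC {n : ℕ} (k : ℕ) (S : Finset (Fin n)) (η : Om n) : Prop :=
  (∃ σ : KCol k n, KProper η S σ) ∧
  (∀ σ : KCol k n, KProper η S σ → ∀ s, ∃ v ∈ S, σ v = s) ∧
  (∀ σ τ : KCol k n, KProper η S σ → KProper η S τ →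
    ∃ π : Equiv.Perm (Fin k), ∀ v ∈ S, τ v = π (σ v))

/-- `ω` contains a uniquely `k`-colourable subgraph that is not a triangle -/
def HasU (k : ℕ) {n : ℕ} (ω : Om n) : Prop :=
  ∃ (S : Finset (Fin n)) (η : Om n), η ⊆ ω ∧ UC k S η ∧ S.card ≠ 3

/-- number of edges inside `S` -/
def ecount {n : ℕ} (S : Finset (Fin n)) (ω : Om n) : ℕ :=
  (ω.filter (fun e => ¬ e.IsDiag ∧ ∀ v ∈ e, v ∈ S)).card

/-- number of edges meeting `S` -/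
def einc {n : ℕ} (S : Finset (Fin n)) (ω : Om n) : ℕ :=
  (ω.filter (fun e => ¬ e.IsDiag ∧ ∃ v ∈ e, v ∈ S)).card

/-- a small dense subgraph -/
def SD (m0 : ℕ) {n : ℕ} (ω : Om n) : Prop :=
  ∃ S : Finset (Fin n), 4 ≤ S.card ∧ S.card ≤ m0 ∧ 5 * S.card ≤ 4 * ecount S ω

/-- a small set with a large degree sum -/
def LD (d m1 : ℕ) {n : ℕ} (ω : Om n) : Prop :=
  ∃ S : Finset (Fin n), S.card ≤ d ∧ m1 ≤ einc S ω

def SL (m0 d m1 : ℕ) (n : ℕ) (ω : Om n) : Prop := SD m0 ω ∨ LD d m1 ω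

def PV (k m0 d m1 : ℕ) (n : ℕ) (ω : Om n) : Prop :=
  ¬ KAliveU k ω ∨ HasU k ω ∨ SL m0 d m1 n ω

/-- relations between the thresholds -/
def Thr (k m0 d m1 : ℕ) : Prop := k * m1 ≤ m0 ∧ d ≤ m1 ∧ 1 ≤ d

/-- C1 -/
def T_uce : Prop := ∀ (k n : ℕ) (S : Finset (Fin n)) (η : Om n), 3 ≤ k → UC k S η →
  S.card ≠ 3 → 4 ≤ S.card ∧ 5 * S.card ≤ 4 * ecount S η

/-- C2: frozen classes -/
def T_ucc : Prop := ∀ (k m0 d m1 n : ℕ) (ω : Om n), 3 ≤ k → Thr k m0 d m1 →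
  KAliveU k ω → HasU k ω → ¬ SL m0 d m1 n ω →
  ∃ V : Fin k → Finset (Fin n), (∀ i, d < (V i).card) ∧
    (∀ i j, i ≠ j → Disjoint (V i) (V j)) ∧
    ∀ σ ∈ KSol (Set.univ : Set (KCol k n)) Finset.univ ω,
      ∃ π : Equiv.Perm (Fin k), ∀ i, ∀ v ∈ V i, σ v = π i

/-- C3 -/
def T_SD : Prop := ∀ Λ : ℝ, 0 < Λ → ∃ ε0 : ℝ, 0 < ε0 ∧ ∀ γ : ℝ, 0 < γ → ∃ n0 : ℕ, ∀ n ≥ n0,
  ∀ p : ℝ, 0 ≤ p → p ≤ 1 → p * n ≤ Λ → ∀ m0 : ℕ, (m0 : ℝ) ≤ ε0 * n →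
    E p (fun ω : Om n => ind (SD m0 ω)) ≤ γ

/-- C4 -/
def T_LD : Prop := ∀ Λ ε1 : ℝ, 0 < Λ → 0 < ε1 → ∃ δ : ℝ, 0 < δ ∧ ∀ γ : ℝ, 0 < γ →
  ∃ n0 : ℕ, ∀ n ≥ n0, ∀ p : ℝ, 0 ≤ p → p ≤ 1 → p * n ≤ Λ →
    ∀ d m1 : ℕ, (d : ℝ) ≤ δ * n → ε1 * n ≤ (m1 : ℝ) →
      E p (fun ω : Om n => ind (LD d m1 ω)) ≤ γ

/-- C5: sparse graphs -/
def T_early : Prop := ∃ ε' : ℝ, 0 < ε' ∧ ∀ (k n m0 : ℕ), 3 ≤ k → 0 < n → ∀ p : ℝ, 0 ≤ p →
  p * n ≤ ε' →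
    E p (fun ω : Om n => ind (¬ KAliveU k ω ∨ HasU k ω ∨ SD m0 ω)) ≤ 1 / 8

/-- C6: dense graphs -/
def T_late : Prop := ∀ k : ℕ, 3 ≤ k → ∃ Λ' : ℝ, 0 < Λ' ∧ ∀ γ : ℝ, 0 < γ → ∃ n0 : ℕ, ∀ n ≥ n0,
  ∀ p : ℝ, Λ' ≤ p * n → p ≤ 1 → E p (fun ω : Om n => ind (KAliveU k ω)) ≤ γ

/-! ### V: adding a vertex -/

/-- `ω` on the first `n` vertices plus a last vertex with neighbourhood `Y` -/
def ext {n : ℕ} (ω : Om n) (Y : Finset (Fin n)) : Om (n + 1) :=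
  ω.image (Sym2.map Fin.castSucc) ∪ Y.image (fun y => s(Fin.last n, y.castSucc))

/-- families of graph properties: monotone in edges and vertices, invariant under relabelling,
insensitive to isolated vertices and to diagonal pairs -/
structure Fam (P : ∀ n : ℕ, Om n → Prop) : Prop where
  mono : ∀ n, Mono (P n)
  inv : ∀ (m n : ℕ) (ι : Fin m → Fin n), Function.Injective ι → ∀ ω : Om n,
    P m (pull ι ω) → P n ω
  iso : ∀ (n : ℕ) (ω : Om n), P (n + 1) (ext ω ∅) → P n ω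
  diag : ∀ (n : ℕ) (ω : Om n) (e : Sym2 (Fin n)), e.IsDiag → P n (insert e ω) → P n ω

/-- V1 -/
def T_fam : Prop := ∀ k m0 d m1 : ℕ, 3 ≤ k → 1 ≤ m1 →
  Fam (PV k m0 d m1) ∧ Fam (SL m0 d m1)

/-- pairs `(w, b)` such that a new vertex with neighbourhood `w` does not produce `P`, but with
neighbourhood `w ∪ {b}` does -/
def DJ (P : ∀ n : ℕ, Om n → Prop) (l : ℕ) {n : ℕ} (ω : Om n) : ℕ :=
  ((Finset.univ : Finset ((Fin l → Fin n) × Fin n)).filter (fun q =>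
    ¬ P (n + 1) (ext ω (univ.image q.1)) ∧
      P (n + 1) (ext ω (insert q.2 (univ.image q.1))))).card

/-- V2: the hybrid inequality -/
def T_hyb : Prop := ∀ (n : ℕ) (p : ℝ) (F : Finset (Fin n) → Prop), 0 ≤ p → p < 1 → ¬ F ∅ →
  ∑ N : Finset (Fin n), p ^ N.card * (1 - p) ^ (n - N.card) * ind (F N) ≤
    p * ((1 - p) ^ n)⁻¹ * ∑ N : Finset (Fin n), p ^ N.card * (1 - p) ^ (n - N.card) *
      ∑ z : Fin n, ind (¬ F N ∧ F (insert z N))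

/-- V3: existence of `n` with a positive star-jump mass -/
def T_VJ : Prop := ∀ ε' Λ' : ℝ, 0 < ε' → 0 < Λ' →
  ∃ (R : ℕ) (Λ ε c γ : ℝ) (D n0 : ℕ), 0 < R ∧ 0 < ε ∧ ε < Λ ∧ 0 < c ∧ 0 < γ ∧
  ∀ P : (∀ n : ℕ, Om n → Prop), Fam P → ∀ N ≥ n0, ∀ M ≥ (R * N) ^ 5,
  ∀ t0 t1 : ℕ, t0 = ⌈ε * M / N⌉₊ → t1 = ⌊Λ * M / N⌋₊ →
  (∀ t : ℕ, (t : ℝ) * N ≤ ε' * M → t ≤ M →
    3 / 4 ≤ E ((t : ℝ) / M) (fun ω : Om N => ind (¬ P N ω))) →
  (∀ t : ℕ, Λ' * M ≤ (t : ℝ) * (R * N : ℕ) → t ≤ M →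
    E ((t : ℝ) / M) (fun ω : Om (R * N) => ind (¬ P (R * N) ω)) ≤ γ) →
  ∃ n, N ≤ n ∧ n < R * N ∧ ∃ l ≤ D,
    c * M ≤ (n : ℝ) ^ 2 * ∑ t ∈ Ico t0 t1, E ((t : ℝ) / M)
      (fun ω : Om n => (DJ P l ω : ℝ) / (n : ℝ) ^ (l + 1))

/-- V4: upper bound for the star-jump mass -/
def T_VU : Prop := ∀ (ε Λ : ℝ) (R l : ℕ), 0 < ε → 0 < Λ → 0 < R → ∃ (C : ℝ) (n0 : ℕ), 0 ≤ C ∧
  ∀ Q : (∀ n : ℕ, Om n → Prop), Fam Q → ∀ N ≥ n0, ∀ M ≥ (R * N) ^ 5,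
  ∀ t0 t1 : ℕ, t0 = ⌈ε * M / N⌉₊ → t1 = ⌊Λ * M / N⌋₊ →
  ∀ n, N ≤ n → n < R * N →
    (n : ℝ) ^ 2 * ∑ t ∈ Ico t0 t1, E ((t : ℝ) / M)
      (fun ω : Om n => (DJ Q l ω : ℝ) / (n : ℝ) ^ (l + 1)) ≤
    C * M * (E ((t1 : ℝ) / M) (fun ω : Om (n + 1) => ind (Q (n + 1) ω)) + 1 / N)

/-! ### G: good times -/

/-- pairs `(w,b)`: adding `b` to the star `w` jumps into `PV` although no `SL` appears -/
def gpair (k m0 d m1 l : ℕ) {n : ℕ} (ω : Om n) (q : (Fin l → Fin n) × Fin n) : Prop :=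
  ¬ PV k m0 d m1 (n + 1) (ext ω (univ.image q.1)) ∧
    PV k m0 d m1 (n + 1) (ext ω (insert q.2 (univ.image q.1))) ∧
    ¬ SL m0 d m1 (n + 1) (ext ω (insert q.2 (univ.image q.1)))

def DG (k m0 d m1 l : ℕ) {n : ℕ} (ω : Om n) : ℕ :=
  ((Finset.univ : Finset ((Fin l → Fin n) × Fin n)).filter (gpair k m0 d m1 l ω)).card

/-- number of `k`-tuples `w'` such that every colouring of `ω` covers `Y` or `w'` -/
def g2 (k : ℕ) {n : ℕ} (ω : Om n) (Y : Finset (Fin n)) : ℕ :=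
  ((Finset.univ : Finset (Fin k → Fin n)).filter (fun w =>
    ∀ σ ∈ KSol (Set.univ : Set (KCol k n)) Finset.univ ω,
      (∀ s, ∃ y ∈ Y, σ y = s) ∨ ∀ s, ∃ i, σ (w i) = s)).card

/-- G1 -/
def T_jump : Prop := ∀ (k m0 d m1 n : ℕ) (ω : Om n) (Y : Finset (Fin n)), 3 ≤ k →
  Thr k m0 d m1 → d ≤ n → PV k m0 d m1 (n + 1) (ext ω Y) → ¬ SL m0 d m1 (n + 1) (ext ω Y) →
  d ^ k ≤ g2 k ω Y ∧
    d * (d - 1) ≤ KX (KRY (Set.univ : Set (KCol k n)) Y) Finset.univ ω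

/-- G2 -/
def T_good : Prop := ∀ k : ℕ, 3 ≤ k →
  ∃ (R : ℕ) (Λ ε c c' δ : ℝ) (D n0 : ℕ), 0 < R ∧ 0 < ε ∧ ε < Λ ∧ 0 < c ∧ 0 < c' ∧ 0 < δ ∧
  ∀ N ≥ n0, ∀ M ≥ (R * N) ^ 5, ∀ t0 t1 : ℕ, t0 = ⌈ε * M / N⌉₊ → t1 = ⌊Λ * M / N⌋₊ →
  ∃ n, N ≤ n ∧ n < R * N ∧ ∃ m0 d m1 l : ℕ, Thr k m0 d m1 ∧ d ≤ n ∧ δ * n ≤ d ∧
    1 ≤ l ∧ l ≤ D ∧
    c' * M ≤ (n : ℝ) ^ 2 * ∑ t ∈ Ico t0 t1, E ((t : ℝ) / M)
      (fun ω : Om n => ind (c * (n : ℝ) ^ (l + 1) ≤ (DG k m0 d m1 l ω : ℝ)))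

/-! ### W: gadgets -/

/-- gadgets are indexed by functions `Fin (k-2) → Fin (l+1+k)` (rows) -/
abbrev Gad (k l : ℕ) := Fin (k - 2) → Fin (l + 1 + k)

/-- slots: gadget, vertex of its triangle, attachment -/
abbrev Slt (k l : ℕ) := Gad k l × Fin 3 × Fin (k - 2)

/-- `σ` is killed by some gadget: the attachments of its three vertices show the same `k-2`
different colours -/
def Kld {k l n : ℕ} (σ : KCol k n) (y : Slt k l → Fin n) : Prop :=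
  ∃ (φ : Gad k l) (g : Fin (k - 2) → Fin k), Function.Injective g ∧
    ∀ (j : Fin 3) (i : Fin (k - 2)), σ (y (φ, j, i)) = g i

/-- good data -/
def Dat (k m0 d m1 l : ℕ) (c : ℝ) {n : ℕ} (ω : Om n) (w : Fin l → Fin n)
    (y : Slt k l → Fin n) : Prop :=
  ¬ PV k m0 d m1 (n + 1) (ext ω (univ.image w)) ∧
  c / 2 * (n : ℝ) ≤ (((Finset.univ : Finset (Fin n)).filter
    (fun b => gpair k m0 d m1 l ω (w, b))).card : ℝ) ∧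
  Function.Injective y ∧
  ∀ σ ∈ KSol (Set.univ : Set (KCol k n)) Finset.univ ω, Kld σ y

/-- W1 -/
def T_cnt : Prop := ∀ (k l : ℕ) (c δ : ℝ), 3 ≤ k → 0 < c → 0 < δ →
  ∃ (c3 : ℝ) (n0 : ℕ), 0 < c3 ∧ ∀ n ≥ n0, ∀ (m0 d m1 : ℕ) (ω : Om n), Thr k m0 d m1 →
    d ≤ n → δ * n ≤ d → c * (n : ℝ) ^ (l + 1) ≤ (DG k m0 d m1 l ω : ℝ) →
    c3 * (n : ℝ) ^ (l + Fintype.card (Slt k l)) ≤
      (((Finset.univ : Finset ((Fin l → Fin n) × (Slt k l → Fin n))).filter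
        (fun q => Dat k m0 d m1 l c ω q.1 q.2)).card : ℝ)

/-- number of `m`-tuples of pairs such that every solution is violated by one of the pairs -/
def Zm {k n : ℕ} (m : ℕ) (R : Set (KCol k n)) (ω : Om n) : ℕ :=
  ((Finset.univ : Finset (Fin m → Fin n × Fin n)).filter (fun e =>
    (∀ i, (e i).1 ≠ (e i).2) ∧ ∀ σ ∈ KSol R Finset.univ ω, ∃ i, σ (e i).1 = σ (e i).2)).card

/-- W2 -/
def T_Z3 : Prop := ∀ (k l : ℕ) (c δ : ℝ), 3 ≤ k → 0 < c → 0 < δ →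
  ∃ (c4 : ℝ) (n0 : ℕ), 0 < c4 ∧ ∀ n ≥ n0, ∀ (m0 d m1 : ℕ) (ω : Om n) (w : Fin l → Fin n)
    (y : Slt k l → Fin n), Thr k m0 d m1 → d ≤ n → δ * n ≤ d → Dat k m0 d m1 l c ω w y →
    KAlive (KRY (Set.univ : Set (KCol k n)) (univ.image w)) Finset.univ ω ∧
    c4 * (n : ℝ) ^ 6 ≤ (Zm 3 (KRY (Set.univ : Set (KCol k n)) (univ.image w)) ω : ℝ)

/-- W3: duration -/
def T_dur : Prop := ∀ c : ℝ, 0 < c → ∃ C : ℝ, 0 < C ∧
  ∀ (k n M t0 t1 : ℕ) (R : Set (KCol k n)) (B : Om n → Prop), 0 < n → n ^ 5 ≤ M →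
    2 * t1 ≤ M → (∀ ω, B ω → KAlive R Finset.univ ω ∧ c * (n : ℝ) ^ 6 ≤ (Zm 3 R ω : ℝ)) →
    (n : ℝ) ^ 2 * ∑ t ∈ Ico t0 t1, E ((t : ℝ) / M) (fun ω => ind (B ω)) ≤
      C * M * ((∑ T : Lab n M, ind (∃ t, t0 ≤ t ∧ t < t1 ∧ B (op t T))) / (M : ℝ) ^ nI n
        + 1 / n)

/-- fresh vertices: `none` is the star vertex, `some (φ, j)` the vertices of the triangles -/
abbrev Rts (k l : ℕ) := Option (Gad k l × Fin 3)

/-- the planted configuration -/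
def Planted {k l n n' : ℕ} (ι : Fin n → Fin n') (ρ : Rts k l → Fin n') (w : Fin l → Fin n)
    (y : Slt k l → Fin n) (ω' : Om n') : Prop :=
  (∀ x, s(ρ none, ι x) ∈ ω' ↔ ∃ i, x = w i) ∧
  (∀ φ j x, s(ρ (some (φ, j)), ι x) ∈ ω' ↔ ∃ i, x = y (φ, j, i)) ∧
  (∀ r r', r ≠ r' → (s(ρ r, ρ r') ∈ ω' ↔ ∃ φ j j', r = some (φ, j) ∧ r' = some (φ, j')))

/-- `ι` and `ρ` split the vertex set -/
def Split {k l n n' : ℕ} (ι : Fin n → Fin n') (ρ : Rts k l → Fin n') : Prop :=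
  Function.Injective ι ∧ Function.Injective ρ ∧ (∀ x r, ι x ≠ ρ r) ∧
    ∀ z, (∃ x, z = ι x) ∨ ∃ r, z = ρ r

/-- W4: the soft gadget lemma -/
def T_det : Prop := ∀ (k m0 d m1 l : ℕ) (c : ℝ) (n n' : ℕ) (ι : Fin n → Fin n')
  (ρ : Rts k l → Fin n') (w : Fin l → Fin n) (y : Slt k l → Fin n) (ω' : Om n'), 3 ≤ k →
  Split ι ρ → Planted ι ρ w y ω' → Dat k m0 d m1 l c (pull ι ω') w y →
  ¬ KAliveU k ω' ∧ ¬ HasU k ω'

/-- W5: probability of a planting at a fixed place -/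
def T_prb : Prop := ∀ (k l : ℕ) (ε Λ c7 : ℝ), 3 ≤ k → 0 < ε → 0 < Λ → 0 < c7 →
  ∃ (c8 : ℝ) (n0 : ℕ), 0 < c8 ∧ ∀ n ≥ n0, ∀ n' : ℕ, n' = n + Fintype.card (Rts k l) →
  ∀ M t0 t1 : ℕ, 0 < M → t0 ≤ t1 → ε * M ≤ (t0 : ℝ) * n → (t1 : ℝ) * n ≤ Λ * M →
  ∀ DD : (Fin l → Fin n) → (Slt k l → Fin n) → Lab n M → Prop,
  c7 * (n : ℝ) ^ (l + Fintype.card (Slt k l)) * (M : ℝ) ^ nI n ≤
    ∑ w : Fin l → Fin n, ∑ y : Slt k l → Fin n, ∑ T : Lab n M, ind (DD w y T) →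
  ∀ (ι : Fin n → Fin n') (ρ : Rts k l → Fin n'), Split ι ρ →
    c8 * (M : ℝ) ^ nI n' ≤ (n' : ℝ) ^ (3 * Fintype.card (Gad k l)) *
      ∑ T : Lab n' M, ind (∃ w y, DD w y (fun e => T (e.map ι)) ∧
        ∀ t, t0 ≤ t → t < t1 → Planted ι ρ w y (op t T))

/-- ordered triangles -/
def tri {n : ℕ} (ω : Om n) : ℕ :=
  ((Finset.univ : Finset (Fin n × Fin n × Fin n)).filter (fun q =>
    q.1 ≠ q.2.1 ∧ q.2.1 ≠ q.2.2 ∧ q.1 ≠ q.2.2 ∧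
    s(q.1, q.2.1) ∈ ω ∧ s(q.2.1, q.2.2) ∈ ω ∧ s(q.1, q.2.2) ∈ ω)).card

/-- W6: moments of the number of triangles -/
def T_tri : Prop := ∀ (Λ : ℝ) (m : ℕ), 0 < Λ → ∃ C : ℝ, 0 < C ∧ ∀ (n : ℕ) (p : ℝ), 0 ≤ p →
  p ≤ 1 → p * n ≤ Λ → E p (fun ω : Om n => (tri ω : ℝ) ^ m) ≤ C

/-- W7: the label process visits a non-`k`-colourable graph without uniquely colourable
subgraph -/
def T_fin : Prop := ∀ k : ℕ, 3 ≤ k → ∃ γ : ℝ, 0 < γ ∧ ∀ N0 : ℕ, ∃ n ≥ N0, ∃ M : ℕ, 0 < M ∧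
  γ ≤ (∑ T : Lab n M, ind (∃ t : ℕ, ¬ KAliveU k (op t T) ∧ ¬ HasU k (op t T))) /
    (M : ℝ) ^ nI n

/-! ### F: graph formulation -/

/-- uniquely `k`-colourable graphs: chromatic number `k` and any two proper `k`-colourings differ
by a permutation of the colours -/
def UniqCol (k : ℕ) {W : Type} (H : SimpleGraph W) : Prop :=
  H.chromaticNumber = k ∧
    ∀ c c' : H.Coloring (Fin k), ∃ π : Equiv.Perm (Fin k), ∀ v, c' v = π (c v)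

/-- `Γ` contains a uniquely `k`-colourable subgraph which is not a triangle -/
def HasUG (k : ℕ) {W : Type} (Γ : SimpleGraph W) : Prop :=
  ∃ H : Γ.Subgraph, UniqCol k H.coe ∧ ¬ Nonempty (H.coe ≃g (⊤ : SimpleGraph (Fin 3)))

/-- F1 -/
def T_conv : Prop := ∀ (k n : ℕ) (ω : Om n), 3 ≤ k →
  ((SimpleGraph.fromEdgeSet (ω : Set (Sym2 (Fin n)))).Colorable k → KAliveU k ω) ∧
  (HasUG k (SimpleGraph.fromEdgeSet (ω : Set (Sym2 (Fin n)))) → HasU k ω)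

end

end Pool.Agent.H624U
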