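import Pool.Agent.H624U.Basic
import Pool.Agent.H624C.CO

/-!
# E1: the merging inequality (helper89)
-/

set_option autoImplicit false

namespace Pool.Agent.H624U

open Finset Pool.Agent.H624C
open scoped Classical

section

variable {k n : ℕ}

/-- removing one pair -/
private theorem incl_one (h : S_incl) (p : ℝ) (e : Sym2 (Fin n)) (f : Om n → ℝ)
    (hf : ∀ ω, f ω = f (ω \ {e})) :
    E p (fun ω => ind (e ∈ ω) * f ω) = p * E p f := by
  have h1 := h n p {e} f hf
  rw [Finset.card_singleton, pow_one] at h1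
  rw [← h1]
  refine E_congr fun ω => ?_
  rw [ind_congr (Finset.singleton_subset_iff (s := ω) (a := e))]

private theorem cover_prob (h : S_incl) {p : ℝ} (h0 : 0 ≤ p) (h1 : p ≤ 1)
    (W : Finset (Fin n)) (f : Om n → ℝ) (hf0 : ∀ ω, 0 ≤ f ω) (Y : Finset (Fin n)) :
    Disjoint W Y → (∀ w ∈ W, ∀ y ∈ Y, ∀ ω, f ω = f (ω \ {s(w, y)})) →
    E p (fun ω => ind (∀ y ∈ Y, ∃ w ∈ W, s(w, y) ∈ ω) * f ω) ≤
      ((W.card : ℝ) * p) ^ Y.card * E p f := by
  induction Y using Finset.induction_on with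
  | empty =>
    intro _ _
    rw [Finset.card_empty, pow_zero, one_mul]
    refine E_mono h0 h1 fun ω => ?_
    have := ind_le_one (∀ y ∈ (∅ : Finset (Fin n)), ∃ w ∈ W, s(w, y) ∈ ω)
    nlinarith [hf0 ω]
  | insert y Y hy ih =>
    intro hdis hloc
    have hdis' : Disjoint W Y := Finset.disjoint_of_subset_right (Finset.subset_insert y Y) hdis
    have ih' := ih hdis' (fun w hw y' hy' ω => hloc w hw y' (Finset.mem_insert_of_mem hy') ω)
    have hyW : y ∉ W := fun hh =>
      (Finset.disjoint_left.1 hdis hh) (Finset.mem_insert_self y Y)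
    set g : Om n → ℝ := fun ω => ind (∀ y ∈ Y, ∃ w ∈ W, s(w, y) ∈ ω) * f ω with hg
    have hgloc : ∀ w ∈ W, ∀ ω, g ω = g (ω \ {s(w, y)}) := by
      intro w hw ω
      simp only [hg]
      rw [← hloc w hw y (Finset.mem_insert_self y Y) ω]
      congr 1
      refine ind_congr ?_
      have key : ∀ y' ∈ Y, ∀ w' ∈ W, (s(w', y') ∈ ω \ {s(w, y)} ↔ s(w', y') ∈ ω) := by
        intro y' hy' w' hw'
        rw [Finset.mem_sdiff, Finset.mem_singleton]
        constructor
        · exact fun hh => hh.1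
        · intro hh
          refine ⟨hh, fun he => ?_⟩
          rw [Sym2.eq_iff] at he
          rcases he with ⟨_, he⟩ | ⟨he, _⟩
          · exact hy (he ▸ hy')
          · exact hyW (he ▸ hw')
      constructor
      · intro hh y' hy'
        obtain ⟨w', hw', hm⟩ := hh y' hy'
        exact ⟨w', hw', (key y' hy' w' hw').2 hm⟩
      · intro hh y' hy'
        obtain ⟨w', hw', hm⟩ := hh y' hy'
        exact ⟨w', hw', (key y' hy' w' hw').1 hm⟩
    have hg0 : ∀ ω, 0 ≤ g ω := fun ω => mul_nonneg (ind_nonneg _) (hf0 ω)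
    have hstep : E p (fun ω => ind (∀ y' ∈ insert y Y, ∃ w ∈ W, s(w, y') ∈ ω) * f ω) ≤
        E p (fun ω => ∑ w ∈ W, ind (s(w, y) ∈ ω) * g ω) := by
      refine E_mono h0 h1 fun ω => ?_
      rw [← Finset.sum_mul]
      have h2 : ind (∀ y' ∈ insert y Y, ∃ w ∈ W, s(w, y') ∈ ω) ≤
          (∑ w ∈ W, ind (s(w, y) ∈ ω)) * ind (∀ y ∈ Y, ∃ w ∈ W, s(w, y) ∈ ω) := by
        have h3 : ind (∀ y' ∈ insert y Y, ∃ w ∈ W, s(w, y') ∈ ω) =
            ind (∃ w ∈ W, s(w, y) ∈ ω) * ind (∀ y ∈ Y, ∃ w ∈ W, s(w, y) ∈ ω) := by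
          rw [← ind_and]
          refine ind_congr ?_
          rw [Finset.forall_mem_insert]
        rw [h3]
        exact mul_le_mul_of_nonneg_right (ind_exists_le W (fun w => s(w, y) ∈ ω)) (ind_nonneg _)
      calc ind (∀ y' ∈ insert y Y, ∃ w ∈ W, s(w, y') ∈ ω) * f ω
          ≤ ((∑ w ∈ W, ind (s(w, y) ∈ ω)) * ind (∀ y ∈ Y, ∃ w ∈ W, s(w, y) ∈ ω)) * f ω :=
            mul_le_mul_of_nonneg_right h2 (hf0 ω)
        _ = (∑ w ∈ W, ind (s(w, y) ∈ ω)) * g ω := by simp only [hg]; ring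
    refine hstep.trans ?_
    rw [E_sum]
    have h4 : ∀ w ∈ W, E p (fun ω => ind (s(w, y) ∈ ω) * g ω) = p * E p g :=
      fun w hw => incl_one h p _ g (hgloc w hw)
    rw [Finset.sum_congr rfl h4, Finset.sum_const, nsmul_eq_mul, Finset.card_insert_of_notMem hy,
      pow_succ]
    have h5 : 0 ≤ (W.card : ℝ) * p := mul_nonneg (Nat.cast_nonneg _) h0
    calc (W.card : ℝ) * (p * E p g) = ((W.card : ℝ) * p) * E p g := by ring
      _ ≤ ((W.card : ℝ) * p) * (((W.card : ℝ) * p) ^ Y.card * E p f) :=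
          mul_le_mul_of_nonneg_left ih' h5
      _ = ((W.card : ℝ) * p) ^ Y.card * ((W.card : ℝ) * p) * E p f := by ring

private theorem exists_step {α : Type} [DecidableEq α] (P : Finset α → Prop) (Z : Finset α) :
    ¬ P ∅ → P Z → ∃ Y, Y ⊆ Z ∧ ∃ z ∈ Z, z ∉ Y ∧ ¬ P Y ∧ P (insert z Y) := by
  induction Z using Finset.induction_on with
  | empty => intro h1 h2; exact absurd h2 h1
  | insert a Z ha ih =>
    intro h1 h2
    by_cases h3 : P Z
    · obtain ⟨Y, hY, z, hz, h4⟩ := ih h1 h3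
      exact ⟨Y, hY.trans (Finset.subset_insert a Z), z, Finset.mem_insert_of_mem hz, h4⟩
    · exact ⟨Z, Finset.subset_insert a Z, a, Finset.mem_insert_self a Z, ha, h3, h2⟩

private theorem cov_Z {S K W : Finset (Fin n)} {R : Set (KCol k n)} {ω : Om n}
    (hWK : Disjoint W K) (hR : KDep K R) (hNC : KNC R S ω W)
    (hW : ∀ a ∈ W, ∀ b ∈ W, a ≠ b → s(a, b) ∉ ω) :
    KCov R (S \ W) ω ((S \ W).filter (fun z => ∃ w ∈ W, s(w, z) ∈ ω)) := by
  intro σ hσ s
  by_contra hcon
  push Not at hcon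
  refine hNC (fun v => if v ∈ W then s else σ v) ⟨?_, ?_⟩ ⟨s, fun w hw => if_pos hw⟩
  · intro a ha b hb hab hm
    by_cases haW : a ∈ W
    · by_cases hbW : b ∈ W
      · exact absurd hm (hW a haW b hbW hab)
      · simp only [haW, hbW, if_true, if_false]
        have hbZ : b ∈ (S \ W).filter (fun z => ∃ w ∈ W, s(w, z) ∈ ω) := by
          rw [Finset.mem_filter, Finset.mem_sdiff]
          exact ⟨⟨hb, hbW⟩, a, haW, hm⟩
        exact fun hh => hcon b hbZ hh.symm
    · by_cases hbW : b ∈ W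
      · simp only [haW, hbW, if_true, if_false]
        have haZ : a ∈ (S \ W).filter (fun z => ∃ w ∈ W, s(w, z) ∈ ω) := by
          rw [Finset.mem_filter, Finset.mem_sdiff]
          exact ⟨⟨ha, haW⟩, b, hbW, by rw [Sym2.eq_swap]; exact hm⟩
        exact fun hh => hcon a haZ hh
      · simp only [haW, hbW, if_false]
        exact hσ.1 a (Finset.mem_sdiff.2 ⟨ha, haW⟩) b (Finset.mem_sdiff.2 ⟨hb, hbW⟩) hab hm
  · refine (hR _ σ fun v hv => ?_).2 hσ.2
    have : v ∉ W := fun hh => Finset.disjoint_left.1 hWK hh hv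
    simp only [this, if_false]

end

theorem E1_thm : T_E1 := by
  intro k n p hk3 h0 h1 S K W R hKS hWS hWK hR
  have h : S_incl := S_incl_thm
  set S2 := S \ W with hS2
  have hS2W : Disjoint W S2 := Finset.disjoint_sdiff
  -- pointwise bound
  have hpt : ∀ ω : Om n, ind (KAlive R S ω ∧ KNC R S ω W) ≤
      (∑ a ∈ W, ∑ b ∈ W.erase a, ind (s(a, b) ∈ ω)) +
      ∑ Y ∈ S2.powerset, ∑ z ∈ S2 \ Y,
        ind (∀ y ∈ insert z Y, ∃ w ∈ W, s(w, y) ∈ ω) *
          (ind (KAlive (KRY R Y) S2 ω) * ind (KCov R S2 ω (insert z Y))) := by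
    intro ω
    have hA0 : 0 ≤ ∑ a ∈ W, ∑ b ∈ W.erase a, ind (s(a, b) ∈ ω) :=
      Finset.sum_nonneg fun a _ => Finset.sum_nonneg fun b _ => ind_nonneg _
    have hB0 : ∀ Y ∈ S2.powerset, 0 ≤ ∑ z ∈ S2 \ Y,
        ind (∀ y ∈ insert z Y, ∃ w ∈ W, s(w, y) ∈ ω) *
          (ind (KAlive (KRY R Y) S2 ω) * ind (KCov R S2 ω (insert z Y))) :=
      fun Y _ => Finset.sum_nonneg fun z _ =>
        mul_nonneg (ind_nonneg _) (mul_nonneg (ind_nonneg _) (ind_nonneg _))
    by_cases hev : KAlive R S ω ∧ KNC R S ω W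
    · rw [ind_true hev]
      by_cases hW : ∀ a ∈ W, ∀ b ∈ W, a ≠ b → s(a, b) ∉ ω
      · have hcov := cov_Z (S := S) (K := K) hWK hR hev.2 hW
        rw [← hS2] at hcov
        have hne : ¬ KCov R S2 ω ∅ := by
          intro hc
          obtain ⟨σ, hσ⟩ := hev.1.mono (Finset.sdiff_subset : S \ W ⊆ S)
          obtain ⟨y, hy, -⟩ := hc σ hσ ⟨0, by omega⟩
          exact absurd hy (Finset.notMem_empty y)
        obtain ⟨Y, hYZ, z, hz, hzY, hnY, hcY⟩ :=
          exists_step (fun Y => KCov R S2 ω Y) _ hne hcov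
        have hYS : Y ∈ S2.powerset := by
          rw [Finset.mem_powerset]
          exact hYZ.trans (Finset.filter_subset _ _)
        have hzS : z ∈ S2 \ Y := by
          rw [Finset.mem_sdiff]
          exact ⟨(Finset.mem_filter.1 hz).1, hzY⟩
        have hall : ∀ y ∈ insert z Y, ∃ w ∈ W, s(w, y) ∈ ω := by
          intro y hy
          rcases Finset.mem_insert.1 hy with rfl | hy
          · exact (Finset.mem_filter.1 hz).2
          · exact (Finset.mem_filter.1 (hYZ hy)).2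
        have h1' : (1 : ℝ) = ind (∀ y ∈ insert z Y, ∃ w ∈ W, s(w, y) ∈ ω) *
          (ind (KAlive (KRY R Y) S2 ω) * ind (KCov R S2 ω (insert z Y))) := by
          rw [ind_true hall, ind_true (not_KCov_iff.1 hnY), ind_true hcY]; norm_num
        have h2' : (1 : ℝ) ≤ ∑ z ∈ S2 \ Y,
            ind (∀ y ∈ insert z Y, ∃ w ∈ W, s(w, y) ∈ ω) *
              (ind (KAlive (KRY R Y) S2 ω) * ind (KCov R S2 ω (insert z Y))) := by
          conv_lhs => rw [h1']
          exact Finset.single_le_sum (f := fun z =>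
            ind (∀ y ∈ insert z Y, ∃ w ∈ W, s(w, y) ∈ ω) *
              (ind (KAlive (KRY R Y) S2 ω) * ind (KCov R S2 ω (insert z Y))))
            (fun z' _ => mul_nonneg (ind_nonneg _) (mul_nonneg (ind_nonneg _) (ind_nonneg _))) hzS
        have h3' := Finset.single_le_sum (f := fun Y => ∑ z ∈ S2 \ Y,
            ind (∀ y ∈ insert z Y, ∃ w ∈ W, s(w, y) ∈ ω) *
              (ind (KAlive (KRY R Y) S2 ω) * ind (KCov R S2 ω (insert z Y)))) hB0 hYS
        have h4' := h2'.trans h3'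
        linarith
      · push Not at hW
        obtain ⟨a, ha, b, hb, hab, hm⟩ := hW
        have h2' : (1 : ℝ) ≤ ∑ b ∈ W.erase a, ind (s(a, b) ∈ ω) := by
          rw [← ind_true hm]
          exact Finset.single_le_sum (f := fun b => ind (s(a, b) ∈ ω)) (fun b _ => ind_nonneg _)
            (Finset.mem_erase.2 ⟨hab.symm, hb⟩)
        have h3' := Finset.single_le_sum (f := fun a => ∑ b ∈ W.erase a, ind (s(a, b) ∈ ω))
          (fun a _ => Finset.sum_nonneg fun b _ => ind_nonneg _) ha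
        have h4' := h2'.trans h3'
        have h5' := Finset.sum_nonneg hB0
        linarith
    · rw [ind_false hev]
      exact add_nonneg hA0 (Finset.sum_nonneg hB0)
  refine (E_mono h0 h1 hpt).trans ?_
  rw [E_add]
  refine add_le_add ?_ ?_
  · rw [E_sum]
    have hE : ∀ a ∈ W, E p (fun ω : Om n => ∑ b ∈ W.erase a, ind (s(a, b) ∈ ω)) ≤
        (W.card : ℝ) * p := by
      intro a _
      rw [E_sum]
      have : ∀ b ∈ W.erase a, E p (fun ω : Om n => ind (s(a, b) ∈ ω)) = p := by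
        intro b _
        have h9 := incl_one h p s(a, b) (fun _ => 1) (fun _ => rfl)
        rw [E_one, mul_one] at h9
        calc E p (fun ω : Om n => ind (s(a, b) ∈ ω))
            = E p (fun ω : Om n => ind (s(a, b) ∈ ω) * 1) := E_congr fun ω => (mul_one _).symm
          _ = p := h9
      rw [Finset.sum_congr rfl this, Finset.sum_const, nsmul_eq_mul]
      exact mul_le_mul_of_nonneg_right (by exact_mod_cast Finset.card_erase_le) h0
    refine (Finset.sum_le_sum hE).trans ?_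
    rw [Finset.sum_const, nsmul_eq_mul]
    exact le_of_eq (by ring)
  · rw [E_sum]
    refine Finset.sum_le_sum fun Y hY => ?_
    rw [Finset.mem_powerset] at hY
    rw [E_sum]
    have hz : ∀ z ∈ S2 \ Y, E p (fun ω =>
        ind (∀ y ∈ insert z Y, ∃ w ∈ W, s(w, y) ∈ ω) *
          (ind (KAlive (KRY R Y) S2 ω) * ind (KCov R S2 ω (insert z Y)))) ≤
        ((W.card : ℝ) * p) ^ (Y.card + 1) *
          E p (fun ω => ind (KAlive (KRY R Y) S2 ω) * ind (KCov R S2 ω (insert z Y))) := by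
      intro z hz
      rw [Finset.mem_sdiff] at hz
      have hsub : insert z Y ⊆ S2 := Finset.insert_subset hz.1 hY
      have hc := cover_prob h h0 h1 W
        (fun ω => ind (KAlive (KRY R Y) S2 ω) * ind (KCov R S2 ω (insert z Y)))
        (fun ω => mul_nonneg (ind_nonneg _) (ind_nonneg _)) (insert z Y)
        (Finset.disjoint_of_subset_right hsub hS2W) ?_
      · rw [Finset.card_insert_of_notMem hz.2] at hc
        exact hc
      · intro w hw y hy ω
        have hloc : ∀ a ∈ S2, ∀ b ∈ S2, s(a, b) ∉ ({s(w, y)} : Om n) := by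
          intro a ha b hb hm
          rw [Finset.mem_singleton, Sym2.eq_iff] at hm
          rcases hm with ⟨he, _⟩ | ⟨_, he⟩
          · exact Finset.disjoint_left.1 hS2W hw (he ▸ ha)
          · exact Finset.disjoint_left.1 hS2W hw (he ▸ hb)
        have e1 := KSol_sdiff (ω := ω) (KRY R Y) hloc
        have e2 := KSol_sdiff (ω := ω) R hloc
        rw [ind_congr (KAlive_of_sol e1), ind_congr (KCov_of_sol e2 (insert z Y))]
    refine (Finset.sum_le_sum hz).trans ?_
    rw [← Finset.mul_sum]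
    refine mul_le_mul_of_nonneg_left ?_ (pow_nonneg (mul_nonneg (Nat.cast_nonneg _) h0) _)
    rw [← E_sum]
    unfold KG
    refine E_mono h0 h1 fun ω => ?_
    rw [← Finset.mul_sum]
    refine mul_le_mul_of_nonneg_left ?_ (ind_nonneg _)
    unfold Kcs
    rw [card_filter_eq_sum_ind]
    exact Finset.sum_le_sum_of_subset_of_nonneg Finset.sdiff_subset fun _ _ _ => ind_nonneg _

end Pool.Agent.H624U
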