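import Pool.Agent.H624U.Basic
import Pool.Agent.H624U.Defs2

/-!
# EX: star decomposition of E
-/

set_option autoImplicit false

namespace Pool.Agent.H624U

open Finset Pool.Agent.H624C
open scoped Classical

namespace EXx

variable {n : ℕ}

/-- the part of the star -/
noncomputable def star (N : Finset (Fin n)) : Om (n + 1) :=
  N.image (fun y => s(Fin.last n, y.castSucc))

/-- the diagonal pair of the last vertex -/
def dg (n : ℕ) (b : Bool) : Om (n + 1) := if b then {s(Fin.last n, Fin.last n)} else ∅

noncomputable def Phi (q : (Om n × Finset (Fin n)) × Bool) : Om (n + 1) := ext q.1.1 q.1.2 ∪ dg n q.2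

noncomputable def Psi (Ω : Om (n + 1)) : (Om n × Finset (Fin n)) × Bool :=
  ((pull Fin.castSucc Ω, univ.filter (fun y => s(Fin.last n, y.castSucc) ∈ Ω)),
    decide (s(Fin.last n, Fin.last n) ∈ Ω))

theorem castSucc_ne_last' (y : Fin n) : y.castSucc ≠ Fin.last n := (Fin.castSucc_lt_last y).ne

theorem mem1 (ω : Om n) (N : Finset (Fin n)) (b : Bool) (e : Sym2 (Fin n)) :
    e.map Fin.castSucc ∈ Phi ((ω, N), b) ↔ e ∈ ω := by
  unfold Phi ext dg
  simp only [Finset.mem_union, Finset.mem_image]
  constructor
  · rintro ((⟨e', he', h⟩ | ⟨y, _, h⟩) | h)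
    · rwa [← Sym2.map.injective (Fin.castSucc_injective n) h]
    · exfalso
      induction e using Sym2.ind with
      | _ x z =>
        rw [Sym2.map_mk, Sym2.eq_iff] at h
        rcases h with ⟨h, _⟩ | ⟨h, _⟩
        · exact castSucc_ne_last' _ h.symm
        · exact castSucc_ne_last' _ h.symm
    · exfalso
      cases b
      · simp at h
      · simp only [if_true, Finset.mem_singleton] at h
        induction e using Sym2.ind with
        | _ x z =>
          rw [Sym2.map_mk, Sym2.eq_iff] at h
          rcases h with ⟨h, _⟩ | ⟨h, _⟩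
          · exact castSucc_ne_last' _ h
          · exact castSucc_ne_last' _ h
  · intro he
    exact Or.inl (Or.inl ⟨e, he, rfl⟩)

theorem mem2 (ω : Om n) (N : Finset (Fin n)) (b : Bool) (y : Fin n) :
    s(Fin.last n, y.castSucc) ∈ Phi ((ω, N), b) ↔ y ∈ N := by
  unfold Phi ext dg
  simp only [Finset.mem_union, Finset.mem_image]
  constructor
  · rintro ((⟨e, _, h⟩ | ⟨y', hy', h⟩) | h)
    · exfalso
      induction e using Sym2.ind with
      | _ x z =>
        rw [Sym2.map_mk, Sym2.eq_iff] at h
        rcases h with ⟨h, _⟩ | ⟨_, h⟩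
        · exact castSucc_ne_last' _ h
        · exact castSucc_ne_last' _ h
    · rw [Sym2.eq_iff] at h
      rcases h with ⟨_, h⟩ | ⟨h, _⟩
      · rwa [← Fin.castSucc_injective n h]
      · exact absurd h.symm (castSucc_ne_last' _)
    · exfalso
      cases b
      · simp at h
      · simp only [if_true, Finset.mem_singleton] at h
        rw [Sym2.eq_iff] at h
        rcases h with ⟨_, h⟩ | ⟨_, h⟩
        · exact castSucc_ne_last' _ h
        · exact castSucc_ne_last' _ h
  · intro hy
    exact Or.inl (Or.inr ⟨y, hy, rfl⟩)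

theorem mem3 (ω : Om n) (N : Finset (Fin n)) (b : Bool) :
    s(Fin.last n, Fin.last n) ∈ Phi ((ω, N), b) ↔ b = true := by
  unfold Phi ext dg
  simp only [Finset.mem_union, Finset.mem_image]
  constructor
  · rintro ((⟨e, _, h⟩ | ⟨y', _, h⟩) | h)
    · exfalso
      induction e using Sym2.ind with
      | _ x z =>
        rw [Sym2.map_mk, Sym2.eq_iff] at h
        rcases h with ⟨h, _⟩ | ⟨h, _⟩
        · exact castSucc_ne_last' _ h
        · exact castSucc_ne_last' _ h
    · exfalso
      rw [Sym2.eq_iff] at h
      rcases h with ⟨_, h⟩ | ⟨_, h⟩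
      · exact castSucc_ne_last' _ h
      · exact castSucc_ne_last' _ h
    · cases b
      · simp at h
      · rfl
  · rintro rfl
    right; simp

/-- cases for a pair on `n + 1` vertices -/
theorem pair_cases (e : Sym2 (Fin (n + 1))) :
    (∃ e' : Sym2 (Fin n), e = e'.map Fin.castSucc) ∨ (∃ y : Fin n, e = s(Fin.last n, y.castSucc)) ∨
      e = s(Fin.last n, Fin.last n) := by
  induction e using Sym2.ind with
  | _ x z =>
    rcases Fin.eq_castSucc_or_eq_last x with ⟨x', rfl⟩ | rfl
    · rcases Fin.eq_castSucc_or_eq_last z with ⟨z', rfl⟩ | rfl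
      · exact Or.inl ⟨s(x', z'), by rw [Sym2.map_mk]⟩
      · exact Or.inr (Or.inl ⟨x', Sym2.eq_swap⟩)
    · rcases Fin.eq_castSucc_or_eq_last z with ⟨z', rfl⟩ | rfl
      · exact Or.inr (Or.inl ⟨z', rfl⟩)
      · exact Or.inr (Or.inr rfl)

theorem Psi_Phi (q : (Om n × Finset (Fin n)) × Bool) : Psi (Phi q) = q := by
  obtain ⟨⟨ω, N⟩, b⟩ := q
  unfold Psi
  refine Prod.ext (Prod.ext ?_ ?_) ?_
  · ext e
    show e ∈ pull Fin.castSucc (Phi ((ω, N), b)) ↔ e ∈ ω
    unfold pull
    rw [Finset.mem_filter]
    simp only [mem_univ, true_and]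
    exact mem1 ω N b e
  · ext y
    show y ∈ univ.filter (fun y => s(Fin.last n, y.castSucc) ∈ Phi ((ω, N), b)) ↔ y ∈ N
    rw [Finset.mem_filter]
    simp only [mem_univ, true_and]
    exact mem2 ω N b y
  · show decide (s(Fin.last n, Fin.last n) ∈ Phi ((ω, N), b)) = b
    have := mem3 ω N b
    cases b
    · simpa using this
    · simpa using this

theorem Phi_Psi (Ω : Om (n + 1)) : Phi (Psi Ω) = Ω := by
  ext e
  rcases pair_cases e with ⟨e', rfl⟩ | ⟨y, rfl⟩ | rfl
  · unfold Psi
    rw [mem1]
    unfold pull
    rw [Finset.mem_filter]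
    simp
  · unfold Psi
    rw [mem2, Finset.mem_filter]
    simp
  · unfold Psi
    rw [mem3]
    simp

theorem card_Phi (ω : Om n) (N : Finset (Fin n)) (b : Bool) :
    (Phi ((ω, N), b)).card = ω.card + N.card + (if b then 1 else 0) := by
  have hd1 : Disjoint (ω.image (Sym2.map Fin.castSucc))
      (N.image (fun y => s(Fin.last n, y.castSucc))) := by
    rw [Finset.disjoint_left]
    intro e he hn
    rw [Finset.mem_image] at he hn
    obtain ⟨e', _, rfl⟩ := he
    obtain ⟨y, _, h⟩ := hn
    induction e' using Sym2.ind with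
    | _ x z =>
      rw [Sym2.map_mk, Sym2.eq_iff] at h
      rcases h with ⟨h, _⟩ | ⟨h, _⟩
      · exact castSucc_ne_last' _ h.symm
      · exact castSucc_ne_last' _ h.symm
  have hd2 : Disjoint (ext ω N) (dg n b) := by
    cases b
    · unfold dg; simp
    · unfold dg
      simp only [if_true, Finset.disjoint_singleton_right]
      intro h
      have h2 : s(Fin.last n, Fin.last n) ∈ Phi ((ω, N), false) := by
        unfold Phi; exact Finset.mem_union_left _ h
      rw [mem3] at h2
      exact absurd h2 (by simp)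
  unfold Phi
  rw [Finset.card_union_of_disjoint hd2]
  unfold ext
  rw [Finset.card_union_of_disjoint hd1,
    Finset.card_image_of_injective _ (Sym2.map.injective (Fin.castSucc_injective n)),
    Finset.card_image_of_injective]
  · congr 1
    cases b <;> simp [dg]
  · intro y y' h
    simp only at h
    rw [Sym2.eq_iff] at h
    rcases h with ⟨_, h⟩ | ⟨h, _⟩
    · exact Fin.castSucc_injective n h
    · exact absurd h.symm (castSucc_ne_last' _)

theorem card_pairs : Fintype.card (Sym2 (Fin (n + 1))) = Fintype.card (Sym2 (Fin n)) + n + 1 := by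
  have h : Phi (((Finset.univ : Om n), (Finset.univ : Finset (Fin n))), true) = Finset.univ := by
    ext e
    simp only [mem_univ, iff_true]
    rcases pair_cases e with ⟨e', rfl⟩ | ⟨y, rfl⟩ | rfl
    · rw [mem1]; exact mem_univ _
    · rw [mem2]; exact mem_univ _
    · rw [mem3]
  have h2 := card_Phi (Finset.univ : Om n) (Finset.univ : Finset (Fin n)) true
  rw [h, Finset.card_univ, Finset.card_univ, Finset.card_univ, Fintype.card_fin] at h2
  simpa using h2

noncomputable def eqv (n : ℕ) : (Om n × Finset (Fin n)) × Bool ≃ Om (n + 1) where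
  toFun := Phi
  invFun := Psi
  left_inv := Psi_Phi
  right_inv := Phi_Psi

end EXx

open EXx in
theorem EX_thm : T_ext := by
  intro n p f h0 h1 hf
  have hcard : ∀ ω : Om n, ω.card ≤ Fintype.card (Sym2 (Fin n)) := fun ω => by
    rw [← Finset.card_univ]; exact Finset.card_le_card (Finset.subset_univ _)
  have hcard2 : ∀ N : Finset (Fin n), N.card ≤ n := fun N => by
    have := Finset.card_le_univ N
    rwa [Fintype.card_fin] at this
  have hf' : ∀ (ω : Om n) (N : Finset (Fin n)) (b : Bool), f (Phi ((ω, N), b)) = f (ext ω N) := by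
    intro ω N b
    cases b
    · unfold Phi dg; simp
    · have : Phi ((ω, N), true) = insert s(Fin.last n, Fin.last n) (ext ω N) := by
        unfold Phi dg
        simp only [if_true]
        rw [Finset.union_comm, Finset.singleton_union]
      rw [this, hf]
  unfold E
  rw [← (eqv n).sum_comp]
  show ∑ q : (Om n × Finset (Fin n)) × Bool, p ^ (Phi q).card *
    (1 - p) ^ (Fintype.card (Sym2 (Fin (n + 1))) - (Phi q).card) * f (Phi q) = _
  rw [Fintype.sum_prod_type, Fintype.sum_prod_type]
  apply Finset.sum_congr rfl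
  intro ω _
  rw [Finset.mul_sum]
  apply Finset.sum_congr rfl
  intro N _
  rw [Fintype.sum_bool, hf', hf', card_Phi, card_Phi, card_pairs]
  have e1 : Fintype.card (Sym2 (Fin n)) + n + 1 - (ω.card + N.card + (if (true = true) then 1 else 0))
      = (Fintype.card (Sym2 (Fin n)) - ω.card) + (n - N.card) := by
    have := hcard ω; have := hcard2 N; simp only [if_true]; omega
  have e2 : Fintype.card (Sym2 (Fin n)) + n + 1 - (ω.card + N.card + (if (false = true) then 1 else 0))
      = (Fintype.card (Sym2 (Fin n)) - ω.card) + (n - N.card) + 1 := by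
    have := hcard ω; have := hcard2 N; simp; omega
  rw [e1, e2]
  simp only [if_true, Bool.false_eq_true, if_false, add_zero]
  simp only [pow_add, pow_one]
  ring

end Pool.Agent.H624U
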