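import Pool.Agent.H624U.Defs
import Pool.Agent.H624C.CO

/-!
# EY: sparse random graphs are forests, hence harmless
-/

set_option autoImplicit false

namespace Pool.Agent.H624U

open Finset Pool.Agent.H624C
open scoped Classical

namespace EYaux

theorem edges_getElem {V : Type} {G : SimpleGraph V} {u v : V} (p : G.Walk u v) (i : ℕ)
    (h : i < p.edges.length) : p.edges[i] = s(p.getVert i, p.getVert (i + 1)) := by
  induction p generalizing i with
  | nil => simp at h
  | cons hadj p ih =>
    cases i with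
    | zero => simp
    | succ i =>
      simp only [SimpleGraph.Walk.edges_cons, List.length_cons] at h
      simp only [SimpleGraph.Walk.edges_cons, List.getElem_cons_succ,
        SimpleGraph.Walk.getVert_cons_succ]
      exact ih i (by omega)

/-- the pairs of consecutive vertices of a cyclic sequence -/
noncomputable def cyc {n m : ℕ} (f : Fin (m + 1) → Fin n) : Om n :=
  univ.image (fun i : Fin (m + 1) => s(f i, f (i + 1)))

/-- a configuration that is not acyclic contains a cycle -/
theorem exists_cyc {n : ℕ} {ω : Om n}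
    (hac : ¬ (SimpleGraph.fromEdgeSet (ω : Set (Sym2 (Fin n)))).IsAcyclic) :
    ∃ m ∈ Ico 2 n, ∃ f ∈ (univ : Finset (Fin (m + 1) → Fin n)),
      (cyc f).card = m + 1 ∧ cyc f ⊆ ω := by
  set G : SimpleGraph (Fin n) := SimpleGraph.fromEdgeSet (ω : Set (Sym2 (Fin n))) with hG
  unfold SimpleGraph.IsAcyclic at hac
  push Not at hac
  obtain ⟨v, c, hc⟩ := hac
  have h3 := hc.three_le_length
  obtain ⟨m, hm⟩ : ∃ m, c.length = m + 1 := ⟨c.length - 1, by omega⟩
  have hcard : c.length ≤ n := by
    have h1 : c.support.tail.Nodup := hc.support_nodup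
    have h2 := h1.length_le_card
    simp only [List.length_tail, SimpleGraph.Walk.length_support, Fintype.card_fin] at h2
    omega
  have hstep : ∀ i : Fin (m + 1), c.getVert ((i + 1 : Fin (m + 1)) : ℕ) = c.getVert (i.val + 1) := by
    intro i
    rcases Nat.lt_or_ge i.val m with hi | hi
    · have : ((i + 1 : Fin (m + 1)) : ℕ) = i.val + 1 := by
        rw [Fin.val_add_one_of_lt]
        exact hi
      rw [this]
    · have hil : i = Fin.last m := Fin.ext (le_antisymm (Nat.lt_succ_iff.mp i.2) hi)
      subst hil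
      rw [Fin.last_add_one]
      simp only [Fin.val_zero, SimpleGraph.Walk.getVert_zero, Fin.val_last, ← hm,
        SimpleGraph.Walk.getVert_length]
  have hlen : c.edges.length = m + 1 := by rw [SimpleGraph.Walk.length_edges, hm]
  have hedge : ∀ i : Fin (m + 1), s(c.getVert i.val, c.getVert ((i + 1 : Fin (m + 1)) : ℕ)) =
      c.edges[i.val]'(by rw [hlen]; exact i.2) := by
    intro i
    rw [hstep, edges_getElem]
  refine ⟨m, mem_Ico.mpr ⟨by omega, by omega⟩, fun i => c.getVert i.val, mem_univ _, ?_, ?_⟩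
  · unfold cyc
    rw [card_image_of_injective, card_univ, Fintype.card_fin]
    intro i j hij
    simp only [hedge] at hij
    have hnd : c.edges.Nodup := hc.edges_nodup
    exact Fin.ext ((List.Nodup.getElem_inj_iff hnd).mp hij)
  · intro e he
    unfold cyc at he
    rw [mem_image] at he
    obtain ⟨i, _, rfl⟩ := he
    rw [hedge]
    have h1 : c.edges[i.val]'(by rw [hlen]; exact i.2) ∈ c.edges := List.getElem_mem _
    have h2 := c.edges_subset_edgeSet h1
    have h4 : ∀ e ∈ G.edgeSet, e ∈ ω := by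
      intro e he
      rw [hG, SimpleGraph.edgeSet_fromEdgeSet] at he
      exact_mod_cast he.1
    exact h4 _ h2

theorem geom (n : ℕ) (x : ℝ) (hx : 0 ≤ x) (hx2 : x ≤ 1 / 3) :
    ∑ m ∈ Ico 2 n, x ^ (m + 1) ≤ 1 / 8 := by
  have key : ∀ n : ℕ, ∑ m ∈ Ico 2 (n + 2), (1 / 3 : ℝ) ^ (m + 1) =
      1 / 18 - (1 / 3) ^ (n + 2) / 2 := by
    intro n
    induction n with
    | zero => norm_num
    | succ n ih =>
      rw [show n + 1 + 2 = (n + 2) + 1 by ring, Finset.sum_Ico_succ_top (by omega), ih]
      ring
  have h1 : ∑ m ∈ Ico 2 n, x ^ (m + 1) ≤ ∑ m ∈ Ico 2 n, (1 / 3 : ℝ) ^ (m + 1) :=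
    Finset.sum_le_sum fun m _ => pow_le_pow_left₀ hx hx2 _
  refine h1.trans ?_
  rcases Nat.lt_or_ge n 2 with hn | hn
  · rw [Finset.Ico_eq_empty (by omega), Finset.sum_empty]; norm_num
  · obtain ⟨k, rfl⟩ : ∃ k, n = k + 2 := ⟨n - 2, by omega⟩
    rw [key]
    have : (0 : ℝ) ≤ (1 / 3) ^ (k + 2) := by positivity
    linarith

/-- a forest has few edges inside a nonempty set -/
theorem forest {n : ℕ} {ω : Om n}
    (hac : (SimpleGraph.fromEdgeSet (ω : Set (Sym2 (Fin n)))).IsAcyclic)
    (S : Finset (Fin n)) (hS : S.Nonempty) : ecount S ω + 1 ≤ S.card := by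
  set G : SimpleGraph (Fin n) := SimpleGraph.fromEdgeSet (ω : Set (Sym2 (Fin n))) with hG
  obtain ⟨x, hx⟩ := hS
  let V : Type := {v : Fin n // v ∈ S}
  let H : SimpleGraph V := G.comap (fun v : V => v.1)
  have hH : H.IsAcyclic := by
    have h1 := hac.of_comap (⟨fun v : V => v.1, Subtype.val_injective⟩ : V ↪ Fin n)
    exact h1
  have hne : Nonempty V := ⟨⟨x, hx⟩⟩
  have hconn : (⊤ : SimpleGraph V).Connected := SimpleGraph.connected_top
  obtain ⟨T, hT1, _, hT3⟩ := hconn.exists_isTree_le_of_le_of_isAcyclic le_top hH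
  have hcard := hT3.card_edgeFinset
  have hVc : Fintype.card V = S.card := by
    show Fintype.card {v : Fin n // v ∈ S} = S.card
    exact Fintype.card_coe S
  rw [hVc] at hcard
  rw [← hcard]
  apply Nat.add_le_add_right
  have hsub : ω.filter (fun e => ¬ e.IsDiag ∧ ∀ v ∈ e, v ∈ S) ⊆
      T.edgeFinset.image (Sym2.map (fun v : V => v.1)) := by
    intro e he
    rw [mem_filter] at he
    obtain ⟨he1, he2, he3⟩ := he
    induction e using Sym2.ind with
    | h a b =>
      have ha : a ∈ S := he3 a (Sym2.mem_mk_left a b)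
      have hb : b ∈ S := he3 b (Sym2.mem_mk_right a b)
      have hab : a ≠ b := fun h => he2 (Sym2.mk_isDiag_iff.mpr h)
      rw [mem_image]
      refine ⟨s((⟨a, ha⟩ : V), (⟨b, hb⟩ : V)), ?_, ?_⟩
      · rw [SimpleGraph.mem_edgeFinset, SimpleGraph.mem_edgeSet]
        apply hT1
        show G.Adj a b
        rw [hG, SimpleGraph.fromEdgeSet_adj]
        exact ⟨by exact_mod_cast he1, hab⟩
      · rw [Sym2.map_mk]
  unfold ecount
  exact (card_le_card hsub).trans card_image_le

theorem ecount_mono {n : ℕ} {ω ω' : Om n} (h : ω ⊆ ω') (S : Finset (Fin n)) :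
    ecount S ω ≤ ecount S ω' := by
  unfold ecount
  exact card_le_card (filter_subset_filter _ h)

/-- forests are harmless -/
theorem acyclic_good (h1 : T_uce) {k n m0 : ℕ} (hk : 3 ≤ k) {ω : Om n}
    (hac : (SimpleGraph.fromEdgeSet (ω : Set (Sym2 (Fin n)))).IsAcyclic) :
    ¬ (¬ KAliveU k ω ∨ HasU k ω ∨ SD m0 ω) := by
  have key : ∀ S : Finset (Fin n), 4 ≤ S.card → 5 * S.card ≤ 4 * ecount S ω → False := by
    intro S hS1 hS2
    have h2 := forest hac S (card_pos.mp (by omega))
    omega
  rintro (h | ⟨S, η, hη, hU, hS⟩ | ⟨S, hS1, _, hS2⟩)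
  · apply h
    obtain ⟨σ⟩ := hac.colorable_two.mono (by omega : 2 ≤ k)
    refine ⟨fun v => σ v, ?_, Set.mem_univ _⟩
    intro a _ b _ hab hm
    apply σ.valid
    rw [SimpleGraph.fromEdgeSet_adj]
    exact ⟨by exact_mod_cast hm, hab⟩
  · obtain ⟨h2, h3⟩ := h1 k n S η hk hU hS
    have h4 := ecount_mono hη S
    exact key S h2 (by omega)
  · exact key S hS1 hS2

end EYaux

open EYaux in
theorem EY_thm (h1 : T_uce) : T_early := by
  refine ⟨1 / 3, by norm_num, ?_⟩
  intro k n m0 hk hn p hp hpn
  have hn1 : (1 : ℝ) ≤ n := by exact_mod_cast hn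
  have hp1 : p ≤ 1 := by nlinarith
  have hincl : ∀ B : Om n, E p (fun ω => ind (B ⊆ ω)) = p ^ B.card := by
    intro B
    have := S_incl_thm n p B (fun _ => 1) (fun _ => rfl)
    simp only [mul_one] at this
    rw [this, E_one, mul_one]
  calc E p (fun ω : Om n => ind (¬ KAliveU k ω ∨ HasU k ω ∨ SD m0 ω))
      ≤ E p (fun ω : Om n => ∑ m ∈ Ico 2 n, ∑ f ∈ (univ : Finset (Fin (m + 1) → Fin n)),
          ind ((cyc f).card = m + 1) * ind (cyc f ⊆ ω)) := by
        apply E_mono hp hp1
        intro ω
        refine (ind_mono (Q := ∃ m ∈ Ico 2 n, ∃ f ∈ (univ : Finset (Fin (m + 1) → Fin n)),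
          (cyc f).card = m + 1 ∧ cyc f ⊆ ω) (fun h => exists_cyc
            (fun hac => acyclic_good h1 hk hac h))).trans ?_
        refine (ind_exists_le _ _).trans ?_
        apply Finset.sum_le_sum
        intro m _
        refine (ind_exists_le _ _).trans ?_
        apply Finset.sum_le_sum
        intro f _
        rw [ind_and]
    _ = ∑ m ∈ Ico 2 n, ∑ f ∈ (univ : Finset (Fin (m + 1) → Fin n)),
          ind ((cyc f).card = m + 1) * p ^ (cyc f).card := by
        rw [E_sum]
        apply Finset.sum_congr rfl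
        intro m _
        rw [E_sum]
        apply Finset.sum_congr rfl
        intro f _
        rw [E_mul_left, hincl]
    _ ≤ ∑ m ∈ Ico 2 n, (p * n) ^ (m + 1) := by
        apply Finset.sum_le_sum
        intro m _
        calc ∑ f ∈ (univ : Finset (Fin (m + 1) → Fin n)),
              ind ((cyc f).card = m + 1) * p ^ (cyc f).card
            ≤ ∑ f ∈ (univ : Finset (Fin (m + 1) → Fin n)), p ^ (m + 1) := by
              apply Finset.sum_le_sum
              intro f _
              by_cases h : (cyc f).card = m + 1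
              · rw [ind_true h, one_mul, h]
              · rw [ind_false h, zero_mul]; positivity
          _ = (p * n) ^ (m + 1) := by
              rw [Finset.sum_const, card_univ, Fintype.card_fun, Fintype.card_fin,
                Fintype.card_fin, nsmul_eq_mul]
              push_cast
              rw [mul_pow, mul_comm]
    _ ≤ 1 / 8 := geom n (p * n) (by positivity) hpn

end Pool.Agent.H624U
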