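import Pool.Agent.H624U.Basic

/-!
# FA: PV and SL are nice families
-/

set_option autoImplicit false

namespace Pool.Agent.H624U

open Finset Pool.Agent.H624C
open scoped Classical

noncomputable section

namespace FA

theorem Fam_or {P Q : ∀ n : ℕ, Om n → Prop} (hP : Fam P) (hQ : Fam Q) :
    Fam (fun n ω => P n ω ∨ Q n ω) where
  mono n ω ω' h := Or.imp (hP.mono n ω ω' h) (hQ.mono n ω ω' h)
  inv m n ι hι ω := Or.imp (hP.inv m n ι hι ω) (hQ.inv m n ι hι ω)
  iso n ω := Or.imp (hP.iso n ω) (hQ.iso n ω)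
  diag n ω e he := Or.imp (hP.diag n ω e he) (hQ.diag n ω e he)

theorem mem_ext_empty {n : ℕ} {ω : Om n} {e : Sym2 (Fin (n + 1))} :
    e ∈ ext ω ∅ ↔ ∃ e' ∈ ω, e'.map Fin.castSucc = e := by
  unfold ext
  rw [image_empty, union_empty, mem_image]

theorem map_inj {m n : ℕ} {ι : Fin m → Fin n} (hι : Function.Injective ι) :
    Function.Injective (Sym2.map ι) := Sym2.map.injective hι

theorem mem_pull {m n : ℕ} {ι : Fin m → Fin n} {ω : Om n} {e : Sym2 (Fin m)} :
    e ∈ pull ι ω ↔ e.map ι ∈ ω := by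
  unfold pull
  simp

/-! ### dead -/

theorem fam_dead {k : ℕ} (hk : 3 ≤ k) : Fam (fun n (ω : Om n) => ¬ KAliveU k ω) where
  mono n ω ω' h hd ha := by
    apply hd
    obtain ⟨σ, hσ, -⟩ := ha
    exact ⟨σ, fun a ha b hb hab hm => hσ a ha b hb hab (h hm), Set.mem_univ _⟩
  inv m n ι hι ω hd ha := by
    apply hd
    obtain ⟨σ, hσ, -⟩ := ha
    refine ⟨fun a => σ (ι a), fun a _ b _ hab hm => ?_, Set.mem_univ _⟩
    exact hσ (ι a) (mem_univ _) (ι b) (mem_univ _) (fun h => hab (hι h)) (mem_pull.1 hm)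
  iso n ω hd ha := by
    apply hd
    obtain ⟨σ, hσ, -⟩ := ha
    refine ⟨Fin.snoc (α := fun _ => Fin k) σ ⟨0, by omega⟩, fun a _ b _ hab hm => ?_,
      Set.mem_univ _⟩
    obtain ⟨e, he, hee⟩ := mem_ext_empty.1 hm
    induction e using Sym2.ind with
    | _ x y =>
      rw [Sym2.map_mk, Sym2.eq_iff] at hee
      rcases hee with ⟨rfl, rfl⟩ | ⟨rfl, rfl⟩
      · rw [Fin.snoc_castSucc, Fin.snoc_castSucc]
        exact hσ x (mem_univ _) y (mem_univ _) (fun h => hab (by rw [h])) he
      · rw [Fin.snoc_castSucc, Fin.snoc_castSucc]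
        exact (hσ x (mem_univ _) y (mem_univ _) (fun h => hab (by rw [h])) he).symm
  diag n ω e he hd ha := by
    apply hd
    obtain ⟨σ, hσ, -⟩ := ha
    refine ⟨σ, fun a ha b hb hab hm => ?_, Set.mem_univ _⟩
    rcases mem_insert.1 hm with h | h
    · exfalso
      rw [← h] at he
      exact hab he
    · exact hσ a ha b hb hab h

/-! ### unique colourability -/

theorem proper_image {k m n : ℕ} {ι : Fin m → Fin n} (hι : Function.Injective ι)
    (S : Finset (Fin m)) (η : Om m) (σ : KCol k n) :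
    KProper (η.image (Sym2.map ι)) (S.image ι) σ ↔ KProper η S (fun a => σ (ι a)) := by
  constructor
  · intro h a ha b hb hab hm
    exact h (ι a) (mem_image_of_mem _ ha) (ι b) (mem_image_of_mem _ hb)
      (fun h => hab (hι h)) (mem_image.2 ⟨s(a, b), hm, rfl⟩)
  · intro h a' ha' b' hb' hab hm
    obtain ⟨a, ha, rfl⟩ := mem_image.1 ha'
    obtain ⟨b, hb, rfl⟩ := mem_image.1 hb'
    obtain ⟨e, he, hee⟩ := mem_image.1 hm
    have : e = s(a, b) := map_inj hι (by rw [hee]; rfl)
    rw [this] at he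
    exact h a ha b hb (fun h => hab (by rw [h])) he

theorem exists_extend {k m n : ℕ} (hk : 3 ≤ k) {ι : Fin m → Fin n} (hι : Function.Injective ι)
    (σ : KCol k m) : ∃ σ' : KCol k n, (fun a => σ' (ι a)) = σ :=
  ⟨Function.extend ι σ (fun _ => ⟨0, by omega⟩), funext fun a => hι.extend_apply _ _ a⟩

theorem UC_image {k m n : ℕ} (hk : 3 ≤ k) {ι : Fin m → Fin n} (hι : Function.Injective ι)
    (S : Finset (Fin m)) (η : Om m) :
    UC k (S.image ι) (η.image (Sym2.map ι)) ↔ UC k S η := by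
  constructor
  · rintro ⟨⟨σ', h1⟩, h2, h3⟩
    refine ⟨⟨_, (proper_image hι S η σ').1 h1⟩, ?_, ?_⟩
    · intro σ hσ s
      obtain ⟨σ', rfl⟩ := exists_extend hk hι σ
      obtain ⟨v', hv', hvs⟩ := h2 σ' ((proper_image hι S η σ').2 hσ) s
      obtain ⟨v, hv, rfl⟩ := mem_image.1 hv'
      exact ⟨v, hv, hvs⟩
    · intro σ τ hσ hτ
      obtain ⟨σ', rfl⟩ := exists_extend hk hι σ
      obtain ⟨τ', rfl⟩ := exists_extend hk hι τ
      obtain ⟨π, hπ⟩ := h3 σ' τ' ((proper_image hι S η σ').2 hσ) ((proper_image hι S η τ').2 hτ)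
      exact ⟨π, fun v hv => hπ (ι v) (mem_image_of_mem _ hv)⟩
  · rintro ⟨⟨σ, h1⟩, h2, h3⟩
    obtain ⟨σ', rfl⟩ := exists_extend hk hι σ
    refine ⟨⟨σ', (proper_image hι S η σ').2 h1⟩, ?_, ?_⟩
    · intro τ' hτ s
      obtain ⟨v, hv, hvs⟩ := h2 _ ((proper_image hι S η τ').1 hτ) s
      exact ⟨ι v, mem_image_of_mem _ hv, hvs⟩
    · intro τ ρ hτ hρ
      obtain ⟨π, hπ⟩ := h3 _ _ ((proper_image hι S η τ).1 hτ) ((proper_image hι S η ρ).1 hρ)
      refine ⟨π, fun v' hv' => ?_⟩
      obtain ⟨v, hv, rfl⟩ := mem_image.1 hv'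
      exact hπ v hv

/-- an isolated vertex does not belong to a uniquely colourable graph -/
theorem UC_isolated {k n : ℕ} (hk : 3 ≤ k) {S : Finset (Fin n)} {η : Om n} (h : UC k S η)
    {z : Fin n} (hz : ∀ a, a ≠ z → s(a, z) ∉ η) : z ∉ S := by
  intro hzS
  obtain ⟨⟨σ, h1⟩, h2, h3⟩ := h
  obtain ⟨c, hc⟩ : ∃ c : Fin k, c ≠ σ z := by
    by_contra hcon
    push Not at hcon
    have h4 := hcon ⟨0, by omega⟩
    have h5 := hcon ⟨1, by omega⟩
    rw [← h5] at h4
    simp at h4
  have hpr : KProper η S (Function.update σ z c) := by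
    intro a ha b hb hab hm
    by_cases haz : a = z
    · subst haz
      exfalso
      apply hz b (Ne.symm hab)
      rw [Sym2.eq_swap]
      exact hm
    · by_cases hbz : b = z
      · subst hbz
        exact absurd hm (hz a haz)
      · rw [Function.update_of_ne haz, Function.update_of_ne hbz]
        exact h1 a ha b hb hab hm
  by_cases hv : ∃ v ∈ S, v ≠ z ∧ σ v = σ z
  · obtain ⟨v, hv, hvz, hvs⟩ := hv
    obtain ⟨π, hπ⟩ := h3 σ _ h1 hpr
    have e1 := hπ v hv
    have e2 := hπ z hzS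
    rw [Function.update_of_ne hvz, hvs] at e1
    rw [Function.update_self] at e2
    exact hc (e2.trans e1.symm)
  · push Not at hv
    obtain ⟨v, hvS, hvs⟩ := h2 _ hpr (σ z)
    by_cases hvz : v = z
    · subst hvz
      rw [Function.update_self] at hvs
      exact hc hvs
    · rw [Function.update_of_ne hvz] at hvs
      exact hv v hvS hvz hvs

theorem fam_HasU {k : ℕ} (hk : 3 ≤ k) : Fam (fun n (ω : Om n) => HasU k ω) where
  mono n ω ω' h hu := by
    obtain ⟨S, η, h1, h2, h3⟩ := hu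
    exact ⟨S, η, h1.trans h, h2, h3⟩
  inv m n ι hι ω hu := by
    obtain ⟨S, η, h1, h2, h3⟩ := hu
    refine ⟨S.image ι, η.image (Sym2.map ι), ?_, (UC_image hk hι S η).2 h2, ?_⟩
    · intro e he
      obtain ⟨e', he', rfl⟩ := mem_image.1 he
      exact mem_pull.1 (h1 he')
    · rw [card_image_of_injective _ hι]
      exact h3
  iso n ω hu := by
    obtain ⟨S, η, h1, h2, h3⟩ := hu
    have hl : Fin.last n ∉ S := by
      apply UC_isolated hk h2
      intro a _ hm
      obtain ⟨e, -, he⟩ := mem_ext_empty.1 (h1 hm)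
      induction e using Sym2.ind with
      | _ x y =>
        rw [Sym2.map_mk, Sym2.eq_iff] at he
        rcases he with ⟨-, h⟩ | ⟨h, -⟩
        · exact (Fin.castSucc_lt_last y).ne h
        · exact (Fin.castSucc_lt_last x).ne h
    have hcs : Function.Injective (Fin.castSucc : Fin n → Fin (n + 1)) :=
      Fin.castSucc_injective n
    have hS : (univ.filter (fun x : Fin n => x.castSucc ∈ S)).image Fin.castSucc = S := by
      ext v
      simp only [mem_image, mem_filter, mem_univ, true_and]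
      constructor
      · rintro ⟨x, hx, rfl⟩
        exact hx
      · intro hv
        rcases Fin.eq_castSucc_or_eq_last v with ⟨x, rfl⟩ | rfl
        · exact ⟨x, hv, rfl⟩
        · exact absurd hv hl
    have hη : (pull Fin.castSucc η).image (Sym2.map Fin.castSucc) = η := by
      ext e
      simp only [mem_image, mem_pull]
      constructor
      · rintro ⟨e', he', rfl⟩
        exact he'
      · intro he
        obtain ⟨e', -, rfl⟩ := mem_ext_empty.1 (h1 he)
        exact ⟨e', he, rfl⟩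
    refine ⟨univ.filter (fun x : Fin n => x.castSucc ∈ S), pull Fin.castSucc η, ?_, ?_, ?_⟩
    · intro e he
      obtain ⟨e', he', hee⟩ := mem_ext_empty.1 (h1 (mem_pull.1 he))
      rw [← map_inj hcs hee]
      exact he'
    · rw [← UC_image hk hcs, hS, hη]
      exact h2
    · rw [← card_image_of_injective _ hcs, hS]
      exact h3
  diag n ω e he hu := by
    obtain ⟨S, η, h1, h2, h3⟩ := hu
    have hpr : ∀ σ : KCol k n, KProper (η.erase e) S σ ↔ KProper η S σ := fun σ =>
      KProper_congr (fun a _ b _ hab => by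
        rw [mem_erase]
        constructor
        · exact fun h => h.2
        · intro h
          refine ⟨fun h' => ?_, h⟩
          rw [← h'] at he
          exact hab he)
    refine ⟨S, η.erase e, ?_, ?_, h3⟩
    · intro f hf
      rw [mem_erase] at hf
      exact (mem_insert.1 (h1 hf.2)).resolve_left hf.1
    · unfold UC
      simp only [hpr]
      exact h2

/-! ### small dense sets -/

theorem not_diag_map {m n : ℕ} {ι : Fin m → Fin n} (hι : Function.Injective ι)
    {e : Sym2 (Fin m)} (he : ¬ e.IsDiag) : ¬ (e.map ι).IsDiag := by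
  rw [Sym2.isDiag_map hι]
  exact he

theorem ecount_mono {n : ℕ} {S : Finset (Fin n)} {ω ω' : Om n} (h : ω ⊆ ω') :
    ecount S ω ≤ ecount S ω' := card_le_card (filter_subset_filter _ h)

theorem einc_mono {n : ℕ} {S : Finset (Fin n)} {ω ω' : Om n} (h : ω ⊆ ω') :
    einc S ω ≤ einc S ω' := card_le_card (filter_subset_filter _ h)

theorem ecount_pull {m n : ℕ} {ι : Fin m → Fin n} (hι : Function.Injective ι)
    (S : Finset (Fin m)) (ω : Om n) : ecount S (pull ι ω) ≤ ecount (S.image ι) ω := by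
  unfold ecount
  apply card_le_card_of_injOn (Sym2.map ι)
  · intro e he
    obtain ⟨he1, he2, he3⟩ := mem_filter.1 he
    refine mem_filter.2 ⟨mem_pull.1 he1, not_diag_map hι he2, ?_⟩
    intro v hv
    obtain ⟨u, hu, rfl⟩ := Sym2.mem_map.1 hv
    exact mem_image_of_mem _ (he3 u hu)
  · exact (map_inj hι).injOn

theorem einc_pull {m n : ℕ} {ι : Fin m → Fin n} (hι : Function.Injective ι)
    (S : Finset (Fin m)) (ω : Om n) : einc S (pull ι ω) ≤ einc (S.image ι) ω := by
  unfold einc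
  apply card_le_card_of_injOn (Sym2.map ι)
  · intro e he
    obtain ⟨he1, he2, u, hu, huS⟩ := mem_filter.1 he
    exact mem_filter.2 ⟨mem_pull.1 he1, not_diag_map hι he2, ι u, Sym2.mem_map.2 ⟨u, hu, rfl⟩,
      mem_image_of_mem _ huS⟩
  · exact (map_inj hι).injOn

theorem ecount_ext {n : ℕ} (S : Finset (Fin (n + 1))) (ω : Om n) :
    ecount S (ext ω ∅) ≤ ecount (univ.filter (fun x : Fin n => x.castSucc ∈ S)) ω := by
  unfold ecount
  refine le_trans (card_le_card (t := (ω.filter (fun e => ¬ e.IsDiag ∧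
    ∀ v ∈ e, v ∈ univ.filter (fun x : Fin n => x.castSucc ∈ S))).image
      (Sym2.map Fin.castSucc)) ?_) card_image_le
  intro e he
  obtain ⟨he1, he2, he3⟩ := mem_filter.1 he
  obtain ⟨e', he', rfl⟩ := mem_ext_empty.1 he1
  refine mem_image.2 ⟨e', mem_filter.2 ⟨he', ?_, ?_⟩, rfl⟩
  · rwa [Sym2.isDiag_map (Fin.castSucc_injective n)] at he2
  · intro v hv
    exact mem_filter.2 ⟨mem_univ _, he3 _ (Sym2.mem_map.2 ⟨v, hv, rfl⟩)⟩

theorem einc_ext {n : ℕ} (S : Finset (Fin (n + 1))) (ω : Om n) :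
    einc S (ext ω ∅) ≤ einc (univ.filter (fun x : Fin n => x.castSucc ∈ S)) ω := by
  unfold einc
  refine le_trans (card_le_card (t := (ω.filter (fun e => ¬ e.IsDiag ∧
    ∃ v ∈ e, v ∈ univ.filter (fun x : Fin n => x.castSucc ∈ S))).image
      (Sym2.map Fin.castSucc)) ?_) card_image_le
  intro e he
  obtain ⟨he1, he2, u, hu, huS⟩ := mem_filter.1 he
  obtain ⟨e', he', rfl⟩ := mem_ext_empty.1 he1
  refine mem_image.2 ⟨e', mem_filter.2 ⟨he', ?_, ?_⟩, rfl⟩
  · rwa [Sym2.isDiag_map (Fin.castSucc_injective n)] at he2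
  · obtain ⟨v, hv, rfl⟩ := Sym2.mem_map.1 hu
    exact ⟨v, hv, mem_filter.2 ⟨mem_univ _, huS⟩⟩

theorem ecount_diag {n : ℕ} {S : Finset (Fin n)} {ω : Om n} {e : Sym2 (Fin n)}
    (he : e.IsDiag) : ecount S (insert e ω) = ecount S ω := by
  unfold ecount
  rw [filter_insert, if_neg (fun h => h.1 he)]

theorem einc_diag {n : ℕ} {S : Finset (Fin n)} {ω : Om n} {e : Sym2 (Fin n)}
    (he : e.IsDiag) : einc S (insert e ω) = einc S ω := by
  unfold einc
  rw [filter_insert, if_neg (fun h => h.1 he)]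

theorem ecount_le {n : ℕ} (S : Finset (Fin n)) (ω : Om n) : ecount S ω ≤ S.card.choose 2 := by
  rw [← Sym2.card_image_offDiag]
  unfold ecount
  apply card_le_card
  intro e he
  obtain ⟨-, he2, he3⟩ := mem_filter.1 he
  induction e using Sym2.ind with
  | _ x y =>
    refine mem_image.2 ⟨(x, y), mem_offDiag.2 ⟨he3 x (Sym2.mem_mk_left x y),
      he3 y (Sym2.mem_mk_right x y), fun h => he2 h⟩, rfl⟩

theorem card_pre {n : ℕ} (S : Finset (Fin (n + 1))) :
    (univ.filter (fun x : Fin n => x.castSucc ∈ S)).card ≤ S.card ∧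
    S.card ≤ (univ.filter (fun x : Fin n => x.castSucc ∈ S)).card + 1 := by
  have hcs : Function.Injective (Fin.castSucc : Fin n → Fin (n + 1)) := Fin.castSucc_injective n
  constructor
  · rw [← card_image_of_injective _ hcs]
    apply card_le_card
    intro v hv
    obtain ⟨x, hx, rfl⟩ := mem_image.1 hv
    exact (mem_filter.1 hx).2
  · rw [← card_image_of_injective (univ.filter (fun x : Fin n => x.castSucc ∈ S)) hcs]
    calc S.card ≤ (insert (Fin.last n)
          ((univ.filter (fun x : Fin n => x.castSucc ∈ S)).image Fin.castSucc)).card := by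
          apply card_le_card
          intro v hv
          rcases Fin.eq_castSucc_or_eq_last v with ⟨x, rfl⟩ | rfl
          · exact mem_insert_of_mem (mem_image_of_mem _ (mem_filter.2 ⟨mem_univ _, hv⟩))
          · exact mem_insert_self _ _
      _ ≤ _ := card_insert_le _ _

theorem fam_SD (m0 : ℕ) : Fam (fun n (ω : Om n) => SD m0 ω) where
  mono n ω ω' h hu := by
    obtain ⟨S, h1, h2, h3⟩ := hu
    exact ⟨S, h1, h2, h3.trans (Nat.mul_le_mul_left _ (ecount_mono h))⟩
  inv m n ι hι ω hu := by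
    obtain ⟨S, h1, h2, h3⟩ := hu
    refine ⟨S.image ι, ?_, ?_, ?_⟩
    · rwa [card_image_of_injective _ hι]
    · rwa [card_image_of_injective _ hι]
    · rw [card_image_of_injective _ hι]
      exact h3.trans (Nat.mul_le_mul_left _ (ecount_pull hι S ω))
  iso n ω hu := by
    obtain ⟨S, h1, h2, h3⟩ := hu
    have h4 := ecount_ext S ω
    obtain ⟨h5, h6⟩ := card_pre S
    have h7 := ecount_le (univ.filter (fun x : Fin n => x.castSucc ∈ S)) ω
    by_cases h8 : 4 ≤ (univ.filter (fun x : Fin n => x.castSucc ∈ S)).card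
    · exact ⟨_, h8, h5.trans h2, by omega⟩
    · exfalso
      have h9 : (univ.filter (fun x : Fin n => x.castSucc ∈ S)).card = 3 := by omega
      rw [h9] at h7
      have h10 : Nat.choose 3 2 = 3 := by decide
      omega
  diag n ω e he hu := by
    obtain ⟨S, h1, h2, h3⟩ := hu
    rw [ecount_diag he] at h3
    exact ⟨S, h1, h2, h3⟩

theorem fam_LD (d m1 : ℕ) : Fam (fun n (ω : Om n) => LD d m1 ω) where
  mono n ω ω' h hu := by
    obtain ⟨S, h1, h2⟩ := hu
    exact ⟨S, h1, h2.trans (einc_mono h)⟩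
  inv m n ι hι ω hu := by
    obtain ⟨S, h1, h2⟩ := hu
    refine ⟨S.image ι, ?_, h2.trans (einc_pull hι S ω)⟩
    rwa [card_image_of_injective _ hι]
  iso n ω hu := by
    obtain ⟨S, h1, h2⟩ := hu
    exact ⟨_, (card_pre S).1.trans h1, h2.trans (einc_ext S ω)⟩
  diag n ω e he hu := by
    obtain ⟨S, h1, h2⟩ := hu
    rw [einc_diag he] at h2
    exact ⟨S, h1, h2⟩

end FA

theorem FA_thm : T_fam := by
  intro k m0 d m1 hk _
  have hSL : Fam (SL m0 d m1) := FA.Fam_or (FA.fam_SD m0) (FA.fam_LD d m1)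
  exact ⟨FA.Fam_or (FA.fam_dead hk) (FA.Fam_or (FA.fam_HasU hk) hSL), hSL⟩

end

end Pool.Agent.H624U
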