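import Pool.Agent.H624U.Basic
import Pool.Agent.H624U.Defs2
import Pool.Agent.H624C.CM

/-!
# Second moment argument (task FN)
-/

set_option autoImplicit false

namespace Pool.Agent.H624U

open Finset Pool.Agent.H624C
open scoped Classical

namespace FN

/-- the set of ordered triangles -/
noncomputable def TS {n : ℕ} (ω : Om n) : Finset (Fin n × Fin n × Fin n) :=
  univ.filter (fun q => q.1 ≠ q.2.1 ∧ q.2.1 ≠ q.2.2 ∧ q.1 ≠ q.2.2 ∧
    s(q.1, q.2.1) ∈ ω ∧ s(q.2.1, q.2.2) ∈ ω ∧ s(q.1, q.2.2) ∈ ω)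

theorem tri_eq {n : ℕ} (ω : Om n) : tri ω = (TS ω).card := by
  unfold tri TS
  congr

theorem card_Rts (k l : ℕ) : Fintype.card (Rts k l) = 3 * Fintype.card (Gad k l) + 1 := by
  rw [Fintype.card_option, Fintype.card_prod, Fintype.card_fin, mul_comm]

theorem exists_split {k l n n' : ℕ} (hn : n' = n + Fintype.card (Rts k l))
    (ρ : Rts k l ↪ Fin n') : ∃ ι : Fin n → Fin n', Split ι ρ := by
  have hc : Fintype.card {z : Fin n' // z ∉ Set.range ρ} = n := by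
    have h1 := Fintype.card_subtype_compl (fun z : Fin n' => z ∈ Set.range ρ)
    have h2 : Fintype.card {z : Fin n' // z ∈ Set.range ρ} = Fintype.card (Rts k l) :=
      Set.card_range_of_injective ρ.injective
    rw [h2, Fintype.card_fin] at h1
    omega
  set e := Fintype.equivFinOfCardEq hc
  refine ⟨fun x => (e.symm x).1, ?_, ρ.injective, ?_, ?_⟩
  · intro x y hxy
    exact e.symm.injective (Subtype.ext hxy)
  · intro x r h
    exact (e.symm x).2 ⟨r, h.symm⟩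
  · intro z
    by_cases hz : z ∈ Set.range ρ
    · obtain ⟨r, hr⟩ := hz
      exact Or.inr ⟨r, hr.symm⟩
    · exact Or.inl ⟨e ⟨z, hz⟩, by simp⟩

theorem op_pull {n n' M : ℕ} (ι : Fin n → Fin n') (t : ℕ) (T : Lab n' M) :
    op t (fun e => T (e.map ι)) = pull ι (op t T) := by
  ext e
  simp [op, pull]

theorem op_mono {n M s t : ℕ} (h : s ≤ t) (T : Lab n M) : op s T ⊆ op t T := by
  intro e he
  simp only [op, mem_filter, mem_univ, true_and] at he ⊢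
  omega

/-- the number of embeddings with planted triangles -/
theorem card_emb {k l n' : ℕ} (ω : Om n') (P : (Rts k l ↪ Fin n') → Prop)
    (hP : ∀ ρ, P ρ → ∀ (φ : Gad k l) (j j' : Fin 3), j ≠ j' →
      s(ρ (some (φ, j)), ρ (some (φ, j'))) ∈ ω) :
    (univ.filter P).card ≤ n' * tri ω ^ Fintype.card (Gad k l) := by
  have h1 : ((univ : Finset (Fin n')) ×ˢ Fintype.piFinset (fun _ : Gad k l => TS ω)).card =
      n' * tri ω ^ Fintype.card (Gad k l) := by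
    rw [card_product, card_univ, Fintype.card_fin, Fintype.card_piFinset, prod_const, card_univ,
      tri_eq]
  rw [← h1]
  refine card_le_card_of_injOn (fun ρ => (ρ none, fun φ =>
    (ρ (some (φ, 0)), ρ (some (φ, 1)), ρ (some (φ, 2))))) ?_ ?_
  · intro ρ hρ
    rw [coe_filter, Set.mem_ofPred_eq] at hρ
    have h := hP ρ hρ.2
    simp only [coe_product, Set.mem_prod, coe_univ, Set.mem_univ, true_and, mem_coe,
      Fintype.mem_piFinset]
    intro φ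
    unfold TS
    rw [mem_filter]
    refine ⟨mem_univ _, ?_, ?_, ?_, h φ 0 1 (by decide), h φ 1 2 (by decide),
      h φ 0 2 (by decide)⟩
    · intro h'
      have := ρ.injective h'
      simp at this
    · intro h'
      have := ρ.injective h'
      simp at this
    · intro h'
      have := ρ.injective h'
      simp at this
  · intro ρ _ ρ' _ h
    simp only [Prod.mk.injEq] at h
    obtain ⟨h1, h2⟩ := h
    ext r
    rcases r with _ | ⟨φ, j⟩
    · rw [h1]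
    · have h3 := congrFun h2 φ
      simp only [Prod.mk.injEq] at h3
      fin_cases j
      · exact congrArg _ h3.1
      · exact congrArg _ h3.2.1
      · exact congrArg _ h3.2.2

theorem core {k l n n' M t0 t1 : ℕ} {c c8 C : ℝ} {m0 d m1 : ℕ} (hk : 3 ≤ k) (hdet : T_det)
    (hn : n' = n + Fintype.card (Rts k l)) (hn2 : 2 * Fintype.card (Rts k l) ≤ n') (hM : 0 < M)
    (ht1 : t1 ≤ M) (hc8 : 0 < c8) (hC : 0 < C)
    (hprb : ∀ (ι : Fin n → Fin n') (ρ : Rts k l → Fin n'), Split ι ρ →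
      c8 * (M : ℝ) ^ nI n' ≤ (n' : ℝ) ^ (3 * Fintype.card (Gad k l)) *
      ∑ T : Lab n' M, ind (∃ w y, (∃ t, t0 ≤ t ∧ t < t1 ∧
        Dat k m0 d m1 l c (op t (fun e => T (e.map ι))) w y) ∧
        ∀ t, t0 ≤ t → t < t1 → Planted ι ρ w y (op t T)))
    (htri : E ((t1 : ℝ) / M) (fun ω : Om n' => (tri ω : ℝ) ^ (2 * Fintype.card (Gad k l))) ≤ C) :
    (c8 / 2 ^ Fintype.card (Rts k l)) ^ 2 / C ≤
      (∑ T : Lab n' M, ind (∃ t : ℕ, ¬ KAliveU k (op t T) ∧ ¬ HasU k (op t T))) /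
        (M : ℝ) ^ nI n' := by
  set u := Fintype.card (Gad k l) with hu
  have hr := card_Rts k l
  rw [← hu] at hr
  choose ι hι using fun ρ : Rts k l ↪ Fin n' => exists_split hn ρ
  set Ev : (Rts k l ↪ Fin n') → Lab n' M → Prop := fun ρ T =>
    ∃ w y, (∃ t, t0 ≤ t ∧ t < t1 ∧
        Dat k m0 d m1 l c (op t (fun e => T (e.map (ι ρ)))) w y) ∧
        ∀ t, t0 ≤ t → t < t1 → Planted (ι ρ) ρ w y (op t T) with hEv
  set GG : Lab n' M → Prop := fun T => ∃ t : ℕ, ¬ KAliveU k (op t T) ∧ ¬ HasU k (op t T) with hGG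
  have hEG : ∀ ρ T, Ev ρ T → GG T := by
    rintro ρ T ⟨w, y, ⟨t, h1, h2, h3⟩, h4⟩
    rw [op_pull] at h3
    exact ⟨t, hdet k m0 d m1 l c n n' (ι ρ) ρ w y (op t T) hk (hι ρ) (h4 t h1 h2) h3⟩
  have hET : ∀ ρ T, Ev ρ T → ∀ (φ : Gad k l) (j j' : Fin 3), j ≠ j' →
      s(ρ (some (φ, j)), ρ (some (φ, j'))) ∈ op t1 T := by
    rintro ρ T ⟨w, y, ⟨t, h1, h2, h3⟩, h4⟩ φ j j' hjj
    refine op_mono h2.le T ?_
    exact ((h4 t h1 h2).2.2 (some (φ, j)) (some (φ, j')) (by simp [hjj])).2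
      ⟨φ, j, j', rfl, rfl⟩
  -- the lower bound
  have hMp : (0 : ℝ) < (M : ℝ) ^ nI n' := by
    have : (0 : ℝ) < M := by exact_mod_cast hM
    positivity
  have hn0 : 0 < n' := by omega
  have hn0' : (0 : ℝ) < n' := by exact_mod_cast hn0
  have hcard : ((n' : ℝ) / 2) ^ (3 * u + 1) ≤ Fintype.card (Rts k l ↪ Fin n') := by
    rw [Fintype.card_embedding_eq, Fintype.card_fin, hr]
    have h1 := Nat.pow_sub_le_descFactorial n' (3 * u + 1)
    have h2 : ((n' : ℝ) / 2) ≤ ((n' + 1 - (3 * u + 1) : ℕ) : ℝ) := by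
      rw [Nat.cast_sub (by omega)]
      push_cast
      have h3 : (2 * (3 * (u : ℝ) + 1)) ≤ n' := by exact_mod_cast (by omega : 2 * (3 * u + 1) ≤ n')
      linarith
    calc ((n' : ℝ) / 2) ^ (3 * u + 1) ≤ ((n' + 1 - (3 * u + 1) : ℕ) : ℝ) ^ (3 * u + 1) := by
          gcongr
      _ ≤ (n'.descFactorial (3 * u + 1) : ℝ) := by exact_mod_cast h1
  have hlow : c8 / 2 ^ (3 * u + 1) * n' * (M : ℝ) ^ nI n' ≤
      ∑ T : Lab n' M, ∑ ρ : Rts k l ↪ Fin n', ind (Ev ρ T) := by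
    have h1 : ∑ _ρ : Rts k l ↪ Fin n', c8 * (M : ℝ) ^ nI n' ≤
        ∑ ρ : Rts k l ↪ Fin n', (n' : ℝ) ^ (3 * u) * ∑ T : Lab n' M, ind (Ev ρ T) :=
      sum_le_sum fun ρ _ => hprb (ι ρ) ρ (hι ρ)
    rw [sum_const, card_univ, nsmul_eq_mul, ← mul_sum, sum_comm] at h1
    have h2 : ((n' : ℝ) / 2) ^ (3 * u + 1) * (c8 * (M : ℝ) ^ nI n') ≤
        (n' : ℝ) ^ (3 * u) * ∑ T : Lab n' M, ∑ ρ : Rts k l ↪ Fin n', ind (Ev ρ T) :=
      le_trans (mul_le_mul_of_nonneg_right hcard (by positivity)) h1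
    have h3 : ((n' : ℝ) / 2) ^ (3 * u + 1) * (c8 * (M : ℝ) ^ nI n') =
        (n' : ℝ) ^ (3 * u) * (c8 / 2 ^ (3 * u + 1) * n' * (M : ℝ) ^ nI n') := by
      rw [div_pow, pow_succ (n' : ℝ)]
      field_simp
    rw [h3] at h2
    exact le_of_mul_le_mul_left h2 (by positivity)
  -- the upper bound
  have hup : ∀ T : Lab n' M, ∑ ρ : Rts k l ↪ Fin n', ind (Ev ρ T) ≤
      n' * ((tri (op t1 T) : ℝ) ^ u * ind (GG T)) := by
    intro T
    by_cases hG : GG T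
    · rw [ind_true hG, mul_one, ← card_filter_eq_sum_ind]
      have := card_emb (op t1 T) (fun ρ => Ev ρ T) (fun ρ h => hET ρ T h)
      exact_mod_cast this
    · rw [ind_false hG, mul_zero, mul_zero]
      refine le_of_eq (sum_eq_zero fun ρ _ => ind_false fun h => hG (hEG ρ T h))
  have hsum : c8 / 2 ^ (3 * u + 1) * n' * (M : ℝ) ^ nI n' ≤
      n' * ∑ T : Lab n' M, (tri (op t1 T) : ℝ) ^ u * ind (GG T) := by
    rw [mul_sum]
    exact hlow.trans (sum_le_sum fun T _ => hup T)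
  have hsum2 : c8 / 2 ^ (3 * u + 1) * (M : ℝ) ^ nI n' ≤
      ∑ T : Lab n' M, (tri (op t1 T) : ℝ) ^ u * ind (GG T) := by
    refine le_of_mul_le_mul_left ?_ hn0'
    calc (n' : ℝ) * (c8 / 2 ^ (3 * u + 1) * (M : ℝ) ^ nI n') =
        c8 / 2 ^ (3 * u + 1) * n' * (M : ℝ) ^ nI n' := by ring
      _ ≤ _ := hsum
  have hcs := sum_mul_sq_le_sq_mul_sq (univ : Finset (Lab n' M))
    (fun T => (tri (op t1 T) : ℝ) ^ u) (fun T => ind (GG T))
  have e1 : ∑ T : Lab n' M, ((tri (op t1 T) : ℝ) ^ u) ^ 2 ≤ (M : ℝ) ^ nI n' * C := by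
    have h1 := CM_label n' M t1 hM ht1 (fun ω : Om n' => (tri ω : ℝ) ^ (2 * u))
    have h2 : ∑ T : Lab n' M, ((tri (op t1 T) : ℝ) ^ u) ^ 2 =
        ∑ T : Lab n' M, (tri (op t1 T) : ℝ) ^ (2 * u) :=
      sum_congr rfl fun T _ => by rw [← pow_mul, mul_comm u 2]
    rw [h2, h1]
    gcongr
  have e2 : ∑ T : Lab n' M, ind (GG T) ^ 2 = ∑ T : Lab n' M, ind (GG T) :=
    sum_congr rfl fun T _ => by
      by_cases h : GG T
      · rw [ind_true h]; norm_num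
      · rw [ind_false h]; norm_num
  rw [e2] at hcs
  set S := ∑ T : Lab n' M, ind (GG T) with hS
  have hS0 : 0 ≤ S := sum_nonneg fun T _ => ind_nonneg _
  have hfin : (c8 / 2 ^ (3 * u + 1)) ^ 2 * ((M : ℝ) ^ nI n' * (M : ℝ) ^ nI n') ≤
      ((M : ℝ) ^ nI n' * C) * S := by
    calc (c8 / 2 ^ (3 * u + 1)) ^ 2 * ((M : ℝ) ^ nI n' * (M : ℝ) ^ nI n') =
        (c8 / 2 ^ (3 * u + 1) * (M : ℝ) ^ nI n') ^ 2 := by ring
      _ ≤ (∑ T : Lab n' M, (tri (op t1 T) : ℝ) ^ u * ind (GG T)) ^ 2 := by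
          gcongr
      _ ≤ _ := hcs.trans (mul_le_mul_of_nonneg_right e1 hS0)
  rw [hr, div_le_div_iff₀ hC hMp]
  refine le_of_mul_le_mul_left ?_ hMp
  calc (M : ℝ) ^ nI n' * ((c8 / 2 ^ (3 * u + 1)) ^ 2 * (M : ℝ) ^ nI n') =
      (c8 / 2 ^ (3 * u + 1)) ^ 2 * ((M : ℝ) ^ nI n' * (M : ℝ) ^ nI n') := by ring
    _ ≤ ((M : ℝ) ^ nI n' * C) * S := hfin
    _ = (M : ℝ) ^ nI n' * (S * C) := by ring

theorem exists_min (g : ℕ → ℝ) (hg : ∀ l, 0 < g l) (D : ℕ) :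
    ∃ γ : ℝ, 0 < γ ∧ ∀ l ≤ D, γ ≤ g l := by
  induction D with
  | zero => exact ⟨g 0, hg 0, fun l hl => by rw [Nat.le_zero.1 hl]⟩
  | succ D ih =>
    obtain ⟨γ, hγ, h⟩ := ih
    refine ⟨min γ (g (D + 1)), lt_min hγ (hg _), fun l hl => ?_⟩
    rcases Nat.lt_or_ge D l with h1 | h1
    · have : l = D + 1 := by omega
      rw [this]
      exact min_le_right _ _
    · exact (min_le_left _ _).trans (h l h1)

theorem exists_max (g : ℕ → ℕ) (D : ℕ) : ∃ N : ℕ, ∀ l ≤ D, g l ≤ N :=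
  ⟨∑ l ∈ range (D + 1), g l, fun l hl =>
    single_le_sum (f := g) (fun _ _ => Nat.zero_le _) (mem_range.2 (by omega))⟩

end FN

open FN in
/-- W7 -/
theorem FN_thm (h1 : T_vis) (h2 : T_prb) (h3 : T_det) (h4 : T_tri) : T_fin := by
  intro k hk
  obtain ⟨R, Λ, ε, c, c7, D, n1, hR, hε, hεΛ, hc, hc7, hvis⟩ := h1 k hk
  have hΛ : 0 < Λ := hε.trans hεΛ
  have hR' : (1 : ℝ) ≤ R := by exact_mod_cast hR
  choose c8 n0 hc8 hprb using fun l => h2 k l ε (R * Λ) c7 hk hε (by positivity) hc7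
  choose C hC htri using fun l =>
    h4 ((R + 1) * Λ) (2 * Fintype.card (Gad k l)) (by positivity)
  obtain ⟨γ, hγ, hγ'⟩ := exists_min (fun l => (c8 l / 2 ^ Fintype.card (Rts k l)) ^ 2 / C l)
    (fun l => by have := hc8 l; have := hC l; positivity) D
  obtain ⟨N1, hN1⟩ := exists_max n0 D
  obtain ⟨N2, hN2⟩ := exists_max (fun l => 2 * Fintype.card (Rts k l)) D
  refine ⟨γ, hγ, fun N0 => ?_⟩
  set N := N0 + n1 + N1 + N2 + ⌈Λ⌉₊ + ⌈(Λ - ε)⁻¹⌉₊ + 1 with hN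
  have hNpos : 0 < N := by omega
  set M := (R * N) ^ 5 with hM
  have hMpos : 0 < M := by positivity
  obtain ⟨n, hn1, hn2, m0, d, m1, l, hl1, hlD, hbig⟩ := hvis N (by omega) M le_rfl
    ⌈ε * M / N⌉₊ ⌊Λ * M / N⌋₊ rfl rfl
  set t0 := ⌈ε * M / N⌉₊ with ht0
  set t1 := ⌊Λ * M / N⌋₊ with ht1
  have hNR : (0 : ℝ) < N := by exact_mod_cast hNpos
  have hMR : (0 : ℝ) < M := by exact_mod_cast hMpos
  have hN3 : Λ ≤ N := by
    have h5 : (⌈Λ⌉₊ : ℝ) ≤ N := by exact_mod_cast (by omega : ⌈Λ⌉₊ ≤ N)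
    exact (Nat.le_ceil _).trans h5
  have hN4 : (Λ - ε)⁻¹ ≤ N := by
    have h5 : (⌈(Λ - ε)⁻¹⌉₊ : ℝ) ≤ N := by exact_mod_cast (by omega : ⌈(Λ - ε)⁻¹⌉₊ ≤ N)
    exact (Nat.le_ceil _).trans h5
  have hMN : (N : ℝ) ≤ M / N := by
    rw [le_div_iff₀ hNR]
    have h5 : N * N ≤ M := by
      calc N * N = N ^ 2 := by ring
        _ ≤ N ^ 5 := Nat.pow_le_pow_right hNpos (by norm_num)
        _ ≤ (R * N) ^ 5 := Nat.pow_le_pow_left (Nat.le_mul_of_pos_left N hR) 5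
    exact_mod_cast h5
  have hx0 : (0 : ℝ) ≤ Λ * M / N := by positivity
  have ht1N : (t1 : ℝ) * N ≤ Λ * M := by
    have := Nat.floor_le hx0
    rw [le_div_iff₀ hNR] at this
    exact this
  have ht0N : ε * M ≤ (t0 : ℝ) * N := by
    have := Nat.le_ceil (ε * M / N)
    rw [div_le_iff₀ hNR] at this
    exact this
  have ht01 : t0 ≤ t1 := by
    refine Nat.le_floor ?_
    have h5 := Nat.ceil_lt_add_one (a := ε * M / N) (by positivity)
    have h6 : 1 ≤ (Λ - ε) * (M / N) := by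
      have h7 : 0 < Λ - ε := by linarith
      have h8 := hN4.trans hMN
      rw [inv_le_iff_one_le_mul₀ h7] at h8
      linarith
    have h9 : ε * M / N + 1 ≤ Λ * M / N := by
      rw [mul_div_assoc, mul_div_assoc]
      linarith
    linarith
  have hnN : (N : ℝ) ≤ n := by exact_mod_cast hn1
  have hnRN : (n : ℝ) ≤ R * N := by exact_mod_cast hn2.le
  have ht1M : t1 ≤ M := by
    have h5 : (t1 : ℝ) * N ≤ M * N := ht1N.trans (by nlinarith)
    exact_mod_cast le_of_mul_le_mul_right h5 hNR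
  have ht1n : (t1 : ℝ) * n ≤ R * Λ * M := by
    calc (t1 : ℝ) * n ≤ t1 * (R * N) := by gcongr
      _ = R * (t1 * N) := by ring
      _ ≤ R * (Λ * M) := by gcongr
      _ = R * Λ * M := by ring
  have hN2l : 2 * Fintype.card (Rts k l) ≤ N2 := hN2 l hlD
  have hN1l : n0 l ≤ N1 := hN1 l hlD
  refine ⟨n + Fintype.card (Rts k l), by omega, M, hMpos, (hγ' l hlD).trans ?_⟩
  refine core (m0 := m0) (d := d) (m1 := m1) (c := c) (t0 := t0) (t1 := t1) (n := n) hk h3 rfl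
    (by omega) hMpos ht1M (hc8 l) (hC l) ?_ ?_
  · intro ι ρ hs
    exact hprb l n (by omega) _ rfl M t0 t1 hMpos ht01 (ht0N.trans (by gcongr)) ht1n
      (fun w y T => ∃ t, t0 ≤ t ∧ t < t1 ∧ Dat k m0 d m1 l c (op t T) w y) hbig ι ρ hs
  · refine htri l _ _ (by positivity) ?_ ?_
    · rw [div_le_one hMR]
      exact_mod_cast ht1M
    · rw [div_mul_eq_mul_div, div_le_iff₀ hMR]
      push_cast
      have h5 : (Fintype.card (Rts k l) : ℝ) ≤ N := by
        exact_mod_cast (by omega : Fintype.card (Rts k l) ≤ N)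
      calc (t1 : ℝ) * (n + Fintype.card (Rts k l)) =
          t1 * n + t1 * Fintype.card (Rts k l) := by ring
        _ ≤ R * Λ * M + t1 * N := by gcongr
        _ ≤ R * Λ * M + Λ * M := by gcongr
        _ = (R + 1) * Λ * M := by ring

end Pool.Agent.H624U
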