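import Pool.Agent.H624U.Basic
import Pool.Agent.H624U.Defs2
import Pool.Agent.H624C.GO

/-!
# GD: good times
-/

set_option autoImplicit false

namespace Pool.Agent.H624U

open Finset Pool.Agent.H624C
open scoped Classical

noncomputable section

namespace GD

variable {n : ℕ}

theorem alive_of_ext {k : ℕ} {ω : Om n} {Y : Finset (Fin n)} (h : KAliveU k (ext ω Y)) :
    KAliveU k ω := by
  obtain ⟨σ, hσ, -⟩ := h
  refine ⟨fun a => σ a.castSucc, ?_, Set.mem_univ _⟩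
  intro a _ b _ hab hm
  apply hσ a.castSucc (mem_univ _) b.castSucc (mem_univ _)
  · intro h
    exact hab (Fin.castSucc_injective n h)
  · unfold ext
    refine mem_union_left _ (mem_image.2 ⟨s(a, b), hm, ?_⟩)
    rfl

/-- a third colour -/
theorem third {k : ℕ} (hk : 3 ≤ k) (a b : Fin k) : ∃ c : Fin k, c ≠ a ∧ c ≠ b := by
  by_contra hcon
  push Not at hcon
  have h : (univ : Finset (Fin k)) ⊆ {a, b} := by
    intro c _
    rw [mem_insert, mem_singleton]
    by_cases hca : c = a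
    · exact Or.inl hca
    · exact Or.inr (hcon c hca)
  have h2 := card_le_card h
  rw [card_univ, Fintype.card_fin] at h2
  have h3 : ({a, b} : Finset (Fin k)).card ≤ 2 := card_le_two
  omega

/-- good `l`-tuples -/
def Bp (k d l : ℕ) (ω : Om n) (u : Fin l → Fin n) : Prop :=
  KAliveU k ω ∧ d ^ k ≤ Kmrg k (Set.univ : Set (KCol k n)) univ (univ.image u) ω

def bc (k d l : ℕ) (ω : Om n) : ℕ :=
  ((univ : Finset (Fin l → Fin n)).filter (Bp k d l ω)).card

theorem DG_le_cnt (hJ : T_jump) {k m0 d m1 l : ℕ} (hk : 3 ≤ k) (hT : Thr k m0 d m1) (hd : d ≤ n)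
    (ω : Om n) :
    DG k m0 d m1 l ω ≤ ((univ : Finset (Fin (l + 1) → Fin n)).filter
      (fun a => ∀ i : Fin (l + 1), Bp k d l ω (fun j => a (i.succAbove j)))).card := by
  unfold DG
  apply Finset.card_le_card_of_injOn (fun q => (Fin.cons q.2 q.1 : Fin (l + 1) → Fin n))
  · intro q hq
    obtain ⟨-, h1, h2, h3⟩ := Finset.mem_filter.1 hq
    have hal : KAliveU k ω := by
      apply alive_of_ext (Y := univ.image q.1)
      by_contra hcon
      exact h1 (Or.inl hcon)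
    obtain ⟨hj, -⟩ := hJ k m0 d m1 n ω _ hk hT hd h2 h3
    refine Finset.mem_filter.2 ⟨mem_univ _, fun i => ⟨hal, hj.trans ?_⟩⟩
    unfold g2 Kmrg
    apply card_le_card
    intro w hw
    obtain ⟨-, hw⟩ := Finset.mem_filter.1 hw
    refine Finset.mem_filter.2 ⟨mem_univ _, fun _ => mem_univ _, ?_⟩
    intro σ hσ hc
    obtain ⟨s, hs⟩ := hc
    rcases hw σ hσ with h4 | h4
    · exfalso
      obtain ⟨c, hc1, hc2⟩ := third hk s (σ ((Fin.cons q.2 q.1 : Fin (l + 1) → Fin n) i))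
      obtain ⟨y, hy, hyc⟩ := h4 c
      obtain ⟨j, rfl⟩ : ∃ j, (Fin.cons q.2 q.1 : Fin (l + 1) → Fin n) j = y := by
        rcases Finset.mem_insert.1 hy with h | h
        · exact ⟨0, by simp [h]⟩
        · obtain ⟨j, -, hj⟩ := Finset.mem_image.1 h
          exact ⟨j.succ, by simpa using hj⟩
      by_cases hji : j = i
      · subst hji
        exact hc2 hyc.symm
      · obtain ⟨j', rfl⟩ := Fin.exists_succAbove_eq hji
        exact hc1 (by
          rw [← hyc]
          exact hs _ (Finset.mem_image.2 ⟨j', mem_univ _, rfl⟩))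
    · exact h4
  · intro q _ q' _ h
    have h' := Fin.cons_injective2 h
    exact Prod.ext h'.2 h'.1

theorem DG_pow_le (hJ : T_jump) {k m0 d m1 l : ℕ} (hk : 3 ≤ k) (hT : Thr k m0 d m1) (hd : d ≤ n)
    (hl : 1 ≤ l) (ω : Om n) :
    (DG k m0 d m1 l ω : ℝ) ^ l ≤ (bc k d l ω : ℝ) ^ (l + 1) := by
  obtain ⟨j, rfl⟩ : ∃ j, l = j + 1 := ⟨l - 1, by omega⟩
  have h1 := GO.lw j (Bp k d (j + 1) ω)
  have h2 := DG_le_cnt hJ (l := j + 1) hk hT hd ω
  have h3 : (DG k m0 d m1 (j + 1) ω : ℝ) ≤ _ := Nat.cast_le.2 h2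
  exact le_trans (pow_le_pow_left₀ (Nat.cast_nonneg _) h3 _) h1

theorem DG_le (k m0 d m1 l : ℕ) (ω : Om n) : DG k m0 d m1 l ω ≤ n ^ (l + 1) := by
  unfold DG
  calc _ ≤ (univ : Finset ((Fin l → Fin n) × Fin n)).card := card_filter_le _ _
    _ = n ^ (l + 1) := by
      rw [card_univ, Fintype.card_prod, Fintype.card_fun, Fintype.card_fin, Fintype.card_fin,
        pow_succ]

theorem bc_le (k d l : ℕ) (ω : Om n) :
    (d : ℝ) ^ k * (bc k d l ω : ℝ) ≤ ∑ u : Fin l → Fin n, ind (KAliveU k ω) *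
      (Kmrg k (Set.univ : Set (KCol k n)) univ (univ.image u) ω : ℝ) := by
  unfold bc
  rw [card_filter_eq_sum_ind, Finset.mul_sum]
  apply Finset.sum_le_sum
  intro u _
  by_cases h : Bp k d l ω u
  · rw [ind_true h, ind_true h.1, mul_one, one_mul]
    exact_mod_cast h.2
  · rw [ind_false h, mul_zero]
    exact mul_nonneg (ind_nonneg _) (Nat.cast_nonneg _)

end GD

open GD in
theorem GD_thm (h1 : T_mass) (h2 : T_jump) (h3 : T_mrg) (h4 : T_ks) : T_good := by
  intro k hk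
  obtain ⟨R, Λ, ε, c, δ, D, n0, hR, hε, hεΛ, hc, hδ, H⟩ := h1 k hk
  have hΛ : 0 < Λ := lt_trans hε hεΛ
  have hRr : (0 : ℝ) < R := by exact_mod_cast hR
  have hΛ' : 0 < R * Λ := by positivity
  obtain ⟨C, hC0, hC⟩ := h3 k k D (R * Λ) hk hΛ'
  set δ1 : ℝ := δ ^ k with hδ1
  have hδ1p : 0 < δ1 := by positivity
  set y : ℝ := min 1 (c * δ1 / (2 * (C + 1))) with hy
  have hy0 : 0 < y := lt_min one_pos (by positivity)
  have hy1 : y ≤ 1 := min_le_left _ _
  have hyC : y * (C / δ1) ≤ c / 2 := by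
    have h5 : y * C ≤ c * δ1 / 2 := by
      calc y * C ≤ (c * δ1 / (2 * (C + 1))) * (C + 1) :=
            mul_le_mul (min_le_right _ _) (by linarith) hC0 (by positivity)
        _ = c * δ1 / 2 := by field_simp
    rw [← mul_div_assoc, div_le_iff₀ hδ1p]
    linarith
  refine ⟨R, Λ, ε, y ^ (D + 1), c / 2, δ, D, max n0 (max 2 (⌈2 * (R * Λ)⌉₊)), hR, hε, hεΛ,
    by positivity, by positivity, hδ, ?_⟩
  intro N hN M hM t0 t1 ht0 ht1
  have hN0 : n0 ≤ N := le_trans (le_max_left _ _) hN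
  have hN2 : 2 ≤ N := le_trans (le_trans (le_max_left _ _) (le_max_right _ _)) hN
  have hNΛ : 2 * (R * Λ) ≤ (N : ℝ) := by
    have : ⌈2 * (R * Λ)⌉₊ ≤ N := le_trans (le_trans (le_max_right _ _) (le_max_right _ _)) hN
    exact le_trans (Nat.le_ceil _) (by exact_mod_cast this)
  obtain ⟨n, hn1, hn2, m0, d, m1, l, hT, hdn, hδd, hl1, hlD, hl⟩ := H N hN0 M hM t0 t1 ht0 ht1
  refine ⟨n, hn1, hn2, m0, d, m1, l, hT, hdn, hδd, hl1, hlD, ?_⟩
  have hNr : (0 : ℝ) < N := by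
    have : 0 < N := by omega
    exact_mod_cast this
  have hn0 : 0 < n := by omega
  have hnpos : (0 : ℝ) < n := by exact_mod_cast hn0
  have hnΛ : 2 * (R * Λ) ≤ (n : ℝ) := hNΛ.trans (by exact_mod_cast hn1)
  have hMpos : 0 < M := lt_of_lt_of_le (by positivity) hM
  have hMr : (0 : ℝ) < M := by exact_mod_cast hMpos
  have hnM : n ^ 5 ≤ M := le_trans (Nat.pow_le_pow_left hn2.le 5) hM
  have ht1' : (t1 : ℝ) * n ≤ (R * Λ) * M := by
    have h5 : (t1 : ℝ) ≤ Λ * M / N := by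
      rw [ht1]; exact Nat.floor_le (by positivity)
    have h6 : (n : ℝ) ≤ R * N := by exact_mod_cast hn2.le
    calc (t1 : ℝ) * n ≤ (Λ * M / N) * (R * N) := mul_le_mul h5 h6 hnpos.le (by positivity)
      _ = (R * Λ) * M := by field_simp
  have ht12 : 2 * t1 ≤ M := by
    have h5 : (2 * (t1 : ℝ)) * n ≤ M * n := by
      calc (2 * (t1 : ℝ)) * n = 2 * ((t1 : ℝ) * n) := by ring
        _ ≤ 2 * ((R * Λ) * M) := by linarith
        _ = (2 * (R * Λ)) * M := by ring
        _ ≤ n * M := mul_le_mul_of_nonneg_right hnΛ hMr.le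
        _ = M * n := by ring
    have h6 : 2 * (t1 : ℝ) ≤ M := le_of_mul_le_mul_right h5 hnpos
    exact_mod_cast h6
  have hKS : KKS k n M t1 := h4 k n M t1 hn0 hnM (by omega)
  have hStd : Std (R * Λ) k n M t1 := ⟨hn0, hnΛ, hMpos, ht1', hKS⟩
  have hdk : δ1 * (n : ℝ) ^ k ≤ (d : ℝ) ^ k := by
    rw [hδ1, ← mul_pow]
    exact pow_le_pow_left₀ (by positivity) hδd k
  -- the pointwise inequality
  have hpt : ∀ ω : Om n, (DG k m0 d m1 l ω : ℝ) / (n : ℝ) ^ (l + 1) ≤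
      ind (y ^ (D + 1) * (n : ℝ) ^ (l + 1) ≤ (DG k m0 d m1 l ω : ℝ)) +
        y * ((bc k d l ω : ℝ) / (n : ℝ) ^ l) := by
    intro ω
    by_cases hg : y ^ (D + 1) * (n : ℝ) ^ (l + 1) ≤ (DG k m0 d m1 l ω : ℝ)
    · rw [ind_true hg]
      have h5 : (DG k m0 d m1 l ω : ℝ) / (n : ℝ) ^ (l + 1) ≤ 1 := by
        rw [div_le_one (by positivity)]
        exact_mod_cast DG_le k m0 d m1 l ω
      have h6 : 0 ≤ y * ((bc k d l ω : ℝ) / (n : ℝ) ^ l) := by positivity
      linarith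
    · rw [ind_false hg, zero_add]
      push Not at hg
      apply GO.small_case l hl1 y n _ _ hy0.le hnpos (Nat.cast_nonneg _) (Nat.cast_nonneg _)
        (DG_pow_le h2 hk hT hdn hl1 ω)
      refine le_trans hg.le ?_
      apply mul_le_mul_of_nonneg_right _ (by positivity)
      exact pow_le_pow_of_le_one hy0.le hy1 (by omega)
  -- probabilities
  have hp : ∀ t ∈ Ico t0 t1, (0 : ℝ) ≤ (t : ℝ) / M ∧ (t : ℝ) / M ≤ 1 := by
    intro t ht
    have : t < t1 := (Finset.mem_Ico.1 ht).2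
    refine ⟨by positivity, ?_⟩
    rw [div_le_one hMr]
    exact_mod_cast (by omega : t ≤ M)
  have hp' : ∀ t ∈ range t1, (0 : ℝ) ≤ (t : ℝ) / M ∧ (t : ℝ) / M ≤ 1 := by
    intro t ht
    have : t < t1 := Finset.mem_range.1 ht
    refine ⟨by positivity, ?_⟩
    rw [div_le_one hMr]
    exact_mod_cast (by omega : t ≤ M)
  -- the sum of the densities of good tuples
  have hkap : (n : ℝ) ^ 2 * ∑ t ∈ Ico t0 t1, E ((t : ℝ) / M)
      (fun ω : Om n => (bc k d l ω : ℝ) / (n : ℝ) ^ l) ≤ C / δ1 * M := by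
    have h5 : ∑ t ∈ Ico t0 t1, E ((t : ℝ) / M) (fun ω : Om n => (bc k d l ω : ℝ) / (n : ℝ) ^ l) ≤
        ∑ t ∈ range t1, E ((t : ℝ) / M)
          (fun ω : Om n => (bc k d l ω : ℝ) / (n : ℝ) ^ l) := by
      apply Finset.sum_le_sum_of_subset_of_nonneg
      · intro t ht
        exact Finset.mem_range.2 (Finset.mem_Ico.1 ht).2
      · intro t ht _
        exact E_nonneg (hp' t ht).1 (hp' t ht).2 (fun ω => by positivity)
    have h6 : ∀ ω : Om n, (bc k d l ω : ℝ) / (n : ℝ) ^ l ≤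
        (δ1 * (n : ℝ) ^ k * (n : ℝ) ^ l)⁻¹ * ∑ u : Fin l → Fin n, ind (KAliveU k ω) *
          (Kmrg k (Set.univ : Set (KCol k n)) univ (univ.image u) ω : ℝ) := by
      intro ω
      have h7 := bc_le k d l ω
      have h8 : δ1 * (n : ℝ) ^ k * (bc k d l ω : ℝ) ≤ (d : ℝ) ^ k * (bc k d l ω : ℝ) :=
        mul_le_mul_of_nonneg_right hdk (Nat.cast_nonneg _)
      have h9 := h8.trans h7
      rw [← div_eq_inv_mul, div_le_div_iff₀ (by positivity) (by positivity)]
      calc (bc k d l ω : ℝ) * (δ1 * (n : ℝ) ^ k * (n : ℝ) ^ l)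
          = (δ1 * (n : ℝ) ^ k * (bc k d l ω : ℝ)) * (n : ℝ) ^ l := by ring
        _ ≤ _ := mul_le_mul_of_nonneg_right h9 (by positivity)
    have h7 : ∑ t ∈ range t1, E ((t : ℝ) / M)
          (fun ω : Om n => (bc k d l ω : ℝ) / (n : ℝ) ^ l) ≤
        (δ1 * (n : ℝ) ^ k * (n : ℝ) ^ l)⁻¹ * ∑ u : Fin l → Fin n, ∑ t ∈ range t1,
          E ((t : ℝ) / M) (fun ω => ind (KAliveU k ω) *
            (Kmrg k (Set.univ : Set (KCol k n)) univ (univ.image u) ω : ℝ)) := by
      calc _ ≤ ∑ t ∈ range t1, E ((t : ℝ) / M) (fun ω : Om n =>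
            (δ1 * (n : ℝ) ^ k * (n : ℝ) ^ l)⁻¹ * ∑ u : Fin l → Fin n, ind (KAliveU k ω) *
            (Kmrg k (Set.univ : Set (KCol k n)) univ (univ.image u) ω : ℝ)) :=
            Finset.sum_le_sum (fun t ht => E_mono (hp' t ht).1 (hp' t ht).2 h6)
        _ = _ := by
            rw [Finset.sum_comm, Finset.mul_sum]
            refine Finset.sum_congr rfl (fun t _ => ?_)
            rw [E_mul_left, E_sum]
    have h8 : ∀ u : Fin l → Fin n, ∑ t ∈ range t1,
          E ((t : ℝ) / M) (fun ω => ind (KAliveU k ω) *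
            (Kmrg k (Set.univ : Set (KCol k n)) univ (univ.image u) ω : ℝ)) ≤
          C * (n : ℝ) ^ k * M / (n : ℝ) ^ 2 := by
      intro u
      have h9 := hC n M t1 hStd (univ.image u) (by
        have := Finset.card_image_le (s := (univ : Finset (Fin l))) (f := u)
        simp at this
        omega)
      rw [le_div_iff₀ (by positivity)]
      rw [div_mul_eq_mul_div, div_le_iff₀ hMr] at h9
      linarith
    have h9 : ∑ u : Fin l → Fin n, ∑ t ∈ range t1,
          E ((t : ℝ) / M) (fun ω => ind (KAliveU k ω) *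
            (Kmrg k (Set.univ : Set (KCol k n)) univ (univ.image u) ω : ℝ)) ≤
          (n : ℝ) ^ l * (C * (n : ℝ) ^ k * M / (n : ℝ) ^ 2) := by
      calc _ ≤ ∑ _u : Fin l → Fin n, C * (n : ℝ) ^ k * M / (n : ℝ) ^ 2 :=
            Finset.sum_le_sum (fun u _ => h8 u)
        _ = _ := by
            rw [Finset.sum_const, card_univ, Fintype.card_fun, Fintype.card_fin, Fintype.card_fin,
              nsmul_eq_mul]
            push_cast
            rfl
    calc (n : ℝ) ^ 2 * ∑ t ∈ Ico t0 t1, E ((t : ℝ) / M)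
          (fun ω : Om n => (bc k d l ω : ℝ) / (n : ℝ) ^ l)
        ≤ (n : ℝ) ^ 2 * ((δ1 * (n : ℝ) ^ k * (n : ℝ) ^ l)⁻¹ *
            ((n : ℝ) ^ l * (C * (n : ℝ) ^ k * M / (n : ℝ) ^ 2))) := by
          apply mul_le_mul_of_nonneg_left _ (by positivity)
          refine (h5.trans h7).trans ?_
          exact mul_le_mul_of_nonneg_left h9 (by positivity)
      _ = C / δ1 * M := by field_simp
  -- conclusion
  have hmain : c * M ≤ (n : ℝ) ^ 2 * ∑ t ∈ Ico t0 t1, E ((t : ℝ) / M)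
        (fun ω : Om n => ind (y ^ (D + 1) * (n : ℝ) ^ (l + 1) ≤ (DG k m0 d m1 l ω : ℝ))) +
          y * (C / δ1 * M) := by
    calc c * M ≤ _ := hl
      _ ≤ (n : ℝ) ^ 2 * ∑ t ∈ Ico t0 t1, E ((t : ℝ) / M) (fun ω : Om n =>
            ind (y ^ (D + 1) * (n : ℝ) ^ (l + 1) ≤ (DG k m0 d m1 l ω : ℝ)) +
              y * ((bc k d l ω : ℝ) / (n : ℝ) ^ l)) := by
          apply mul_le_mul_of_nonneg_left _ (by positivity)
          exact Finset.sum_le_sum (fun t ht => E_mono (hp t ht).1 (hp t ht).2 hpt)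
      _ = (n : ℝ) ^ 2 * ∑ t ∈ Ico t0 t1, E ((t : ℝ) / M)
            (fun ω : Om n => ind (y ^ (D + 1) * (n : ℝ) ^ (l + 1) ≤ (DG k m0 d m1 l ω : ℝ))) +
          y * ((n : ℝ) ^ 2 * ∑ t ∈ Ico t0 t1, E ((t : ℝ) / M)
            (fun ω : Om n => (bc k d l ω : ℝ) / (n : ℝ) ^ l)) := by
          simp only [E_add, E_mul_left, Finset.sum_add_distrib, ← Finset.mul_sum]
          ring
      _ ≤ _ := by
          have := mul_le_mul_of_nonneg_left hkap hy0.le
          linarith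
  have h9 : y * (C / δ1 * M) ≤ c / 2 * M := by
    calc y * (C / δ1 * M) = (y * (C / δ1)) * M := by ring
      _ ≤ c / 2 * M := mul_le_mul_of_nonneg_right hyC hMr.le
  linarith

end

end Pool.Agent.H624U
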