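import Pool.Agent.H624U.Basic

/-!
# The hybrid inequality (task HY)
-/

set_option autoImplicit false

namespace Pool.Agent.H624U

open Finset Pool.Agent.H624C
open scoped Classical

namespace HY

variable {α : Type} [DecidableEq α] (p : ℝ) (F : Finset α → Prop)

/-- the weight of a subset of `s` -/
noncomputable def W (s N : Finset α) : ℝ := p ^ N.card * (1 - p) ^ (s.card - N.card)

theorem W_left {t N : Finset α} {a : α} (ha : a ∉ t) (hN : N ⊆ t) :
    W p (insert a t) N = (1 - p) * W p t N := by
  unfold W
  have h1 := card_le_card hN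
  rw [card_insert_of_notMem ha, Nat.succ_sub h1, pow_succ]
  ring

theorem W_right {t N : Finset α} {a : α} (ha : a ∉ t) (hN : N ⊆ t) :
    W p (insert a t) (insert a N) = p * W p t N := by
  unfold W
  rw [card_insert_of_notMem ha, card_insert_of_notMem (fun h => ha (hN h)), Nat.succ_sub_succ,
    pow_succ]
  ring

theorem W_nonneg (h0 : 0 ≤ p) (h1 : p < 1) (s N : Finset α) : 0 ≤ W p s N := by
  unfold W
  have : 0 ≤ 1 - p := by linarith
  positivity

theorem key (h0 : 0 ≤ p) (h1 : p < 1) (hF : ¬ F ∅) (s : Finset α) :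
    (1 - p) ^ s.card * ∑ N ∈ s.powerset, W p s N * ind (F N) ≤
      p * ∑ N ∈ s.powerset, W p s N * ∑ z ∈ s, ind (¬ F N ∧ F (insert z N)) := by
  have hq0 : 0 < 1 - p := by linarith
  have hq1 : 1 - p ≤ 1 := by linarith
  induction s using Finset.induction_on with
  | empty => simp [ind_false hF]
  | insert a t ha ih =>
    rw [sum_powerset_insert ha, sum_powerset_insert ha, card_insert_of_notMem ha]
    set L := ∑ N ∈ t.powerset, W p t N * ind (F N) with hL
    set D := ∑ N ∈ t.powerset, W p t N * ∑ z ∈ t, ind (¬ F N ∧ F (insert z N)) with hD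
    set A := ∑ N ∈ t.powerset, W p t N * ind (¬ F N ∧ F (insert a N)) with hA
    have hA0 : 0 ≤ A := sum_nonneg fun N _ => mul_nonneg (W_nonneg p h0 h1 _ _) (ind_nonneg _)
    have e1 : ∑ N ∈ t.powerset, W p (insert a t) N * ind (F N) +
        ∑ N ∈ t.powerset, W p (insert a t) (insert a N) * ind (F (insert a N)) ≤ L + p * A := by
      rw [← sum_add_distrib, hL, hA, mul_sum, ← sum_add_distrib]
      refine sum_le_sum fun N hN => ?_
      rw [W_left p ha (mem_powerset.1 hN), W_right p ha (mem_powerset.1 hN)]
      have hW := W_nonneg p h0 h1 t N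
      have h3 : ind (F (insert a N)) ≤ ind (F N) + ind (¬ F N ∧ F (insert a N)) := by
        by_cases hN1 : F N
        · rw [ind_true hN1]
          have := ind_le_one (F (insert a N))
          have := ind_nonneg (¬ F N ∧ F (insert a N))
          linarith
        · rw [ind_false hN1, zero_add]
          exact ind_mono fun h => ⟨hN1, h⟩
      have h4 : p * W p t N * ind (F (insert a N)) ≤
          p * W p t N * (ind (F N) + ind (¬ F N ∧ F (insert a N))) :=
        mul_le_mul_of_nonneg_left h3 (by positivity)
      linarith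
    have e2 : (1 - p) * (D + A) ≤ ∑ N ∈ t.powerset, W p (insert a t) N *
        ∑ z ∈ insert a t, ind (¬ F N ∧ F (insert z N)) +
        ∑ N ∈ t.powerset, W p (insert a t) (insert a N) *
          ∑ z ∈ insert a t, ind (¬ F (insert a N) ∧ F (insert z (insert a N))) := by
      have e3 : 0 ≤ ∑ N ∈ t.powerset, W p (insert a t) (insert a N) *
          ∑ z ∈ insert a t, ind (¬ F (insert a N) ∧ F (insert z (insert a N))) :=
        sum_nonneg fun N _ => mul_nonneg (W_nonneg p h0 h1 _ _)
          (sum_nonneg fun z _ => ind_nonneg _)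
      have e4 : (1 - p) * (D + A) = ∑ N ∈ t.powerset, W p (insert a t) N *
        ∑ z ∈ insert a t, ind (¬ F N ∧ F (insert z N)) := by
        rw [hD, hA, ← sum_add_distrib, mul_sum]
        refine sum_congr rfl fun N hN => ?_
        rw [W_left p ha (mem_powerset.1 hN), sum_insert ha]
        ring
      rw [e4]
      linarith
    have e5 : (1 - p) ^ (t.card + 1) ≤ 1 - p := by
      calc (1 - p) ^ (t.card + 1) ≤ (1 - p) ^ 1 :=
            pow_le_pow_of_le_one hq0.le hq1 (by omega)
        _ = 1 - p := pow_one _
    calc (1 - p) ^ (t.card + 1) * (∑ N ∈ t.powerset, W p (insert a t) N * ind (F N) +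
        ∑ N ∈ t.powerset, W p (insert a t) (insert a N) * ind (F (insert a N)))
        ≤ (1 - p) ^ (t.card + 1) * (L + p * A) :=
          mul_le_mul_of_nonneg_left e1 (by positivity)
      _ = (1 - p) * ((1 - p) ^ t.card * L) + (1 - p) ^ (t.card + 1) * (p * A) := by ring
      _ ≤ (1 - p) * (p * D) + (1 - p) * (p * A) :=
          add_le_add (mul_le_mul_of_nonneg_left ih hq0.le)
            (mul_le_mul_of_nonneg_right e5 (by positivity))
      _ = p * ((1 - p) * (D + A)) := by ring
      _ ≤ _ := mul_le_mul_of_nonneg_left e2 h0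

end HY

/-- V2: the hybrid inequality -/
theorem HY_thm : T_hyb := by
  intro n p F h0 h1 hF
  have h := HY.key p F h0 h1 hF univ
  have hq : 0 < (1 - p) ^ n := pow_pos (by linarith) _
  rw [powerset_univ] at h
  unfold HY.W at h
  rw [card_univ, Fintype.card_fin] at h
  rw [mul_comm p, mul_assoc, inv_mul_eq_div, le_div_iff₀ hq, mul_comm]
  exact h

end Pool.Agent.H624U
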