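import Pool.Agent.H624U.Basic
import Pool.Agent.H624U.Defs2

/-!
# JU: jumps give frozen classes
-/

set_option autoImplicit false

namespace Pool.Agent.H624U

open Finset Pool.Agent.H624C
open scoped Classical

namespace JU

/-- extension of a colouring by a colour missing on `Y` -/
theorem ext_proper {k n : ℕ} {ω : Om n} {Y : Finset (Fin n)} {σ : KCol k n}
    (h : KProper ω Finset.univ σ) {s : Fin k} (hs : ∀ y ∈ Y, σ y ≠ s) :
    KProper (ext ω Y) Finset.univ (Fin.snoc (α := fun _ => Fin k) σ s : KCol k (n + 1)) := by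
  intro a _ b _ hab hm
  unfold ext at hm
  rw [Finset.mem_union, Finset.mem_image, Finset.mem_image] at hm
  rcases hm with ⟨e, he, h2⟩ | ⟨y, hy, h2⟩
  · induction e using Sym2.ind with
    | _ x z =>
      rw [Sym2.map_mk, Sym2.eq_iff] at h2
      rcases h2 with ⟨rfl, rfl⟩ | ⟨rfl, rfl⟩
      · simp only [Fin.snoc_castSucc]
        exact h x (mem_univ _) z (mem_univ _) (fun hxz => hab (by rw [hxz])) he
      · simp only [Fin.snoc_castSucc]
        exact (h x (mem_univ _) z (mem_univ _) (fun hxz => hab (by rw [hxz])) he).symm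
  · rw [Sym2.eq_iff] at h2
    rcases h2 with ⟨rfl, rfl⟩ | ⟨rfl, rfl⟩
    · simp only [Fin.snoc_castSucc, Fin.snoc_last]
      exact (hs y hy).symm
    · simp only [Fin.snoc_castSucc, Fin.snoc_last]
      exact hs y hy

theorem classes (h1 : T_ucc) {k m0 d m1 n : ℕ} {ω : Om n} {Y : Finset (Fin n)} (hk : 3 ≤ k)
    (hT : Thr k m0 d m1) (hd : d ≤ n) (hP : PV k m0 d m1 (n + 1) (ext ω Y))
    (hS : ¬ SL m0 d m1 (n + 1) (ext ω Y)) :
    ∃ V : Fin k → Finset (Fin n), (∀ i, d ≤ (V i).card) ∧
      ∀ σ : KCol k n, KProper ω Finset.univ σ → (∃ s, ∀ y ∈ Y, σ y ≠ s) →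
        ∃ π : Equiv.Perm (Fin k), ∀ i, ∀ v ∈ V i, σ v = π i := by
  by_cases hA : KAliveU k (ext ω Y)
  · have hU : HasU k (ext ω Y) := by
      rcases hP with h | h | h
      · exact absurd hA h
      · exact h
      · exact absurd h hS
    obtain ⟨V, hV1, _, hV3⟩ := h1 k m0 d m1 (n + 1) (ext ω Y) hk hT hA hU hS
    refine ⟨fun i => univ.filter (fun x : Fin n => x.castSucc ∈ V i), fun i => ?_, ?_⟩
    · have hsub : V i ⊆ insert (Fin.last n)
          ((univ.filter (fun x : Fin n => x.castSucc ∈ V i)).image Fin.castSucc) := by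
        intro v hv
        rw [Finset.mem_insert, Finset.mem_image]
        refine Fin.lastCases (motive := fun v => v ∈ V i → (v = Fin.last n ∨
          ∃ a ∈ univ.filter (fun x : Fin n => x.castSucc ∈ V i), a.castSucc = v)) ?_ ?_ v hv
        · intro _; exact Or.inl rfl
        · intro x hx
          exact Or.inr ⟨x, by simpa using hx, rfl⟩
      have hc := Finset.card_le_card hsub
      have hc2 := Finset.card_insert_le (Fin.last n)
          ((univ.filter (fun x : Fin n => x.castSucc ∈ V i)).image Fin.castSucc)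
      have hc3 := Finset.card_image_le (s := univ.filter (fun x : Fin n => x.castSucc ∈ V i))
        (f := Fin.castSucc)
      have hc4 := hV1 i
      show d ≤ (univ.filter (fun x : Fin n => x.castSucc ∈ V i)).card
      omega
    · intro σ hσ ⟨s, hs⟩
      obtain ⟨π, hπ⟩ := hV3 (Fin.snoc (α := fun _ => Fin k) σ s : KCol k (n + 1))
        ⟨ext_proper hσ hs, Set.mem_univ _⟩
      refine ⟨π, fun i v hv => ?_⟩
      have hv' : v.castSucc ∈ V i := by simpa using hv
      have := hπ i _ hv'
      simpa only [Fin.snoc_castSucc] using this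
  · refine ⟨fun _ => univ, fun _ => by simpa using hd, ?_⟩
    intro σ hσ ⟨s, hs⟩
    exact absurd ⟨_, ext_proper hσ hs, Set.mem_univ _⟩ hA

end JU

open JU in
theorem JU_thm (h1 : T_ucc) : T_jump := by
  intro k m0 d m1 n ω Y hk hT hd hP hS
  obtain ⟨V, hV1, hV2⟩ := classes h1 hk hT hd hP hS
  constructor
  · unfold g2
    have hsub : Fintype.piFinset V ⊆ (Finset.univ : Finset (Fin k → Fin n)).filter (fun w =>
        ∀ σ ∈ KSol (Set.univ : Set (KCol k n)) Finset.univ ω,
        (∀ s, ∃ y ∈ Y, σ y = s) ∨ ∀ s, ∃ i, σ (w i) = s) := by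
      intro w hw
      rw [Fintype.mem_piFinset] at hw
      rw [Finset.mem_filter]
      refine ⟨mem_univ _, fun σ hσ => ?_⟩
      by_cases hc : ∀ s, ∃ y ∈ Y, σ y = s
      · exact Or.inl hc
      · right
        push Not at hc
        obtain ⟨π, hπ⟩ := hV2 σ hσ.1 hc
        intro s
        exact ⟨π.symm s, by rw [hπ _ _ (hw _), Equiv.apply_symm_apply]⟩
    refine le_trans ?_ (Finset.card_le_card hsub)
    rw [Fintype.card_piFinset]
    calc d ^ k = ∏ _i : Fin k, d := by simp
      _ ≤ ∏ i : Fin k, (V i).card := Finset.prod_le_prod' (fun i _ => hV1 i)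
  · unfold KX
    have i0 : Fin k := ⟨0, by omega⟩
    have hsub : (V i0).offDiag ⊆ ((Finset.univ : Finset (Fin n)) ×ˢ Finset.univ).filter
        (fun q => q.1 ≠ q.2 ∧ KSame (KRY (Set.univ : Set (KCol k n)) Y) Finset.univ ω q.1 q.2) := by
      rintro ⟨a, b⟩ hq
      rw [Finset.mem_offDiag] at hq
      rw [Finset.mem_filter]
      refine ⟨by simp, hq.2.2, ?_⟩
      intro σ hσ
      obtain ⟨π, hπ⟩ := hV2 σ hσ.1 hσ.2.2
      show σ a = σ b
      rw [hπ i0 a hq.1, hπ i0 b hq.2.1]
    refine le_trans ?_ (Finset.card_le_card hsub)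
    rw [Finset.offDiag_card]
    have h := hV1 i0
    generalize (V i0).card = c at h
    calc d * (d - 1) ≤ c * (c - 1) := Nat.mul_le_mul h (Nat.sub_le_sub_right h 1)
      _ = c * c - c := by rw [Nat.mul_sub, mul_one]

end Pool.Agent.H624U
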