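import Pool.Agent.H624U.Defs

/-!
# KS: the kill sum is bounded (k colours)
-/

set_option autoImplicit false

namespace Pool.Agent.H624U

open Finset Pool.Agent.H624C
open scoped Classical

namespace KSaux

theorem mono_dead {k n : ℕ} (R : Set (KCol k n)) (S : Finset (Fin n)) :
    Mono (fun ω : Om n => ¬ KAlive R S ω) := by
  intro ω ω' h h1 h2
  apply h1
  obtain ⟨σ, hσ1, hσ2⟩ := h2
  exact ⟨σ, fun a ha b hb hab hm => hσ1 a ha b hb hab (h hm), hσ2⟩

theorem mem_J {n : ℕ} (P : Om n → Prop) (ω : Om n) (e : Sym2 (Fin n)) (h : P (insert e ω)) :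
    e ∈ (Finset.univ : Finset (Sym2 (Fin n))).filter (fun e => P (insert e ω)) := by
  rw [Finset.mem_filter]
  exact ⟨mem_univ _, h⟩

theorem KX_le {k n : ℕ} (R : Set (KCol k n)) (S : Finset (Fin n)) (ω : Om n) :
    KX R S ω ≤ 2 * J (fun ω : Om n => ¬ KAlive R S ω) ω := by
  unfold KX J
  apply Finset.card_le_mul_card_image_of_maps_to (f := fun q : Fin n × Fin n => s(q.1, q.2))
  · intro q hq
    rw [mem_filter, mem_product] at hq
    obtain ⟨⟨h1, h2⟩, h3, h4⟩ := hq
    refine mem_J (fun ω : Om n => ¬ KAlive R S ω) ω _ ?_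
    rintro ⟨σ, hσ1, hσ2⟩
    have h5 : σ ∈ KSol R S ω :=
      ⟨fun a ha b hb hab hm => hσ1 a ha b hb hab (mem_insert_of_mem hm), hσ2⟩
    exact hσ1 q.1 h1 q.2 h2 h3 (mem_insert_self _ _) (h4 σ h5)
  · intro e _
    induction e using Sym2.ind with
    | h a b =>
      refine (card_le_card (t := {(a, b), (b, a)}) ?_).trans (card_le_two)
      intro q hq
      rw [mem_filter] at hq
      have h6 := hq.2
      simp only [Sym2.eq_iff] at h6
      rw [mem_insert, mem_singleton]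
      rcases h6 with ⟨h7, h8⟩ | ⟨h7, h8⟩
      · exact Or.inl (Prod.ext h7 h8)
      · exact Or.inr (Prod.ext h7 h8)

end KSaux

open KSaux in
theorem KS_thm (h1 : T_mpu1) : T_ks := by
  intro k n M t1 hn hM ht1 R S
  have hn1 : (1 : ℝ) ≤ n := by exact_mod_cast hn
  have hM1 : 0 < M := lt_of_lt_of_le (pow_pos hn 5) hM
  have hMr : (0 : ℝ) < M := by exact_mod_cast hM1
  have hp : ∀ t : ℕ, t ≤ M → (0 : ℝ) ≤ (t : ℝ) / M ∧ (t : ℝ) / M ≤ 1 := by
    intro t ht
    refine ⟨by positivity, ?_⟩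
    rw [div_le_one hMr]
    exact_mod_cast ht
  have h2 := h1 n M t1 (fun ω : Om n => ¬ KAlive R S ω) hn hM ht1 (mono_dead R S)
  have h3 : E ((t1 : ℝ) / M) (fun ω : Om n => ind (¬ KAlive R S ω)) ≤ 1 :=
    E_ind_le_one (hp t1 ht1).1 (hp t1 ht1).2 _
  have h4 : (1 : ℝ) / n ≤ 1 := by
    rw [div_le_one (by linarith)]
    exact hn1
  have h5 : ∑ t ∈ range t1, E ((t : ℝ) / M) (fun ω : Om n => ind (KAlive R S ω) * (KX R S ω : ℝ)) ≤
      2 * ∑ t ∈ range t1, E ((t : ℝ) / M) (fun ω : Om n => ind (¬ ¬ KAlive R S ω) *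
        (J (fun ω : Om n => ¬ KAlive R S ω) ω : ℝ)) := by
    rw [mul_sum]
    apply sum_le_sum
    intro t ht
    have htM : t ≤ M := by
      have := mem_range.mp ht
      omega
    rw [← E_mul_left]
    apply E_mono (hp t htM).1 (hp t htM).2
    intro ω
    have h6 : (KX R S ω : ℝ) ≤ 2 * (J (fun ω : Om n => ¬ KAlive R S ω) ω : ℝ) := by
      exact_mod_cast KX_le R S ω
    rw [ind_congr (not_not (a := KAlive R S ω))]
    calc ind (KAlive R S ω) * (KX R S ω : ℝ) ≤ ind (KAlive R S ω) *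
          (2 * (J (fun ω : Om n => ¬ KAlive R S ω) ω : ℝ)) :=
          mul_le_mul_of_nonneg_left h6 (ind_nonneg _)
      _ = _ := by ring
  calc _ ≤ _ := h5
    _ ≤ 2 * (M * (1 + 1)) := by
        apply mul_le_mul_of_nonneg_left _ (by norm_num)
        refine h2.trans ?_
        apply mul_le_mul_of_nonneg_left _ hMr.le
        exact add_le_add h3 h4
    _ = 4 * M := by ring

end Pool.Agent.H624U
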