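import Pool.Agent.H624U.Basic
import Pool.Agent.H624U.Defs2

/-!
# L0: pendant vertices never jump
-/

set_option autoImplicit false

namespace Pool.Agent.H624U

open Finset Pool.Agent.H624C
open scoped Classical

namespace L0

theorem mem_ext_empty {n : ℕ} (ω : Om n) (e : Sym2 (Fin (n + 1))) :
    e ∈ ext ω ∅ ↔ ∃ f ∈ ω, Sym2.map Fin.castSucc f = e := by
  unfold ext
  simp

theorem mem_ext_single {n : ℕ} (ω : Om n) (b : Fin n) (e : Sym2 (Fin (n + 1))) :
    e ∈ ext ω {b} ↔ e ∈ ext ω ∅ ∨ e = s(Fin.last n, b.castSucc) := by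
  unfold ext
  simp
  exact or_comm

theorem not_last {n : ℕ} (ω : Om n) (y : Fin (n + 1)) : s(Fin.last n, y) ∉ ext ω ∅ := by
  rw [mem_ext_empty]
  rintro ⟨f, _, hf⟩
  induction f using Sym2.ind with
  | _ a b =>
    rw [Sym2.map_mk] at hf
    have h1 : Fin.last n ∈ s(a.castSucc, b.castSucc) := by rw [hf]; exact Sym2.mem_mk_left _ _
    rw [Sym2.mem_iff] at h1
    rcases h1 with h | h
    · exact (Fin.castSucc_lt_last a).ne h.symm
    · exact (Fin.castSucc_lt_last b).ne h.symm

/-- recolouring the last vertex -/
theorem recolour {k n : ℕ} (ω : Om n) (b : Fin n) (S : Finset (Fin (n + 1)))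
    (η : Om (n + 1)) (hη : η ⊆ ext ω {b}) (τ : KCol k (n + 1))
    (hτ : ∀ x ∈ S, ∀ y ∈ S, x ≠ y → x ≠ Fin.last n → y ≠ Fin.last n → s(x, y) ∈ η → τ x ≠ τ y)
    (j : Fin k) (hj : j ≠ τ b.castSucc) :
    KProper η S (Function.update τ (Fin.last n) j) := by
  have hb : b.castSucc ≠ Fin.last n := (Fin.castSucc_lt_last b).ne
  have key : ∀ y : Fin (n + 1), s(Fin.last n, y) ∈ η → y ≠ Fin.last n → y = b.castSucc := by
    intro y hy hne
    have h1 := hη hy
    rw [mem_ext_single] at h1
    rcases h1 with h | h
    · exact absurd h (not_last ω y)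
    · rw [Sym2.eq_iff] at h
      rcases h with h | h
      · exact h.2
      · exact absurd h.2 hne
  intro x hx y hy hxy hm
  by_cases h1 : x = Fin.last n
  · subst h1
    have h2 := key y hm (Ne.symm hxy)
    subst h2
    rw [Function.update_self, Function.update_of_ne hb]
    exact hj
  · by_cases h2 : y = Fin.last n
    · subst h2
      rw [Sym2.eq_swap] at hm
      have h3 := key x hm h1
      subst h3
      rw [Function.update_self, Function.update_of_ne hb]
      exact hj.symm
    · rw [Function.update_of_ne h1, Function.update_of_ne h2]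
      exact hτ x hx y hy hxy h1 h2 hm

theorem exists_colour {k : ℕ} (hk : 3 ≤ k) (a c : Fin k) : ∃ j : Fin k, j ≠ a ∧ j ≠ c := by
  have h : ({a, c} : Finset (Fin k)).card < (univ : Finset (Fin k)).card := by
    rw [card_univ, Fintype.card_fin]
    have := card_le_two (a := a) (b := c)
    omega
  obtain ⟨j, _, hj⟩ := exists_mem_notMem_of_card_lt_card h
  simp only [mem_insert, mem_singleton, not_or] at hj
  exact ⟨j, hj.1, hj.2⟩

end L0

open L0

theorem L0_thm : T_l0 := by
  intro k m0 d m1 n ω q hk hg
  obtain ⟨h1, h2, h3⟩ := hg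
  have himg : (univ : Finset (Fin 0)).image q.1 = ∅ := by simp
  rw [himg] at h1 h2 h3
  have hins : insert q.2 (∅ : Finset (Fin n)) = {q.2} := rfl
  rw [hins] at h2 h3
  set b := q.2 with hb
  unfold PV at h1 h2
  push Not at h1
  obtain ⟨hal, hnu, _⟩ := h1
  rcases h2 with h2 | h2 | h2
  · -- not colourable
    apply h2
    obtain ⟨σ, hσ, _⟩ := hal
    obtain ⟨j, hj, _⟩ := exists_colour hk (σ b.castSucc) (σ b.castSucc)
    refine ⟨Function.update σ (Fin.last n) j, ?_, Set.mem_univ _⟩
    refine recolour ω b univ (ext ω {b}) (Finset.Subset.refl _) σ ?_ j hj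
    intro x _ y _ hxy hx hy hm
    rw [mem_ext_single] at hm
    rcases hm with hm | hm
    · exact hσ x (mem_univ _) y (mem_univ _) hxy hm
    · exfalso
      rw [Sym2.eq_iff] at hm
      rcases hm with h | h
      · exact hx h.1
      · exact hy h.2
  · -- uniquely colourable subgraph
    obtain ⟨S, η, hη, hUC, hcard⟩ := h2
    set e0 : Sym2 (Fin (n + 1)) := s(Fin.last n, b.castSucc) with he0
    by_cases hc : Fin.last n ∈ S ∧ e0 ∈ η
    · obtain ⟨⟨τ, hτ⟩, hall, huniq⟩ := hUC
      obtain ⟨j, hj1, hj2⟩ := exists_colour hk (τ (Fin.last n)) (τ b.castSucc)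
      have hσ : KProper η S (Function.update τ (Fin.last n) j) :=
        recolour ω b S η hη τ (fun x hx y hy hxy _ _ hm => hτ x hx y hy hxy hm) j hj2
      obtain ⟨v, hv, hvc⟩ := hall _ hσ (τ (Fin.last n))
      obtain ⟨π, hπ⟩ := huniq τ _ hτ hσ
      have hvl : v ≠ Fin.last n := by
        intro h
        rw [h, Function.update_self] at hvc
        exact hj1 hvc
      have h5 := hπ v hv
      rw [Function.update_of_ne hvl] at h5 hvc
      have h6 := hπ (Fin.last n) hc.1
      rw [Function.update_self] at h6
      rw [hvc] at h5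
      exact hj1 (h6.trans h5.symm)
    · apply hnu
      refine ⟨S, η.erase e0, ?_, ?_, hcard⟩
      · intro e he
        rw [mem_erase] at he
        have := hη he.2
        rw [mem_ext_single] at this
        rcases this with h | h
        · exact h
        · exact absurd h he.1
      · have hiff : ∀ σ : KCol k (n + 1), KProper (η.erase e0) S σ ↔ KProper η S σ := by
          intro σ
          apply KProper_congr
          intro x hx y hy hxy
          rw [mem_erase]
          constructor
          · exact fun h => h.2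
          · intro h
            refine ⟨?_, h⟩
            intro he
            apply hc
            refine ⟨?_, he ▸ h⟩
            have : Fin.last n ∈ s(x, y) := by rw [he]; exact Sym2.mem_mk_left _ _
            rw [Sym2.mem_iff] at this
            rcases this with h' | h'
            · rw [h']; exact hx
            · rw [h']; exact hy
        unfold UC at hUC ⊢
        simp only [hiff]
        exact hUC
  · exact h3 h2

end Pool.Agent.H624U
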