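import Pool.Agent.H624U.Basic
import Pool.Agent.H624C.CO

/-!
# C4: no small sets with a large degree sum (helper455)
-/

set_option autoImplicit false

namespace Pool.Agent.H624U

open Finset Pool.Agent.H624C
open scoped Classical

namespace LDx

/-- the pairs meeting `S` -/
noncomputable def pairs {n : ℕ} (S : Finset (Fin n)) : Om n :=
  univ.filter (fun e : Sym2 (Fin n) => ¬ e.IsDiag ∧ ∃ v ∈ e, v ∈ S)

theorem card_pairs {n : ℕ} (S : Finset (Fin n)) : (pairs S).card ≤ S.card * n := by
  have h : pairs S ⊆ (S ×ˢ (univ : Finset (Fin n))).image (fun q => s(q.1, q.2)) := by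
    intro e he
    simp only [pairs, mem_filter, mem_univ, true_and] at he
    obtain ⟨-, v, hv, hvS⟩ := he
    rw [mem_image]
    obtain ⟨w, hw⟩ := Sym2.mem_iff_exists.1 hv
    exact ⟨(v, w), by simp [hvS], hw.symm⟩
  calc (pairs S).card ≤ ((S ×ˢ (univ : Finset (Fin n))).image (fun q => s(q.1, q.2))).card :=
        card_le_card h
    _ ≤ (S ×ˢ (univ : Finset (Fin n))).card := card_image_le
    _ = S.card * n := by rw [card_product, card_univ, Fintype.card_fin]

theorem E_incl {n : ℕ} (p : ℝ) (B : Om n) : E p (fun ω : Om n => ind (B ⊆ ω)) = p ^ B.card := by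
  have h := S_incl_thm n p B (fun _ => 1) (fun _ => rfl)
  rw [E_one, mul_one] at h
  rw [← h]
  exact E_congr fun ω => (mul_one _).symm

/-- `C(N,m) p^m ≤ (e N p / m)^m` -/
theorem choose_le (N m : ℕ) (p : ℝ) (h0 : 0 ≤ p) (hm : 0 < m) :
    (N.choose m : ℝ) * p ^ m ≤ (Real.exp 1 * (N * p) / m) ^ m := by
  have hm' : (0 : ℝ) < m := by exact_mod_cast hm
  have h1 : (N.choose m : ℝ) ≤ (N : ℝ) ^ m / m.factorial := Nat.choose_le_pow_div m N
  have h2 : (m : ℝ) ^ m / m.factorial ≤ Real.exp m := Real.pow_div_factorial_le_exp _ hm'.le m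
  have h3 : Real.exp m = (Real.exp 1) ^ m := by rw [← Real.exp_nat_mul, mul_one]
  have hf : (0 : ℝ) < m.factorial := by exact_mod_cast m.factorial_pos
  calc (N.choose m : ℝ) * p ^ m ≤ (N : ℝ) ^ m / m.factorial * p ^ m :=
        mul_le_mul_of_nonneg_right h1 (by positivity)
    _ = (N * p / m) ^ m * ((m : ℝ) ^ m / m.factorial) := by
        rw [div_pow, mul_pow]
        field_simp
    _ ≤ (N * p / m) ^ m * (Real.exp 1) ^ m := by
        rw [← h3]
        exact mul_le_mul_of_nonneg_left h2 (by positivity)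
    _ = _ := by rw [← mul_pow]; congr 1; ring

end LDx

open LDx in
/-- C4 -/
theorem LD_thm : T_LD := by
  intro Λ ε1 hΛ hε
  refine ⟨ε1 * Real.exp (-1 - 2 / ε1) / Λ, by positivity, ?_⟩
  intro γ hγ
  obtain ⟨n1, hn1⟩ := exists_nat_gt (-Real.log γ)
  refine ⟨max 1 n1, ?_⟩
  intro n hn p hp0 hp1 hpn d m1 hd hm1
  have hn0 : 1 ≤ n := le_trans (le_max_left _ _) hn
  have hnn : n1 ≤ n := le_trans (le_max_right _ _) hn
  have hnR : (1 : ℝ) ≤ n := by exact_mod_cast hn0
  have hm0 : 0 < m1 := by
    have : (0 : ℝ) < m1 := lt_of_lt_of_le (by positivity) hm1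
    exact_mod_cast this
  have hm0' : (0 : ℝ) < m1 := by exact_mod_cast hm0
  -- union bound
  have step1 : ∀ ω : Om n, ind (LD d m1 ω) ≤
      ∑ S ∈ (univ : Finset (Finset (Fin n))).filter (fun S => S.card ≤ d),
        ∑ B ∈ (pairs S).powersetCard m1, ind (B ⊆ ω) := by
    intro ω
    have h1 : LD d m1 ω → ∃ S ∈ (univ : Finset (Finset (Fin n))).filter (fun S => S.card ≤ d),
        ∃ B ∈ (pairs S).powersetCard m1, B ⊆ ω := by
      rintro ⟨S, hS, hinc⟩
      obtain ⟨B, hB, hBc⟩ := Finset.exists_subset_card_eq hinc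
      refine ⟨S, by simp [hS], B, ?_, ?_⟩
      · rw [mem_powersetCard]
        refine ⟨fun e he => ?_, hBc⟩
        have := hB he
        rw [mem_filter] at this
        simp only [pairs, mem_filter, mem_univ, true_and]
        exact this.2
      · exact fun e he => (mem_filter.1 (hB he)).1
    refine (ind_mono h1).trans ((ind_exists_le _ _).trans ?_)
    exact Finset.sum_le_sum fun S _ => ind_exists_le _ _
  have step2 : E p (fun ω : Om n => ind (LD d m1 ω)) ≤
      ∑ S ∈ (univ : Finset (Finset (Fin n))).filter (fun S => S.card ≤ d),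
        ((pairs S).card.choose m1 : ℝ) * p ^ m1 := by
    refine (E_mono hp0 hp1 step1).trans (le_of_eq ?_)
    rw [E_sum]
    refine Finset.sum_congr rfl fun S _ => ?_
    rw [E_sum]
    rw [Finset.sum_congr rfl (fun B hB => by
      rw [E_incl, (mem_powersetCard.1 hB).2] : ∀ B ∈ (pairs S).powersetCard m1,
        E p (fun ω : Om n => ind (B ⊆ ω)) = p ^ m1)]
    rw [sum_const, card_powersetCard, nsmul_eq_mul]
  have key : ∀ S ∈ (univ : Finset (Finset (Fin n))).filter (fun S => S.card ≤ d),
      ((pairs S).card.choose m1 : ℝ) * p ^ m1 ≤ Real.exp (-(2 * n)) := by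
    intro S hS
    have hSd : S.card ≤ d := (mem_filter.1 hS).2
    refine (choose_le _ m1 p hp0 hm0).trans ?_
    have hcard : ((pairs S).card : ℝ) * p ≤ ε1 * Real.exp (-1 - 2 / ε1) * n := by
      have h1 : ((pairs S).card : ℝ) ≤ d * n := by
        have : (pairs S).card ≤ d * n := (card_pairs S).trans (Nat.mul_le_mul_right n hSd)
        exact_mod_cast this
      calc ((pairs S).card : ℝ) * p ≤ d * n * p := mul_le_mul_of_nonneg_right h1 hp0
        _ = d * (p * n) := by ring
        _ ≤ d * Λ := mul_le_mul_of_nonneg_left hpn (by positivity)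
        _ ≤ (ε1 * Real.exp (-1 - 2 / ε1) / Λ * n) * Λ := mul_le_mul_of_nonneg_right hd hΛ.le
        _ = _ := by field_simp
    have hbase : Real.exp 1 * ((pairs S).card * p) / m1 ≤ Real.exp (-(2 / ε1)) := by
      rw [div_le_iff₀ hm0']
      calc Real.exp 1 * ((pairs S).card * p) ≤ Real.exp 1 * (ε1 * Real.exp (-1 - 2 / ε1) * n) :=
            mul_le_mul_of_nonneg_left hcard (Real.exp_pos _).le
        _ = Real.exp (-(2 / ε1)) * (ε1 * n) := by
            have : Real.exp (-(2 / ε1)) = Real.exp 1 * Real.exp (-1 - 2 / ε1) := by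
              rw [← Real.exp_add]; congr 1; ring
            rw [this]; ring
        _ ≤ _ := mul_le_mul_of_nonneg_left hm1 (Real.exp_pos _).le
    calc (Real.exp 1 * ((pairs S).card * p) / m1) ^ m1 ≤ (Real.exp (-(2 / ε1))) ^ m1 :=
          pow_le_pow_left₀ (by positivity) hbase _
      _ = Real.exp (m1 * (-(2 / ε1))) := by rw [← Real.exp_nat_mul]
      _ ≤ Real.exp (-(2 * n)) := by
          apply Real.exp_le_exp.2
          have h2 : 2 * (n : ℝ) ≤ m1 * (2 / ε1) := by
            rw [mul_div_assoc', le_div_iff₀ hε]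
            nlinarith
          linarith
  have step3 : E p (fun ω : Om n => ind (LD d m1 ω)) ≤ (2 : ℝ) ^ n * Real.exp (-(2 * n)) := by
    refine step2.trans ((Finset.sum_le_sum key).trans ?_)
    rw [sum_const, nsmul_eq_mul]
    apply mul_le_mul_of_nonneg_right _ (Real.exp_pos _).le
    have h1 : ((univ : Finset (Finset (Fin n))).filter (fun S => S.card ≤ d)).card ≤ 2 ^ n := by
      refine (card_filter_le _ _).trans ?_
      rw [card_univ, Fintype.card_finset, Fintype.card_fin]
    exact_mod_cast h1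
  refine step3.trans ?_
  have h2 : (2 : ℝ) ^ n ≤ Real.exp n := by
    have : (2 : ℝ) ≤ Real.exp 1 := by
      have := Real.add_one_le_exp (1 : ℝ)
      linarith
    calc (2 : ℝ) ^ n ≤ (Real.exp 1) ^ n := pow_le_pow_left₀ (by norm_num) this _
      _ = Real.exp n := by rw [← Real.exp_nat_mul, mul_one]
  calc (2 : ℝ) ^ n * Real.exp (-(2 * n)) ≤ Real.exp n * Real.exp (-(2 * n)) :=
        mul_le_mul_of_nonneg_right h2 (Real.exp_pos _).le
    _ = Real.exp (-n) := by rw [← Real.exp_add]; congr 1; ring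
    _ ≤ Real.exp (Real.log γ) := by
        apply Real.exp_le_exp.2
        have : (n1 : ℝ) ≤ n := by exact_mod_cast hnn
        linarith
    _ = γ := Real.exp_log hγ

end Pool.Agent.H624U
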