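import Pool.Agent.H624U.Basic
import Pool.Agent.H624C.CO

/-!
# LT: dense random graphs are not k-colourable (first moment)
-/

set_option autoImplicit false

namespace Pool.Agent.H624U

open Finset Pool.Agent.H624C
open scoped Classical

namespace LT

/-- the monochromatic pairs -/
noncomputable def mono {k n : ℕ} (σ : KCol k n) : Om n :=
  (univ : Finset (Sym2 (Fin n))).filter
    (fun e => ∃ a b, a ≠ b ∧ σ a = σ b ∧ s(a, b) = e)

theorem proper_iff {k n : ℕ} (σ : KCol k n) (ω : Om n) :
    KProper ω univ σ ↔ ω ∩ mono σ = ∅ := by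
  constructor
  · intro h
    rw [Finset.eq_empty_iff_forall_notMem]
    intro e he
    rw [Finset.mem_inter] at he
    obtain ⟨h1, h2⟩ := he
    simp only [mono, mem_filter, mem_univ, true_and] at h2
    obtain ⟨a, b, hab, hs, rfl⟩ := h2
    exact h a (mem_univ _) b (mem_univ _) hab h1 hs
  · intro h a _ b _ hab hm hs
    have : s(a, b) ∈ ω ∩ mono σ := by
      rw [Finset.mem_inter]
      refine ⟨hm, ?_⟩
      simp only [mono, mem_filter, mem_univ, true_and]
      exact ⟨a, b, hab, hs, rfl⟩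
    rw [h] at this
    simp at this

/-- ordered monochromatic pairs -/
noncomputable def ord {k n : ℕ} (σ : KCol k n) : Finset (Fin n × Fin n) :=
  (univ : Finset (Fin n × Fin n)).filter (fun q => q.1 ≠ q.2 ∧ σ q.1 = σ q.2)

theorem ord_le {k n : ℕ} (σ : KCol k n) : (ord σ).card ≤ 2 * (mono σ).card := by
  have h1 : (ord σ).card ≤ 2 * ((ord σ).image (fun q => s(q.1, q.2))).card := by
    apply Finset.card_le_mul_card_image
    intro e he
    rw [mem_image] at he
    obtain ⟨q, hq, rfl⟩ := he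
    calc ((ord σ).filter (fun x => s(x.1, x.2) = s(q.1, q.2))).card
        ≤ ({(q.1, q.2), (q.2, q.1)} : Finset (Fin n × Fin n)).card := by
          apply Finset.card_le_card
          intro x hx
          rw [mem_filter] at hx
          have := hx.2
          rw [Sym2.eq_iff] at this
          rw [mem_insert, mem_singleton]
          rcases this with ⟨h1, h2⟩ | ⟨h1, h2⟩
          · left; exact Prod.ext h1 h2
          · right; exact Prod.ext h1 h2
      _ ≤ 2 := Finset.card_le_two
  have h2 : (ord σ).image (fun q => s(q.1, q.2)) ⊆ mono σ := by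
    intro e he
    rw [mem_image] at he
    obtain ⟨q, hq, rfl⟩ := he
    simp only [ord, mem_filter, mem_univ, true_and] at hq
    simp only [mono, mem_filter, mem_univ, true_and]
    exact ⟨q.1, q.2, hq.1, hq.2, rfl⟩
  have h3 := Finset.card_le_card h2
  omega

theorem ord_ge {k n : ℕ} (hk : 0 < k) (σ : KCol k n) : (n : ℝ) ^ 2 / k - n ≤ (ord σ).card := by
  have h1 : ((univ : Finset (Fin n × Fin n)).filter (fun q => σ q.1 = σ q.2)).card ≤
      (ord σ).card + n := by
    have : (univ : Finset (Fin n × Fin n)).filter (fun q => σ q.1 = σ q.2) ⊆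
        ord σ ∪ (univ : Finset (Fin n)).image (fun a => (a, a)) := by
      intro q hq
      rw [mem_filter] at hq
      rw [mem_union]
      by_cases h : q.1 = q.2
      · right
        rw [mem_image]
        exact ⟨q.1, mem_univ _, Prod.ext rfl h⟩
      · left
        simp only [ord, mem_filter, mem_univ, true_and]
        exact ⟨h, hq.2⟩
    calc _ ≤ (ord σ ∪ (univ : Finset (Fin n)).image (fun a => (a, a))).card :=
          Finset.card_le_card this
      _ ≤ (ord σ).card + ((univ : Finset (Fin n)).image (fun a => (a, a))).card :=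
          Finset.card_union_le _ _
      _ ≤ (ord σ).card + n := by
          have := Finset.card_image_le (s := (univ : Finset (Fin n))) (f := fun a => (a, a))
          rw [Finset.card_univ, Fintype.card_fin] at this
          omega
  have h2 : (((univ : Finset (Fin n × Fin n)).filter (fun q => σ q.1 = σ q.2)).card : ℝ) =
      ∑ s : Fin k, (((univ : Finset (Fin n)).filter (fun a => σ a = s)).card : ℝ) ^ 2 := by
    have : (univ : Finset (Fin n × Fin n)).filter (fun q => σ q.1 = σ q.2) =
        (univ : Finset (Fin k)).biUnion (fun s =>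
          ((univ : Finset (Fin n)).filter (fun a => σ a = s)) ×ˢ
            ((univ : Finset (Fin n)).filter (fun a => σ a = s))) := by
      ext q
      simp only [mem_filter, mem_univ, true_and, mem_biUnion, mem_product]
      constructor
      · intro h; exact ⟨σ q.1, rfl, h.symm⟩
      · rintro ⟨s, h1, h2⟩; rw [h1, h2]
    rw [this, Finset.card_biUnion]
    · push_cast
      refine Finset.sum_congr rfl (fun s _ => ?_)
      rw [Finset.card_product]; push_cast; ring
    · intro s _ t _ hst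
      rw [Function.onFun, Finset.disjoint_left]
      intro q hq hq'
      simp only [mem_filter, mem_univ, true_and, mem_product] at hq hq'
      exact hst (hq.1.symm.trans hq'.1)
  have h3 : (∑ s : Fin k, (((univ : Finset (Fin n)).filter (fun a => σ a = s)).card : ℝ)) = n := by
    have := Finset.card_eq_sum_card_fiberwise (s := (univ : Finset (Fin n)))
      (t := (univ : Finset (Fin k))) (f := σ) (fun _ _ => by simp)
    rw [Finset.card_univ, Fintype.card_fin] at this
    exact_mod_cast this.symm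
  have h5 : (n : ℝ) ^ 2 ≤ k * ∑ s : Fin k,
      (((univ : Finset (Fin n)).filter (fun a => σ a = s)).card : ℝ) ^ 2 := by
    have := sq_sum_le_card_mul_sum_sq (s := (univ : Finset (Fin k)))
      (f := fun s => (((univ : Finset (Fin n)).filter (fun a => σ a = s)).card : ℝ))
    rw [h3] at this
    simpa using this
  have h6 : (((univ : Finset (Fin n × Fin n)).filter (fun q => σ q.1 = σ q.2)).card : ℝ) ≤
      (ord σ).card + n := by exact_mod_cast h1
  rw [h2] at h6
  have hk' : (0 : ℝ) < k := by exact_mod_cast hk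
  have h7 : (n : ℝ) ^ 2 / k ≤ ∑ s : Fin k,
      (((univ : Finset (Fin n)).filter (fun a => σ a = s)).card : ℝ) ^ 2 := by
    rw [div_le_iff₀ hk']
    linarith
  linarith

theorem mono_ge {k n : ℕ} (hk : 0 < k) (σ : KCol k n) :
    (n : ℝ) ^ 2 / (2 * k) - n / 2 ≤ (mono σ).card := by
  have h1 := ord_ge hk σ
  have h2 : ((ord σ).card : ℝ) ≤ 2 * (mono σ).card := by exact_mod_cast ord_le σ
  have hk' : (0 : ℝ) < k := by exact_mod_cast hk
  have h3 : (n : ℝ) ^ 2 / (2 * k) = (n : ℝ) ^ 2 / k / 2 := by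
    field_simp
  rw [h3]
  linarith

theorem prob_le {k n : ℕ} (hk : 0 < k) (hn : k ≤ n) {p : ℝ} (hp : 2 * (k : ℝ) ^ 2 ≤ p * n)
    (hp1 : p ≤ 1) (σ : KCol k n) :
    E p (fun ω : Om n => ind (KProper ω univ σ)) ≤ Real.exp (-(k * n - k ^ 2)) := by
  have hk' : (0 : ℝ) < k := by exact_mod_cast hk
  have hnpos : (0 : ℝ) < n := by
    have : 0 < n := by omega
    exact_mod_cast this
  have hn6 : (k : ℝ) ≤ n := by exact_mod_cast hn
  have hp0 : 0 < p := by
    by_contra h
    push Not at h
    have : p * n ≤ 0 := mul_nonpos_of_nonpos_of_nonneg h hnpos.le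
    have : (0 : ℝ) < 2 * (k : ℝ) ^ 2 := by positivity
    linarith
  have h1 : E p (fun ω : Om n => ind (KProper ω univ σ)) = (1 - p) ^ (mono σ).card := by
    have h := S_cond_thm n p (mono σ) ∅ (fun _ => 1) (Finset.empty_subset _) (fun _ => rfl)
    rw [E_one] at h
    rw [E_congr (g := fun ω => ind (ω ∩ mono σ = ∅) * 1)
      (fun ω => by rw [mul_one]; exact ind_congr (proper_iff σ ω))]
    rw [h]
    simp
  rw [h1]
  have h2 : 1 - p ≤ Real.exp (-p) := by
    have := Real.add_one_le_exp (-p)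
    linarith
  calc (1 - p) ^ (mono σ).card ≤ (Real.exp (-p)) ^ (mono σ).card :=
        pow_le_pow_left₀ (by linarith) h2 _
    _ = Real.exp ((mono σ).card * (-p)) := by rw [← Real.exp_nat_mul]
    _ ≤ Real.exp (-(k * n - k ^ 2)) := by
        apply Real.exp_le_exp.2
        have h3 := mono_ge hk σ
        have h4 : p * ((n : ℝ) ^ 2 / (2 * k) - n / 2) ≤ p * (mono σ).card :=
          mul_le_mul_of_nonneg_left h3 hp0.le
        have h0 : 0 ≤ (n : ℝ) / (2 * k) - 1 / 2 := by
          rw [sub_nonneg, div_le_div_iff₀ (by norm_num) (by positivity)]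
          linarith
        have h5 : (2 * (k : ℝ) ^ 2) * ((n : ℝ) / (2 * k) - 1 / 2)
            ≤ p * n * ((n : ℝ) / (2 * k) - 1 / 2) :=
          mul_le_mul_of_nonneg_right hp h0
        have h6 : p * ((n : ℝ) ^ 2 / (2 * k) - n / 2) = p * n * ((n : ℝ) / (2 * k) - 1 / 2) := by
          ring
        have h7 : (2 * (k : ℝ) ^ 2) * ((n : ℝ) / (2 * k) - 1 / 2) = k * n - k ^ 2 := by
          field_simp
        linarith

theorem num (k : ℕ) (γ : ℝ) (hγ : 0 < γ) : ∃ n0 : ℕ, ∀ n ≥ n0,
    (k : ℝ) ^ n * Real.exp (-(k * n - k ^ 2)) ≤ γ := by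
  have he : (k : ℝ) * Real.exp (-k) ≤ 1 / 2 := by
    have h1 : 1 + (k : ℝ) + (k : ℝ) ^ 2 / 2 ≤ Real.exp k :=
      Real.quadratic_le_exp_of_nonneg (Nat.cast_nonneg k)
    rw [Real.exp_neg, ← div_eq_mul_inv, div_le_div_iff₀ (Real.exp_pos _) (by norm_num)]
    nlinarith [sq_nonneg ((k : ℝ) - 1)]
  have hC : 0 < Real.exp ((k : ℝ) ^ 2) := Real.exp_pos _
  obtain ⟨n0, hn0⟩ := exists_pow_lt_of_lt_one (div_pos hγ hC) (by norm_num : (1 / 2 : ℝ) < 1)
  refine ⟨n0, fun n hn => ?_⟩
  have h1 : Real.exp (-(k * (n : ℝ) - k ^ 2)) = Real.exp (-k) ^ n * Real.exp ((k : ℝ) ^ 2) := by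
    rw [← Real.exp_nat_mul, ← Real.exp_add]
    congr 1
    ring
  rw [h1, ← mul_assoc, ← mul_pow]
  have h2 : ((k : ℝ) * Real.exp (-k)) ^ n ≤ (1 / 2) ^ n :=
    pow_le_pow_left₀ (by positivity) he n
  have h3 : ((1 : ℝ) / 2) ^ n ≤ (1 / 2) ^ n0 :=
    pow_le_pow_of_le_one (by norm_num) (by norm_num) hn
  calc ((k : ℝ) * Real.exp (-k)) ^ n * Real.exp ((k : ℝ) ^ 2)
      ≤ (γ / Real.exp ((k : ℝ) ^ 2)) * Real.exp ((k : ℝ) ^ 2) := by
        apply mul_le_mul_of_nonneg_right _ hC.le
        linarith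
    _ = γ := by field_simp

end LT

theorem LT_thm : T_late := by
  intro k hk
  have hk0 : 0 < k := by omega
  have hk' : (0 : ℝ) < k := by exact_mod_cast hk0
  refine ⟨2 * (k : ℝ) ^ 2, by positivity, fun γ hγ => ?_⟩
  obtain ⟨n0, hn0⟩ := LT.num k γ hγ
  refine ⟨max n0 k, fun n hn p hp hp1 => ?_⟩
  have hp0 : 0 ≤ p := by
    by_contra h
    push Not at h
    have hnpos : (0 : ℝ) ≤ n := Nat.cast_nonneg _
    have : p * n ≤ 0 := mul_nonpos_of_nonpos_of_nonneg h.le hnpos
    have : (0 : ℝ) < 2 * (k : ℝ) ^ 2 := by positivity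
    linarith
  have h1 : ∀ ω : Om n, ind (KAliveU k ω) ≤ ∑ σ : KCol k n, ind (KProper ω univ σ) := by
    intro ω
    have h := ind_exists_le (univ : Finset (KCol k n)) (fun σ => KProper ω univ σ)
    refine le_trans (ind_mono ?_) h
    rintro ⟨σ, hσ⟩
    exact ⟨σ, mem_univ _, hσ.1⟩
  calc E p (fun ω : Om n => ind (KAliveU k ω))
      ≤ E p (fun ω : Om n => ∑ σ : KCol k n, ind (KProper ω univ σ)) := E_mono hp0 hp1 h1
    _ = ∑ σ : KCol k n, E p (fun ω : Om n => ind (KProper ω univ σ)) := E_sum p _ _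
    _ ≤ ∑ _σ : KCol k n, Real.exp (-(k * n - k ^ 2)) :=
        Finset.sum_le_sum (fun σ _ => LT.prob_le hk0 (le_trans (le_max_right _ _) hn) hp hp1 σ)
    _ = (k : ℝ) ^ n * Real.exp (-(k * n - k ^ 2)) := by
        rw [Finset.sum_const, Finset.card_univ, nsmul_eq_mul]
        simp [Fintype.card_pi]
    _ ≤ γ := hn0 n (le_trans (le_max_left _ _) hn)

end Pool.Agent.H624U
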