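import Pool.Agent.H624U.Defs
import Pool.Agent.H624C.TR

/-!
# Final assembly
-/

set_option autoImplicit false

namespace Pool.Agent.H624U

open Finset Pool.Agent.H624C
open scoped Classical

/-- orderings of all pairs of `Fin n` (the uniform random ordering gives the random graph
process) -/
abbrev Ord (n : ℕ) := Fin (Nat.card (⊤ : SimpleGraph (Fin n)).edgeSet) ≃
  (⊤ : SimpleGraph (Fin n)).edgeSet

/-- for the ordering `σ`, the first stage which is not `k`-colourable contains no uniquely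
`k`-colourable subgraph other than a triangle -/
def NoUCAtJump (k : ℕ) {n : ℕ} (σ : Ord n) : Prop :=
  ∃ m : ℕ, ¬ (Stage σ m).Colorable k ∧ (∀ m' < m, (Stage σ m').Colorable k) ∧
    ¬ HasUG k (Stage σ m)

/-- the probability, over a uniform ordering, of `NoUCAtJump` -/
noncomputable def probNoUC (k n : ℕ) : ℝ :=
  (Nat.card {σ : Ord n // NoUCAtJump k σ} : ℝ) / (Nat.card (Ord n) : ℝ)

theorem Stage_mono {n : ℕ} (σ : Ord n) {m m' : ℕ} (h : m ≤ m') : Stage σ m ≤ Stage σ m' := by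
  unfold Stage
  apply SimpleGraph.fromEdgeSet_mono
  rintro e ⟨i, hi, he⟩
  exact ⟨i, lt_of_lt_of_le hi h, he⟩

theorem HasUG_mono {k : ℕ} {W : Type} {Γ Γ' : SimpleGraph W} (hle : Γ ≤ Γ')
    (h : HasUG k Γ) : HasUG k Γ' := by
  obtain ⟨H, hH, hT⟩ := h
  refine ⟨{ verts := H.verts, Adj := H.Adj, adj_sub := fun h => hle (H.adj_sub h),
            edge_vert := H.edge_vert, symm := H.symm }, ?_, ?_⟩
  · exact hH
  · exact hT

theorem exists_first {n k : ℕ} (σ : Ord n) (h : ∃ m : ℕ, ¬ (Stage σ m).Colorable k ∧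
    ¬ HasUG k (Stage σ m)) : NoUCAtJump k σ := by
  obtain ⟨m, h1, h2⟩ := h
  have hex : ∃ m : ℕ, ¬ (Stage σ m).Colorable k := ⟨m, h1⟩
  refine ⟨Nat.find hex, Nat.find_spec hex, ?_, ?_⟩
  · intro m' hm'
    have := Nat.find_min hex hm'
    push Not at this
    exact this
  · intro h3
    exact h2 (HasUG_mono (Stage_mono σ (Nat.find_min' hex h1)) h3)

theorem MA_thm (hfin : T_fin) (hconv : T_conv) :
    ∀ k : ℕ, 3 ≤ k → ∃ γ : ℝ, 0 < γ ∧ ∀ N0 : ℕ, ∃ n ≥ N0, γ ≤ probNoUC k n := by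
  intro k hk
  obtain ⟨γ, hγ, hf⟩ := hfin k hk
  refine ⟨γ, hγ, ?_⟩
  intro N0
  obtain ⟨n, hn, M, hM, hle⟩ := hf N0
  refine ⟨n, hn, ?_⟩
  set B : SimpleGraph (Fin n) → Prop := fun Γ => ¬ Γ.Colorable k ∧ ¬ HasUG k Γ with hB
  have h1 : (∑ T : Lab n M, ind (∃ t : ℕ, ¬ KAliveU k (op t T) ∧ ¬ HasU k (op t T))) ≤
      ∑ T : Lab n M, ind (∃ t : ℕ, B (SimpleGraph.fromEdgeSet (op t T : Set (Sym2 (Fin n))))) := by
    apply Finset.sum_le_sum
    intro T _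
    apply ind_mono
    rintro ⟨t, ha, hu⟩
    obtain ⟨hc1, hc2⟩ := hconv k n (op t T) hk
    exact ⟨t, fun h => ha (hc1 h), fun h => hu (hc2 h)⟩
  have h2 := TR_thm n M hM B
  have hMp : (0 : ℝ) < (M : ℝ) ^ Fintype.card (Sym2 (Fin n)) := by positivity
  have h3 : γ ≤ (Nat.card {σ : Ord n // ∃ m : ℕ, B (Stage σ m)} : ℝ) / (Nat.card (Ord n) : ℝ) :=
    hle.trans ((div_le_div_of_nonneg_right h1 hMp.le).trans h2)
  refine h3.trans ?_
  unfold probNoUC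
  apply div_le_div_of_nonneg_right _ (Nat.cast_nonneg _)
  have h4 : Nat.card {σ : Ord n // ∃ m : ℕ, B (Stage σ m)} ≤
      Nat.card {σ : Ord n // NoUCAtJump k σ} := by
    apply Nat.card_le_card_of_injective
      (fun x : {σ : Ord n // ∃ m : ℕ, B (Stage σ m)} =>
        (⟨x.1, exists_first x.1 x.2⟩ : {σ : Ord n // NoUCAtJump k σ}))
    intro x y hxy
    simp only [Subtype.mk.injEq] at hxy
    exact Subtype.ext hxy
  exact_mod_cast h4

theorem MA_tendsto (h : ∀ k : ℕ, 3 ≤ k → ∃ γ : ℝ, 0 < γ ∧ ∀ N0 : ℕ, ∃ n ≥ N0,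
    γ ≤ probNoUC k n) (k : ℕ) (hk : 3 ≤ k) :
    (∃ γ : ℝ, 0 < γ ∧ ∃ᶠ n in Filter.atTop, γ ≤ probNoUC k n) ∧
      ¬ Filter.Tendsto (probNoUC k) Filter.atTop (nhds 0) := by
  obtain ⟨γ, hγ, hf⟩ := h k hk
  refine ⟨⟨γ, hγ, ?_⟩, ?_⟩
  · rw [Filter.frequently_atTop]
    exact hf
  · intro ht
    have hev := ht.eventually (gt_mem_nhds hγ)
    rw [Filter.eventually_atTop] at hev
    obtain ⟨N0, hN0⟩ := hev
    obtain ⟨n, hn, hle⟩ := hf N0
    exact absurd (hN0 n hn) (not_lt.2 hle)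

end Pool.Agent.H624U
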