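import Pool.Agent.H624U.Basic
import Pool.Agent.H624C.CO

/-!
# MR: the merging sum with a second star
-/

set_option autoImplicit false

namespace Pool.Agent.H624U

open Finset Pool.Agent.H624C
open scoped Classical

namespace MRaux

variable {n : ℕ}

/-- removing one pair -/
theorem incl_one (p : ℝ) (e : Sym2 (Fin n)) (f : Om n → ℝ)
    (hf : ∀ ω, f ω = f (ω \ {e})) :
    E p (fun ω => ind (e ∈ ω) * f ω) = p * E p f := by
  have h1 := S_incl_thm n p {e} f hf
  rw [Finset.card_singleton, pow_one] at h1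
  rw [← h1]
  refine E_congr fun ω => ?_
  rw [ind_congr (Finset.singleton_subset_iff (s := ω) (a := e))]

theorem cover_prob {p : ℝ} (h0 : 0 ≤ p) (h1 : p ≤ 1)
    (W : Finset (Fin n)) (f : Om n → ℝ) (hf0 : ∀ ω, 0 ≤ f ω) (Y : Finset (Fin n)) :
    Disjoint W Y → (∀ w ∈ W, ∀ y ∈ Y, ∀ ω, f ω = f (ω \ {s(w, y)})) →
    E p (fun ω => ind (∀ y ∈ Y, ∃ w ∈ W, s(w, y) ∈ ω) * f ω) ≤
      ((W.card : ℝ) * p) ^ Y.card * E p f := by
  induction Y using Finset.induction_on with
  | empty =>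
    intro _ _
    rw [Finset.card_empty, pow_zero, one_mul]
    refine E_mono h0 h1 fun ω => ?_
    have := ind_le_one (∀ y ∈ (∅ : Finset (Fin n)), ∃ w ∈ W, s(w, y) ∈ ω)
    nlinarith [hf0 ω]
  | insert y Y hy ih =>
    intro hdis hloc
    have hdis' : Disjoint W Y := Finset.disjoint_of_subset_right (Finset.subset_insert y Y) hdis
    have ih' := ih hdis' (fun w hw y' hy' ω => hloc w hw y' (Finset.mem_insert_of_mem hy') ω)
    have hyW : y ∉ W := fun hh =>
      (Finset.disjoint_left.1 hdis hh) (Finset.mem_insert_self y Y)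
    set g : Om n → ℝ := fun ω => ind (∀ y ∈ Y, ∃ w ∈ W, s(w, y) ∈ ω) * f ω with hg
    have hgloc : ∀ w ∈ W, ∀ ω, g ω = g (ω \ {s(w, y)}) := by
      intro w hw ω
      simp only [hg]
      rw [← hloc w hw y (Finset.mem_insert_self y Y) ω]
      congr 1
      refine ind_congr ?_
      have key : ∀ y' ∈ Y, ∀ w' ∈ W, (s(w', y') ∈ ω \ {s(w, y)} ↔ s(w', y') ∈ ω) := by
        intro y' hy' w' hw'
        rw [Finset.mem_sdiff, Finset.mem_singleton]
        constructor
        · exact fun hh => hh.1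
        · intro hh
          refine ⟨hh, fun he => ?_⟩
          rw [Sym2.eq_iff] at he
          rcases he with ⟨_, he⟩ | ⟨he, _⟩
          · exact hy (he ▸ hy')
          · exact hyW (he ▸ hw')
      constructor
      · intro hh y' hy'
        obtain ⟨w', hw', hm⟩ := hh y' hy'
        exact ⟨w', hw', (key y' hy' w' hw').2 hm⟩
      · intro hh y' hy'
        obtain ⟨w', hw', hm⟩ := hh y' hy'
        exact ⟨w', hw', (key y' hy' w' hw').1 hm⟩
    have hg0 : ∀ ω, 0 ≤ g ω := fun ω => mul_nonneg (ind_nonneg _) (hf0 ω)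
    have hstep : E p (fun ω => ind (∀ y' ∈ insert y Y, ∃ w ∈ W, s(w, y') ∈ ω) * f ω) ≤
        E p (fun ω => ∑ w ∈ W, ind (s(w, y) ∈ ω) * g ω) := by
      refine E_mono h0 h1 fun ω => ?_
      rw [← Finset.sum_mul]
      have h2 : ind (∀ y' ∈ insert y Y, ∃ w ∈ W, s(w, y') ∈ ω) ≤
          (∑ w ∈ W, ind (s(w, y) ∈ ω)) * ind (∀ y ∈ Y, ∃ w ∈ W, s(w, y) ∈ ω) := by
        have h3 : ind (∀ y' ∈ insert y Y, ∃ w ∈ W, s(w, y') ∈ ω) =
            ind (∃ w ∈ W, s(w, y) ∈ ω) * ind (∀ y ∈ Y, ∃ w ∈ W, s(w, y) ∈ ω) := by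
          rw [← ind_and]
          refine ind_congr ?_
          rw [Finset.forall_mem_insert]
        rw [h3]
        exact mul_le_mul_of_nonneg_right (ind_exists_le W (fun w => s(w, y) ∈ ω)) (ind_nonneg _)
      calc ind (∀ y' ∈ insert y Y, ∃ w ∈ W, s(w, y') ∈ ω) * f ω
          ≤ ((∑ w ∈ W, ind (s(w, y) ∈ ω)) * ind (∀ y ∈ Y, ∃ w ∈ W, s(w, y) ∈ ω)) * f ω :=
            mul_le_mul_of_nonneg_right h2 (hf0 ω)
        _ = (∑ w ∈ W, ind (s(w, y) ∈ ω)) * g ω := by simp only [hg]; ring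
    refine hstep.trans ?_
    rw [E_sum]
    have h4 : ∀ w ∈ W, E p (fun ω => ind (s(w, y) ∈ ω) * g ω) = p * E p g :=
      fun w hw => incl_one p _ g (hgloc w hw)
    rw [Finset.sum_congr rfl h4, Finset.sum_const, nsmul_eq_mul, Finset.card_insert_of_notMem hy,
      pow_succ]
    have h5 : 0 ≤ (W.card : ℝ) * p := mul_nonneg (Nat.cast_nonneg _) h0
    calc (W.card : ℝ) * (p * E p g) = ((W.card : ℝ) * p) * E p g := by ring
      _ ≤ ((W.card : ℝ) * p) * (((W.card : ℝ) * p) ^ Y.card * E p f) :=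
          mul_le_mul_of_nonneg_left ih' h5
      _ = ((W.card : ℝ) * p) ^ Y.card * ((W.card : ℝ) * p) * E p f := by ring

theorem edge_prob {p : ℝ} (h0 : 0 ≤ p) (W : Finset (Fin n)) :
    E p (fun ω : Om n => ∑ a ∈ W, ∑ b ∈ W.erase a, ind (s(a, b) ∈ ω)) ≤ (W.card : ℝ) ^ 2 * p := by
  rw [E_sum]
  have hE : ∀ a ∈ W, E p (fun ω : Om n => ∑ b ∈ W.erase a, ind (s(a, b) ∈ ω)) ≤
      (W.card : ℝ) * p := by
    intro a _
    rw [E_sum]
    have : ∀ b ∈ W.erase a, E p (fun ω : Om n => ind (s(a, b) ∈ ω)) = p := by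
      intro b _
      have h9 := incl_one p s(a, b) (fun _ => 1) (fun _ => rfl)
      rw [E_one, mul_one] at h9
      calc E p (fun ω : Om n => ind (s(a, b) ∈ ω))
          = E p (fun ω : Om n => ind (s(a, b) ∈ ω) * 1) := E_congr fun ω => (mul_one _).symm
        _ = p := h9
    rw [Finset.sum_congr rfl this, Finset.sum_const, nsmul_eq_mul]
    exact mul_le_mul_of_nonneg_right (by exact_mod_cast Finset.card_erase_le) h0
  refine (Finset.sum_le_sum hE).trans ?_
  rw [Finset.sum_const, nsmul_eq_mul]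
  exact le_of_eq (by ring)

theorem G_le {k : ℕ} (hL : T_large) {p : ℝ} (h0 : 0 ≤ p) (h1 : p ≤ 1)
    (T Y : Finset (Fin n)) :
    KG p (Set.univ : Set (KCol k n)) T Y ≤
      E p (fun ω => ind (KAlive (KRY (Set.univ : Set (KCol k n)) Y) T ω) *
      √(KX (KRY (Set.univ : Set (KCol k n)) Y) T ω : ℝ)) + 1 := by
  unfold KG
  calc E p (fun ω => ind (KAlive (KRY (Set.univ : Set (KCol k n)) Y) T ω) *
        (Kcs (Set.univ : Set (KCol k n)) T ω Y : ℝ))
      ≤ E p (fun ω => ind (KAlive (KRY (Set.univ : Set (KCol k n)) Y) T ω) *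
          √(KX (KRY (Set.univ : Set (KCol k n)) Y) T ω : ℝ) + 1) := by
        apply E_mono h0 h1
        intro ω
        by_cases hA : KAlive (KRY (Set.univ : Set (KCol k n)) Y) T ω
        · have := hL k n T Y Set.univ ω hA
          rw [ind_true hA]
          linarith
        · rw [ind_false hA]
          norm_num
    _ = _ := by
        rw [E_add, E_one]

/-- the merging sum is bounded -/
theorem kappa (hE1 : T_E1) (hL : T_large) (hA : T_A) (k r : ℕ) (Λ : ℝ) (hk : 3 ≤ k)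
    (hΛ : 0 < Λ) : ∃ C0 : ℝ, 0 ≤ C0 ∧ ∀ (n M t1 : ℕ), Std Λ k n M t1 →
      ∀ W : Finset (Fin n), W.card ≤ r →
      (n : ℝ) ^ 2 / M * ∑ t ∈ range t1, E ((t : ℝ) / M)
        (fun ω => ind (KAlive (Set.univ : Set (KCol k n)) Finset.univ ω ∧
          KNC (Set.univ : Set (KCol k n)) Finset.univ ω W)) ≤ C0 := by
  obtain ⟨a, b, ha, hb, hAA⟩ := hA k Λ hk hΛ
  refine ⟨(r : ℝ) ^ 2 * Λ ^ 2 + r * Λ * (a + b + Λ) * Real.exp (2 * r * Λ), by positivity, ?_⟩
  intro n M t1 hstd W hWr
  obtain ⟨hn, h2, hM, ht, hKS⟩ := hstd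
  have hstd : Std Λ k n M t1 := ⟨hn, h2, hM, ht, hKS⟩
  have hnR : (0 : ℝ) < n := by exact_mod_cast hn
  have hMR : (0 : ℝ) < M := by exact_mod_cast hM
  obtain ⟨q, hq⟩ : ∃ q : ℝ, q = Λ / n := ⟨_, rfl⟩
  have hqn : q * n = Λ := by rw [hq]; field_simp
  have hq0 : 0 < q := by rw [hq]; positivity
  have hq1 : q ≤ 1 / 2 := by
    rw [hq, div_le_iff₀ hnR]; linarith
  have hp0 : ∀ t : ℕ, 0 ≤ (t : ℝ) / M := fun t => by positivity
  have hpq : ∀ t ∈ range t1, (t : ℝ) / M ≤ q := by
    intro t htt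
    have h3 : (t : ℝ) ≤ t1 := by exact_mod_cast (Finset.mem_range.mp htt).le
    rw [div_le_iff₀ hMR, hq, div_mul_eq_mul_div, le_div_iff₀ hnR]
    nlinarith
  have hp1 : ∀ t ∈ range t1, (t : ℝ) / M ≤ 1 := fun t htt => by
    have := hpq t htt; linarith
  have hr0 : (0 : ℝ) ≤ r := Nat.cast_nonneg r
  have hWr' : (W.card : ℝ) ≤ r := by exact_mod_cast hWr
  have hW0 : (0 : ℝ) ≤ W.card := Nat.cast_nonneg _
  obtain ⟨T, hT⟩ : ∃ T : Finset (Fin n), T = Finset.univ \ W := ⟨_, rfl⟩
  obtain ⟨H, hH⟩ : ∃ H : ℕ → Finset (Fin n) → ℝ, H = fun (t : ℕ) Y =>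
      E ((t : ℝ) / M) (fun ω => ind (KAlive (KRY (Set.univ : Set (KCol k n)) Y) T ω) *
        √(KX (KRY (Set.univ : Set (KCol k n)) Y) T ω : ℝ)) := ⟨_, rfl⟩
  have hHnn : ∀ t ∈ range t1, ∀ Y, 0 ≤ H t Y := by
    intro t htt Y
    rw [hH]
    exact E_nonneg (hp0 t) (hp1 t htt) (fun ω => mul_nonneg (ind_nonneg _) (Real.sqrt_nonneg _))
  have hstep : ∀ t ∈ range t1, E ((t : ℝ) / M)
      (fun ω => ind (KAlive (Set.univ : Set (KCol k n)) Finset.univ ω ∧
        KNC (Set.univ : Set (KCol k n)) Finset.univ ω W)) ≤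
      (r : ℝ) ^ 2 * q + ∑ Y ∈ T.powerset, ((r : ℝ) * q) ^ (Y.card + 1) * (H t Y + 1) := by
    intro t htt
    have h3 := hE1 k n ((t : ℝ) / M) hk (hp0 t) (hp1 t htt) Finset.univ ∅ W Set.univ
      (Finset.empty_subset _) (Finset.subset_univ _) (Finset.disjoint_empty_right _) (KDep_univ _)
    refine h3.trans ?_
    rw [← hT]
    apply add_le_add
    · apply mul_le_mul _ (hpq t htt) (hp0 t) (by positivity)
      exact pow_le_pow_left₀ hW0 hWr' 2
    · apply Finset.sum_le_sum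
      intro Y _
      apply mul_le_mul
      · apply pow_le_pow_left₀ (mul_nonneg hW0 (hp0 t))
        exact mul_le_mul hWr' (hpq t htt) (hp0 t) hr0
      · rw [hH]
        exact G_le hL (hp0 t) (hp1 t htt) T Y
      · exact KG_nonneg (hp0 t) (hp1 t htt) _ _ _
      · positivity
  have hsumH : ∀ Y ∈ T.powerset, (n : ℝ) / M * ∑ t ∈ range t1, H t Y ≤ a + b * Y.card := by
    intro Y hY
    have hdep : KDep Y (KRY (Set.univ : Set (KCol k n)) Y) := by
      have := KDep_KRY (K := ∅) (Y := Y) (KDep_univ (k := k) (n := n) ∅)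
      rwa [Finset.empty_union] at this
    have := hAA n M t1 hstd T Y (KRY (Set.univ : Set (KCol k n)) Y) (Finset.mem_powerset.mp hY) hdep
    rw [hH]
    exact this
  have hc0 : 0 ≤ (n : ℝ) ^ 2 / M := by positivity
  have hnt : (n : ℝ) / M * t1 ≤ Λ := by
    rw [div_mul_eq_mul_div, div_le_iff₀ hMR]
    linarith
  calc (n : ℝ) ^ 2 / M * ∑ t ∈ range t1, E ((t : ℝ) / M)
        (fun ω => ind (KAlive (Set.univ : Set (KCol k n)) Finset.univ ω ∧
          KNC (Set.univ : Set (KCol k n)) Finset.univ ω W))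
      ≤ (n : ℝ) ^ 2 / M * ∑ t ∈ range t1, ((r : ℝ) ^ 2 * q +
          ∑ Y ∈ T.powerset, ((r : ℝ) * q) ^ (Y.card + 1) * (H t Y + 1)) := by
        apply mul_le_mul_of_nonneg_left _ hc0
        exact Finset.sum_le_sum hstep
    _ = (r : ℝ) ^ 2 * (q * n) * ((n : ℝ) / M * t1) +
          ∑ Y ∈ T.powerset, (((r : ℝ) * q) ^ (Y.card + 1) * n) *
            ((n : ℝ) / M * ∑ t ∈ range t1, H t Y + (n : ℝ) / M * t1) := by
        rw [Finset.sum_add_distrib, mul_add, Finset.sum_const, Finset.card_range, nsmul_eq_mul,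
          Finset.sum_comm, Finset.mul_sum]
        congr 1
        · ring
        · apply Finset.sum_congr rfl
          intro Y _
          rw [← Finset.mul_sum, Finset.sum_add_distrib, Finset.sum_const, Finset.card_range,
            nsmul_eq_mul]
          ring
    _ ≤ (r : ℝ) ^ 2 * Λ ^ 2 + ∑ Y ∈ T.powerset,
          ((r : ℝ) * Λ * (a + b + Λ)) * (2 * r * q) ^ Y.card := by
        apply add_le_add
        · rw [hqn]
          calc (r : ℝ) ^ 2 * Λ * ((n : ℝ) / M * t1) ≤ (r : ℝ) ^ 2 * Λ * Λ :=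
                mul_le_mul_of_nonneg_left hnt (by positivity)
            _ = _ := by ring
        · apply Finset.sum_le_sum
          intro Y hY
          have h3 : (n : ℝ) / M * ∑ t ∈ range t1, H t Y + (n : ℝ) / M * t1 ≤
              (a + b + Λ) * 2 ^ Y.card := by
            have h4 := hsumH Y hY
            have h5 : (Y.card : ℝ) ≤ 2 ^ Y.card := by
              exact_mod_cast (Nat.lt_two_pow_self (n := Y.card)).le
            have h6 : (1 : ℝ) ≤ 2 ^ Y.card := one_le_pow₀ (by norm_num)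
            have h7 : b * (Y.card : ℝ) ≤ b * 2 ^ Y.card := mul_le_mul_of_nonneg_left h5 hb
            have h8 : a * 1 ≤ a * 2 ^ Y.card := mul_le_mul_of_nonneg_left h6 ha
            have h9 : Λ * 1 ≤ Λ * 2 ^ Y.card := mul_le_mul_of_nonneg_left h6 hΛ.le
            linarith
          calc (((r : ℝ) * q) ^ (Y.card + 1) * n) *
              ((n : ℝ) / M * ∑ t ∈ range t1, H t Y + (n : ℝ) / M * t1)
              ≤ (((r : ℝ) * q) ^ (Y.card + 1) * n) * ((a + b + Λ) * 2 ^ Y.card) :=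
                mul_le_mul_of_nonneg_left h3 (by positivity)
            _ = ((r : ℝ) * (q * n) * (a + b + Λ)) * (2 * r * q) ^ Y.card := by
                rw [pow_succ, mul_assoc (2 : ℝ) r q, mul_pow 2]
                ring
            _ = _ := by rw [hqn]
    _ = (r : ℝ) ^ 2 * Λ ^ 2 + ((r : ℝ) * Λ * (a + b + Λ)) * (2 * r * q + 1) ^ T.card := by
        rw [← Finset.mul_sum, ← Finset.sum_pow_mul_eq_add_pow (2 * r * q) 1 T]
        simp
    _ ≤ (r : ℝ) ^ 2 * Λ ^ 2 + ((r : ℝ) * Λ * (a + b + Λ)) * Real.exp (2 * r * Λ) := by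
        apply add_le_add le_rfl
        apply mul_le_mul_of_nonneg_left _ (by positivity)
        have h3 : (2 * r * q + 1) ≤ Real.exp (2 * r * q) := Real.add_one_le_exp _
        have hTn : (T.card : ℝ) ≤ n := by
          have := Finset.card_le_univ T
          rw [Fintype.card_fin] at this
          exact_mod_cast this
        calc (2 * r * q + 1) ^ T.card ≤ (Real.exp (2 * r * q)) ^ T.card :=
              pow_le_pow_left₀ (by positivity) h3 _
          _ = Real.exp (T.card * (2 * r * q)) := by rw [← Real.exp_nat_mul]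
          _ ≤ Real.exp (2 * r * Λ) := by
              apply Real.exp_le_exp.mpr
              calc (T.card : ℝ) * (2 * r * q) ≤ n * (2 * r * q) :=
                    mul_le_mul_of_nonneg_right hTn (by positivity)
                _ = 2 * r * (q * n) := by ring
                _ = 2 * r * Λ := by rw [hqn]

/-- the tuples meeting `W` -/
noncomputable def hit (l : ℕ) (W : Finset (Fin n)) : Finset (Fin l → Fin n) :=
  Finset.univ.filter (fun w => ∃ i, w i ∈ W)

theorem hit_card (l : ℕ) (W : Finset (Fin n)) :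
    n * (hit l W).card ≤ l * (W.card * n ^ l) := by
  have h1 : hit l W ⊆ Finset.univ.biUnion (fun i : Fin l =>
      Fintype.piFinset (fun j : Fin l => if j = i then W else (Finset.univ : Finset (Fin n)))) := by
    intro w hw
    unfold hit at hw
    rw [mem_filter] at hw
    obtain ⟨_, i, hi⟩ := hw
    rw [mem_biUnion]
    refine ⟨i, mem_univ _, ?_⟩
    rw [Fintype.mem_piFinset]
    intro j
    by_cases hj : j = i
    · rw [if_pos hj, hj]
      exact hi
    · rw [if_neg hj]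
      exact mem_univ _
  have h2 : (hit l W).card ≤ ∑ i : Fin l, W.card * n ^ (l - 1) := by
    refine (card_le_card h1).trans (card_biUnion_le.trans ?_)
    apply Finset.sum_le_sum
    intro i _
    rw [Fintype.card_piFinset, ← Finset.mul_prod_erase Finset.univ _ (mem_univ i)]
    simp only [if_true]
    apply Nat.mul_le_mul_left
    rw [Finset.prod_congr rfl (g := fun _ => n)]
    · rw [Finset.prod_const, card_erase_of_mem (mem_univ i), card_univ, Fintype.card_fin]
    · intro j hj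
      rw [if_neg (ne_of_mem_erase hj), card_univ, Fintype.card_fin]
  rw [Finset.sum_const, card_univ, Fintype.card_fin, smul_eq_mul] at h2
  rcases Nat.eq_zero_or_pos l with hl | hl
  · subst hl
    rw [zero_mul] at h2
    rw [Nat.le_zero.mp h2, mul_zero]
    exact Nat.zero_le _
  · calc n * (hit l W).card ≤ n * (l * (W.card * n ^ (l - 1))) := Nat.mul_le_mul_left _ h2
      _ = l * (W.card * (n ^ (l - 1) * n)) := by ring
      _ = l * (W.card * n ^ l) := by rw [← pow_succ, Nat.sub_add_cancel hl]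

/-- the neighbours of `W` outside `W` -/
noncomputable def ZZ (W : Finset (Fin n)) (ω : Om n) : Finset (Fin n) :=
  (Finset.univ \ W).filter (fun z => ∃ w ∈ W, s(w, z) ∈ ω)

/-- the counted tuples -/
noncomputable def FF (k l : ℕ) (W : Finset (Fin n)) (ω : Om n) : Finset (Fin l → Fin n) :=
  (Finset.univ : Finset (Fin l → Fin n)).filter
    (fun w => (∀ i, w i ∈ (Finset.univ : Finset (Fin n))) ∧
      ∀ σ ∈ KSol (Set.univ : Set (KCol k n)) Finset.univ ω, (∃ s, ∀ x ∈ W, σ x = s) →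
      ∀ s, ∃ i, σ (w i) = s)

theorem cov_of_FF {k l : ℕ} {W : Finset (Fin n)} {ω : Om n}
    (hW : ∀ a ∈ W, ∀ b ∈ W, a ≠ b → s(a, b) ∉ ω) {w : Fin l → Fin n}
    (hw : w ∈ FF k l W ω) (hw2 : ∀ i, w i ∈ Finset.univ \ W) :
    KCov (KRY (Set.univ : Set (KCol k n)) (ZZ W ω)) (Finset.univ \ W) ω
      (Finset.univ.image w) := by
  intro σ hσ s'
  obtain ⟨hσ1, _, s, hs⟩ := hσ
  unfold FF at hw
  rw [mem_filter] at hw
  have hprop : KProper ω Finset.univ (fun v => if v ∈ W then s else σ v) := by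
    intro a ha b hb hab hm
    by_cases haW : a ∈ W
    · by_cases hbW : b ∈ W
      · exact absurd hm (hW a haW b hbW hab)
      · simp only [haW, hbW, if_true, if_false]
        have hbZ : b ∈ ZZ W ω := by
          unfold ZZ
          rw [Finset.mem_filter, Finset.mem_sdiff]
          exact ⟨⟨hb, hbW⟩, a, haW, hm⟩
        exact fun hh => hs b hbZ hh.symm
    · by_cases hbW : b ∈ W
      · simp only [haW, hbW, if_true, if_false]
        have haZ : a ∈ ZZ W ω := by
          unfold ZZ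
          rw [Finset.mem_filter, Finset.mem_sdiff]
          exact ⟨⟨ha, haW⟩, b, hbW, by rw [Sym2.eq_swap]; exact hm⟩
        exact fun hh => hs a haZ hh
      · simp only [haW, hbW, if_false]
        exact hσ1 a (Finset.mem_sdiff.2 ⟨ha, haW⟩) b (Finset.mem_sdiff.2 ⟨hb, hbW⟩) hab hm
  obtain ⟨i, hi⟩ := hw.2.2 (fun v => if v ∈ W then s else σ v) ⟨hprop, Set.mem_univ _⟩
    ⟨s, fun w hw => if_pos hw⟩ s'
  refine ⟨w i, mem_image_of_mem _ (mem_univ _), ?_⟩
  have hwi : w i ∉ W := (mem_sdiff.mp (hw2 i)).2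
  simp only [hwi, if_false] at hi
  exact hi

theorem NC_of_dead {k : ℕ} {W : Finset (Fin n)} {ω : Om n}
    (h : ¬ KAlive (KRY (Set.univ : Set (KCol k n)) (ZZ W ω)) (Finset.univ \ W) ω) :
    KNC (Set.univ : Set (KCol k n)) Finset.univ ω W := by
  rintro σ hσ ⟨s, hs⟩
  apply h
  refine ⟨σ, hσ.1.mono (Finset.subset_univ _), Set.mem_univ _, s, ?_⟩
  intro z hz hzs
  unfold ZZ at hz
  rw [mem_filter, mem_sdiff] at hz
  obtain ⟨⟨_, hzW⟩, w, hw, hm⟩ := hz
  have hwz : w ≠ z := fun e => hzW (e ▸ hw)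
  exact hσ.1 w (mem_univ _) z (mem_univ _) hwz hm (by rw [hs w hw, hzs])

/-- the pointwise bound -/
theorem pointwise (k l : ℕ) (W : Finset (Fin n)) (ω : Om n) :
    ind (KAliveU k ω) * (Kmrg l (Set.univ : Set (KCol k n)) Finset.univ W ω : ℝ) ≤
      (n : ℝ) ^ l * (∑ a ∈ W, ∑ b ∈ W.erase a, ind (s(a, b) ∈ ω)) + ((hit l W).card : ℝ) +
      (n : ℝ) ^ l * ind (KAlive (Set.univ : Set (KCol k n)) Finset.univ ω ∧
        KNC (Set.univ : Set (KCol k n)) Finset.univ ω W) +
      ∑ Y ∈ (Finset.univ \ W).powerset, ind (∀ y ∈ Y, ∃ w ∈ W, s(w, y) ∈ ω) *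
        (ind (KAlive (KRY (Set.univ : Set (KCol k n)) Y) (Finset.univ \ W) ω) *
          (Kcovn l (KRY (Set.univ : Set (KCol k n)) Y) (Finset.univ \ W) ω : ℝ)) := by
  have hn0 : (0 : ℝ) ≤ (n : ℝ) ^ l := by positivity
  have hA0 : 0 ≤ ∑ a ∈ W, ∑ b ∈ W.erase a, ind (s(a, b) ∈ ω) :=
    Finset.sum_nonneg fun a _ => Finset.sum_nonneg fun b _ => ind_nonneg _
  have hB0 : 0 ≤ ((hit l W).card : ℝ) := Nat.cast_nonneg _
  have hC0 : 0 ≤ (n : ℝ) ^ l * ind (KAlive (Set.univ : Set (KCol k n)) Finset.univ ω ∧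
        KNC (Set.univ : Set (KCol k n)) Finset.univ ω W) := mul_nonneg hn0 (ind_nonneg _)
  have hD1 : ∀ Y ∈ (Finset.univ \ W).powerset, 0 ≤ ind (∀ y ∈ Y, ∃ w ∈ W, s(w, y) ∈ ω) *
        (ind (KAlive (KRY (Set.univ : Set (KCol k n)) Y) (Finset.univ \ W) ω) *
          (Kcovn l (KRY (Set.univ : Set (KCol k n)) Y) (Finset.univ \ W) ω : ℝ)) := fun Y _ =>
    mul_nonneg (ind_nonneg _) (mul_nonneg (ind_nonneg _) (Nat.cast_nonneg _))
  have hD0 := Finset.sum_nonneg hD1
  have hAn := mul_nonneg hn0 hA0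
  by_cases hal : KAliveU k ω
  · rw [ind_true hal, one_mul]
    have hmr : Kmrg l (Set.univ : Set (KCol k n)) Finset.univ W ω = (FF k l W ω).card := rfl
    have hmn : ((FF k l W ω).card : ℝ) ≤ (n : ℝ) ^ l := by
      have h1 : (FF k l W ω).card ≤ n ^ l := by
        refine (card_le_univ _).trans ?_
        rw [Fintype.card_fun, Fintype.card_fin, Fintype.card_fin]
      exact_mod_cast h1
    rw [hmr]
    by_cases hW : ∀ a ∈ W, ∀ b ∈ W, a ≠ b → s(a, b) ∉ ω
    · by_cases hZ : KAlive (KRY (Set.univ : Set (KCol k n)) (ZZ W ω)) (Finset.univ \ W) ω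
      · have h1 : FF k l W ω ⊆ hit l W ∪ (Finset.univ : Finset (Fin l → Fin n)).filter
            (fun w => (∀ i, w i ∈ Finset.univ \ W) ∧
              KCov (KRY (Set.univ : Set (KCol k n)) (ZZ W ω)) (Finset.univ \ W) ω
                (Finset.univ.image w)) := by
          intro w hw
          rw [mem_union]
          by_cases hh : ∃ i, w i ∈ W
          · left
            unfold hit
            rw [mem_filter]
            exact ⟨mem_univ _, hh⟩
          · right
            push Not at hh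
            have h2 : ∀ i, w i ∈ Finset.univ \ W := fun i => mem_sdiff.mpr ⟨mem_univ _, hh i⟩
            rw [mem_filter]
            exact ⟨mem_univ _, h2, cov_of_FF hW hw h2⟩
        have h2 : (FF k l W ω).card ≤ (hit l W).card +
            Kcovn l (KRY (Set.univ : Set (KCol k n)) (ZZ W ω)) (Finset.univ \ W) ω :=
          (card_le_card h1).trans (card_union_le _ _)
        have h3 : ((FF k l W ω).card : ℝ) ≤ ((hit l W).card : ℝ) +
            (Kcovn l (KRY (Set.univ : Set (KCol k n)) (ZZ W ω)) (Finset.univ \ W) ω : ℝ) := by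
          exact_mod_cast h2
        have hall : ∀ y ∈ ZZ W ω, ∃ w ∈ W, s(w, y) ∈ ω := fun y hy => (mem_filter.mp hy).2
        have hZm : ZZ W ω ∈ (Finset.univ \ W).powerset := by
          rw [mem_powerset]
          exact filter_subset _ _
        have h4 := Finset.single_le_sum (f := fun Y => ind (∀ y ∈ Y, ∃ w ∈ W, s(w, y) ∈ ω) *
          (ind (KAlive (KRY (Set.univ : Set (KCol k n)) Y) (Finset.univ \ W) ω) *
          (Kcovn l (KRY (Set.univ : Set (KCol k n)) Y) (Finset.univ \ W) ω : ℝ))) hD1 hZm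
        rw [ind_true hall, ind_true hZ, one_mul, one_mul] at h4
        linarith
      · have h1 : KAlive (Set.univ : Set (KCol k n)) Finset.univ ω ∧
            KNC (Set.univ : Set (KCol k n)) Finset.univ ω W := ⟨hal, NC_of_dead hZ⟩
        rw [ind_true h1, mul_one]
        linarith
    · push Not at hW
      obtain ⟨a, ha, b, hb, hab, hm⟩ := hW
      have h2' : (1 : ℝ) ≤ ∑ b ∈ W.erase a, ind (s(a, b) ∈ ω) := by
        rw [← ind_true hm]
        exact Finset.single_le_sum (f := fun b => ind (s(a, b) ∈ ω)) (fun b _ => ind_nonneg _)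
          (Finset.mem_erase.2 ⟨hab.symm, hb⟩)
      have h3' := Finset.single_le_sum (f := fun a => ∑ b ∈ W.erase a, ind (s(a, b) ∈ ω))
        (fun a _ => Finset.sum_nonneg fun b _ => ind_nonneg _) ha
      have h4' := h2'.trans h3'
      have h5' : (n : ℝ) ^ l * 1 ≤ (n : ℝ) ^ l * (∑ a ∈ W, ∑ b ∈ W.erase a, ind (s(a, b) ∈ ω)) :=
        mul_le_mul_of_nonneg_left h4' hn0
      linarith
  · rw [ind_false hal, zero_mul]
    linarith

end MRaux

open MRaux in
theorem MR_thm (h1 : T_E1) (h2 : T_A) (h3 : T_large) (h4 : T_covb) : T_mrg := by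
  intro k l r Λ hk hΛ
  obtain ⟨C0, hC0, hK⟩ := kappa h1 h3 h2 k r Λ hk hΛ
  obtain ⟨C1, hC1, hcov⟩ := h4 k l Λ hk hΛ
  refine ⟨(r : ℝ) ^ 2 * Λ ^ 2 + Λ * (l * r) + C0 + C1 * Real.exp (2 * r * Λ), by positivity, ?_⟩
  intro n M t1 hstd W hWr
  have hstd' := hstd
  obtain ⟨hn, h2', hM, ht, hKS⟩ := hstd'
  have hnR : (0 : ℝ) < n := by exact_mod_cast hn
  have hMR : (0 : ℝ) < M := by exact_mod_cast hM
  obtain ⟨q, hq⟩ : ∃ q : ℝ, q = Λ / n := ⟨_, rfl⟩
  have hqn : q * n = Λ := by rw [hq]; field_simp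
  have hq0 : 0 < q := by rw [hq]; positivity
  have hq1 : q ≤ 1 / 2 := by
    rw [hq, div_le_iff₀ hnR]; linarith
  have hp0 : ∀ t : ℕ, 0 ≤ (t : ℝ) / M := fun t => by positivity
  have hpq : ∀ t ∈ range t1, (t : ℝ) / M ≤ q := by
    intro t htt
    have h3 : (t : ℝ) ≤ t1 := by exact_mod_cast (Finset.mem_range.mp htt).le
    rw [div_le_iff₀ hMR, hq, div_mul_eq_mul_div, le_div_iff₀ hnR]
    nlinarith
  have hp1 : ∀ t ∈ range t1, (t : ℝ) / M ≤ 1 := fun t htt => by
    have := hpq t htt; linarith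
  have hr0 : (0 : ℝ) ≤ r := Nat.cast_nonneg r
  have hWr' : (W.card : ℝ) ≤ r := by exact_mod_cast hWr
  have hW0 : (0 : ℝ) ≤ W.card := Nat.cast_nonneg _
  have hnt : (n : ℝ) / M * t1 ≤ Λ := by
    rw [div_mul_eq_mul_div, div_le_iff₀ hMR]
    linarith
  have hc0 : 0 ≤ (n : ℝ) ^ 2 / M := by positivity
  have hnl : (0 : ℝ) ≤ (n : ℝ) ^ l := by positivity
  obtain ⟨T, hT⟩ : ∃ T : Finset (Fin n), T = Finset.univ \ W := ⟨_, rfl⟩
  have hdis : Disjoint W T := by rw [hT]; exact Finset.disjoint_sdiff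
  obtain ⟨g, hg⟩ : ∃ g : Finset (Fin n) → Om n → ℝ, g = fun Y ω =>
      ind (KAlive (KRY (Set.univ : Set (KCol k n)) Y) T ω) *
        (Kcovn l (KRY (Set.univ : Set (KCol k n)) Y) T ω : ℝ) := ⟨_, rfl⟩
  have hg0 : ∀ Y ω, 0 ≤ g Y ω := by
    intro Y ω
    rw [hg]
    exact mul_nonneg (ind_nonneg _) (Nat.cast_nonneg _)
  -- one time step
  have hstep : ∀ t ∈ range t1, E ((t : ℝ) / M) (fun ω => ind (KAliveU k ω) *
        (Kmrg l (Set.univ : Set (KCol k n)) Finset.univ W ω : ℝ)) ≤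
      (n : ℝ) ^ l * ((r : ℝ) ^ 2 * q) + ((hit l W).card : ℝ) +
      (n : ℝ) ^ l * E ((t : ℝ) / M) (fun ω =>
        ind (KAlive (Set.univ : Set (KCol k n)) Finset.univ ω ∧
          KNC (Set.univ : Set (KCol k n)) Finset.univ ω W)) +
      ∑ Y ∈ T.powerset, ((r : ℝ) * q) ^ Y.card * E ((t : ℝ) / M) (g Y) := by
    intro t htt
    have e1 := E_mono (hp0 t) (hp1 t htt) (fun ω => pointwise k l W ω)
    refine e1.trans ?_
    rw [E_add, E_add, E_add, E_mul_left, E_mul_left, E_const, ← hT,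
      E_sum (p := (t : ℝ) / M) T.powerset]
    apply add_le_add
    · apply add_le_add
      · apply add_le_add _ le_rfl
        apply mul_le_mul_of_nonneg_left _ hnl
        refine (edge_prob (hp0 t) W).trans ?_
        apply mul_le_mul _ (hpq t htt) (hp0 t) (by positivity)
        exact pow_le_pow_left₀ hW0 hWr' 2
      · exact le_rfl
    · apply Finset.sum_le_sum
      intro Y hY
      rw [mem_powerset] at hY
      have hc := cover_prob (hp0 t) (hp1 t htt) W (g Y) (hg0 Y) Y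
        (Finset.disjoint_of_subset_right hY hdis) ?_
      · refine le_trans ?_ (hc.trans ?_)
        · rw [hg]
        · apply mul_le_mul_of_nonneg_right
          · apply pow_le_pow_left₀ (mul_nonneg hW0 (hp0 t))
            exact mul_le_mul hWr' (hpq t htt) (hp0 t) hr0
          · exact E_nonneg (hp0 t) (hp1 t htt) (hg0 Y)
      · intro w hw y hy ω
        have hloc : ∀ a ∈ T, ∀ b ∈ T, s(a, b) ∉ ({s(w, y)} : Om n) := by
          intro a ha b hb hm
          rw [Finset.mem_singleton, Sym2.eq_iff] at hm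
          rcases hm with ⟨he, _⟩ | ⟨_, he⟩
          · exact Finset.disjoint_left.1 hdis hw (he ▸ ha)
          · exact Finset.disjoint_left.1 hdis hw (he ▸ hb)
        have e1 := KSol_sdiff (ω := ω) (KRY (Set.univ : Set (KCol k n)) Y) hloc
        have e2 : Kcovn l (KRY (Set.univ : Set (KCol k n)) Y) T (ω \ {s(w, y)}) =
            Kcovn l (KRY (Set.univ : Set (KCol k n)) Y) T ω := by
          unfold Kcovn
          refine congrArg Finset.card ?_
          ext v
          rw [mem_filter, mem_filter, KCov_of_sol e1]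
        rw [hg]
        simp only
        rw [ind_congr (KAlive_of_sol e1), e2]
  have hsumg : ∀ Y ∈ T.powerset, (n : ℝ) ^ 2 / M * ∑ t ∈ range t1, E ((t : ℝ) / M) (g Y) ≤
      C1 * (n : ℝ) ^ l * 2 ^ Y.card := by
    intro Y hY
    have hdep : KDep Y (KRY (Set.univ : Set (KCol k n)) Y) := by
      have := KDep_KRY (K := ∅) (Y := Y) (KDep_univ (k := k) (n := n) ∅)
      rwa [Finset.empty_union] at this
    have h5 := hcov n M t1 hstd T Y (KRY (Set.univ : Set (KCol k n)) Y)
      (Finset.mem_powerset.mp hY) hdep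
    rw [hg]
    refine h5.trans ?_
    have h6 : (1 : ℝ) + Y.card ≤ 2 ^ Y.card := by
      have : 1 + Y.card ≤ 2 ^ Y.card := by
        have := Nat.lt_two_pow_self (n := Y.card)
        omega
      exact_mod_cast this
    calc C1 * (1 + (Y.card : ℝ)) * (n : ℝ) ^ l = C1 * (n : ℝ) ^ l * (1 + Y.card) := by ring
      _ ≤ _ := mul_le_mul_of_nonneg_left h6 (by positivity)
  have hkap := hK n M t1 hstd W hWr
  have hhit : (n : ℝ) * ((hit l W).card : ℝ) ≤ (l * r) * (n : ℝ) ^ l := by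
    have h7 : (n : ℝ) * ((hit l W).card : ℝ) ≤ l * (W.card * (n : ℝ) ^ l) := by
      exact_mod_cast hit_card l W
    refine h7.trans ?_
    have h8 : (W.card : ℝ) * (n : ℝ) ^ l ≤ r * (n : ℝ) ^ l := mul_le_mul_of_nonneg_right hWr' hnl
    calc (l : ℝ) * (W.card * (n : ℝ) ^ l) ≤ l * (r * (n : ℝ) ^ l) :=
          mul_le_mul_of_nonneg_left h8 (Nat.cast_nonneg l)
      _ = _ := by ring
  obtain ⟨κ, hκ⟩ : ∃ κ : ℕ → ℝ, κ = fun (t : ℕ) => E ((t : ℝ) / M) (fun ω =>
        ind (KAlive (Set.univ : Set (KCol k n)) Finset.univ ω ∧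
          KNC (Set.univ : Set (KCol k n)) Finset.univ ω W)) := ⟨_, rfl⟩
  have hkap' : (n : ℝ) ^ 2 / M * ∑ t ∈ range t1, κ t ≤ C0 := by
    rw [hκ]
    exact hkap
  calc (n : ℝ) ^ 2 / M * ∑ t ∈ range t1, E ((t : ℝ) / M) (fun ω => ind (KAliveU k ω) *
        (Kmrg l (Set.univ : Set (KCol k n)) Finset.univ W ω : ℝ))
      ≤ (n : ℝ) ^ 2 / M * ∑ t ∈ range t1, ((n : ℝ) ^ l * ((r : ℝ) ^ 2 * q) +
          ((hit l W).card : ℝ) + (n : ℝ) ^ l * κ t +
          ∑ Y ∈ T.powerset, ((r : ℝ) * q) ^ Y.card * E ((t : ℝ) / M) (g Y)) := by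
        apply mul_le_mul_of_nonneg_left _ hc0
        rw [hκ]
        exact Finset.sum_le_sum hstep
    _ = (n : ℝ) ^ l * ((r : ℝ) ^ 2 * (q * n)) * ((n : ℝ) / M * t1) +
          (n * ((hit l W).card : ℝ)) * ((n : ℝ) / M * t1) +
          (n : ℝ) ^ l * ((n : ℝ) ^ 2 / M * ∑ t ∈ range t1, κ t) +
          ∑ Y ∈ T.powerset, ((r : ℝ) * q) ^ Y.card *
            ((n : ℝ) ^ 2 / M * ∑ t ∈ range t1, E ((t : ℝ) / M) (g Y)) := by
        rw [Finset.sum_add_distrib, Finset.sum_add_distrib, Finset.sum_const, Finset.card_range,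
          nsmul_eq_mul, ← Finset.mul_sum, Finset.sum_comm, mul_add, mul_add]
        congr 1
        · congr 1
          · ring
          · ring
        · rw [Finset.mul_sum]
          apply Finset.sum_congr rfl
          intro Y _
          rw [← Finset.mul_sum]
          ring
    _ ≤ (n : ℝ) ^ l * ((r : ℝ) ^ 2 * Λ) * Λ + ((l * r) * (n : ℝ) ^ l) * Λ +
          (n : ℝ) ^ l * C0 +
          ∑ Y ∈ T.powerset, (C1 * (n : ℝ) ^ l) * (2 * r * q) ^ Y.card := by
        have hnt0 : 0 ≤ (n : ℝ) / M * t1 := by positivity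
        apply add_le_add
        · apply add_le_add
          · apply add_le_add
            · rw [hqn]
              exact mul_le_mul_of_nonneg_left hnt (by positivity)
            · exact mul_le_mul hhit hnt hnt0 (by positivity)
          · exact mul_le_mul_of_nonneg_left hkap' hnl
        · apply Finset.sum_le_sum
          intro Y hY
          calc ((r : ℝ) * q) ^ Y.card *
                ((n : ℝ) ^ 2 / M * ∑ t ∈ range t1, E ((t : ℝ) / M) (g Y))
              ≤ ((r : ℝ) * q) ^ Y.card * (C1 * (n : ℝ) ^ l * 2 ^ Y.card) :=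
                mul_le_mul_of_nonneg_left (hsumg Y hY) (by positivity)
            _ = _ := by
                rw [mul_assoc (2 : ℝ) r q, mul_pow 2]
                ring
    _ = (n : ℝ) ^ l * ((r : ℝ) ^ 2 * Λ) * Λ + ((l * r) * (n : ℝ) ^ l) * Λ +
          (n : ℝ) ^ l * C0 + (C1 * (n : ℝ) ^ l) * (2 * r * q + 1) ^ T.card := by
        rw [← Finset.mul_sum, ← Finset.sum_pow_mul_eq_add_pow (2 * r * q) 1 T]
        simp
    _ ≤ (n : ℝ) ^ l * ((r : ℝ) ^ 2 * Λ) * Λ + ((l * r) * (n : ℝ) ^ l) * Λ +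
          (n : ℝ) ^ l * C0 + (C1 * (n : ℝ) ^ l) * Real.exp (2 * r * Λ) := by
        apply add_le_add le_rfl
        apply mul_le_mul_of_nonneg_left _ (by positivity)
        have h3 : (2 * r * q + 1) ≤ Real.exp (2 * r * q) := Real.add_one_le_exp _
        have hTn : (T.card : ℝ) ≤ n := by
          have := Finset.card_le_univ T
          rw [Fintype.card_fin] at this
          exact_mod_cast this
        calc (2 * r * q + 1) ^ T.card ≤ (Real.exp (2 * r * q)) ^ T.card :=
              pow_le_pow_left₀ (by positivity) h3 _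
          _ = Real.exp (T.card * (2 * r * q)) := by rw [← Real.exp_nat_mul]
          _ ≤ Real.exp (2 * r * Λ) := by
              apply Real.exp_le_exp.mpr
              calc (T.card : ℝ) * (2 * r * q) ≤ n * (2 * r * q) :=
                    mul_le_mul_of_nonneg_right hTn (by positivity)
                _ = 2 * r * (q * n) := by ring
                _ = 2 * r * Λ := by rw [hqn]
    _ = _ := by ring

end Pool.Agent.H624U
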