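import Pool.Agent.H624U.Defs2
import Pool.Agent.H624U.Basic

/-!
# MS: star-jump mass for `PV` without `SL` (helper152)
-/

set_option autoImplicit false

namespace Pool.Agent.H624U

open Finset Pool.Agent.H624C
open scoped Classical

namespace MS

theorem ind_PV_le (k m0 d m1 n : ℕ) (ω : Om n) : ind (PV k m0 d m1 n ω) ≤
    ind (¬ KAliveU k ω ∨ HasU k ω ∨ SD m0 ω) + ind (LD d m1 ω) := by
  refine le_trans (ind_mono ?_) (ind_or_le _ _)
  unfold PV SL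
  tauto

theorem DJ_le (k m0 d m1 l : ℕ) {n : ℕ} (ω : Om n) :
    (DJ (PV k m0 d m1) l ω : ℝ) ≤ DG k m0 d m1 l ω + DJ (SL m0 d m1) l ω := by
  have h : DJ (PV k m0 d m1) l ω ≤ DG k m0 d m1 l ω + DJ (SL m0 d m1) l ω := by
    unfold DJ DG
    refine le_trans (Finset.card_le_card ?_) (Finset.card_union_le _ _)
    intro q hq
    rw [Finset.mem_filter] at hq
    rw [Finset.mem_union, Finset.mem_filter, Finset.mem_filter]
    by_cases hs : SL m0 d m1 (n + 1) (ext ω (insert q.2 (univ.image q.1)))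
    · right
      refine ⟨Finset.mem_univ _, ?_, hs⟩
      intro h1
      exact hq.2.1 (Or.inr (Or.inr h1))
    · left
      exact ⟨Finset.mem_univ _, hq.2.1, hq.2.2, hs⟩
  exact_mod_cast h

theorem DG_zero (h : T_l0) (k m0 d m1 : ℕ) (hk : 3 ≤ k) {n : ℕ} (ω : Om n) :
    DG k m0 d m1 0 ω = 0 := by
  unfold DG
  rw [Finset.card_eq_zero, Finset.filter_eq_empty_iff]
  intro q _
  exact h k m0 d m1 n ω q hk

theorem sum_le (k m0 d m1 l n M t0 t1 : ℕ) (hM : 0 < M) (ht1 : t1 ≤ M) :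
    (n:ℝ) ^ 2 * ∑ t ∈ Ico t0 t1, E ((t:ℝ) / M)
        (fun ω : Om n => (DJ (PV k m0 d m1) l ω : ℝ) / (n:ℝ) ^ (l + 1)) ≤
      (n:ℝ) ^ 2 * ∑ t ∈ Ico t0 t1, E ((t:ℝ) / M)
        (fun ω : Om n => (DG k m0 d m1 l ω : ℝ) / (n:ℝ) ^ (l + 1)) +
      (n:ℝ) ^ 2 * ∑ t ∈ Ico t0 t1, E ((t:ℝ) / M)
        (fun ω : Om n => (DJ (SL m0 d m1) l ω : ℝ) / (n:ℝ) ^ (l + 1)) := by
  rw [← mul_add, ← Finset.sum_add_distrib]
  apply mul_le_mul_of_nonneg_left _ (by positivity)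
  refine Finset.sum_le_sum fun t ht => ?_
  rw [← E_add]
  apply E_mono (by positivity)
  · rw [div_le_one (by exact_mod_cast hM)]
    have := (Finset.mem_Ico.1 ht).2
    exact_mod_cast (this.le.trans ht1)
  · intro ω
    rw [← add_div]
    exact div_le_div_of_nonneg_right (DJ_le k m0 d m1 l ω) (by positivity)

theorem E_not {n : ℕ} (p : ℝ) (A : Om n → Prop) :
    E p (fun ω => ind (¬ A ω)) = 1 - E p (fun ω => ind (A ω)) := by
  rw [← E_one (n := n) p, ← E_sub]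
  exact E_congr fun ω => ind_not _

end MS

theorem MS_thm (hVJ : T_VJ) (hVU : T_VU) (hfam : T_fam) (hearly : T_early) (hlate : T_late)
    (hSD : T_SD) (hLD : T_LD) (hl0 : T_l0) : T_mass := by
  intro k hk
  have hkr : (3:ℝ) ≤ k := by exact_mod_cast hk
  obtain ⟨ε', hε', he⟩ := hearly
  obtain ⟨Λ', hΛ', hl⟩ := hlate k hk
  obtain ⟨R, Λ, ε, c0, γ, D, n1, hR, hε, hεΛ, hc0, hγ, hvj⟩ := hVJ ε' Λ' hε' hΛ'
  have hRr : (0:ℝ) < R := by exact_mod_cast hR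
  have hΛ : 0 < Λ := hε.trans hεΛ
  set L2 : ℝ := R * Λ + ε' with hL2
  have hL2pos : 0 < L2 := by positivity
  obtain ⟨ε0, hε0, hsd⟩ := hSD L2 hL2pos
  set e1 : ℝ := ε0 / (4 * k * R) with he1
  have he1pos : 0 < e1 := by positivity
  obtain ⟨δ1, hδ1, hld⟩ := hLD L2 e1 hL2pos he1pos
  set δ' : ℝ := min (min δ1 (ε0 / (4 * k))) 1 with hδ'
  have hδ'pos : 0 < δ' := by
    apply lt_min (lt_min hδ1 (by positivity)) one_pos
  have hδ'1 : δ' ≤ δ1 := (min_le_left _ _).trans (min_le_left _ _)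
  have hδ'2 : δ' ≤ ε0 / (4 * k) := (min_le_left _ _).trans (min_le_right _ _)
  have hδ'3 : δ' ≤ 1 := min_le_right _ _
  choose C nC hC hvu using fun l : ℕ => hVU ε Λ R l hε hΛ hR
  set Cm : ℝ := ∑ l ∈ range (D + 1), C l with hCm
  have hCm0 : 0 ≤ Cm := Finset.sum_nonneg fun l _ => hC l
  set γ1 : ℝ := c0 / (8 * (Cm + 1)) with hγ1
  have hγ1pos : 0 < γ1 := by positivity
  obtain ⟨na, hna⟩ := hld (1 / 8) (by norm_num)
  obtain ⟨nb, hnb⟩ := hl γ hγ
  obtain ⟨nc, hnc⟩ := hsd γ1 hγ1pos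
  obtain ⟨nd, hnd⟩ := hld γ1 hγ1pos
  set n0 : ℕ := n1 + na + nb + nc + nd + ∑ l ∈ range (D + 1), nC l + ⌈Λ⌉₊ + ⌈2 / δ'⌉₊ +
    ⌈2 * k / ε0⌉₊ + ⌈1 / γ1⌉₊ + 1 with hn0
  refine ⟨R, Λ, ε, c0 / 2, δ' / (2 * R), D, n0, hR, hε, hεΛ, by positivity, by positivity, ?_⟩
  intro N hN M hM t0 t1 ht0 ht1
  have hN1 : 1 ≤ N := by omega
  have hNr : (0:ℝ) < N := by exact_mod_cast hN1
  have hNRN : N ≤ R * N := Nat.le_mul_of_pos_left N hR
  have hM0 : 0 < M := by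
    have : 0 < (R * N) ^ 5 := by positivity
    omega
  have hMr : (0:ℝ) < M := by exact_mod_cast hM0
  have hceil : ∀ x : ℝ, ⌈x⌉₊ ≤ N → x ≤ N := fun x hx =>
    (Nat.le_ceil x).trans (by exact_mod_cast hx)
  have hNΛ : Λ ≤ N := hceil _ (by omega)
  have hNδ : 2 / δ' ≤ N := hceil _ (by omega)
  have hNk : 2 * k / ε0 ≤ N := hceil _ (by omega)
  have hNγ : 1 / γ1 ≤ N := hceil _ (by omega)
  have hNδ' : 2 ≤ δ' * N := by
    rw [div_le_iff₀ hδ'pos] at hNδ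
    linarith
  have hNk' : 2 * k ≤ ε0 * N := by
    rw [div_le_iff₀ hε0] at hNk
    linarith
  have hNγ' : 1 / (N:ℝ) ≤ γ1 := by
    rw [div_le_iff₀ hNr]
    rw [div_le_iff₀ hγ1pos] at hNγ
    linarith
  -- the thresholds
  set m0 : ℕ := ⌊ε0 * N⌋₊ with hm0
  set m1 : ℕ := m0 / k with hm1
  set d : ℕ := ⌊δ' * N⌋₊ with hd
  have hm0le : (m0:ℝ) ≤ ε0 * N := Nat.floor_le (by positivity)
  have hm0ge : ε0 * N < m0 + 1 := Nat.lt_floor_add_one _
  have hkm : k * m1 ≤ m0 := Nat.mul_div_le m0 k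
  have hkm' : m0 < k * (m1 + 1) := Nat.lt_mul_div_succ m0 (by omega)
  have hm1ge : ε0 * N / (2 * k) ≤ m1 := by
    rw [div_le_iff₀ (by positivity)]
    have e : (m0:ℝ) + 1 ≤ k * (m1 + 1) := by exact_mod_cast hkm'
    nlinarith
  have hdle : (d:ℝ) ≤ δ' * N := Nat.floor_le (by positivity)
  have hdge : δ' * N < d + 1 := Nat.lt_floor_add_one _
  have hd1 : 1 ≤ d := by
    rw [hd, Nat.one_le_floor_iff]
    linarith
  have hdm1 : d ≤ m1 := by
    have : (d:ℝ) ≤ m1 := by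
      calc (d:ℝ) ≤ δ' * N := hdle
        _ ≤ ε0 / (4 * k) * N := mul_le_mul_of_nonneg_right hδ'2 hNr.le
        _ ≤ ε0 * N / (2 * k) := by
            rw [div_mul_eq_mul_div]
            apply div_le_div_of_nonneg_left (by positivity) (by positivity)
            linarith
        _ ≤ m1 := hm1ge
    exact_mod_cast this
  have hThr : Thr k m0 d m1 := ⟨hkm, hdm1, hd1⟩
  have hdN : d ≤ N := by
    have : (d:ℝ) ≤ N := by nlinarith
    exact_mod_cast this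
  have he1m : ∀ x : ℕ, x ≤ R * N → e1 * x ≤ m1 := by
    intro x hx
    have hx' : (x:ℝ) ≤ R * N := by exact_mod_cast hx
    calc e1 * x ≤ e1 * (R * N) := mul_le_mul_of_nonneg_left hx' he1pos.le
      _ = ε0 * N / (4 * k) := by
          rw [he1]
          field_simp
      _ ≤ ε0 * N / (2 * k) := by
          apply div_le_div_of_nonneg_left (by positivity) (by positivity)
          linarith
      _ ≤ m1 := hm1ge
  obtain ⟨hPV, hSL⟩ := hfam k m0 d m1 hk (hd1.trans hdm1)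
  have hpn : ∀ t : ℕ, t ≤ M → 0 ≤ (t:ℝ) / M ∧ (t:ℝ) / M ≤ 1 := by
    intro t ht
    refine ⟨by positivity, ?_⟩
    rw [div_le_one hMr]
    exact_mod_cast ht
  obtain ⟨n, hnN, hnR, l, hlD, hmass⟩ := hvj (PV k m0 d m1) hPV N (by omega) M hM t0 t1 ht0 ht1
    (by
      intro t ht htM
      obtain ⟨hp0, hp1⟩ := hpn t htM
      have hpN : (t:ℝ) / M * N ≤ ε' := by
        rw [div_mul_eq_mul_div, div_le_iff₀ hMr]
        exact ht
      have h1 := he k N m0 hk (by omega) ((t:ℝ) / M) hp0 hpN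
      have h2 := hna N (by omega) ((t:ℝ) / M) hp0 hp1 (by
        rw [hL2]
        have : 0 < (R:ℝ) * Λ := by positivity
        linarith) d m1 (hdle.trans (mul_le_mul_of_nonneg_right hδ'1 hNr.le)) (he1m N hNRN)
      have h3 : E ((t:ℝ) / M) (fun ω : Om N => ind (PV k m0 d m1 N ω)) ≤
          E ((t:ℝ) / M) (fun ω : Om N => ind (¬ KAliveU k ω ∨ HasU k ω ∨ SD m0 ω)) +
          E ((t:ℝ) / M) (fun ω : Om N => ind (LD d m1 ω)) := by
        rw [← E_add]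
        exact E_mono hp0 hp1 fun ω => MS.ind_PV_le k m0 d m1 N ω
      rw [MS.E_not]
      linarith)
    (by
      intro t ht htM
      obtain ⟨hp0, hp1⟩ := hpn t htM
      refine le_trans (E_mono hp0 hp1 fun ω => ind_mono ?_)
        (hnb (R * N) (by omega) ((t:ℝ) / M) ?_ hp1)
      · intro h
        by_contra hcon
        exact h (Or.inl hcon)
      · rw [div_mul_eq_mul_div, le_div_iff₀ hMr]
        exact ht)
  have ht1' : (t1:ℝ) ≤ Λ * M / N := by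
    rw [ht1]
    exact Nat.floor_le (by positivity)
  have ht1N : (t1:ℝ) * N ≤ Λ * M := by
    rwa [le_div_iff₀ hNr] at ht1'
  have ht1M : t1 ≤ M := by
    have : (t1:ℝ) ≤ M := by
      by_contra h
      push Not at h
      nlinarith
    exact_mod_cast this
  obtain ⟨hp0, hp1⟩ := hpn t1 ht1M
  have hn1R : n + 1 ≤ R * N := hnR
  have hn1Rr : ((n + 1 : ℕ) : ℝ) ≤ R * N := by exact_mod_cast hn1R
  have hNn1 : (N:ℝ) ≤ ((n + 1 : ℕ) : ℝ) := by
    have : N ≤ n + 1 := by omega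
    exact_mod_cast this
  have hpn1 : (t1:ℝ) / M * ((n + 1 : ℕ) : ℝ) ≤ L2 := by
    rw [div_mul_eq_mul_div, div_le_iff₀ hMr]
    calc (t1:ℝ) * ((n + 1 : ℕ) : ℝ) ≤ t1 * (R * N) :=
          mul_le_mul_of_nonneg_left hn1Rr (Nat.cast_nonneg _)
      _ = R * (t1 * N) := by ring
      _ ≤ R * (Λ * M) := mul_le_mul_of_nonneg_left ht1N hRr.le
      _ ≤ L2 * M := by
          rw [hL2]
          nlinarith
  have hSL1 : E ((t1:ℝ) / M) (fun ω : Om (n + 1) => ind (SL m0 d m1 (n + 1) ω)) ≤ 2 * γ1 := by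
    have h1 := hnc (n + 1) (by omega) ((t1:ℝ) / M) hp0 hp1 hpn1 m0
      (hm0le.trans (mul_le_mul_of_nonneg_left hNn1 hε0.le))
    have h2 := hnd (n + 1) (by omega) ((t1:ℝ) / M) hp0 hp1 hpn1 d m1 (by
      calc (d:ℝ) ≤ δ' * N := hdle
        _ ≤ δ1 * ((n + 1 : ℕ) : ℝ) := mul_le_mul hδ'1 hNn1 hNr.le hδ1.le) (he1m _ hn1R)
    have h3 : E ((t1:ℝ) / M) (fun ω : Om (n + 1) => ind (SL m0 d m1 (n + 1) ω)) ≤
        E ((t1:ℝ) / M) (fun ω : Om (n + 1) => ind (SD m0 ω)) +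
        E ((t1:ℝ) / M) (fun ω : Om (n + 1) => ind (LD d m1 ω)) := by
      rw [← E_add]
      exact E_mono hp0 hp1 fun ω => ind_or_le _ _
    linarith
  have hnCl : nC l ≤ N := by
    have h1 : nC l ≤ ∑ l ∈ range (D + 1), nC l :=
      Finset.single_le_sum (f := nC) (fun i _ => Nat.zero_le _) (Finset.mem_range.2 (by omega))
    omega
  have hCl : C l ≤ Cm :=
    Finset.single_le_sum (f := C) (fun i _ => hC i) (Finset.mem_range.2 (by omega))
  have hSLm := hvu l (SL m0 d m1) hSL N hnCl M hM t0 t1 ht0 ht1 n hnN hnR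
  have hSLm' : (n:ℝ) ^ 2 * ∑ t ∈ Ico t0 t1, E ((t:ℝ) / M)
        (fun ω : Om n => (DJ (SL m0 d m1) l ω : ℝ) / (n:ℝ) ^ (l + 1)) ≤ c0 / 2 * M := by
    refine hSLm.trans ?_
    have h1 : E ((t1:ℝ) / M) (fun ω : Om (n + 1) => ind (SL m0 d m1 (n + 1) ω)) + 1 / N ≤
        3 * γ1 := by linarith
    have h2 : 0 ≤ E ((t1:ℝ) / M) (fun ω : Om (n + 1) => ind (SL m0 d m1 (n + 1) ω)) + 1 / N :=
      add_nonneg (E_nonneg hp0 hp1 fun ω => ind_nonneg _) (by positivity)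
    calc C l * M * (E ((t1:ℝ) / M) (fun ω : Om (n + 1) => ind (SL m0 d m1 (n + 1) ω)) + 1 / N)
        ≤ (Cm + 1) * M * (3 * γ1) := by
          apply mul_le_mul _ h1 h2 (by positivity)
          apply mul_le_mul_of_nonneg_right _ hMr.le
          linarith
      _ = 3 / 8 * c0 * M := by
          rw [hγ1]
          field_simp
      _ ≤ c0 / 2 * M := by
          apply mul_le_mul_of_nonneg_right _ hMr.le
          linarith
  have hfinal : c0 / 2 * M ≤ (n:ℝ) ^ 2 * ∑ t ∈ Ico t0 t1, E ((t:ℝ) / M)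
      (fun ω : Om n => (DG k m0 d m1 l ω : ℝ) / (n:ℝ) ^ (l + 1)) := by
    have h1 := MS.sum_le k m0 d m1 l n M t0 t1 hM0 ht1M
    linarith
  refine ⟨n, hnN, hnR, m0, d, m1, l, hThr, hdN.trans hnN, ?_, ?_, hlD, hfinal⟩
  · have hnRr : (n:ℝ) ≤ R * N := by exact_mod_cast hnR.le
    calc δ' / (2 * R) * n ≤ δ' / (2 * R) * (R * N) :=
          mul_le_mul_of_nonneg_left hnRr (by positivity)
      _ = δ' * N / 2 := by field_simp
      _ ≤ d := by linarith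
  · by_contra hl1
    have hl00 : l = 0 := by omega
    subst hl00
    have hz : (n:ℝ) ^ 2 * ∑ t ∈ Ico t0 t1, E ((t:ℝ) / M)
        (fun ω : Om n => (DG k m0 d m1 0 ω : ℝ) / (n:ℝ) ^ (0 + 1)) = 0 := by
      rw [Finset.sum_eq_zero, mul_zero]
      intro t _
      rw [← E_zero (n := n) ((t:ℝ) / M)]
      apply E_congr
      intro ω
      rw [MS.DG_zero hl0 k m0 d m1 hk ω]
      simp
    rw [hz] at hfinal
    have : 0 < c0 / 2 * M := by positivity
    linarith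

end Pool.Agent.H624U
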