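import Pool.Agent.H624U.Basic
import Pool.Agent.H624C.KI
import Pool.Agent.H624C.CM

/-!
# MU: jump sums of a monotone property
-/

set_option autoImplicit false

namespace Pool.Agent.H624U

open Finset Pool.Agent.H624C
open scoped Classical

namespace MU

/-- the pairs whose addition produces `P` -/
noncomputable def JP {n : ℕ} (P : Om n → Prop) (ω : Om n) : Finset (Sym2 (Fin n)) :=
  (Finset.univ : Finset (Sym2 (Fin n))).filter (fun e => P (insert e ω))

theorem J_eq {n : ℕ} (P : Om n → Prop) (ω : Om n) : J P ω = (JP P ω).card := rfl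

theorem mem_JP {n : ℕ} {P : Om n → Prop} {ω : Om n} {e : Sym2 (Fin n)} :
    e ∈ JP P ω ↔ P (insert e ω) := by simp [JP]

section
variable {n M : ℕ} {P : Om n → Prop} {H : ℕ → Lab n M → Prop}

theorem stepA (hH : Adapted H) (hA : ∀ t T, H t T → ¬ P (op t T)) {t : ℕ} (ht : t < M)
    (e : Sym2 (Fin n)) :
    ((univ : Finset (Lab n M)).filter (fun T => H t T ∧ e ∈ JP P (op t T))).card ≤
      M * ((univ : Finset (Lab n M)).filter (fun T => (H t T ∧ e ∈ JP P (op t T)) ∧
        (T e : ℕ) = t)).card := by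
  refine Finset.card_le_mul_card_image_of_maps_to (f := fun T => Function.update T e ⟨t, ht⟩)
    ?_ M ?_
  · intro T hT
    rw [mem_filter] at hT ⊢
    obtain ⟨-, h1, h2⟩ := hT
    have h3 : e ∉ op t T := by
      intro hm
      rw [mem_JP, Finset.insert_eq_of_mem hm] at h2
      exact hA t T h1 h2
    have h4 : t ≤ (T e : ℕ) := by
      by_contra hcon
      push Not at hcon
      exact h3 (by simp only [op, mem_filter, mem_univ, true_and]; exact hcon)
    have hcong : ∀ e', T e' = Function.update T e ⟨t, ht⟩ e' ∨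
        (t ≤ (T e' : ℕ) ∧ t ≤ (Function.update T e ⟨t, ht⟩ e' : ℕ)) := by
      intro e'
      by_cases h : e' = e
      · subst h
        right
        exact ⟨h4, by simp⟩
      · left
        rw [Function.update_of_ne h]
    refine ⟨mem_univ _, ⟨hH t T _ hcong h1, ?_⟩, by simp⟩
    rw [← op_congr hcong]
    exact h2
  · intro T' _
    have h1 : ((univ : Finset (Lab n M)).filter (fun T => H t T ∧ e ∈ JP P (op t T))).filter
        (fun T => Function.update T e ⟨t, ht⟩ = T') ⊆
        (univ : Finset (Fin M)).image (fun x => Function.update T' e x) := by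
      intro T hT
      rw [mem_filter] at hT
      rw [mem_image]
      refine ⟨T e, mem_univ _, ?_⟩
      rw [← hT.2]
      simp
    refine (card_le_card h1).trans (card_image_le.trans ?_)
    simp

theorem stepB (hH : Adapted H) (hA : ∀ t T, H t T → ¬ P (op t T)) {t : ℕ} (ht : t < M) :
    ∑ T : Lab n M, ind (H t T) * (J P (op t T) : ℝ) ≤
      M * ∑ T : Lab n M, ind (H t T) *
        (((JP P (op t T)).filter (fun e => (T e : ℕ) = t)).card : ℝ) := by
  have h1 : ∀ (Q : Lab n M → Prop) (A : Lab n M → Finset (Sym2 (Fin n))),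
      ∑ T : Lab n M, ind (Q T) * ((A T).card : ℝ) =
        ∑ q : Sym2 (Fin n), (((univ : Finset (Lab n M)).filter
          (fun T => Q T ∧ q ∈ A T)).card : ℝ) := by
    intro Q A
    have h2 : ∀ T, ind (Q T) * ((A T).card : ℝ) = ∑ q : Sym2 (Fin n), ind (Q T ∧ q ∈ A T) := by
      intro T
      have h3 : univ.filter (fun q => q ∈ A T) = A T := by ext q; simp
      have h4 : ((A T).card : ℝ) = ∑ q : Sym2 (Fin n), ind (q ∈ A T) := by
        rw [← KI_card univ (fun q => q ∈ A T), h3]
      rw [h4, mul_sum]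
      exact sum_congr rfl fun q _ => (ind_and _ _).symm
    rw [sum_congr rfl fun T _ => h2 T, sum_comm]
    exact sum_congr rfl fun q _ => (KI_card _ _).symm
  rw [h1 (fun T => H t T) (fun T => (JP P (op t T)).filter (fun e => (T e : ℕ) = t)), mul_sum]
  have h5 := h1 (fun T => H t T) (fun T => JP P (op t T))
  simp only [← J_eq] at h5
  rw [h5]
  refine sum_le_sum fun q _ => ?_
  have h6 := stepA hH hA ht q
  have h7 : (univ : Finset (Lab n M)).filter (fun T => (H t T ∧ q ∈ JP P (op t T)) ∧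
        (T q : ℕ) = t) = (univ : Finset (Lab n M)).filter (fun T => H t T ∧
        q ∈ (JP P (op t T)).filter (fun e => (T e : ℕ) = t)) := by
    ext T
    simp only [mem_filter, mem_univ, true_and, and_assoc]
  rw [h7] at h6
  exact_mod_cast h6

theorem stepC (hP : Mono P) (hA : ∀ t T, H t T → ¬ P (op t T)) (t1 : ℕ) (T : Lab n M) :
    ∑ t ∈ range t1, ind (H t T) *
        (((JP P (op t T)).filter (fun e => (T e : ℕ) = t)).card : ℝ) ≤
      ind (∃ t, t < t1 ∧ H t T ∧ P (op (t + 1) T)) + coll T := by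
  set B : ℕ → Finset (Sym2 (Fin n)) :=
    fun t => (JP P (op t T)).filter (fun e => (T e : ℕ) = t) with hB
  have hB1 : ∀ t, (B t).card ≤ 1 + coll T := by
    intro t
    refine KI_coll_ge T t _ ?_
    intro e he
    exact (mem_filter.1 he).2
  -- after a nonempty step the property holds
  have hdead : ∀ t, (B t).Nonempty → ∀ t', t < t' → P (op t' T) := by
    rintro t ⟨e, he⟩ t' htt'
    rw [hB, mem_filter] at he
    refine hP _ _ ?_ (mem_JP.1 he.1)
    intro e' he'
    rw [Finset.mem_insert] at he'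
    rcases he' with rfl | he'
    · simp only [op, mem_filter, mem_univ, true_and]
      omega
    · exact op_mono T htt'.le he'
  by_cases hex : ∃ t0, t0 < t1 ∧ H t0 T ∧ (B t0).Nonempty
  · obtain ⟨t0, ht0, hH0, hne⟩ := hex
    have hzero : ∀ t ∈ range t1, t ≠ t0 → ind (H t T) * ((B t).card : ℝ) = 0 := by
      intro t _ htt
      by_cases hHt : H t T
      · by_cases hne' : (B t).Nonempty
        · exfalso
          rcases lt_or_gt_of_ne htt with h | h
          · exact hA t0 T hH0 (hdead t hne' t0 h)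
          · exact hA t T hHt (hdead t0 hne t h)
        · rw [not_nonempty_iff_eq_empty] at hne'
          rw [hne']; simp
      · rw [ind_false hHt, zero_mul]
    rw [sum_eq_single_of_mem t0 (mem_range.2 ht0) hzero, ind_true hH0,
      ind_true ⟨t0, ht0, hH0, hdead t0 hne (t0 + 1) (Nat.lt_succ_self t0)⟩, one_mul]
    exact_mod_cast hB1 t0
  · push Not at hex
    have : ∑ t ∈ range t1, ind (H t T) * ((B t).card : ℝ) = 0 := by
      refine sum_eq_zero fun t ht => ?_
      by_cases hHt : H t T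
      · have := hex t (mem_range.1 ht) hHt
        rw [this]; simp
      · rw [ind_false hHt, zero_mul]
    rw [this]
    have := ind_nonneg (∃ t, t < t1 ∧ H t T ∧ P (op (t + 1) T))
    positivity

end

end MU

open MU in
theorem T_mpu_thm : T_mpu := by
  intro n M t1 P H hn hM ht1 hP hH hA
  have hMnn : (0:ℝ) ≤ M := Nat.cast_nonneg _
  calc ∑ t ∈ range t1, ∑ T : Lab n M, ind (H t T) * (J P (op t T) : ℝ)
      ≤ ∑ t ∈ range t1, (M : ℝ) * ∑ T : Lab n M, ind (H t T) *
        (((JP P (op t T)).filter (fun e => (T e : ℕ) = t)).card : ℝ) :=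
        sum_le_sum fun t ht => stepB hH hA (lt_of_lt_of_le (mem_range.1 ht) ht1)
    _ = M * ∑ T : Lab n M, ∑ t ∈ range t1, ind (H t T) *
        (((JP P (op t T)).filter (fun e => (T e : ℕ) = t)).card : ℝ) := by
        rw [← mul_sum, sum_comm]
    _ ≤ M * ∑ T : Lab n M, (ind (∃ t, t < t1 ∧ H t T ∧ P (op (t + 1) T)) + coll T) :=
        mul_le_mul_of_nonneg_left (sum_le_sum fun T _ => stepC hP hA t1 T) hMnn
    _ = M * (∑ T : Lab n M, ind (∃ t, t < t1 ∧ H t T ∧ P (op (t + 1) T))
        + ∑ T : Lab n M, (coll T : ℝ)) := by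
        rw [sum_add_distrib]
    _ ≤ _ := by
        apply mul_le_mul_of_nonneg_left _ hMnn
        have := KI_stepD hn hM
        linarith

theorem T_mpu1_thm : T_mpu1 := by
  intro n M t1 P hn hM ht hP
  have hM0 : 0 < M := lt_of_lt_of_le (by positivity) hM
  have hM' : (0:ℝ) < M := by exact_mod_cast hM0
  have hn' : (0:ℝ) < n := by exact_mod_cast hn
  have hpos : (0:ℝ) < (M : ℝ) ^ nI n := by positivity
  have hcore := T_mpu_thm n M t1 P (fun t (T : Lab n M) => ¬ P (op t T)) hn hM ht hP
    (fun t T T' h hT => by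
      change ¬ P (op t T')
      rw [← op_congr h]
      exact hT) (fun t T h => h)
  have h2 : ∀ t ∈ range t1, ∑ T : Lab n M, ind (¬ P (op t T)) * (J P (op t T) : ℝ) =
      (M : ℝ) ^ nI n * E ((t : ℝ) / M) (fun ω => ind (¬ P ω) * (J P ω : ℝ)) := by
    intro t htt
    exact CM_label n M t hM0 (by have := mem_range.1 htt; omega)
      (fun ω => ind (¬ P ω) * (J P ω : ℝ))
  rw [sum_congr rfl h2, ← mul_sum] at hcore
  have h3 : ∑ T : Lab n M, ind (∃ t, t < t1 ∧ ¬ P (op t T) ∧ P (op (t + 1) T)) ≤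
      (M : ℝ) ^ nI n * E ((t1 : ℝ) / M) (fun ω => ind (P ω)) := by
    rw [← CM_label n M t1 hM0 ht (fun ω => ind (P ω))]
    refine sum_le_sum fun T _ => ind_mono ?_
    rintro ⟨t, ht', -, h⟩
    exact hP _ _ (op_mono T ht') h
  have h5 : (M : ℝ) ^ nI n * ∑ t ∈ range t1,
      E ((t : ℝ) / M) (fun ω => ind (¬ P ω) * (J P ω : ℝ)) ≤
        (M : ℝ) ^ nI n * (M * (E ((t1 : ℝ) / M) (fun ω => ind (P ω)) + 1 / n)) := by
    refine hcore.trans ?_
    calc (M : ℝ) * (∑ T : Lab n M, ind (∃ t, t < t1 ∧ ¬ P (op t T) ∧ P (op (t + 1) T))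
          + (M : ℝ) ^ nI n / n)
        ≤ M * ((M : ℝ) ^ nI n * E ((t1 : ℝ) / M) (fun ω => ind (P ω)) + (M : ℝ) ^ nI n / n) := by
          apply mul_le_mul_of_nonneg_left _ hM'.le
          linarith
      _ = (M : ℝ) ^ nI n * (M * (E ((t1 : ℝ) / M) (fun ω => ind (P ω)) + 1 / n)) := by ring
  exact le_of_mul_le_mul_left h5 hpos

/-- MU -/
theorem MU_thm : T_mpu ∧ T_mpu1 := ⟨T_mpu_thm, T_mpu1_thm⟩

end Pool.Agent.H624U
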