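import Pool.Agent.H624U.Basic

/-!
# PB: probability of a planting at a fixed place
-/

set_option autoImplicit false

namespace Pool.Agent.H624U

open Finset Pool.Agent.H624C
open scoped Classical

noncomputable section

namespace PB

/-- complement of the range -/
def Cset {A B : Type} [Fintype B] (f : A → B) : Finset B := univ.filter (fun b => b ∉ Set.range f)

theorem mem_Cset {A B : Type} [Fintype B] {f : A → B} {b : B} : b ∈ Cset f ↔ b ∉ Set.range f := by
  unfold Cset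
  rw [Finset.mem_filter]
  exact ⟨fun h => h.2, fun h => ⟨Finset.mem_univ _, h⟩⟩

/-- product structure of labels -/
theorem lab_prod {A B : Type} [Fintype A] [Fintype B] [DecidableEq A] [DecidableEq B] (f : A → B) (hf : Function.Injective f) (M : ℕ)
    (F : (A → Fin M) → ℝ) (S : B → Finset (Fin M)) :
    ∑ T : B → Fin M, F (fun a => T (f a)) * ind (∀ b, b ∉ Set.range f → T b ∈ S b) =
      (∑ T' : A → Fin M, F T') * ∏ b ∈ Cset f, ((S b).card : ℝ) := by
  set e1 := Equiv.piEquivPiSubtypeProd (fun b : B => b ∈ Set.range f) (fun _ => Fin M) with he1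
  set e2 : (A → Fin M) ≃ ({b : B // b ∈ Set.range f} → Fin M) :=
    Equiv.arrowCongr (Equiv.ofInjective f hf) (Equiv.refl _) with he2
  have h1 : ∑ T : B → Fin M, F (fun a => T (f a)) * ind (∀ b, b ∉ Set.range f → T b ∈ S b) =
      ∑ q : ({b : B // b ∈ Set.range f} → Fin M) × ({b : B // ¬ b ∈ Set.range f} → Fin M),
        F (fun a => q.1 ⟨f a, Set.mem_range_self a⟩) * ind (∀ b, q.2 b ∈ S b.1) := by
    refine Fintype.sum_equiv e1 _ _ (fun T => ?_)
    congr 1
    apply ind_congr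
    constructor
    · intro h b
      exact h b.1 b.2
    · intro h b hb
      exact h ⟨b, hb⟩
  rw [h1, Fintype.sum_prod_type]
  have h2 : ∑ T' : A → Fin M, F T' =
      ∑ g : {b : B // b ∈ Set.range f} → Fin M, F (fun a => g ⟨f a, Set.mem_range_self a⟩) := by
    refine Fintype.sum_equiv e2 _ _ (fun T' => ?_)
    congr 1
    funext a
    have : (Equiv.ofInjective f hf).symm ⟨f a, Set.mem_range_self a⟩ = a :=
      Equiv.ofInjective_symm_apply hf a
    show T' a = T' ((Equiv.ofInjective f hf).symm ⟨f a, Set.mem_range_self a⟩)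
    rw [this]
  have h3 : ∑ h : {b : B // ¬ b ∈ Set.range f} → Fin M, ind (∀ b, h b ∈ S b.1) =
      ∏ b ∈ Cset f, ((S b).card : ℝ) := by
    unfold Cset
    rw [← card_filter_eq_sum_ind]
    trans ((Fintype.piFinset (fun b : {b : B // ¬ b ∈ Set.range f} => S b.1)).card : ℝ)
    · congr 2
      ext h
      simp [Fintype.mem_piFinset]
    rw [Fintype.card_piFinset]
    push_cast
    rw [← Finset.prod_subtype_eq_prod_filter]
    rw [Finset.subtype_univ]
  rw [h2, ← h3, Finset.sum_mul_sum]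

variable {k l n n' M : ℕ}

/-- the pairs that must be present -/
def PP (ι : Fin n → Fin n') (ρ : Rts k l → Fin n') (w : Fin l → Fin n) (y : Slt k l → Fin n) :
    Fin l ⊕ (Slt k l ⊕ (Gad k l × Fin 3)) → Sym2 (Fin n')
  | Sum.inl i => s(ρ none, ι (w i))
  | Sum.inr (Sum.inl q) => s(ρ (some (q.1, q.2.1)), ι (y q))
  | Sum.inr (Sum.inr q) => s(ρ (some (q.1, q.2)), ρ (some (q.1, q.2 + 1)))

def P1 (ι : Fin n → Fin n') (ρ : Rts k l → Fin n') (w : Fin l → Fin n) (y : Slt k l → Fin n) :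
    Finset (Sym2 (Fin n')) := univ.image (PP ι ρ w y)

theorem P1_card (ι : Fin n → Fin n') (ρ : Rts k l → Fin n') (w : Fin l → Fin n) (y : Slt k l → Fin n) :
    (P1 ι ρ w y).card ≤ l + Fintype.card (Slt k l) + 3 * Fintype.card (Gad k l) := by
  refine Finset.card_image_le.trans (le_of_eq ?_)
  rw [Finset.card_univ, Fintype.card_sum, Fintype.card_sum, Fintype.card_fin, Fintype.card_prod (Gad k l) (Fin 3),
    Fintype.card_fin]
  ring

variable {ι : Fin n → Fin n'} {ρ : Rts k l → Fin n'} {w : Fin l → Fin n} {y : Slt k l → Fin n}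

theorem mem_P1_none (hS : Split ι ρ) (x : Fin n) :
    s(ρ none, ι x) ∈ P1 ι ρ w y ↔ ∃ i, x = w i := by
  obtain ⟨hι, hρ, hd, -⟩ := hS
  unfold P1
  rw [Finset.mem_image]
  constructor
  · rintro ⟨c, -, hc⟩
    rcases c with i | q | q
    · rcases Sym2.eq_iff.1 hc with ⟨-, h⟩ | ⟨h, -⟩
      · exact ⟨i, (hι h).symm⟩
      · exact absurd h.symm (hd _ _)
    · rcases Sym2.eq_iff.1 hc with ⟨h, -⟩ | ⟨h, -⟩
      · exact absurd (hρ h) (by simp)
      · exact absurd h.symm (hd _ _)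
    · rcases Sym2.eq_iff.1 hc with ⟨-, h⟩ | ⟨h, -⟩
      · exact absurd h.symm (hd _ _)
      · exact absurd h.symm (hd _ _)
  · rintro ⟨i, rfl⟩
    exact ⟨Sum.inl i, Finset.mem_univ _, rfl⟩

theorem mem_P1_some (hS : Split ι ρ) (φ : Gad k l) (j : Fin 3) (x : Fin n) :
    s(ρ (some (φ, j)), ι x) ∈ P1 ι ρ w y ↔ ∃ i, x = y (φ, j, i) := by
  obtain ⟨hι, hρ, hd, -⟩ := hS
  unfold P1
  rw [Finset.mem_image]
  constructor
  · rintro ⟨c, -, hc⟩
    rcases c with i | q | q
    · rcases Sym2.eq_iff.1 hc with ⟨h, -⟩ | ⟨h, -⟩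
      · exact absurd (hρ h) (by simp)
      · exact absurd h.symm (hd _ _)
    · rcases Sym2.eq_iff.1 hc with ⟨h, h'⟩ | ⟨h, -⟩
      · have h1 := hρ h
        simp only [Option.some.injEq, Prod.mk.injEq] at h1
        obtain ⟨q1, q2, q3⟩ := q
        simp only at h1
        obtain ⟨rfl, rfl⟩ := h1
        exact ⟨q3, (hι h').symm⟩
      · exact absurd h.symm (hd _ _)
    · rcases Sym2.eq_iff.1 hc with ⟨-, h⟩ | ⟨h, -⟩
      · exact absurd h.symm (hd _ _)
      · exact absurd h.symm (hd _ _)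
  · rintro ⟨i, rfl⟩
    exact ⟨Sum.inr (Sum.inl (φ, j, i)), Finset.mem_univ _, rfl⟩

theorem fin3 (j j' : Fin 3) (h : j ≠ j') : j' = j + 1 ∨ j = j' + 1 := by
  revert j j'
  decide

theorem mem_P1_rr (hS : Split ι ρ) (r r' : Rts k l) (hr : r ≠ r') :
    s(ρ r, ρ r') ∈ P1 ι ρ w y ↔ ∃ φ j j', r = some (φ, j) ∧ r' = some (φ, j') := by
  obtain ⟨hι, hρ, hd, -⟩ := hS
  unfold P1
  rw [Finset.mem_image]
  constructor
  · rintro ⟨c, -, hc⟩
    rcases c with i | q | q
    · rcases Sym2.eq_iff.1 hc with ⟨-, h⟩ | ⟨-, h⟩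
      · exact absurd h (hd _ _)
      · exact absurd h (hd _ _)
    · rcases Sym2.eq_iff.1 hc with ⟨-, h⟩ | ⟨-, h⟩
      · exact absurd h (hd _ _)
      · exact absurd h (hd _ _)
    · rcases Sym2.eq_iff.1 hc with ⟨h, h'⟩ | ⟨h, h'⟩
      · exact ⟨q.1, q.2, q.2 + 1, (hρ h).symm, (hρ h').symm⟩
      · exact ⟨q.1, q.2 + 1, q.2, (hρ h').symm, (hρ h).symm⟩
  · rintro ⟨φ, j, j', rfl, rfl⟩
    have hjj : j ≠ j' := fun h => hr (by rw [h])
    rcases fin3 j j' hjj with h | h
    · exact ⟨Sum.inr (Sum.inr (φ, j)), Finset.mem_univ _, by rw [h]; rfl⟩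
    · exact ⟨Sum.inr (Sum.inr (φ, j')), Finset.mem_univ _, by rw [h]; exact Sym2.eq_swap⟩

theorem not_range (hS : Split ι ρ) (r : Rts k l) (z : Fin n') :
    s(ρ r, z) ∉ Set.range (Sym2.map ι) := by
  obtain ⟨hι, hρ, hd, -⟩ := hS
  rintro ⟨e, he⟩
  induction e using Sym2.ind with
  | _ a b =>
    rw [Sym2.map_mk] at he
    rcases Sym2.eq_iff.1 he with ⟨h, -⟩ | ⟨-, h⟩
    · exact hd _ _ h
    · exact hd _ _ h

/-- allowed labels -/
def SS (M t0 t1 : ℕ) (P : Finset (Sym2 (Fin n'))) (b : Sym2 (Fin n')) : Finset (Fin M) :=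
  if b ∈ P then univ.filter (fun v => (v : ℕ) < t0) else univ.filter (fun v => t1 ≤ (v : ℕ))

theorem SS_pos {M t0 t1 : ℕ} {P : Finset (Sym2 (Fin n'))} {b : Sym2 (Fin n')} {v : Fin M} (h : v ∈ SS M t0 t1 P b)
    (hb : b ∈ P) : (v : ℕ) < t0 := by
  unfold SS at h
  rw [if_pos hb] at h
  exact (Finset.mem_filter.1 h).2

theorem SS_neg {M t0 t1 : ℕ} {P : Finset (Sym2 (Fin n'))} {b : Sym2 (Fin n')} {v : Fin M} (h : v ∈ SS M t0 t1 P b)
    (hb : b ∉ P) : t1 ≤ (v : ℕ) := by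
  unfold SS at h
  rw [if_neg hb] at h
  exact (Finset.mem_filter.1 h).2

/-- labels give the planted configuration outside the range of `ι` -/
def Good (ι : Fin n → Fin n') (ρ : Rts k l → Fin n') (t0 t1 : ℕ) (w : Fin l → Fin n)
    (y : Slt k l → Fin n) (T : Lab n' M) : Prop :=
  ∀ b, b ∉ Set.range (Sym2.map ι) → T b ∈ SS M t0 t1 (P1 ι ρ w y) b

theorem planted_of_good {t0 t1 t : ℕ} {T : Lab n' M} (hS : Split ι ρ) (h0 : t0 ≤ t) (h1 : t < t1)
    (h : Good ι ρ t0 t1 w y T) : Planted ι ρ w y (op t T) := by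
  have key : ∀ b, b ∉ Set.range (Sym2.map ι) → (b ∈ op t T ↔ b ∈ P1 ι ρ w y) := by
    intro b hb
    have hbT := h b hb
    unfold op
    rw [Finset.mem_filter]
    constructor
    · rintro ⟨-, hlt⟩
      by_contra hc
      have := SS_neg hbT hc
      omega
    · intro hP
      have := SS_pos hbT hP
      exact ⟨Finset.mem_univ _, by omega⟩
  refine ⟨fun x => ?_, fun φ j x => ?_, fun r r' hr => ?_⟩
  · rw [key _ (not_range hS _ _), mem_P1_none hS]
  · rw [key _ (not_range hS _ _), mem_P1_some hS]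
  · rw [key _ (not_range hS _ _), mem_P1_rr hS r r' hr]

theorem transfer_mem {t0 t1 : ℕ} {T : Lab n' M} (h01 : t0 ≤ t1) {w' : Fin l → Fin n} {y' : Slt k l → Fin n}
    (h : Good ι ρ t0 t1 w y T) (h' : Good ι ρ t0 t1 w' y' T) (b : Sym2 (Fin n'))
    (hb : b ∉ Set.range (Sym2.map ι)) (hP : b ∈ P1 ι ρ w' y') : b ∈ P1 ι ρ w y := by
  by_contra hc
  have h1 := SS_neg (h b hb) hc
  have h2 := SS_pos (h' b hb) hP
  omega

/-- multiplicity bound -/
theorem mult {t0 t1 : ℕ} (h01 : t0 ≤ t1) (hS : Split ι ρ) (T : Lab n' M)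
    (D : (Fin l → Fin n) → (Slt k l → Fin n) → Prop) :
    ∑ w : Fin l → Fin n, ∑ y : Slt k l → Fin n, ind (D w y ∧ Good ι ρ t0 t1 w y T) ≤
      ((l : ℝ) ^ l * ((k - 2 : ℕ) : ℝ) ^ Fintype.card (Slt k l)) *
        ind (∃ w y, D w y ∧ Good ι ρ t0 t1 w y T) := by
  by_cases hex : ∃ w y, D w y ∧ Good ι ρ t0 t1 w y T
  · rw [ind_true hex, mul_one]
    obtain ⟨w0, y0, -, h0⟩ := hex
    have h1 : ∑ w : Fin l → Fin n, ∑ y : Slt k l → Fin n, ind (D w y ∧ Good ι ρ t0 t1 w y T) =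
        ∑ q : (Fin l → Fin n) × (Slt k l → Fin n), ind (D q.1 q.2 ∧ Good ι ρ t0 t1 q.1 q.2 T) := by
      rw [Fintype.sum_prod_type]
    rw [h1]
    have hsub : ∀ q : (Fin l → Fin n) × (Slt k l → Fin n),
        (D q.1 q.2 ∧ Good ι ρ t0 t1 q.1 q.2 T) → q ∈
        (univ : Finset ((Fin l → Fin l) × (Slt k l → Fin (k - 2)))).image
          (fun g => (fun i => w0 (g.1 i), fun q => y0 (q.1, q.2.1, g.2 q))) := by
      rintro ⟨w, y⟩ ⟨-, h⟩
      simp only at h
      have hw : ∀ i, ∃ i', w i = w0 i' := by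
        intro i
        have := transfer_mem h01 h0 h s(ρ none, ι (w i)) (not_range hS _ _)
          ((mem_P1_none hS _).2 ⟨i, rfl⟩)
        exact (mem_P1_none hS _).1 this
      have hy : ∀ q : Slt k l, ∃ i', y q = y0 (q.1, q.2.1, i') := by
        rintro ⟨φ, j, i⟩
        have := transfer_mem h01 h0 h s(ρ (some (φ, j)), ι (y (φ, j, i))) (not_range hS _ _)
          ((mem_P1_some hS _ _ _).2 ⟨i, rfl⟩)
        exact (mem_P1_some hS _ _ _).1 this
      choose g1 hg1 using hw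
      choose g2 hg2 using hy
      rw [Finset.mem_image]
      refine ⟨(g1, g2), Finset.mem_univ _, ?_⟩
      simp only [Prod.mk.injEq]
      exact ⟨funext fun i => (hg1 i).symm, funext fun q => (hg2 q).symm⟩
    have hc : ((univ : Finset ((Fin l → Fin l) × (Slt k l → Fin (k - 2)))).image
          (fun g => ((fun i => w0 (g.1 i), fun q => y0 (q.1, q.2.1, g.2 q)) :
            (Fin l → Fin n) × (Slt k l → Fin n)))).card ≤ l ^ l * (k - 2) ^ Fintype.card (Slt k l) := by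
      refine Finset.card_image_le.trans (le_of_eq ?_)
      rw [Finset.card_univ, Fintype.card_prod, Fintype.card_fun, Fintype.card_fun, Fintype.card_fin,
        Fintype.card_fin]
    have hle : ∀ q : (Fin l → Fin n) × (Slt k l → Fin n), ind (D q.1 q.2 ∧ Good ι ρ t0 t1 q.1 q.2 T) ≤
        if q ∈ (univ : Finset ((Fin l → Fin l) × (Slt k l → Fin (k - 2)))).image
          (fun g => ((fun i => w0 (g.1 i), fun q => y0 (q.1, q.2.1, g.2 q)) :
            (Fin l → Fin n) × (Slt k l → Fin n))) then (1 : ℝ) else 0 := by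
      intro q
      by_cases hq : D q.1 q.2 ∧ Good ι ρ t0 t1 q.1 q.2 T
      · rw [ind_true hq, if_pos (hsub q hq)]
      · rw [ind_false hq]
        split_ifs <;> norm_num
    refine (Finset.sum_le_sum fun q _ => hle q).trans ?_
    rw [Finset.sum_boole, Finset.filter_mem_eq_inter, Finset.univ_inter]
    calc _ ≤ ((l ^ l * (k - 2) ^ Fintype.card (Slt k l) : ℕ) : ℝ) := Nat.cast_le.2 hc
      _ = _ := by push_cast; ring
  · rw [ind_false hex, mul_zero]
    apply le_of_eq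
    refine Finset.sum_eq_zero fun w _ => Finset.sum_eq_zero fun y _ => ?_
    exact ind_false (fun h => hex ⟨w, y, h⟩)

theorem card_compl (hS : Split ι ρ) :
    (Cset (Sym2.map ι)).card ≤ Fintype.card (Rts k l) * n' := by
  have hsub : Cset (Sym2.map ι) ⊆
      (univ : Finset (Rts k l × Fin n')).image (fun q => s(ρ q.1, q.2)) := by
    intro b hb
    have hb' := mem_Cset.1 hb
    rw [Finset.mem_image]
    induction b using Sym2.ind with
    | _ a c =>
      rcases hS.2.2.2 a with ⟨x, rfl⟩ | ⟨r, rfl⟩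
      · rcases hS.2.2.2 c with ⟨x', rfl⟩ | ⟨r, rfl⟩
        · exact absurd ⟨s(x, x'), by rw [Sym2.map_mk]⟩ hb'
        · exact ⟨(r, ι x), Finset.mem_univ _, Sym2.eq_swap⟩
      · exact ⟨(r, c), Finset.mem_univ _, rfl⟩
  refine ((Finset.card_le_card hsub).trans Finset.card_image_le).trans (le_of_eq ?_)
  rw [Finset.card_univ, Fintype.card_prod, Fintype.card_fin]

theorem card_split (hι : Function.Injective ι) :
    nI n' = nI n + (Cset (Sym2.map ι)).card := by
  have h1 : ((univ : Finset (Sym2 (Fin n'))).filter (fun b => b ∈ Set.range (Sym2.map ι))).card = nI n := by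
    have h2 : (univ : Finset (Sym2 (Fin n'))).filter (fun b => b ∈ Set.range (Sym2.map ι)) =
        (univ : Finset (Sym2 (Fin n))).image (Sym2.map ι) := by
      ext b
      simp
    rw [h2, Finset.card_image_of_injective _ (Sym2.map.injective hι), Finset.card_univ]
  unfold Cset
  rw [← h1, Finset.card_filter_add_card_filter_not, Finset.card_univ]

/-- lower bound for the product of the label ranges -/
theorem prod_ge {t0 t1 : ℕ} (hM : 0 < M) (h01 : t0 ≤ t1) (h1M : t1 ≤ M) (P : Finset (Sym2 (Fin n')))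
    (C : Finset (Sym2 (Fin n'))) (N1 N2 : ℕ) (hP : P.card ≤ N1) (hC : C.card ≤ N2) (x z : ℝ)
    (hx0 : 0 ≤ x) (hx1 : x ≤ t0 / M) (hz0 : 0 ≤ z) (hz1 : z ≤ 1 - t1 / M) :
    (M : ℝ) ^ C.card * (x ^ N1 * z ^ N2) ≤ ∏ b ∈ C, ((SS M t0 t1 P b).card : ℝ) := by
  have hMr : (0 : ℝ) < M := by exact_mod_cast hM
  have ht0M : (t0 : ℝ) / M ≤ 1 := by
    rw [div_le_one hMr]
    exact_mod_cast h01.trans h1M
  have ht1M : (0 : ℝ) ≤ t1 / M := by positivity
  have hcard : ∀ b, ((SS M t0 t1 P b).card : ℝ) = M * (if b ∈ P then (t0 : ℝ) / M else 1 - t1 / M) := by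
    intro b
    unfold SS
    split_ifs with hb
    · have h1 : (univ.filter (fun v : Fin M => (v : ℕ) < t0)).card = t0 := by
        rw [Fin.card_filter_val_lt]
        exact min_eq_right (h01.trans h1M)
      rw [h1]
      field_simp
    · have h1 : (univ.filter (fun v : Fin M => t1 ≤ (v : ℕ))).card = M - t1 := by
        have h2 := Finset.card_filter_add_card_filter_not (s := (univ : Finset (Fin M)))
          (fun v => (v : ℕ) < t1)
        rw [Fin.card_filter_val_lt, min_eq_right h1M, Finset.card_univ, Fintype.card_fin] at h2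
        have h3 : (univ.filter (fun v : Fin M => t1 ≤ (v : ℕ))) =
            univ.filter (fun v : Fin M => ¬ (v : ℕ) < t1) := by
          ext v
          simp
        rw [h3]
        omega
      rw [h1, Nat.cast_sub h1M]
      field_simp
  rw [Finset.prod_congr rfl (fun b _ => hcard b), Finset.prod_mul_distrib, Finset.prod_const]
  apply mul_le_mul_of_nonneg_left _ (by positivity)
  rw [Finset.prod_ite, Finset.prod_const, Finset.prod_const]
  have e1 : x ^ N1 ≤ ((t0 : ℝ) / M) ^ (C.filter (fun b => b ∈ P)).card := by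
    have hc1 : (C.filter (fun b => b ∈ P)).card ≤ N1 := by
      refine (Finset.card_le_card ?_).trans hP
      intro b hb
      exact (Finset.mem_filter.1 hb).2
    calc x ^ N1 ≤ ((t0 : ℝ) / M) ^ N1 := pow_le_pow_left₀ hx0 hx1 _
      _ ≤ _ := pow_le_pow_of_le_one (by positivity) ht0M hc1
  have e2 : z ^ N2 ≤ (1 - (t1 : ℝ) / M) ^ (C.filter (fun b => ¬ b ∈ P)).card := by
    have hc2 : (C.filter (fun b => ¬ b ∈ P)).card ≤ N2 := (Finset.card_filter_le _ _).trans hC
    calc z ^ N2 ≤ (1 - (t1 : ℝ) / M) ^ N2 := pow_le_pow_left₀ hz0 hz1 _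
      _ ≤ _ := pow_le_pow_of_le_one (hz0.trans hz1) (by linarith) hc2
  exact mul_le_mul e1 e2 (pow_nonneg hz0 _) (pow_nonneg (by positivity) _)

end PB

open PB in
theorem PB_thm : T_prb := by
  intro k l ε Λ c7 hk hε hΛ hc7
  obtain ⟨u, hu⟩ : ∃ u, u = Fintype.card (Gad k l) := ⟨_, rfl⟩
  obtain ⟨a, ha⟩ : ∃ a, a = Fintype.card (Slt k l) := ⟨_, rfl⟩
  obtain ⟨r, hr⟩ : ∃ r, r = Fintype.card (Rts k l) := ⟨_, rfl⟩
  rw [← hu, ← ha, ← hr]
  set N1 : ℕ := l + a + 3 * u with hN1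
  set B : ℝ := Real.exp (-(4 * r * Λ)) with hB
  set K0 : ℝ := (l : ℝ) ^ l * ((k - 2 : ℕ) : ℝ) ^ a with hK0
  have hK0pos : 0 < K0 := by
    have h1 : (0 : ℝ) < (l : ℝ) ^ l := by
      rcases Nat.eq_zero_or_pos l with h | h
      · rw [h]; simp
      · have : (0 : ℝ) < l := by exact_mod_cast h
        positivity
    have h2 : (0 : ℝ) < ((k - 2 : ℕ) : ℝ) := by
      have : 0 < k - 2 := by omega
      exact_mod_cast this
    positivity
  have hBpos : 0 < B := Real.exp_pos _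
  refine ⟨c7 * ε ^ N1 * B / K0, max 1 (max r ⌈2 * Λ⌉₊), by positivity, ?_⟩
  intro n hn n' hn' M t0 t1 hM h01 hεt htΛ DD hDD ι ρ hS
  have hn1 : 1 ≤ n := (le_max_left _ _).trans hn
  have hnr : r ≤ n := ((le_max_left _ _).trans (le_max_right _ _)).trans hn
  have hnΛ : 2 * Λ ≤ n := by
    have h1 : ⌈2 * Λ⌉₊ ≤ n := ((le_max_right _ _).trans (le_max_right _ _)).trans hn
    exact (Nat.le_ceil _).trans (by exact_mod_cast h1)
  have hnpos : (0 : ℝ) < n := by exact_mod_cast hn1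
  have hMr : (0 : ℝ) < M := by exact_mod_cast hM
  -- size of `t1`
  have ht1 : (t1 : ℝ) / M ≤ Λ / n := by
    rw [div_le_div_iff₀ hMr hnpos]
    exact htΛ
  have hΛn : Λ / n ≤ 1 / 2 := by
    rw [div_le_div_iff₀ hnpos (by norm_num)]
    linarith
  have h1M : t1 ≤ M := by
    have h1 : (t1 : ℝ) / M ≤ 1 := by linarith
    rw [div_le_one hMr] at h1
    exact_mod_cast h1
  have ht0 : ε / n ≤ (t0 : ℝ) / M := by
    rw [div_le_div_iff₀ hnpos hMr]
    exact hεt
  have hz0 : 0 ≤ 1 - Λ / n := by linarith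
  -- complement of the range
  set C : Finset (Sym2 (Fin n')) := Cset (Sym2.map ι) with hC
  have hCcard : C.card ≤ r * n' := by
    rw [hr]
    exact card_compl hS
  have hCcard2 : C.card ≤ 2 * r * n := by
    have : n' ≤ 2 * n := by omega
    calc C.card ≤ r * n' := hCcard
      _ ≤ r * (2 * n) := Nat.mul_le_mul_left _ this
      _ = 2 * r * n := by ring
  have hnI : nI n' = nI n + C.card := card_split hS.1
  have hBz : B ≤ (1 - Λ / n) ^ (2 * r * n) := by
    have h1 : Real.exp (-(2 * (Λ / n))) ≤ 1 - Λ / n := by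
      have hx0 : 0 ≤ Λ / n := by positivity
      have h2 : 1 ≤ (1 - Λ / n) * (1 + 2 * (Λ / n)) := by nlinarith
      have h3 : 1 + 2 * (Λ / n) ≤ Real.exp (2 * (Λ / n)) := by
        have := Real.add_one_le_exp (2 * (Λ / n))
        linarith
      rw [Real.exp_neg, inv_le_iff_one_le_mul₀ (Real.exp_pos _)]
      exact h2.trans (mul_le_mul_of_nonneg_left h3 hz0)
    have h2 : Real.exp (-(2 * (Λ / n))) ^ (2 * r * n) = B := by
      rw [← Real.exp_nat_mul, hB]
      congr 1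
      push_cast
      field_simp
      ring
    rw [← h2]
    exact pow_le_pow_left₀ (Real.exp_pos _).le h1 _
  -- the lower bound for one `(w, y)`
  set Aw : ℝ := (M : ℝ) ^ C.card * ((ε / n) ^ N1 * (1 - Λ / n) ^ (2 * r * n)) with hAw
  have hone : ∀ (w : Fin l → Fin n) (y : Slt k l → Fin n),
      (∑ T : Lab n M, ind (DD w y T)) * Aw ≤
        ∑ T : Lab n' M, ind (DD w y (fun e => T (e.map ι)) ∧ Good ι ρ t0 t1 w y T) := by
    intro w y
    have h1 := lab_prod (Sym2.map ι) (Sym2.map.injective hS.1) M (fun T' => ind (DD w y T'))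
      (SS M t0 t1 (P1 ι ρ w y))
    have h2 : ∑ T : Lab n' M, ind (DD w y (fun e => T (e.map ι)) ∧ Good ι ρ t0 t1 w y T) =
        (∑ T' : Lab n M, ind (DD w y T')) * ∏ b ∈ C, ((SS M t0 t1 (P1 ι ρ w y) b).card : ℝ) := by
      rw [← h1]
      refine Finset.sum_congr rfl fun T _ => ?_
      rw [ind_and]
      rfl
    rw [h2]
    apply mul_le_mul_of_nonneg_left _ (Finset.sum_nonneg fun _ _ => ind_nonneg _)
    apply prod_ge hM h01 h1M _ _ N1 (2 * r * n) _ hCcard2 _ _ (by positivity) ht0 hz0 (by linarith)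
    rw [hN1, ha, hu]
    exact P1_card ι ρ w y
  -- summation
  have hsum : (∑ w : Fin l → Fin n, ∑ y : Slt k l → Fin n, ∑ T : Lab n M, ind (DD w y T)) * Aw ≤
      K0 * ∑ T : Lab n' M, ind (∃ w y, DD w y (fun e => T (e.map ι)) ∧
        ∀ t, t0 ≤ t → t < t1 → Planted ι ρ w y (op t T)) := by
    calc (∑ w : Fin l → Fin n, ∑ y : Slt k l → Fin n, ∑ T : Lab n M, ind (DD w y T)) * Aw
        = ∑ w : Fin l → Fin n, ∑ y : Slt k l → Fin n, (∑ T : Lab n M, ind (DD w y T)) * Aw := by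
          rw [Finset.sum_mul]
          refine Finset.sum_congr rfl fun w _ => ?_
          rw [Finset.sum_mul]
      _ ≤ ∑ w : Fin l → Fin n, ∑ y : Slt k l → Fin n,
          ∑ T : Lab n' M, ind (DD w y (fun e => T (e.map ι)) ∧ Good ι ρ t0 t1 w y T) :=
          Finset.sum_le_sum fun w _ => Finset.sum_le_sum fun y _ => hone w y
      _ = ∑ T : Lab n' M, ∑ w : Fin l → Fin n, ∑ y : Slt k l → Fin n,
          ind (DD w y (fun e => T (e.map ι)) ∧ Good ι ρ t0 t1 w y T) := by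
          rw [Finset.sum_congr rfl (fun w _ => Finset.sum_comm)]
          rw [Finset.sum_comm]
      _ ≤ ∑ T : Lab n' M, K0 * ind (∃ w y, DD w y (fun e => T (e.map ι)) ∧
        ∀ t, t0 ≤ t → t < t1 → Planted ι ρ w y (op t T)) := by
          refine Finset.sum_le_sum fun T _ => ?_
          refine (mult h01 hS T (fun w y => DD w y (fun e => T (e.map ι)))).trans ?_
          rw [← ha]
          apply mul_le_mul_of_nonneg_left _ hK0pos.le
          apply ind_mono
          rintro ⟨w, y, h1, h2⟩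
          exact ⟨w, y, h1, fun t h3 h4 => planted_of_good hS h3 h4 h2⟩
      _ = _ := by rw [Finset.mul_sum]
  set Sg : ℝ := ∑ T : Lab n' M, ind (∃ w y, DD w y (fun e => T (e.map ι)) ∧
        ∀ t, t0 ≤ t → t < t1 → Planted ι ρ w y (op t T)) with hSg
  have hSg0 : 0 ≤ Sg := Finset.sum_nonneg fun _ _ => ind_nonneg _
  have hAw0 : 0 ≤ Aw := by positivity
  have h5 : c7 * (n : ℝ) ^ (l + a) * (M : ℝ) ^ nI n * Aw ≤ K0 * Sg := by
    refine le_trans ?_ hsum
    exact mul_le_mul_of_nonneg_right hDD hAw0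
  have h6 : c7 * (n : ℝ) ^ (l + a) * (M : ℝ) ^ nI n * ((M : ℝ) ^ C.card * ((ε / n) ^ N1 * B)) ≤
      K0 * Sg := by
    refine le_trans ?_ h5
    rw [hAw]
    gcongr
  have h7 : (n : ℝ) ^ (3 * u) * (c7 * (n : ℝ) ^ (l + a) * (M : ℝ) ^ nI n *
      ((M : ℝ) ^ C.card * ((ε / n) ^ N1 * B))) = c7 * ε ^ N1 * B * (M : ℝ) ^ nI n' := by
    have hne : (n : ℝ) ≠ 0 := hnpos.ne'
    have e1 : (n : ℝ) ^ (3 * u) * (n : ℝ) ^ (l + a) * (ε / n) ^ N1 = ε ^ N1 := by
      rw [div_pow, hN1, pow_add (n : ℝ) (l + a) (3 * u)]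
      field_simp
    calc (n : ℝ) ^ (3 * u) * (c7 * (n : ℝ) ^ (l + a) * (M : ℝ) ^ nI n *
      ((M : ℝ) ^ C.card * ((ε / n) ^ N1 * B))) =
        c7 * ((n : ℝ) ^ (3 * u) * (n : ℝ) ^ (l + a) * (ε / n) ^ N1) * B *
          ((M : ℝ) ^ nI n * (M : ℝ) ^ C.card) := by ring
      _ = _ := by rw [e1, ← pow_add, ← hnI]
  have h8 : c7 * ε ^ N1 * B * (M : ℝ) ^ nI n' ≤ (n' : ℝ) ^ (3 * u) * (K0 * Sg) := by
    rw [← h7]
    have hnn' : (n : ℝ) ≤ n' := by
      rw [hn']
      push_cast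
      have : (0 : ℝ) ≤ r := Nat.cast_nonneg _
      linarith
    have h9 : (n : ℝ) ^ (3 * u) ≤ (n' : ℝ) ^ (3 * u) := pow_le_pow_left₀ hnpos.le hnn' _
    apply mul_le_mul h9 h6 (by positivity) (by positivity)
  rw [div_mul_eq_mul_div, div_le_iff₀ hK0pos]
  calc c7 * ε ^ N1 * B * (M : ℝ) ^ nI n' ≤ (n' : ℝ) ^ (3 * u) * (K0 * Sg) := h8
    _ = (n' : ℝ) ^ (3 * u) * Sg * K0 := by ring

end

end Pool.Agent.H624U
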