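import Pool.Agent.H624U.Basic
import Pool.Agent.H624U.Defs2
import Pool.Agent.H624C.CO

/-!
# SD: no small dense subgraphs
-/

set_option autoImplicit false

namespace Pool.Agent.H624U

open Finset Pool.Agent.H624C
open scoped Classical

namespace SDx

/-- `m! ≥ (m/3)^m` -/
theorem pow_le_fact (m : ℕ) : (m : ℝ) ^ m ≤ 3 ^ m * (m.factorial : ℝ) := by
  have h1 := Real.pow_div_factorial_le_exp (x := (m : ℝ)) (Nat.cast_nonneg m) m
  have h2 : (0:ℝ) < m.factorial := by exact_mod_cast Nat.factorial_pos m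
  rw [div_le_iff₀ h2] at h1
  have h3 : Real.exp m ≤ 3 ^ m := by
    have : Real.exp (m : ℝ) = Real.exp 1 ^ m := by rw [← Real.exp_nat_mul, mul_one]
    rw [this]
    exact pow_le_pow_left₀ (Real.exp_pos _).le (by have := Real.exp_one_lt_d9; linarith) m
  calc (m : ℝ) ^ m ≤ Real.exp m * m.factorial := h1
    _ ≤ 3 ^ m * m.factorial := mul_le_mul_of_nonneg_right h3 h2.le

/-- `C(N, m) x^m ≤ (3 N x / m)^m` -/
theorem choose_mul_pow (N m : ℕ) (hm : 0 < m) (x : ℝ) (hx : 0 ≤ x) :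
    (N.choose m : ℝ) * x ^ m ≤ (3 * N * x / m) ^ m := by
  have hm' : (0:ℝ) < m := by exact_mod_cast hm
  have h2 : (0:ℝ) < m.factorial := by exact_mod_cast Nat.factorial_pos m
  have h1 : (N.choose m : ℝ) ≤ (N : ℝ) ^ m / m.factorial := Nat.choose_le_pow_div m N
  have h3 := pow_le_fact m
  rw [div_pow, le_div_iff₀ (by positivity)]
  have h4 : (3 * (N : ℝ) * x) ^ m = 3 ^ m * (N : ℝ) ^ m * x ^ m := by
    rw [mul_pow, mul_pow]
  rw [h4]
  rw [le_div_iff₀ h2] at h1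
  calc (N.choose m : ℝ) * x ^ m * (m : ℝ) ^ m ≤ (N.choose m : ℝ) * x ^ m * (3 ^ m * m.factorial) :=
        mul_le_mul_of_nonneg_left h3 (by positivity)
    _ = 3 ^ m * (N.choose m * m.factorial) * x ^ m := by ring
    _ ≤ 3 ^ m * (N : ℝ) ^ m * x ^ m := by
        apply mul_le_mul_of_nonneg_right _ (by positivity)
        exact mul_le_mul_of_nonneg_left h1 (by positivity)

/-- pairs inside `S` -/
noncomputable def PS {n : ℕ} (S : Finset (Fin n)) : Finset (Sym2 (Fin n)) :=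
  (Finset.univ : Finset (Sym2 (Fin n))).filter (fun e => ¬ e.IsDiag ∧ ∀ v ∈ e, v ∈ S)

theorem card_PS {n : ℕ} (S : Finset (Fin n)) : (PS S).card ≤ S.card ^ 2 := by
  have hsub : PS S ⊆ (S ×ˢ S).image (fun q => s(q.1, q.2)) := by
    intro e he
    unfold PS at he
    rw [Finset.mem_filter] at he
    induction e using Sym2.ind with
    | _ x y =>
      rw [Finset.mem_image]
      refine ⟨(x, y), ?_, rfl⟩
      rw [Finset.mem_product]
      exact ⟨he.2.2 x (Sym2.mem_mk_left x y), he.2.2 y (Sym2.mem_mk_right x y)⟩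
  calc (PS S).card ≤ _ := Finset.card_le_card hsub
    _ ≤ (S ×ˢ S).card := Finset.card_image_le
    _ = S.card ^ 2 := by rw [Finset.card_product, pow_two]

theorem E_incl {n : ℕ} (p : ℝ) (B : Om n) : E p (fun ω : Om n => ind (B ⊆ ω)) = p ^ B.card := by
  have h := S_incl_thm n p B (fun _ => 1) (fun _ => rfl)
  simp only [mul_one] at h
  rw [h, E_one, mul_one]

/-- the probability that `S` spans many edges -/
theorem one_set {n : ℕ} {p : ℝ} (h0 : 0 ≤ p) (h1 : p ≤ 1) (S : Finset (Fin n)) (e : ℕ)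
    (he : 4 * e < 5 * S.card + 4) :
    E p (fun ω : Om n => ind (5 * S.card ≤ 4 * ecount S ω)) ≤ ((PS S).card.choose e : ℝ) * p ^ e := by
  have h : ∀ ω : Om n, ind (5 * S.card ≤ 4 * ecount S ω) ≤
      ∑ B ∈ (PS S).powersetCard e, ind (B ⊆ ω) := by
    intro ω
    refine le_trans (ind_mono ?_) (ind_exists_le _ _)
    intro hS
    have hle : e ≤ (ω.filter (fun e => ¬ e.IsDiag ∧ ∀ v ∈ e, v ∈ S)).card := by
      have : ecount S ω = (ω.filter (fun e => ¬ e.IsDiag ∧ ∀ v ∈ e, v ∈ S)).card := rfl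
      omega
    obtain ⟨B, hB1, hB2⟩ := Finset.exists_subset_card_eq hle
    refine ⟨B, ?_, ?_⟩
    · rw [Finset.mem_powersetCard]
      refine ⟨fun x hx => ?_, hB2⟩
      have := Finset.mem_filter.mp (hB1 hx)
      unfold PS
      rw [Finset.mem_filter]
      exact ⟨mem_univ _, this.2⟩
    · exact hB1.trans (Finset.filter_subset _ _)
  refine (E_mono h0 h1 h).trans ?_
  rw [E_sum]
  have h2 : ∀ B ∈ (PS S).powersetCard e, E p (fun ω : Om n => ind (B ⊆ ω)) = p ^ e := by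
    intro B hB
    rw [E_incl, (Finset.mem_powersetCard.mp hB).2]
  rw [Finset.sum_congr rfl h2, Finset.sum_const, Finset.card_powersetCard, nsmul_eq_mul]

/-- the term of size `s` -/
theorem term_le {n : ℕ} {p Λ ε0 : ℝ} (hn : 0 < n) (hΛ : 0 < Λ) (h0 : 0 ≤ p) (h1 : p ≤ 1)
    (hp : p * n ≤ Λ) (he1 : 3 * Λ * ε0 ≤ 1) (he2 : 3 ^ 9 * Λ ^ 5 * ε0 ≤ 1 / 256)
    (s : ℕ) (hs : 4 ≤ s) (hsn : (s : ℝ) ≤ ε0 * n) :
    ∑ S ∈ (Finset.univ : Finset (Fin n)).powersetCard s,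
      E p (fun ω : Om n => ind (5 * S.card ≤ 4 * ecount S ω)) ≤
      (3 ^ 9 * Λ ^ 5 * 256 / n) * (1 / 2) ^ s := by
  have hn' : (0:ℝ) < n := by exact_mod_cast hn
  have hs' : (0:ℝ) < s := by
    have : 0 < s := by omega
    exact_mod_cast this
  obtain ⟨e, he⟩ : ∃ e : ℕ, e = (5 * s + 3) / 4 := ⟨_, rfl⟩
  have hea : 4 * e < 5 * s + 4 := by omega
  have heb : 5 * s ≤ 4 * e := by omega
  have hec : 0 < e := by omega
  have he' : (0:ℝ) < e := by exact_mod_cast hec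
  set b : ℝ := 3 * Λ * (s / n) with hb
  have hb0 : 0 ≤ b := by positivity
  have hsn' : (s : ℝ) / n ≤ ε0 := by rw [div_le_iff₀ hn']; exact hsn
  have hb1 : b ≤ 1 := by
    rw [hb]
    calc 3 * Λ * ((s:ℝ) / n) ≤ 3 * Λ * ε0 := mul_le_mul_of_nonneg_left hsn' (by positivity)
      _ ≤ 1 := he1
  -- one set
  have hone : ∀ S ∈ (Finset.univ : Finset (Fin n)).powersetCard s,
      E p (fun ω : Om n => ind (5 * S.card ≤ 4 * ecount S ω)) ≤ b ^ e := by
    intro S hS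
    have hSc : S.card = s := (Finset.mem_powersetCard.mp hS).2
    refine (one_set h0 h1 S e (by rw [hSc]; exact hea)).trans ?_
    refine (choose_mul_pow _ e hec p h0).trans ?_
    apply pow_le_pow_left₀ (by positivity)
    rw [div_le_iff₀ he']
    have hc : ((PS S).card : ℝ) ≤ (s : ℝ) ^ 2 := by
      have := card_PS S
      rw [hSc] at this
      exact_mod_cast this
    have hpn : p ≤ Λ / n := by rw [le_div_iff₀ hn']; exact hp
    have hes : (5:ℝ) * s ≤ 4 * e := by exact_mod_cast heb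
    calc 3 * ((PS S).card : ℝ) * p ≤ 3 * (s : ℝ) ^ 2 * (Λ / n) := by gcongr
      _ = (3 * Λ * (s / n)) * s := by field_simp
      _ ≤ b * e := by
          rw [hb]
          apply mul_le_mul_of_nonneg_left _ (by positivity)
          linarith
  have hsum : ∑ S ∈ (Finset.univ : Finset (Fin n)).powersetCard s,
      E p (fun ω : Om n => ind (5 * S.card ≤ 4 * ecount S ω)) ≤ (n.choose s : ℝ) * b ^ e := by
    refine (Finset.sum_le_sum hone).trans ?_
    rw [Finset.sum_const, Finset.card_powersetCard, nsmul_eq_mul, Finset.card_univ,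
      Fintype.card_fin]
  refine hsum.trans ?_
  -- fourth power
  set x : ℝ := 3 ^ 9 * Λ ^ 5 * (s / n) with hx
  have hx0 : 0 ≤ x := by positivity
  have hx1 : x ≤ 1 / 256 := by
    rw [hx]
    calc 3 ^ 9 * Λ ^ 5 * ((s:ℝ) / n) ≤ 3 ^ 9 * Λ ^ 5 * ε0 :=
          mul_le_mul_of_nonneg_left hsn' (by positivity)
      _ ≤ _ := he2
  have hch : (n.choose s : ℝ) ≤ (3 * n / s) ^ s := by
    have := choose_mul_pow n s (by omega) 1 zero_le_one
    simpa using this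
  have h4 : ((n.choose s : ℝ) * b ^ e) ^ 4 ≤ x ^ s := by
    have k1 : ((n.choose s : ℝ) * b ^ e) ^ 4 ≤ ((3 * n / s) ^ s * b ^ e) ^ 4 := by gcongr
    have k2 : ((3 * (n:ℝ) / s) ^ s * b ^ e) ^ 4 = (3 * n / s) ^ (4 * s) * b ^ (4 * e) := by
      rw [mul_pow, ← pow_mul, ← pow_mul]
      congr 2 <;> ring
    have k3 : b ^ (4 * e) ≤ b ^ (5 * s) := pow_le_pow_of_le_one hb0 hb1 heb
    have k4 : (3 * (n:ℝ) / s) ^ (4 * s) * b ^ (5 * s) = x ^ s := by
      rw [pow_mul, pow_mul, ← mul_pow]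
      congr 1
      rw [hb, hx]
      field_simp
    calc ((n.choose s : ℝ) * b ^ e) ^ 4 ≤ (3 * n / s) ^ (4 * s) * b ^ (4 * e) := k1.trans k2.le
      _ ≤ (3 * n / s) ^ (4 * s) * b ^ (5 * s) := mul_le_mul_of_nonneg_left k3 (by positivity)
      _ = x ^ s := k4
  set y : ℝ := √(√x) with hy
  have hy0 : 0 ≤ y := Real.sqrt_nonneg _
  have hy4 : y ^ 4 = x := by
    have a1 : y ^ 2 = √x := Real.sq_sqrt (Real.sqrt_nonneg _)
    have a2 : (√x) ^ 2 = x := Real.sq_sqrt hx0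
    calc y ^ 4 = (y ^ 2) ^ 2 := by ring
      _ = x := by rw [a1, a2]
  have hy1 : y ≤ 1 / 4 := by
    apply le_of_pow_le_pow_left₀ (by norm_num : (4:ℕ) ≠ 0) (by norm_num)
    rw [hy4]
    refine hx1.trans (by norm_num)
  have h5 : (n.choose s : ℝ) * b ^ e ≤ y ^ s := by
    apply le_of_pow_le_pow_left₀ (by norm_num : (4:ℕ) ≠ 0) (by positivity)
    refine h4.trans (le_of_eq ?_)
    rw [← hy4, ← pow_mul, ← pow_mul, mul_comm]
  refine h5.trans ?_
  obtain ⟨r, rfl⟩ : ∃ r, s = 4 + r := ⟨s - 4, by omega⟩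
  rw [pow_add, hy4]
  have h6 : y ^ r ≤ (1 / 4) ^ r := pow_le_pow_left₀ hy0 hy1 r
  have h7 : ((4 + r : ℕ) : ℝ) ≤ 2 ^ (4 + r) := by exact_mod_cast (Nat.lt_two_pow_self).le
  calc x * y ^ r ≤ x * (1 / 4) ^ r := mul_le_mul_of_nonneg_left h6 hx0
    _ = (3 ^ 9 * Λ ^ 5 * 256 / n) * (1 / 4) ^ (4 + r) * ((4 + r : ℕ) : ℝ) := by
        rw [hx, pow_add]; ring
    _ ≤ (3 ^ 9 * Λ ^ 5 * 256 / n) * (1 / 4) ^ (4 + r) * 2 ^ (4 + r) :=
        mul_le_mul_of_nonneg_left h7 (by positivity)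
    _ = (3 ^ 9 * Λ ^ 5 * 256 / n) * (1 / 2) ^ (4 + r) := by
        rw [mul_assoc, ← mul_pow]; norm_num

end SDx

open SDx in
theorem SD_thm : T_SD := by
  intro Λ hΛ
  refine ⟨min (1 / (3 * Λ)) (1 / (256 * (3 ^ 9 * Λ ^ 5))), by positivity, ?_⟩
  intro γ hγ
  obtain ⟨n0, hn0⟩ := exists_nat_ge (3 ^ 9 * Λ ^ 5 * 256 * 2 / γ)
  refine ⟨n0 + 1, ?_⟩
  intro n hn p h0 h1 hp m0 hm0
  have hnpos : 0 < n := by omega
  have hn' : (0:ℝ) < n := by exact_mod_cast hnpos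
  set ε0 : ℝ := min (1 / (3 * Λ)) (1 / (256 * (3 ^ 9 * Λ ^ 5))) with hε
  have he1 : 3 * Λ * ε0 ≤ 1 := by
    have : ε0 ≤ 1 / (3 * Λ) := min_le_left _ _
    calc 3 * Λ * ε0 ≤ 3 * Λ * (1 / (3 * Λ)) := mul_le_mul_of_nonneg_left this (by positivity)
      _ = 1 := by field_simp
  have he2 : 3 ^ 9 * Λ ^ 5 * ε0 ≤ 1 / 256 := by
    have : ε0 ≤ 1 / (256 * (3 ^ 9 * Λ ^ 5)) := min_le_right _ _
    calc 3 ^ 9 * Λ ^ 5 * ε0 ≤ 3 ^ 9 * Λ ^ 5 * (1 / (256 * (3 ^ 9 * Λ ^ 5))) :=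
          mul_le_mul_of_nonneg_left this (by positivity)
      _ = 1 / 256 := by field_simp
  have hstep : ∀ ω : Om n, ind (SD m0 ω) ≤
      ∑ s ∈ Icc 4 m0, ∑ S ∈ (Finset.univ : Finset (Fin n)).powersetCard s,
        ind (5 * S.card ≤ 4 * ecount S ω) := by
    intro ω
    refine le_trans (ind_mono ?_) ((ind_exists_le (Icc 4 m0)
      (fun s => ∃ S ∈ (Finset.univ : Finset (Fin n)).powersetCard s,
        5 * S.card ≤ 4 * ecount S ω)).trans
      (Finset.sum_le_sum (fun s _ => ind_exists_le _ _)))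
    rintro ⟨S, hS1, hS2, hS3⟩
    exact ⟨S.card, Finset.mem_Icc.mpr ⟨hS1, hS2⟩, S,
      Finset.mem_powersetCard.mpr ⟨Finset.subset_univ _, rfl⟩, hS3⟩
  refine (E_mono h0 h1 hstep).trans ?_
  rw [E_sum]
  have hterm : ∀ s ∈ Icc 4 m0, E p (fun ω : Om n =>
      ∑ S ∈ (Finset.univ : Finset (Fin n)).powersetCard s,
        ind (5 * S.card ≤ 4 * ecount S ω)) ≤ (3 ^ 9 * Λ ^ 5 * 256 / n) * (1 / 2) ^ s := by
    intro s hs
    rw [Finset.mem_Icc] at hs
    rw [E_sum]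
    refine term_le hnpos hΛ h0 h1 hp he1 he2 s hs.1 ?_
    refine le_trans ?_ hm0
    exact_mod_cast hs.2
  refine (Finset.sum_le_sum hterm).trans ?_
  rw [← Finset.mul_sum]
  have hgeo : ∑ s ∈ Icc 4 m0, ((1:ℝ) / 2) ^ s ≤ 2 := by
    refine le_trans ?_ (sum_geometric_two_le (m0 + 1))
    apply Finset.sum_le_sum_of_subset_of_nonneg
    · intro s hs
      rw [Finset.mem_Icc] at hs
      rw [Finset.mem_range]; omega
    · intro s _ _; positivity
  calc (3 ^ 9 * Λ ^ 5 * 256 / n) * ∑ s ∈ Icc 4 m0, ((1:ℝ) / 2) ^ s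
      ≤ (3 ^ 9 * Λ ^ 5 * 256 / n) * 2 := mul_le_mul_of_nonneg_left hgeo (by positivity)
    _ = (3 ^ 9 * Λ ^ 5 * 256 * 2) / n := by ring
    _ ≤ γ := by
        rw [div_le_iff₀ hn']
        rw [div_le_iff₀ hγ] at hn0
        have : (n0 : ℝ) ≤ n := by exact_mod_cast (by omega : n0 ≤ n)
        nlinarith

end Pool.Agent.H624U
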