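import Pool.Agent.H624U.Basic
import Pool.Agent.H624U.Defs2

/-!
# SJ (helper169): from a drop to a star-jump mass
-/

set_option autoImplicit false

namespace Pool.Agent.H624U

open Finset Pool.Agent.H624C
open scoped Classical

noncomputable section

namespace SJ

variable {n : ℕ}

theorem pull_ext (ω : Om n) (N : Finset (Fin n)) : pull Fin.castSucc (ext ω N) = ω := by
  ext e
  simp only [pull, ext, mem_filter, mem_univ, true_and, mem_union, mem_image]
  constructor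
  · rintro (⟨e', he', h⟩ | ⟨y, hy, h⟩)
    · have := Sym2.map.injective (Fin.castSucc_injective n) h
      rwa [← this]
    · exfalso
      have h1 : Fin.last n ∈ Sym2.map Fin.castSucc e := by
        rw [← h]
        exact Sym2.mem_mk_left _ _
      rw [Sym2.mem_map] at h1
      obtain ⟨a, _, ha⟩ := h1
      exact Fin.castSucc_ne_last a ha
  · intro h
    exact Or.inl ⟨e, h, rfl⟩

theorem F_of_P {P : ∀ n : ℕ, Om n → Prop} (hP : Fam P) {ω : Om n} (h : P n ω)
    (N : Finset (Fin n)) : P (n + 1) (ext ω N) := by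
  apply hP.inv n (n + 1) Fin.castSucc (Fin.castSucc_injective n)
  rw [pull_ext]
  exact h

theorem wt_nonneg {p : ℝ} (h0 : 0 ≤ p) (h1 : p ≤ 1) (N : Finset (Fin n)) :
    0 ≤ p ^ N.card * (1 - p) ^ (n - N.card) :=
  mul_nonneg (pow_nonneg h0 _) (pow_nonneg (by linarith) _)

/-- the inner sum of `T_deg` -/
def Dp (P : ∀ n : ℕ, Om n → Prop) (p : ℝ) (ω : Om n) : ℝ :=
  ∑ N : Finset (Fin n), p ^ N.card * (1 - p) ^ (n - N.card) *
      ∑ z : Fin n, ind (¬ P (n + 1) (ext ω N) ∧ P (n + 1) (ext ω (insert z N)))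

/-- the inner sum of `T_diff` -/
def Bp (P : ∀ n : ℕ, Om n → Prop) (p : ℝ) (ω : Om n) : ℝ :=
  ∑ N : Finset (Fin n), p ^ N.card * (1 - p) ^ (n - N.card) *
      ind (¬ P n ω ∧ P (n + 1) (ext ω N))

/-- the same with the number of neighbours -/
def Hp (P : ∀ n : ℕ, Om n → Prop) (p : ℝ) (ω : Om n) : ℝ :=
  ∑ N : Finset (Fin n), p ^ N.card * (1 - p) ^ (n - N.card) *
      ((N.card : ℝ) * ind (¬ P n ω ∧ P (n + 1) (ext ω N)))

/-- the part with small stars -/
def Sp (P : ∀ n : ℕ, Om n → Prop) (D : ℕ) (p : ℝ) (ω : Om n) : ℝ :=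
  ∑ N : Finset (Fin n), p ^ N.card * (1 - p) ^ (n - N.card) *
      ind ((¬ P n ω ∧ P (n + 1) (ext ω N)) ∧ N.card ≤ D)

theorem Dp_nonneg (P : ∀ n : ℕ, Om n → Prop) {p : ℝ} (h0 : 0 ≤ p) (h1 : p ≤ 1) (ω : Om n) :
    0 ≤ Dp P p ω :=
  Finset.sum_nonneg fun N _ => mul_nonneg (wt_nonneg h0 h1 N)
    (Finset.sum_nonneg fun _ _ => ind_nonneg _)

theorem Bp_nonneg (P : ∀ n : ℕ, Om n → Prop) {p : ℝ} (h0 : 0 ≤ p) (h1 : p ≤ 1) (ω : Om n) :
    0 ≤ Bp P p ω :=
  Finset.sum_nonneg fun N _ => mul_nonneg (wt_nonneg h0 h1 N) (ind_nonneg _)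

theorem Hp_nonneg (P : ∀ n : ℕ, Om n → Prop) {p : ℝ} (h0 : 0 ≤ p) (h1 : p ≤ 1) (ω : Om n) :
    0 ≤ Hp P p ω :=
  Finset.sum_nonneg fun N _ => mul_nonneg (wt_nonneg h0 h1 N)
    (mul_nonneg (Nat.cast_nonneg _) (ind_nonneg _))

theorem a_pt (hh : T_hyb) {P : ∀ n : ℕ, Om n → Prop} (hP : Fam P) {p : ℝ} (h0 : 0 ≤ p)
    (h1 : p < 1) (ω : Om n) : Bp P p ω ≤ p * ((1 - p) ^ n)⁻¹ * Dp P p ω := by
  by_cases h : P n ω
  · have e : Bp P p ω = 0 := by
      unfold Bp
      apply Finset.sum_eq_zero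
      intro N _
      rw [ind_false (fun h' => h'.1 h), mul_zero]
    rw [e]
    exact mul_nonneg (mul_nonneg h0 (inv_nonneg.2 (pow_nonneg (by linarith) _)))
      (Dp_nonneg P h0 h1.le ω)
  · have h2 := hh n p (fun N => P (n + 1) (ext ω N)) h0 h1 (fun h' => h (hP.iso n ω h'))
    refine le_trans (le_of_eq ?_) h2
    unfold Bp
    refine Finset.sum_congr rfl fun N _ => ?_
    congr 1
    exact ind_congr ⟨fun h' => h'.2, fun h' => ⟨h, h'⟩⟩

/-- double counting of the elements of the star -/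
theorem star_count {p : ℝ} (g : Finset (Fin n) → ℝ) :
    ∑ N : Finset (Fin n), p ^ N.card * (1 - p) ^ (n - N.card) * ((N.card : ℝ) * g N) =
      p * ∑ N : Finset (Fin n), p ^ N.card * (1 - p) ^ (n - N.card) *
        ∑ z : Fin n, g (insert z N) := by
  have e1 : ∀ N : Finset (Fin n), p ^ N.card * (1 - p) ^ (n - N.card) * ((N.card : ℝ) * g N) =
      ∑ z : Fin n, p ^ N.card * (1 - p) ^ (n - N.card) * (if z ∈ N then g N else 0) := by
    intro N
    rw [← Finset.mul_sum, Finset.sum_ite_mem, Finset.univ_inter, Finset.sum_const, nsmul_eq_mul]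
  have e2 : ∀ N : Finset (Fin n), p * (p ^ N.card * (1 - p) ^ (n - N.card) *
      ∑ z : Fin n, g (insert z N)) =
      ∑ z : Fin n, p * (p ^ N.card * (1 - p) ^ (n - N.card) * g (insert z N)) := by
    intro N
    rw [← Finset.mul_sum, ← Finset.mul_sum]
  rw [Finset.sum_congr rfl fun N _ => e1 N, Finset.mul_sum, Finset.sum_congr rfl fun N _ => e2 N,
    Finset.sum_comm, Finset.sum_comm (f := fun N z => p * (p ^ Finset.card N *
      (1 - p) ^ (n - Finset.card N) * g (insert z N)))]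
  refine Finset.sum_congr rfl fun z _ => ?_
  have hsplit : ∀ h : Finset (Fin n) → ℝ, ∑ N : Finset (Fin n), h N =
      ∑ N ∈ (univ.erase z).powerset, (h N + h (insert z N)) := by
    intro h
    have e3 : (univ : Finset (Finset (Fin n))) = (insert z (univ.erase z)).powerset := by
      rw [Finset.insert_erase (Finset.mem_univ z), Finset.powerset_univ]
    rw [e3, Finset.sum_powerset_insert (Finset.notMem_erase z _), Finset.sum_add_distrib]
  rw [hsplit, hsplit]
  refine Finset.sum_congr rfl fun N hN => ?_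
  have hzN : z ∉ N := fun h => Finset.notMem_erase z _ (Finset.mem_powerset.1 hN h)
  have hc : N.card + 1 ≤ n := by
    have := Finset.card_le_univ (insert z N)
    rwa [Finset.card_insert_of_notMem hzN, Fintype.card_fin] at this
  rw [if_neg hzN, if_pos (Finset.mem_insert_self z N), Finset.insert_idem,
    Finset.card_insert_of_notMem hzN]
  have e4 : (1 - p) ^ (n - N.card) = (1 - p) ^ (n - (N.card + 1)) * (1 - p) := by
    rw [← pow_succ]
    congr 1
    omega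
  rw [e4, pow_succ]
  ring

theorem b_pt {P : ∀ n : ℕ, Om n → Prop} {p : ℝ} (h0 : 0 ≤ p) (h1 : p ≤ 1) (ω : Om n) :
    Hp P p ω ≤ n * p * Bp P p ω + p * Dp P p ω := by
  unfold Hp
  rw [star_count (fun N => ind (¬ P n ω ∧ P (n + 1) (ext ω N)))]
  have e : n * p * Bp P p ω + p * Dp P p ω = p * ∑ N : Finset (Fin n),
      p ^ N.card * (1 - p) ^ (n - N.card) * ((n : ℝ) * ind (¬ P n ω ∧ P (n + 1) (ext ω N)) +
        ∑ z : Fin n, ind (¬ P (n + 1) (ext ω N) ∧ P (n + 1) (ext ω (insert z N)))) := by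
    unfold Bp Dp
    rw [Finset.sum_congr rfl fun N _ => mul_add _ _ _, Finset.sum_add_distrib, mul_add,
      mul_comm (n : ℝ) p, mul_assoc, Finset.mul_sum (s := univ) (a := (n : ℝ))]
    congr 2
    refine Finset.sum_congr rfl fun N _ => ?_
    ring
  rw [e]
  apply mul_le_mul_of_nonneg_left _ h0
  refine Finset.sum_le_sum fun N _ => ?_
  apply mul_le_mul_of_nonneg_left _ (wt_nonneg h0 h1 N)
  have e2 : (n : ℝ) * ind (¬ P n ω ∧ P (n + 1) (ext ω N)) =
      ∑ _z : Fin n, ind (¬ P n ω ∧ P (n + 1) (ext ω N)) := by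
    rw [Finset.sum_const, nsmul_eq_mul, Finset.card_univ, Fintype.card_fin]
  rw [e2, ← Finset.sum_add_distrib]
  refine Finset.sum_le_sum fun z _ => ?_
  by_cases hF : P (n + 1) (ext ω N)
  · have : ind (¬ P n ω ∧ P (n + 1) (ext ω (insert z N))) ≤
        ind (¬ P n ω ∧ P (n + 1) (ext ω N)) := ind_mono fun h => ⟨h.1, hF⟩
    linarith [ind_nonneg (¬ P (n + 1) (ext ω N) ∧ P (n + 1) (ext ω (insert z N)))]
  · have : ind (¬ P n ω ∧ P (n + 1) (ext ω (insert z N))) ≤
        ind (¬ P (n + 1) (ext ω N) ∧ P (n + 1) (ext ω (insert z N))) :=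
      ind_mono fun h => ⟨hF, h.2⟩
    linarith [ind_nonneg (¬ P n ω ∧ P (n + 1) (ext ω N))]

/-- stars of size `l` are images of tuples -/
theorem img_sum (l : ℕ) (G : Finset (Fin n) → ℝ) (hG : ∀ N, 0 ≤ G N) :
    ∑ N ∈ univ.filter (fun N : Finset (Fin n) => N.card = l), G N ≤
      ∑ w : Fin l → Fin n, G (univ.image w) := by
  have hex : ∀ N : Finset (Fin n), N.card = l → ∃ w : Fin l → Fin n, univ.image w = N := by
    intro N hN
    refine ⟨fun i => ((N.equivFinOfCardEq hN).symm i : Fin n), ?_⟩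
    ext x
    rw [Finset.mem_image]
    constructor
    · rintro ⟨i, _, rfl⟩
      exact ((N.equivFinOfCardEq hN).symm i).2
    · intro hx
      exact ⟨N.equivFinOfCardEq hN ⟨x, hx⟩, Finset.mem_univ _, by simp⟩
  by_cases hne : Nonempty (Fin l → Fin n)
  swap
  · have e0 : univ.filter (fun N : Finset (Fin n) => N.card = l) = ∅ := by
      apply Finset.eq_empty_of_forall_notMem
      intro N hN
      obtain ⟨w, _⟩ := hex N (Finset.mem_filter.1 hN).2
      exact hne ⟨w⟩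
    rw [e0, Finset.sum_empty]
    exact Finset.sum_nonneg fun _ _ => hG _
  choose! φ hφ using hex
  have hinj : Set.InjOn φ (↑(univ.filter (fun N : Finset (Fin n) => N.card = l)) :
      Set (Finset (Fin n))) := by
    intro N hN N' hN' h
    have h1 : N.card = l := (Finset.mem_filter.1 (Finset.mem_coe.1 hN)).2
    have h2 : N'.card = l := (Finset.mem_filter.1 (Finset.mem_coe.1 hN')).2
    rw [← hφ N h1, ← hφ N' h2, h]
  have e : ∑ N ∈ univ.filter (fun N : Finset (Fin n) => N.card = l), G N =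
      ∑ w ∈ (univ.filter (fun N : Finset (Fin n) => N.card = l)).image φ, G (univ.image w) := by
    rw [Finset.sum_image hinj]
    refine Finset.sum_congr rfl fun N hN => ?_
    rw [hφ N (Finset.mem_filter.1 hN).2]
  rw [e]
  exact Finset.sum_le_sum_of_subset_of_nonneg (Finset.subset_univ _) fun _ _ _ => hG _

theorem DJ_eq (P : ∀ n : ℕ, Om n → Prop) (l : ℕ) (ω : Om n) : (DJ P l ω : ℝ) =
    ∑ w : Fin l → Fin n, ∑ z : Fin n, ind (¬ P (n + 1) (ext ω (univ.image w)) ∧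
      P (n + 1) (ext ω (insert z (univ.image w)))) := by
  unfold DJ
  rw [Finset.card_filter, Nat.cast_sum, Fintype.sum_prod_type]
  refine Finset.sum_congr rfl fun w _ => Finset.sum_congr rfl fun z _ => ?_
  by_cases h : ¬ P (n + 1) (ext ω (univ.image w)) ∧ P (n + 1) (ext ω (insert z (univ.image w)))
  · rw [if_pos h, ind_true h, Nat.cast_one]
  · rw [if_neg h, ind_false h, Nat.cast_zero]

theorem c_pt (hh : T_hyb) {P : ∀ n : ℕ, Om n → Prop} (hP : Fam P) {p : ℝ} (h0 : 0 ≤ p)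
    (h1 : p < 1) (D : ℕ) (ω : Om n) :
    Sp P D p ω ≤ p * ((1 - p) ^ n)⁻¹ * ∑ l ∈ range (D + 1), p ^ l * (DJ P l ω : ℝ) := by
  have hC : 0 ≤ p * ((1 - p) ^ n)⁻¹ :=
    mul_nonneg h0 (inv_nonneg.2 (pow_nonneg (by linarith) _))
  by_cases h : P n ω
  · have e : Sp P D p ω = 0 := by
      unfold Sp
      apply Finset.sum_eq_zero
      intro N _
      rw [ind_false (fun h' => h'.1.1 h), mul_zero]
    rw [e]
    exact mul_nonneg hC (Finset.sum_nonneg fun l _ => mul_nonneg (pow_nonneg h0 _)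
      (Nat.cast_nonneg _))
  · have h2 := hh n p (fun N => P (n + 1) (ext ω N) ∧ N.card ≤ D) h0 h1
      (fun h' => h (hP.iso n ω h'.1))
    have e : Sp P D p ω = ∑ N : Finset (Fin n), p ^ N.card * (1 - p) ^ (n - N.card) *
        ind (P (n + 1) (ext ω N) ∧ N.card ≤ D) := by
      unfold Sp
      refine Finset.sum_congr rfl fun N _ => ?_
      congr 1
      exact ind_congr ⟨fun h' => ⟨h'.1.2, h'.2⟩, fun h' => ⟨⟨h, h'.1⟩, h'.2⟩⟩
    rw [e]
    refine h2.trans (mul_le_mul_of_nonneg_left ?_ hC)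
    -- the combinatorial part
    set G : Finset (Fin n) → ℝ := fun N =>
      ∑ z : Fin n, ind (¬ P (n + 1) (ext ω N) ∧ P (n + 1) (ext ω (insert z N))) with hG
    have hG0 : ∀ N, 0 ≤ G N := fun N => Finset.sum_nonneg fun _ _ => ind_nonneg _
    have s1 : ∀ N : Finset (Fin n), p ^ N.card * (1 - p) ^ (n - N.card) *
        ∑ z : Fin n, ind (¬ (P (n + 1) (ext ω N) ∧ N.card ≤ D) ∧
          (P (n + 1) (ext ω (insert z N)) ∧ (insert z N).card ≤ D)) ≤
        if N.card ∈ range (D + 1) then p ^ N.card * G N else 0 := by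
      intro N
      split_ifs with hN
      · have hw : p ^ N.card * (1 - p) ^ (n - N.card) ≤ p ^ N.card := by
          have := pow_le_one₀ (n := n - N.card) (show (0 : ℝ) ≤ 1 - p by linarith) (by linarith)
          exact mul_le_of_le_one_right (pow_nonneg h0 _) this
        refine mul_le_mul hw ?_ (Finset.sum_nonneg fun _ _ => ind_nonneg _) (pow_nonneg h0 _)
        refine Finset.sum_le_sum fun z _ => ind_mono ?_
        rintro ⟨g1, g2, _⟩
        refine ⟨fun g => g1 ⟨g, ?_⟩, g2⟩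
        rw [Finset.mem_range] at hN
        omega
      · apply le_of_eq
        have : ∑ z : Fin n, ind (¬ (P (n + 1) (ext ω N) ∧ N.card ≤ D) ∧
          (P (n + 1) (ext ω (insert z N)) ∧ (insert z N).card ≤ D)) = 0 := by
          apply Finset.sum_eq_zero
          intro z _
          apply ind_false
          rintro ⟨_, _, g3⟩
          apply hN
          have := Finset.card_le_card (Finset.subset_insert z N)
          rw [Finset.mem_range]
          omega
        rw [this, mul_zero]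
    refine (Finset.sum_le_sum fun N _ => s1 N).trans ?_
    have s2 : ∑ N : Finset (Fin n), (if N.card ∈ range (D + 1) then p ^ N.card * G N else 0) =
        ∑ l ∈ range (D + 1), ∑ N ∈ univ.filter (fun N : Finset (Fin n) => N.card = l),
          p ^ l * G N := by
      rw [← Finset.sum_filter]
      have hmap : ∀ N ∈ univ.filter (fun N : Finset (Fin n) => N.card ∈ range (D + 1)),
          N.card ∈ range (D + 1) := fun N hN => (Finset.mem_filter.1 hN).2
      rw [← Finset.sum_fiberwise_of_maps_to hmap]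
      refine Finset.sum_congr rfl fun l hl => ?_
      have e5 : (univ.filter (fun N : Finset (Fin n) => N.card ∈ range (D + 1))).filter
          (fun N => N.card = l) = univ.filter (fun N : Finset (Fin n) => N.card = l) := by
        ext N
        simp only [Finset.mem_filter, Finset.mem_univ, true_and]
        constructor
        · exact fun h => h.2
        · rintro rfl
          exact ⟨hl, rfl⟩
      rw [e5]
      refine Finset.sum_congr rfl fun N hN => ?_
      rw [(Finset.mem_filter.1 hN).2]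
    rw [s2]
    refine Finset.sum_le_sum fun l _ => ?_
    rw [← Finset.mul_sum]
    apply mul_le_mul_of_nonneg_left _ (pow_nonneg h0 _)
    rw [DJ_eq]
    exact img_sum l G hG0

theorem inv_bound {p : ℝ} (h0 : 0 ≤ p) (h1 : p ≤ 1 / 2) (n : ℕ) :
    ((1 - p) ^ n)⁻¹ ≤ Real.exp (2 * (p * n)) := by
  have h2 : (1 - p)⁻¹ ≤ Real.exp (2 * p) := by
    have h3 : (1 - p)⁻¹ ≤ 1 + 2 * p := by
      rw [inv_le_iff_one_le_mul₀ (by linarith)]
      nlinarith
    have := Real.add_one_le_exp (2 * p)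
    linarith
  rw [← inv_pow]
  calc ((1 - p)⁻¹) ^ n ≤ (Real.exp (2 * p)) ^ n :=
        pow_le_pow_left₀ (inv_nonneg.2 (by linarith)) h2 n
    _ = Real.exp (2 * (p * n)) := by
        rw [← Real.exp_nat_mul]
        congr 1
        ring

/-- the sum of the star jumps -/
theorem DS (hdeg : T_deg) (hm : T_mpu1) {P : ∀ n : ℕ, Om n → Prop} (hP : Fam P) {n M s : ℕ}
    (hn : (n + 1) ^ 5 ≤ M) (hs : s ≤ M) :
    ∑ t ∈ range s, E ((t : ℝ) / M) (fun ω : Om n => Dp P ((t : ℝ) / M) ω) ≤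
      4 * M / ((n : ℝ) + 1) := by
  have hM : 0 < M := lt_of_lt_of_le (by positivity) hn
  have hMr : (0 : ℝ) < M := by exact_mod_cast hM
  have hn1 : (0 : ℝ) < (n : ℝ) + 1 := by positivity
  have h1 := hm (n + 1) M s (P (n + 1)) (Nat.succ_pos n) hn hs (hP.mono (n + 1))
  have hle : ∀ t ∈ range s, (0 : ℝ) ≤ (t : ℝ) / M ∧ (t : ℝ) / M ≤ 1 := by
    intro t ht
    rw [Finset.mem_range] at ht
    refine ⟨by positivity, ?_⟩
    rw [div_le_one hMr]
    exact_mod_cast (ht.le.trans hs)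
  have h2 : ((n : ℝ) + 1) * ∑ t ∈ range s, E ((t : ℝ) / M)
      (fun ω : Om n => Dp P ((t : ℝ) / M) ω) ≤ 2 * ∑ t ∈ range s, E ((t : ℝ) / M)
      (fun ω : Om (n + 1) => ind (¬ P (n + 1) ω) * (J (P (n + 1)) ω : ℝ)) := by
    rw [Finset.mul_sum, Finset.mul_sum]
    exact Finset.sum_le_sum fun t ht => hdeg P hP n _ (hle t ht).1 (hle t ht).2
  have h3 : E ((s : ℝ) / M) (fun ω : Om (n + 1) => ind (P (n + 1) ω)) ≤ 1 := by
    apply E_ind_le_one (by positivity)
    rw [div_le_one hMr]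
    exact_mod_cast hs
  have h4 : (1 : ℝ) / ((n + 1 : ℕ) : ℝ) ≤ 1 := by
    rw [div_le_one (by positivity)]
    push_cast
    linarith [Nat.cast_nonneg (α := ℝ) n]
  rw [le_div_iff₀ hn1]
  have h5 : (M : ℝ) * (E ((s : ℝ) / M) (fun ω : Om (n + 1) => ind (P (n + 1) ω)) +
      1 / ((n + 1 : ℕ) : ℝ)) ≤ M * 2 := mul_le_mul_of_nonneg_left (by linarith) hMr.le
  linarith

/-- the main inequality at fixed parameters -/
theorem main_est (hh : T_hyb) (hdeg : T_deg) (hdiff : T_diff) (hm : T_mpu1)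
    {P : ∀ n : ℕ, Om n → Prop} (hP : Fam P) {R : ℕ} {Λ c ε : ℝ} {D N M t0 t1 n : ℕ}
    (hR : 0 < R) (hΛ : 0 < Λ) (hc : 0 < c) (hε : 0 < ε)
    (hε2 : 8 * Real.exp (2 * (R * Λ)) * R * ε ≤ c / 4) (hD : 0 < D)
    (hD2 : (4 * Real.exp (2 * (R * Λ)) * (R * Λ) ^ 2 + 4 * (R * Λ)) / D ≤ c / 4)
    (hN1 : 1 ≤ N) (hNΛ : 2 * Λ ≤ N) (hNε : 1 ≤ ε * N)
    (hM : (R * N) ^ 5 ≤ M) (ht0 : (t0 : ℝ) ≤ ε * M / N + 1) (ht1 : (t1 : ℝ) ≤ Λ * M / N)
    (hn1 : N ≤ n) (hn2 : n < R * N)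
    (hyp : c * M ≤ (n : ℝ) ^ 2 * ∑ t ∈ range t1, (E ((t : ℝ) / M) (fun ω : Om n =>
      ind (¬ P n ω)) - E ((t : ℝ) / M) (fun ω : Om (n + 1) => ind (¬ P (n + 1) ω)))) :
    c / 2 * M ≤ Real.exp (2 * (R * Λ)) * (max 1 (R * Λ)) ^ (D + 1) *
      ∑ l ∈ range (D + 1), (n : ℝ) ^ 2 * ∑ t ∈ Ico t0 t1, E ((t : ℝ) / M)
        (fun ω : Om n => (DJ P l ω : ℝ) / (n : ℝ) ^ (l + 1)) := by
  set K : ℝ := R * Λ with hK
  set C0 : ℝ := Real.exp (2 * K) with hC0
  have hRr : (1 : ℝ) ≤ R := by exact_mod_cast hR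
  have hNr : (1 : ℝ) ≤ N := by exact_mod_cast hN1
  have hN0 : (0 : ℝ) < N := by linarith
  have hnr : (1 : ℝ) ≤ n := by exact_mod_cast (hN1.trans hn1)
  have hn0 : (0 : ℝ) < n := by linarith
  have hnRN : (n : ℝ) ≤ R * N := by exact_mod_cast hn2.le
  have hK0 : 0 < K := by rw [hK]; positivity
  have hC1 : 1 ≤ C0 := by rw [hC0]; exact Real.one_le_exp (by positivity)
  have hC0' : 0 < C0 := by linarith
  have hn5 : (n + 1) ^ 5 ≤ M := (Nat.pow_le_pow_left (by omega) 5).trans hM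
  have hM1 : 1 ≤ M := le_trans (Nat.one_le_pow _ _ (Nat.succ_pos n)) hn5
  have hMr : (1 : ℝ) ≤ M := by exact_mod_cast hM1
  have hM0 : (0 : ℝ) < M := by linarith
  have hN5 : (N : ℝ) ≤ ε * M := by
    have h1 : N ^ 5 ≤ M := (Nat.pow_le_pow_left (by nlinarith) 5).trans hM
    have h2 : (N : ℝ) ^ 5 ≤ M := by exact_mod_cast h1
    have h3 : (N : ℝ) ^ 2 ≤ (N : ℝ) ^ 5 := pow_le_pow_right₀ hNr (by norm_num)
    nlinarith
  have ht1M : (t1 : ℝ) ≤ M := by
    refine ht1.trans ?_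
    rw [div_le_iff₀ hN0]
    nlinarith
  have ht1M' : t1 ≤ M := by exact_mod_cast ht1M
  -- bounds for the times
  have hp0 : ∀ t : ℕ, (0 : ℝ) ≤ (t : ℝ) / M := fun t => by positivity
  have hpN : ∀ t : ℕ, t ≤ t1 → (t : ℝ) / M ≤ Λ / N := by
    intro t ht
    have h1 : (t : ℝ) ≤ t1 := by exact_mod_cast ht
    rw [div_le_div_iff₀ hM0 hN0]
    have h2 := h1.trans ht1
    rw [le_div_iff₀ hN0] at h2
    exact h2
  have hpn : ∀ t : ℕ, t ≤ t1 → (t : ℝ) / M * n ≤ K := by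
    intro t ht
    have h1 := hpN t ht
    calc (t : ℝ) / M * n ≤ Λ / N * n := mul_le_mul_of_nonneg_right h1 hn0.le
      _ ≤ Λ / N * (R * N) := mul_le_mul_of_nonneg_left hnRN (by positivity)
      _ = K := by
          rw [hK]
          field_simp
  have hp2 : ∀ t : ℕ, t ≤ t1 → (t : ℝ) / M ≤ 1 / 2 := by
    intro t ht
    refine (hpN t ht).trans ?_
    rw [div_le_iff₀ hN0]
    linarith
  have hp1 : ∀ t : ℕ, t ≤ t1 → (t : ℝ) / M ≤ 1 := fun t ht => (hp2 t ht).trans (by norm_num)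
  have hinv : ∀ t : ℕ, t ≤ t1 → ((1 - (t : ℝ) / M) ^ n)⁻¹ ≤ C0 := by
    intro t ht
    refine (inv_bound (hp0 t) (hp2 t ht) n).trans ?_
    rw [hC0, Real.exp_le_exp]
    linarith [hpn t ht]
  -- abbreviations
  set B : ℕ → ℝ := fun t => E ((t : ℝ) / M) (fun ω : Om n => Bp P ((t : ℝ) / M) ω) with hB
  set Dt : ℕ → ℝ := fun t => E ((t : ℝ) / M) (fun ω : Om n => Dp P ((t : ℝ) / M) ω) with hDt
  set H : ℕ → ℝ := fun t => E ((t : ℝ) / M) (fun ω : Om n => Hp P ((t : ℝ) / M) ω) with hH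
  set S : ℕ → ℝ := fun t => E ((t : ℝ) / M) (fun ω : Om n => Sp P D ((t : ℝ) / M) ω) with hS
  have hDt0 : ∀ t, t ≤ t1 → 0 ≤ Dt t := fun t ht =>
    E_nonneg (hp0 t) (hp1 t ht) fun ω => Dp_nonneg P (hp0 t) (hp1 t ht) ω
  have hB0 : ∀ t, t ≤ t1 → 0 ≤ B t := fun t ht =>
    E_nonneg (hp0 t) (hp1 t ht) fun ω => Bp_nonneg P (hp0 t) (hp1 t ht) ω
  have hH0 : ∀ t, t ≤ t1 → 0 ≤ H t := fun t ht =>
    E_nonneg (hp0 t) (hp1 t ht) fun ω => Hp_nonneg P (hp0 t) (hp1 t ht) ω
  have hDs : ∀ s, s ≤ t1 → ∑ t ∈ range s, Dt t ≤ 4 * M / ((n : ℝ) + 1) := fun s hs =>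
    DS hdeg hm hP hn5 (hs.trans ht1M')
  have hyp' : c * M ≤ (n : ℝ) ^ 2 * ∑ t ∈ range t1, B t := by
    refine hyp.trans (le_of_eq ?_)
    congr 1
    refine Finset.sum_congr rfl fun t ht => ?_
    have htt := (Finset.mem_range.1 ht).le
    exact hdiff P hP n _ (hp0 t) (hp1 t htt)
  -- (a)
  have hBD : ∀ t, t ≤ t1 → B t ≤ (t : ℝ) / M * C0 * Dt t := by
    intro t ht
    have h1 : B t ≤ (t : ℝ) / M * ((1 - (t : ℝ) / M) ^ n)⁻¹ * Dt t := by
      rw [hB, hDt]
      simp only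
      rw [← E_mul_left]
      exact E_mono (hp0 t) (hp1 t ht) fun ω =>
        a_pt hh hP (hp0 t) (lt_of_le_of_lt (hp2 t ht) (by norm_num)) ω
    refine h1.trans ?_
    apply mul_le_mul_of_nonneg_right _ (hDt0 t ht)
    exact mul_le_mul_of_nonneg_left (hinv t ht) (hp0 t)
  have hA : ∀ s, s ≤ t1 → (n : ℝ) ^ 2 * ∑ t ∈ range s, B t ≤ 4 * C0 * n * s := by
    intro s hs
    have h1 : ∑ t ∈ range s, B t ≤ (s : ℝ) / M * C0 * (4 * M / ((n : ℝ) + 1)) := by
      calc ∑ t ∈ range s, B t ≤ ∑ t ∈ range s, (s : ℝ) / M * C0 * Dt t := by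
            refine Finset.sum_le_sum fun t ht => ?_
            have htt := (Finset.mem_range.1 ht).le
            refine (hBD t (htt.trans hs)).trans ?_
            apply mul_le_mul_of_nonneg_right _ (hDt0 t (htt.trans hs))
            apply mul_le_mul_of_nonneg_right _ hC0'.le
            apply div_le_div_of_nonneg_right _ hM0.le
            exact_mod_cast htt
        _ = (s : ℝ) / M * C0 * ∑ t ∈ range s, Dt t := by rw [Finset.mul_sum]
        _ ≤ _ := mul_le_mul_of_nonneg_left (hDs s hs) (by positivity)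
    calc (n : ℝ) ^ 2 * ∑ t ∈ range s, B t ≤
        (n : ℝ) ^ 2 * ((s : ℝ) / M * C0 * (4 * M / ((n : ℝ) + 1))) :=
          mul_le_mul_of_nonneg_left h1 (by positivity)
      _ = (4 * C0 * n * s) * (n / ((n : ℝ) + 1)) := by
          field_simp
      _ ≤ (4 * C0 * n * s) * 1 := by
          apply mul_le_mul_of_nonneg_left _ (by positivity)
          rw [div_le_one (by positivity)]
          linarith
      _ = _ := mul_one _
  have hnt1 : (n : ℝ) * t1 ≤ K * M := by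
    have h1 := hpn t1 le_rfl
    rw [div_mul_eq_mul_div, div_le_iff₀ hM0] at h1
    linarith
  have hBt1 : (n : ℝ) ^ 2 * ∑ t ∈ range t1, B t ≤ 4 * C0 * K * M := by
    refine (hA t1 le_rfl).trans ?_
    nlinarith [mul_le_mul_of_nonneg_left hnt1 (show (0 : ℝ) ≤ 4 * C0 by positivity)]
  -- (b)
  have hHB : ∀ t, t ≤ t1 → H t ≤ K * B t + Λ / N * Dt t := by
    intro t ht
    have h1 : H t ≤ n * ((t : ℝ) / M) * B t + (t : ℝ) / M * Dt t := by
      rw [hH, hB, hDt]
      simp only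
      rw [← E_mul_left, ← E_mul_left, ← E_add]
      exact E_mono (hp0 t) (hp1 t ht) fun ω => b_pt (hp0 t) (hp1 t ht) ω
    refine h1.trans (add_le_add ?_ ?_)
    · apply mul_le_mul_of_nonneg_right _ (hB0 t ht)
      rw [mul_comm]
      exact hpn t ht
    · exact mul_le_mul_of_nonneg_right (hpN t ht) (hDt0 t ht)
  have hHsum : (n : ℝ) ^ 2 * ∑ t ∈ range t1, H t ≤ (4 * C0 * K ^ 2 + 4 * K) * M := by
    have h1 : ∑ t ∈ range t1, H t ≤ K * ∑ t ∈ range t1, B t + Λ / N * (4 * M / ((n : ℝ) + 1)) := by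
      calc ∑ t ∈ range t1, H t ≤ ∑ t ∈ range t1, (K * B t + Λ / N * Dt t) :=
            Finset.sum_le_sum fun t ht => hHB t (Finset.mem_range.1 ht).le
        _ = K * ∑ t ∈ range t1, B t + Λ / N * ∑ t ∈ range t1, Dt t := by
            rw [Finset.sum_add_distrib, Finset.mul_sum, Finset.mul_sum]
        _ ≤ _ := by
            apply add_le_add le_rfl
            exact mul_le_mul_of_nonneg_left (hDs t1 le_rfl) (by positivity)
    have h2 : (n : ℝ) ^ 2 * (Λ / N * (4 * M / ((n : ℝ) + 1))) ≤ 4 * K * M := by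
      have h3 : Λ / N * n ≤ K := by
        calc Λ / N * n ≤ Λ / N * (R * N) := mul_le_mul_of_nonneg_left hnRN (by positivity)
          _ = K := by
              rw [hK]
              field_simp
      calc (n : ℝ) ^ 2 * (Λ / N * (4 * M / ((n : ℝ) + 1))) =
          (Λ / N * n) * (4 * M) * (n / ((n : ℝ) + 1)) := by
            field_simp
        _ ≤ (Λ / N * n) * (4 * M) * 1 := by
            apply mul_le_mul_of_nonneg_left _ (by positivity)
            rw [div_le_one (by positivity)]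
            linarith
        _ ≤ K * (4 * M) * 1 := by
            apply mul_le_mul_of_nonneg_right _ zero_le_one
            exact mul_le_mul_of_nonneg_right h3 (by positivity)
        _ = _ := by ring
    have h4 := mul_le_mul_of_nonneg_left h1 (show (0 : ℝ) ≤ (n : ℝ) ^ 2 by positivity)
    have h5 := mul_le_mul_of_nonneg_left hBt1 hK0.le
    nlinarith
  -- the split of the stars
  have hDr : (0 : ℝ) < D := by exact_mod_cast hD
  have hBS : ∀ t, t ≤ t1 → B t ≤ S t + (D : ℝ)⁻¹ * H t := by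
    intro t ht
    rw [hB, hS, hH]
    simp only
    rw [← E_mul_left, ← E_add]
    refine E_mono (hp0 t) (hp1 t ht) fun ω => ?_
    unfold Bp Sp Hp
    rw [Finset.mul_sum, ← Finset.sum_add_distrib]
    refine Finset.sum_le_sum fun Nn _ => ?_
    have hw := wt_nonneg (hp0 t) (hp1 t ht) Nn
    have hi : ind (¬ P n ω ∧ P (n + 1) (ext ω Nn)) ≤
        ind ((¬ P n ω ∧ P (n + 1) (ext ω Nn)) ∧ Nn.card ≤ D) +
          (D : ℝ)⁻¹ * ((Nn.card : ℝ) * ind (¬ P n ω ∧ P (n + 1) (ext ω Nn))) := by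
      by_cases hcard : Nn.card ≤ D
      · have h1 : ind (¬ P n ω ∧ P (n + 1) (ext ω Nn)) ≤
            ind ((¬ P n ω ∧ P (n + 1) (ext ω Nn)) ∧ Nn.card ≤ D) := ind_mono fun h => ⟨h, hcard⟩
        have h2 : 0 ≤ (D : ℝ)⁻¹ * ((Nn.card : ℝ) * ind (¬ P n ω ∧ P (n + 1) (ext ω Nn))) :=
          mul_nonneg (by positivity) (mul_nonneg (by positivity) (ind_nonneg _))
        linarith
      · have h1 : (1 : ℝ) ≤ (D : ℝ)⁻¹ * Nn.card := by
          rw [inv_mul_eq_div, le_div_iff₀ hDr, one_mul]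
          exact_mod_cast (not_le.1 hcard).le
        have h2 := ind_nonneg ((¬ P n ω ∧ P (n + 1) (ext ω Nn)) ∧ Nn.card ≤ D)
        have h3 := mul_le_mul_of_nonneg_right h1 (ind_nonneg (¬ P n ω ∧ P (n + 1) (ext ω Nn)))
        rw [one_mul, mul_assoc] at h3
        linarith
    have := mul_le_mul_of_nonneg_left hi hw
    linarith
  -- total
  have hsplit : ∑ t ∈ range t1, B t = ∑ t ∈ range (min t0 t1), B t + ∑ t ∈ Ico t0 t1, B t := by
    rcases le_total t0 t1 with h | h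
    · rw [min_eq_left h, Finset.sum_range_add_sum_Ico _ h]
    · rw [min_eq_right h, Finset.Ico_eq_empty_of_le h, Finset.sum_empty, add_zero]
  have hfirst : (n : ℝ) ^ 2 * ∑ t ∈ range (min t0 t1), B t ≤ c / 4 * M := by
    refine (hA _ (min_le_right _ _)).trans ?_
    have h1 : ((min t0 t1 : ℕ) : ℝ) ≤ ε * M / N + 1 := by
      refine le_trans ?_ ht0
      exact_mod_cast min_le_left t0 t1
    have h2 : (n : ℝ) * ((min t0 t1 : ℕ) : ℝ) ≤ R * (2 * (ε * M)) := by
      calc (n : ℝ) * ((min t0 t1 : ℕ) : ℝ) ≤ (R * N) * (ε * M / N + 1) :=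
            mul_le_mul hnRN h1 (by positivity) (by positivity)
        _ = R * (ε * M + N) := by
            field_simp
        _ ≤ R * (2 * (ε * M)) := by
            apply mul_le_mul_of_nonneg_left _ (by positivity)
            linarith
    have h3 := mul_le_mul_of_nonneg_left h2 (show (0 : ℝ) ≤ 4 * C0 by positivity)
    have h4 := mul_le_mul_of_nonneg_right hε2 hM0.le
    nlinarith
  have hsecond : (n : ℝ) ^ 2 * ∑ t ∈ Ico t0 t1, B t ≤
      (n : ℝ) ^ 2 * ∑ t ∈ Ico t0 t1, S t + c / 4 * M := by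
    have h1 : ∑ t ∈ Ico t0 t1, B t ≤ ∑ t ∈ Ico t0 t1, S t +
        (D : ℝ)⁻¹ * ∑ t ∈ range t1, H t := by
      calc ∑ t ∈ Ico t0 t1, B t ≤ ∑ t ∈ Ico t0 t1, (S t + (D : ℝ)⁻¹ * H t) :=
            Finset.sum_le_sum fun t ht => hBS t (Finset.mem_Ico.1 ht).2.le
        _ = ∑ t ∈ Ico t0 t1, S t + (D : ℝ)⁻¹ * ∑ t ∈ Ico t0 t1, H t := by
            rw [Finset.sum_add_distrib, Finset.mul_sum]
        _ ≤ _ := by
            apply add_le_add le_rfl
            apply mul_le_mul_of_nonneg_left _ (by positivity)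
            apply Finset.sum_le_sum_of_subset_of_nonneg
            · intro t ht
              exact Finset.mem_range.2 (Finset.mem_Ico.1 ht).2
            · intro t ht _
              exact hH0 t (Finset.mem_range.1 ht).le
    have h2 := mul_le_mul_of_nonneg_left h1 (show (0 : ℝ) ≤ (n : ℝ) ^ 2 by positivity)
    have h3 := mul_le_mul_of_nonneg_left hHsum (show (0 : ℝ) ≤ (D : ℝ)⁻¹ by positivity)
    have h4 := mul_le_mul_of_nonneg_right hD2 hM0.le
    have e1 : (4 * C0 * K ^ 2 + 4 * K) / D * M = (D : ℝ)⁻¹ * ((4 * C0 * K ^ 2 + 4 * K) * M) := by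
      field_simp
    rw [e1] at h4
    have e2 : (n : ℝ) ^ 2 * ((D : ℝ)⁻¹ * ∑ t ∈ range t1, H t) =
        (D : ℝ)⁻¹ * ((n : ℝ) ^ 2 * ∑ t ∈ range t1, H t) := by ring
    rw [mul_add, e2] at h2
    linarith
  have hlow : c / 2 * M ≤ (n : ℝ) ^ 2 * ∑ t ∈ Ico t0 t1, S t := by
    rw [hsplit, mul_add] at hyp'
    linarith
  refine hlow.trans ?_
  -- (c)
  have hSt : ∀ t, t ≤ t1 → S t ≤ C0 * (max 1 K) ^ (D + 1) *
      ∑ l ∈ range (D + 1), E ((t : ℝ) / M)
        (fun ω : Om n => (DJ P l ω : ℝ) / (n : ℝ) ^ (l + 1)) := by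
    intro t ht
    rw [← E_sum, ← E_mul_left]
    refine E_mono (hp0 t) (hp1 t ht) fun ω => ?_
    refine (c_pt hh hP (hp0 t) (lt_of_le_of_lt (hp2 t ht) (by norm_num)) D ω).trans ?_
    rw [Finset.mul_sum, Finset.mul_sum]
    refine Finset.sum_le_sum fun l hl => ?_
    have hl' : l + 1 ≤ D + 1 := by
      have := Finset.mem_range.1 hl
      omega
    have h1 : ((t : ℝ) / M) ^ (l + 1) * (n : ℝ) ^ (l + 1) ≤ (max 1 K) ^ (D + 1) := by
      rw [← mul_pow]
      calc ((t : ℝ) / M * n) ^ (l + 1) ≤ (max 1 K) ^ (l + 1) :=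
            pow_le_pow_left₀ (by positivity) ((hpn t ht).trans (le_max_right _ _)) _
        _ ≤ (max 1 K) ^ (D + 1) := pow_le_pow_right₀ (le_max_left _ _) hl'
    have h2 : ((t : ℝ) / M) ^ (l + 1) ≤ (max 1 K) ^ (D + 1) / (n : ℝ) ^ (l + 1) := by
      rw [le_div_iff₀ (by positivity)]
      exact h1
    calc (t : ℝ) / M * ((1 - (t : ℝ) / M) ^ n)⁻¹ * (((t : ℝ) / M) ^ l * (DJ P l ω : ℝ)) =
        (((1 - (t : ℝ) / M) ^ n)⁻¹ * ((t : ℝ) / M) ^ (l + 1)) * (DJ P l ω : ℝ) := by ring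
      _ ≤ (C0 * ((max 1 K) ^ (D + 1) / (n : ℝ) ^ (l + 1))) * (DJ P l ω : ℝ) := by
          apply mul_le_mul_of_nonneg_right _ (Nat.cast_nonneg _)
          exact mul_le_mul (hinv t ht) h2 (by positivity) hC0'.le
      _ = _ := by ring
  calc (n : ℝ) ^ 2 * ∑ t ∈ Ico t0 t1, S t ≤ (n : ℝ) ^ 2 * ∑ t ∈ Ico t0 t1,
      (C0 * (max 1 K) ^ (D + 1) * ∑ l ∈ range (D + 1), E ((t : ℝ) / M)
        (fun ω : Om n => (DJ P l ω : ℝ) / (n : ℝ) ^ (l + 1))) := by
        apply mul_le_mul_of_nonneg_left _ (by positivity)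
        exact Finset.sum_le_sum fun t ht => hSt t (Finset.mem_Ico.1 ht).2.le
    _ = _ := by
        rw [← Finset.mul_sum, Finset.sum_comm, ← Finset.mul_sum]
        ring

end SJ

open SJ in
/-- SJ -/
theorem SJ_thm (hh : T_hyb) (hdeg : T_deg) (hdiff : T_diff) (hm : T_mpu1) : T_star := by
  intro R Λ c hR hΛ hc
  set K : ℝ := R * Λ with hK
  set C0 : ℝ := Real.exp (2 * K) with hC0
  have hRr : (1 : ℝ) ≤ R := by exact_mod_cast hR
  have hK0 : 0 < K := by rw [hK]; positivity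
  have hC0' : 0 < C0 := Real.exp_pos _
  set ε : ℝ := min (Λ / 2) (c / (32 * C0 * R)) with hε
  have hε0 : 0 < ε := lt_min (by positivity) (by positivity)
  set D : ℕ := ⌈4 * (4 * C0 * K ^ 2 + 4 * K) / c⌉₊ + 1 with hD
  set Q : ℝ := (max 1 K) ^ (D + 1) with hQ
  have hQ0 : 0 < Q := by rw [hQ]; positivity
  refine ⟨ε, c / (4 * C0 * Q * (D + 1)), D, ⌈2 * Λ⌉₊ + ⌈1 / ε⌉₊ + 1, hε0, ?_, by positivity, ?_⟩
  · exact lt_of_le_of_lt (min_le_left _ _) (by linarith)
  intro P hP N hN M hM t0 t1 ht0 ht1 n hn1 hn2 hyp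
  have hN1 : 1 ≤ N := by omega
  have hNΛ : 2 * Λ ≤ N := by
    refine (Nat.le_ceil (2 * Λ)).trans ?_
    exact_mod_cast (show ⌈2 * Λ⌉₊ ≤ N by omega)
  have hNε : 1 ≤ ε * N := by
    have h1 : 1 / ε ≤ N := by
      refine (Nat.le_ceil (1 / ε)).trans ?_
      exact_mod_cast (show ⌈1 / ε⌉₊ ≤ N by omega)
    rw [div_le_iff₀ hε0] at h1
    linarith
  have hε2 : 8 * C0 * R * ε ≤ c / 4 := by
    have h1 : ε ≤ c / (32 * C0 * R) := min_le_right _ _
    calc 8 * C0 * R * ε ≤ 8 * C0 * R * (c / (32 * C0 * R)) :=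
          mul_le_mul_of_nonneg_left h1 (by positivity)
      _ = c / 4 := by
          field_simp
          norm_num
  have hDr : (0 : ℝ) < D := by
    rw [hD]
    push_cast
    positivity
  have hD2 : (4 * C0 * K ^ 2 + 4 * K) / D ≤ c / 4 := by
    have h1 : 4 * (4 * C0 * K ^ 2 + 4 * K) / c ≤ D := by
      refine (Nat.le_ceil _).trans ?_
      rw [hD]
      push_cast
      linarith
    rw [div_le_iff₀ hc] at h1
    rw [div_le_iff₀ hDr]
    linarith
  have hM0 : (0 : ℝ) ≤ M := Nat.cast_nonneg _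
  have ht0' : (t0 : ℝ) ≤ ε * M / N + 1 := by
    rw [ht0]
    exact (Nat.ceil_lt_add_one (by positivity)).le
  have ht1' : (t1 : ℝ) ≤ Λ * M / N := by
    rw [ht1]
    exact Nat.floor_le (by positivity)
  have hmain := main_est hh hdeg hdiff hm hP hR hΛ hc hε0 hε2 (by omega) hD2 hN1 hNΛ hNε hM
    ht0' ht1' hn1 hn2 hyp
  have hMpos : (0 : ℝ) < M := by
    have : 0 < M := lt_of_lt_of_le (by positivity) hM
    exact_mod_cast this
  by_contra hcon
  push Not at hcon
  have h1 : ∑ l ∈ range (D + 1), (n : ℝ) ^ 2 * ∑ t ∈ Ico t0 t1, E ((t : ℝ) / M)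
      (fun ω : Om n => (DJ P l ω : ℝ) / (n : ℝ) ^ (l + 1)) ≤
      ∑ _l ∈ range (D + 1), c / (4 * C0 * Q * (D + 1)) * M := by
    refine Finset.sum_le_sum fun l hl => (hcon l ?_).le
    have := Finset.mem_range.1 hl
    omega
  rw [Finset.sum_const, Finset.card_range, nsmul_eq_mul] at h1
  have h2 := mul_le_mul_of_nonneg_left h1 (show (0 : ℝ) ≤ C0 * Q by positivity)
  have e : C0 * Q * (((D + 1 : ℕ) : ℝ) * (c / (4 * C0 * Q * (D + 1)) * M)) = c / 4 * M := by
    push_cast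
    field_simp
  rw [e] at h2
  have h3 := hmain.trans h2
  nlinarith

end

end Pool.Agent.H624U
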