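import Pool.Agent.H624U.Basic
import Pool.Agent.H624C.CO

/-!
# Star decomposition and the class bound
-/

set_option autoImplicit false

namespace Pool.Agent.H624U

open Finset Pool.Agent.H624C
open scoped Classical

variable {k n : ℕ}

namespace SM

/-- the pairs from `v` to `Y` -/
noncomputable def star (v : Fin n) (Y : Finset (Fin n)) : Om n := Y.image (fun z => s(v, z))

theorem star_inj (v : Fin n) : Function.Injective (fun z : Fin n => s(v, z)) := by
  intro a b h
  rcases Sym2.eq_iff.1 h with ⟨-, h⟩ | ⟨h1, h2⟩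
  · exact h
  · exact h2.trans h1

theorem mem_star {v z : Fin n} {Y : Finset (Fin n)} : s(v, z) ∈ star v Y ↔ z ∈ Y := by
  unfold star
  rw [Finset.mem_image]
  constructor
  · rintro ⟨a, ha, h⟩
    rwa [← star_inj v h]
  · exact fun h => ⟨z, h, rfl⟩

theorem card_star (v : Fin n) (Y : Finset (Fin n)) : (star v Y).card = Y.card :=
  Finset.card_image_of_injective _ (star_inj v)

theorem star_mono {v : Fin n} {Y S : Finset (Fin n)} (h : Y ⊆ S) : star v Y ⊆ star v S :=
  Finset.image_subset_image h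

theorem notMem_star {v a b : Fin n} {S : Finset (Fin n)} (ha : a ≠ v) (hb : b ≠ v) :
    s(a, b) ∉ star v S := by
  unfold star
  rw [Finset.mem_image]
  rintro ⟨z, -, h⟩
  rcases Sym2.eq_iff.1 h with ⟨h, -⟩ | ⟨h, -⟩
  · exact ha h.symm
  · exact hb h.symm

theorem inter_star {v : Fin n} {S : Finset (Fin n)} {ω : Om n} {Y : Finset (Fin n)} (hY : Y ⊆ S) :
    ω ∩ star v S = star v Y ↔ Y = S.filter (fun z => s(v, z) ∈ ω) := by
  constructor
  · intro h
    ext z
    rw [Finset.mem_filter]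
    constructor
    · intro hz
      have h1 : s(v, z) ∈ ω ∩ star v S := by rw [h]; exact mem_star.2 hz
      exact ⟨hY hz, (Finset.mem_inter.1 h1).1⟩
    · rintro ⟨h1, h2⟩
      have h3 : s(v, z) ∈ ω ∩ star v S := Finset.mem_inter.2 ⟨h2, mem_star.2 h1⟩
      rw [h] at h3
      exact mem_star.1 h3
  · intro h
    ext e
    rw [Finset.mem_inter]
    constructor
    · rintro ⟨h1, h2⟩
      obtain ⟨z, hz, rfl⟩ := Finset.mem_image.1 h2
      exact mem_star.2 (by rw [h, Finset.mem_filter]; exact ⟨hz, h1⟩)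
    · intro h1
      obtain ⟨z, hz, rfl⟩ := Finset.mem_image.1 h1
      have h2 := hz
      rw [h, Finset.mem_filter] at h2
      exact ⟨h2.2, mem_star.2 h2.1⟩

theorem sum_ind (v : Fin n) (S : Finset (Fin n)) (ω : Om n) :
    ∑ Y ∈ S.powerset, ind (ω ∩ star v S = star v Y) = 1 := by
  rw [Finset.sum_eq_single (S.filter (fun z => s(v, z) ∈ ω))]
  · exact ind_true ((inter_star (Finset.filter_subset _ _)).2 rfl)
  · intro Y hY hne
    exact ind_false fun h => hne ((inter_star (Finset.mem_powerset.1 hY)).1 h)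
  · intro h
    exact absurd (Finset.mem_powerset.2 (Finset.filter_subset _ _)) h

section

variable {v : Fin n} {S K Y : Finset (Fin n)} {R : Set (KCol k n)} {ω : Om n}

theorem adj_iff (hY : Y ⊆ S) (h : ω ∩ star v S = star v Y) {z : Fin n} (hz : z ∈ S) :
    s(v, z) ∈ ω ↔ z ∈ Y := by
  rw [(inter_star hY).1 h, Finset.mem_filter]
  exact ⟨fun h => ⟨hz, h⟩, fun h => h.2⟩

theorem sol_insert (hv : v ∉ S) (hY : Y ⊆ S) (h : ω ∩ star v S = star v Y) {σ : KCol k n}
    (hσ : σ ∈ KSol R (insert v S) ω) : σ ∈ KSol R S ω ∧ ∀ y ∈ Y, σ y ≠ σ v := by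
  refine ⟨KSol_mono (Finset.subset_insert _ _) hσ, fun y hy h1 => ?_⟩
  have hyS := hY hy
  exact hσ.1 v (Finset.mem_insert_self _ _) y (Finset.mem_insert_of_mem hyS)
    (fun h2 => hv (by rw [h2]; exact hyS)) ((adj_iff hY h hyS).2 hy) h1.symm

theorem sol_update (hv : v ∉ S) (hK : K ⊆ S) (hR : KDep K R) (hY : Y ⊆ S)
    (h : ω ∩ star v S = star v Y) {σ : KCol k n} {s : Fin k} (hσ : σ ∈ KSol R S ω)
    (hs : ∀ y ∈ Y, σ y ≠ s) : Function.update σ v s ∈ KSol R (insert v S) ω := by
  have hne : ∀ a ∈ S, a ≠ v := fun a ha h1 => hv (by rw [← h1]; exact ha)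
  refine ⟨?_, ?_⟩
  · intro a ha b hb hab hm
    rcases Finset.mem_insert.1 ha with ea | ha'
    · rcases Finset.mem_insert.1 hb with eb | hb'
      · exact absurd (ea.trans eb.symm) hab
      · rw [ea, Function.update_self, Function.update_of_ne (hne b hb')]
        rw [ea] at hm
        exact fun h1 => hs b ((adj_iff hY h hb').1 hm) h1.symm
    · rcases Finset.mem_insert.1 hb with eb | hb'
      · rw [eb, Function.update_self, Function.update_of_ne (hne a ha')]
        rw [eb, Sym2.eq_swap] at hm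
        exact hs a ((adj_iff hY h ha').1 hm)
      · rw [Function.update_of_ne (hne a ha'), Function.update_of_ne (hne b hb')]
        exact hσ.1 a ha' b hb' hab hm
  · refine (hR _ _ fun a ha => ?_).1 hσ.2
    rw [Function.update_of_ne (hne a (hK ha))]

theorem alive_iff (hv : v ∉ S) (hK : K ⊆ S) (hR : KDep K R) (hY : Y ⊆ S)
    (h : ω ∩ star v S = star v Y) : KAlive R (insert v S) ω ↔ KAlive (KRY R Y) S ω := by
  constructor
  · rintro ⟨σ, hσ⟩
    obtain ⟨h1, h2⟩ := sol_insert hv hY h hσ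
    exact ⟨σ, h1.1, h1.2, σ v, h2⟩
  · rintro ⟨σ, h1, h2, s, hs⟩
    exact ⟨_, sol_update hv hK hR hY h ⟨h1, h2⟩ hs⟩

theorem same_iff (hv : v ∉ S) (hK : K ⊆ S) (hR : KDep K R) (hY : Y ⊆ S)
    (h : ω ∩ star v S = star v Y) {z : Fin n} (hz : z ∈ S) :
    KSame R (insert v S) ω v z ↔ KCov R S ω (insert z Y) := by
  have hzv : z ≠ v := fun h1 => hv (by rw [← h1]; exact hz)
  constructor
  · intro hS σ hσ s
    by_contra hc
    push Not at hc
    have h1 := hS _ (sol_update hv hK hR hY h hσ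
      (fun y hy => hc y (Finset.mem_insert_of_mem hy)))
    rw [Function.update_self, Function.update_of_ne hzv] at h1
    exact hc z (Finset.mem_insert_self _ _) h1.symm
  · intro hC σ hσ
    obtain ⟨h1, h2⟩ := sol_insert hv hY h hσ
    obtain ⟨y, hy, hys⟩ := hC σ h1 (σ v)
    rcases Finset.mem_insert.1 hy with rfl | hy
    · exact hys.symm
    · exact absurd hys (h2 y hy)

theorem degX_eq (hv : v ∉ S) (hK : K ⊆ S) (hR : KDep K R) (hY : Y ⊆ S)
    (h : ω ∩ star v S = star v Y) : KdegX R (insert v S) ω v = Kcs R S ω Y := by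
  unfold KdegX Kcs
  congr 1
  ext z
  rw [Finset.mem_filter, Finset.mem_filter, Finset.mem_insert]
  constructor
  · rintro ⟨h1, h2, h3⟩
    have hz : z ∈ S := h1.resolve_left h2
    exact ⟨hz, (same_iff hv hK hR hY h hz).1 h3⟩
  · rintro ⟨h1, h2⟩
    exact ⟨Or.inr h1, fun h3 => hv (by rw [← h3]; exact h1), (same_iff hv hK hR hY h h1).2 h2⟩

end

end SM

open SM in
theorem T_small_thm : T_small := by
  intro k n p S K v R hv hK hR
  have hc : S_cond := S_cond_thm
  have h1 : ∀ Y ∈ S.powerset, p ^ Y.card * (1 - p) ^ (S.card - Y.card) * KG p R S Y =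
      E p (fun ω => ind (ω ∩ star v S = star v Y) *
        (ind (KAlive R (insert v S) ω) * (KdegX R (insert v S) ω v : ℝ))) := by
    intro Y hY
    have hY' := Finset.mem_powerset.1 hY
    have h2 := hc n p (star v S) (star v Y)
      (fun ω => ind (KAlive (KRY R Y) S ω) * (Kcs R S ω Y : ℝ)) (star_mono hY') (by
        intro ω
        have h3 : ∀ R' : Set (KCol k n), KSol R' S (ω \ star v S) = KSol R' S ω := fun R' =>
          KSol_sdiff R' fun a ha b hb => notMem_star (fun h4 => hv (by rw [← h4]; exact ha))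
            (fun h4 => hv (by rw [← h4]; exact hb))
        show ind (KAlive (KRY R Y) S ω) * (Kcs R S ω Y : ℝ) =
          ind (KAlive (KRY R Y) S (ω \ star v S)) * (Kcs R S (ω \ star v S) Y : ℝ)
        rw [Kcs_of_sol (h3 R) Y, ind_congr (KAlive_of_sol (h3 (KRY R Y)))])
    rw [card_star, card_star] at h2
    unfold KG
    rw [← h2]
    apply E_congr
    intro ω
    by_cases h4 : ω ∩ star v S = star v Y
    · rw [ind_congr (alive_iff hv hK hR hY' h4), degX_eq hv hK hR hY' h4]
    · rw [ind_false h4, zero_mul, zero_mul]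
  rw [Finset.sum_congr rfl h1, ← E_sum]
  apply E_congr
  intro ω
  rw [← Finset.sum_mul, sum_ind, one_mul]

theorem T_large_thm : T_large := by
  intro k n S Y R ω _
  set C := S.filter (fun z => KCov R S ω (insert z Y)) with hC
  have h1 : ∀ z ∈ C, ∀ z' ∈ C, KSame (KRY R Y) S ω z z' := by
    intro z hz z' hz' σ hσ
    obtain ⟨h2, h3, s, hs⟩ := hσ
    have key : ∀ z ∈ C, σ z = s := by
      intro z hz
      obtain ⟨y, hy, hys⟩ := (Finset.mem_filter.1 hz).2 σ ⟨h2, h3⟩ s
      rcases Finset.mem_insert.1 hy with rfl | hy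
      · exact hys
      · exact absurd hys (hs y hy)
    rw [key z hz, key z' hz']
  have h2 : C.offDiag.card ≤ KX (KRY R Y) S ω := by
    unfold KX
    refine Finset.card_le_card fun q hq => ?_
    rw [Finset.mem_offDiag] at hq
    rw [Finset.mem_filter, Finset.mem_product]
    exact ⟨⟨(Finset.mem_filter.1 hq.1).1, (Finset.mem_filter.1 hq.2.1).1⟩, hq.2.2,
      h1 _ hq.1 _ hq.2.1⟩
  rw [Finset.offDiag_card] at h2
  have h3 : Kcs R S ω Y = C.card := rfl
  rw [h3]
  rcases Nat.eq_zero_or_pos C.card with h4 | h4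
  · rw [h4]
    have := Real.sqrt_nonneg (KX (KRY R Y) S ω : ℝ)
    push_cast
    linarith
  · have h5 : ((C.card : ℝ) - 1) ^ 2 ≤ (KX (KRY R Y) S ω : ℝ) := by
      have h6 : ((C.card * C.card - C.card : ℕ) : ℝ) ≤ (KX (KRY R Y) S ω : ℝ) := by
        exact_mod_cast h2
      rw [Nat.cast_sub (Nat.le_mul_of_pos_left _ h4)] at h6
      push_cast at h6
      have h7 : (1 : ℝ) ≤ C.card := by exact_mod_cast h4
      nlinarith
    have h6 := Real.le_sqrt_of_sq_le h5
    linarith

/-- T_small and T_large -/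
theorem SM_thm : T_small ∧ T_large := ⟨T_small_thm, T_large_thm⟩

end Pool.Agent.H624U
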