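import Pool.Agent.H624U.Basic
import Pool.Agent.H624C.CO

/-!
# Moments of the number of triangles (task TI)
-/

set_option autoImplicit false

namespace Pool.Agent.H624U

open Finset Pool.Agent.H624C
open scoped Classical

namespace TI

variable {n : ℕ}

/-- the edges of a triple -/
noncomputable def ed (q : Fin n × Fin n × Fin n) : Om n :=
  {s(q.1, q.2.1), s(q.2.1, q.2.2), s(q.1, q.2.2)}

/-- the entries are distinct -/
def Dis (q : Fin n × Fin n × Fin n) : Prop := q.1 ≠ q.2.1 ∧ q.2.1 ≠ q.2.2 ∧ q.1 ≠ q.2.2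

theorem tri_eq (ω : Om n) : (tri ω : ℝ) =
    ∑ q ∈ (univ : Finset (Fin n × Fin n × Fin n)).filter Dis, ind (ed q ⊆ ω) := by
  unfold tri
  rw [card_filter, Nat.cast_sum, sum_filter]
  refine sum_congr rfl fun q _ => ?_
  have hed : ed q ⊆ ω ↔ s(q.1, q.2.1) ∈ ω ∧ s(q.2.1, q.2.2) ∈ ω ∧ s(q.1, q.2.2) ∈ ω := by
    unfold ed
    rw [insert_subset_iff, insert_subset_iff, singleton_subset_iff]
  by_cases hq : Dis q
  · rw [if_pos hq]
    obtain ⟨h1, h2, h3⟩ := hq
    by_cases h : ed q ⊆ ω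
    · rw [ind_true h, if_pos ⟨h1, h2, h3, hed.1 h⟩, Nat.cast_one]
    · rw [ind_false h, if_neg (fun h' => h (hed.2 h'.2.2.2)), Nat.cast_zero]
  · rw [if_neg hq, if_neg (fun h => hq ⟨h.1, h.2.1, h.2.2.1⟩), Nat.cast_zero]

/-- `0` for the elements of `S`, `1` otherwise -/
noncomputable def nv (S : Finset (Fin n)) (a : Fin n) : ℕ := if a ∈ S then 0 else 1

theorem card_ge (S : Finset (Fin n)) (W : Om n) (hW : ∀ e ∈ W, ∀ v ∈ e, v ∈ S)
    (q : Fin n × Fin n × Fin n) (hq : Dis q) :
    W.card + (nv S q.1 + nv S q.2.1 + nv S q.2.2) ≤ (W ∪ ed q).card := by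
  obtain ⟨a, b, c⟩ := q
  obtain ⟨hab, hbc, hac⟩ := hq
  simp only at hab hbc hac ⊢
  set vt : Fin 3 → Fin n := ![a, b, c] with hvt
  set eg : Fin 3 → Sym2 (Fin n) := ![s(a, b), s(b, c), s(a, c)] with heg
  have g1 : s(a, b) ≠ s(b, c) := by
    intro h
    rcases Sym2.eq_iff.1 h with ⟨h1, _⟩ | ⟨h1, _⟩
    · exact hab h1
    · exact hac h1
  have g2 : s(a, b) ≠ s(a, c) := by
    intro h
    rcases Sym2.eq_iff.1 h with ⟨_, h1⟩ | ⟨h1, _⟩
    · exact hbc h1
    · exact hac h1
  have g3 : s(b, c) ≠ s(a, c) := by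
    intro h
    rcases Sym2.eq_iff.1 h with ⟨h1, _⟩ | ⟨h1, _⟩
    · exact hab h1.symm
    · exact hbc h1
  have hinj : Function.Injective eg := by
    intro i j hij
    fin_cases i <;> fin_cases j
    · rfl
    · exact absurd hij g1
    · exact absurd hij g2
    · exact absurd hij.symm g1
    · rfl
    · exact absurd hij g3
    · exact absurd hij.symm g2
    · exact absurd hij.symm g3
    · rfl
  have hmem : ∀ i, vt i ∈ eg i := by
    intro i
    fin_cases i <;> simp [hvt, heg]
  have hed : ∀ i, eg i ∈ ed (a, b, c) := by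
    intro i
    fin_cases i <;> simp [heg, ed]
  set F : Om n := (univ.filter fun i => vt i ∉ S).image eg with hF
  have hFc : F.card = nv S a + nv S b + nv S c := by
    rw [hF, card_image_of_injective _ hinj, card_filter, Fin.sum_univ_three]
    simp only [hvt, nv, Matrix.cons_val_zero, Matrix.cons_val_one, Matrix.cons_val_two]
    by_cases h1 : a ∈ S <;> by_cases h2 : b ∈ S <;> by_cases h3 : c ∈ S <;> simp [h1, h2, h3]
  have hd : Disjoint W F := by
    rw [disjoint_left]
    intro e he hf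
    rw [hF, mem_image] at hf
    obtain ⟨i, hi, rfl⟩ := hf
    rw [mem_filter] at hi
    exact hi.2 (hW _ he _ (hmem i))
  rw [← hFc, ← card_union_of_disjoint hd]
  refine card_le_card (union_subset_union (Subset.refl _) ?_)
  intro e he
  rw [hF, mem_image] at he
  obtain ⟨i, _, rfl⟩ := he
  exact hed i

theorem sum_nv (S : Finset (Fin n)) (s : ℕ) (hS : S.card ≤ s) (p Λ : ℝ) (h0 : 0 ≤ p)
    (hp : p * n ≤ Λ) : ∑ a : Fin n, p ^ nv S a ≤ s + Λ := by
  have h1 : ∀ a : Fin n, p ^ nv S a ≤ (if a ∈ S then 1 else 0) + p := by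
    intro a
    unfold nv
    by_cases h : a ∈ S
    · simp [h, h0]
    · simp [h]
  refine (sum_le_sum fun a _ => h1 a).trans ?_
  rw [sum_add_distrib, sum_ite_mem, univ_inter, sum_const, sum_const, card_univ, Fintype.card_fin]
  simp only [nsmul_eq_mul, mul_one]
  have h2 : (S.card : ℝ) ≤ s := by exact_mod_cast hS
  linarith

theorem sum_trip (S : Finset (Fin n)) (s : ℕ) (hS : S.card ≤ s) (p Λ : ℝ) (h0 : 0 ≤ p)
    (h1 : p ≤ 1) (hp : p * n ≤ Λ) (W : Om n) (hW : ∀ e ∈ W, ∀ v ∈ e, v ∈ S) :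
    ∑ q ∈ (univ : Finset (Fin n × Fin n × Fin n)).filter Dis, p ^ (W ∪ ed q).card ≤
      p ^ W.card * (s + Λ) ^ 3 := by
  calc ∑ q ∈ (univ : Finset (Fin n × Fin n × Fin n)).filter Dis, p ^ (W ∪ ed q).card
      ≤ ∑ q ∈ (univ : Finset (Fin n × Fin n × Fin n)).filter Dis,
        p ^ W.card * (p ^ nv S q.1 * (p ^ nv S q.2.1 * p ^ nv S q.2.2)) := by
        refine sum_le_sum fun q hq => ?_
        rw [mem_filter] at hq
        have h3 := pow_le_pow_of_le_one h0 h1 (card_ge S W hW q hq.2)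
        refine h3.trans (le_of_eq ?_)
        rw [pow_add, pow_add, pow_add]
        ring
    _ ≤ ∑ q : Fin n × Fin n × Fin n,
        p ^ W.card * (p ^ nv S q.1 * (p ^ nv S q.2.1 * p ^ nv S q.2.2)) :=
        sum_le_sum_of_subset_of_nonneg (filter_subset _ _) fun q _ _ => by positivity
    _ = p ^ W.card * ((∑ a : Fin n, p ^ nv S a) * ((∑ a : Fin n, p ^ nv S a) *
        ∑ a : Fin n, p ^ nv S a)) := by
        rw [← mul_sum, Fintype.sum_prod_type]
        congr 1
        rw [sum_mul]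
        refine sum_congr rfl fun a _ => ?_
        simp only
        rw [← mul_sum, Fintype.sum_prod_type, sum_mul]
        congr 1
        refine sum_congr rfl fun b _ => ?_
        simp only
        rw [← mul_sum]
    _ ≤ p ^ W.card * (s + Λ) ^ 3 := by
        have h4 := sum_nv S s hS p Λ h0 hp
        have h5 : 0 ≤ ∑ a : Fin n, p ^ nv S a := sum_nonneg fun a _ => by positivity
        have h6 : (∑ a : Fin n, p ^ nv S a) * ((∑ a : Fin n, p ^ nv S a) *
          ∑ a : Fin n, p ^ nv S a) = (∑ a : Fin n, p ^ nv S a) ^ 3 := by ring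
        rw [h6]
        gcongr

theorem key (Λ : ℝ) (hΛ : 0 < Λ) (m : ℕ) : ∀ s : ℕ, ∃ C : ℝ, 0 < C ∧ ∀ (n : ℕ) (p : ℝ), 0 ≤ p →
    p ≤ 1 → p * n ≤ Λ → ∀ (S : Finset (Fin n)) (W : Om n), S.card ≤ s →
    (∀ e ∈ W, ∀ v ∈ e, v ∈ S) →
    E p (fun ω : Om n => ind (W ⊆ ω) * (tri ω : ℝ) ^ m) ≤ C * p ^ W.card := by
  induction m with
  | zero =>
    intro s
    refine ⟨1, one_pos, ?_⟩
    intro n p h0 h1 hp S W hS hW
    have h := S_incl_thm n p W (fun _ => 1) (fun _ => rfl)
    simp only [pow_zero]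
    rw [h, E_one]
    linarith
  | succ m ih =>
    intro s
    obtain ⟨C, hC, hC'⟩ := ih (s + 3)
    refine ⟨C * (s + Λ) ^ 3, by positivity, ?_⟩
    intro n p h0 h1 hp S W hS hW
    have e1 : ∀ ω : Om n, ind (W ⊆ ω) * (tri ω : ℝ) ^ (m + 1) =
        ∑ q ∈ (univ : Finset (Fin n × Fin n × Fin n)).filter Dis,
          ind (W ∪ ed q ⊆ ω) * (tri ω : ℝ) ^ m := by
      intro ω
      rw [pow_succ]
      nth_rewrite 2 [tri_eq]
      rw [mul_sum, mul_sum]
      refine sum_congr rfl fun q _ => ?_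
      rw [ind_congr (union_subset_iff (s := W) (t := ed q) (u := ω)), ind_and]
      ring
    rw [E_congr e1, E_sum]
    calc ∑ q ∈ (univ : Finset (Fin n × Fin n × Fin n)).filter Dis,
          E p (fun ω => ind (W ∪ ed q ⊆ ω) * (tri ω : ℝ) ^ m)
        ≤ ∑ q ∈ (univ : Finset (Fin n × Fin n × Fin n)).filter Dis,
          C * p ^ (W ∪ ed q).card := by
          refine sum_le_sum fun q _ => ?_
          refine hC' n p h0 h1 hp (S ∪ {q.1, q.2.1, q.2.2}) (W ∪ ed q) ?_ ?_
          · refine (card_union_le _ _).trans ?_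
            have := card_le_three (a := q.1) (b := q.2.1) (c := q.2.2)
            omega
          · intro e he v hv
            rw [mem_union] at he
            rcases he with he | he
            · exact mem_union_left _ (hW e he v hv)
            · apply mem_union_right
              unfold ed at he
              simp only [mem_insert, mem_singleton] at he ⊢
              rcases he with rfl | rfl | rfl <;> rw [Sym2.mem_iff] at hv <;> tauto
      _ = C * ∑ q ∈ (univ : Finset (Fin n × Fin n × Fin n)).filter Dis,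
          p ^ (W ∪ ed q).card := by rw [mul_sum]
      _ ≤ C * (p ^ W.card * (s + Λ) ^ 3) := by
          gcongr
          exact sum_trip S s hS p Λ h0 h1 hp W hW
      _ = C * (s + Λ) ^ 3 * p ^ W.card := by ring

end TI

/-- W6: moments of the number of triangles -/
theorem TI_thm : T_tri := by
  intro Λ m hΛ
  obtain ⟨C, hC, hC'⟩ := TI.key Λ hΛ m 0
  refine ⟨C, hC, ?_⟩
  intro n p h0 h1 hp
  have h := hC' n p h0 h1 hp ∅ ∅ (by simp) (by simp)
  rw [card_empty, pow_zero, mul_one, E_congr (g := fun ω : Om n => (tri ω : ℝ) ^ m)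
    (fun ω => by rw [ind_true (empty_subset ω), one_mul])] at h
  exact h

end Pool.Agent.H624U
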