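import Pool.Agent.H624U.Basic

/-!
# Frozen classes from a uniquely colourable subgraph
-/

set_option autoImplicit false

namespace Pool.Agent.H624U

open Finset Pool.Agent.H624C
open scoped Classical

namespace UCx

theorem ecount_mono {n : ℕ} (S : Finset (Fin n)) {η ω : Om n} (h : η ⊆ ω) :
    ecount S η ≤ ecount S ω := by
  unfold ecount
  exact Finset.card_le_card (Finset.filter_subset_filter _ h)

theorem proper_of_sol {k n : ℕ} {ω η : Om n} {S : Finset (Fin n)} (h : η ⊆ ω) {σ : KCol k n}
    (hσ : σ ∈ KSol (Set.univ : Set (KCol k n)) Finset.univ ω) : KProper η S σ := by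
  intro a _ b _ hab hm
  exact hσ.1 a (mem_univ _) b (mem_univ _) hab (h hm)

/-- every vertex of a class with two vertices has a neighbour in each other class -/
theorem nbr {k n : ℕ} {S : Finset (Fin n)} {η : Om n} (hU : UC k S η) {σ0 : KCol k n}
    (h0 : KProper η S σ0) {i j : Fin k} (hij : j ≠ i)
    (hc : 1 < (S.filter (fun v => σ0 v = i)).card) :
    ∀ v, v ∈ S.filter (fun v => σ0 v = i) →
      ∃ u ∈ S.filter (fun v => σ0 v = j), s(v, u) ∈ η := by
  intro v hv
  by_contra hno
  push Not at hno
  obtain ⟨hvS, hvi⟩ := Finset.mem_filter.1 hv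
  have hτ : KProper η S (Function.update σ0 v j) := by
    intro a ha b hb hab hm
    by_cases hav : a = v
    · subst hav
      rw [Function.update_self, Function.update_of_ne (Ne.symm hab)]
      intro hjb
      exact hno b (Finset.mem_filter.2 ⟨hb, hjb.symm⟩) hm
    · by_cases hbv : b = v
      · subst hbv
        rw [Function.update_self, Function.update_of_ne hab]
        intro hja
        exact hno a (Finset.mem_filter.2 ⟨ha, hja⟩) (by rw [Sym2.eq_swap]; exact hm)
      · rw [Function.update_of_ne hav, Function.update_of_ne hbv]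
        exact h0 a ha b hb hab hm
  obtain ⟨π, hπ⟩ := hU.2.2 σ0 _ h0 hτ
  obtain ⟨w, hw, hwv⟩ := Finset.exists_mem_ne hc v
  obtain ⟨hwS, hwi⟩ := Finset.mem_filter.1 hw
  have e1 := hπ w hwS
  rw [Function.update_of_ne hwv, hwi] at e1
  have e2 := hπ v hvS
  rw [Function.update_self, hvi, ← e1] at e2
  exact hij e2

end UCx

/-- C2: frozen classes -/
theorem UC_thm (h1 : T_uce) : T_ucc := by
  intro k m0 d m1 n ω hk hT hA hU hSL
  obtain ⟨S, η, hηω, hUC, hS3⟩ := hU
  obtain ⟨h4, h5⟩ := h1 k n S η hk hUC hS3
  obtain ⟨hT1, hT2, hT3⟩ := hT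
  have hec := UCx.ecount_mono S hηω
  have hSm : m0 < S.card := by
    by_contra hle
    exact hSL (Or.inl ⟨S, h4, not_lt.1 hle, by omega⟩)
  obtain ⟨σ0, hσ0⟩ := hA
  have hp0 : KProper η S σ0 := UCx.proper_of_sol hηω hσ0
  have hsum : S.card = ∑ i : Fin k, (S.filter (fun v => σ0 v = i)).card :=
    Finset.card_eq_sum_card_fiberwise (fun v _ => Finset.mem_coe.2 (mem_univ (σ0 v)))
  obtain ⟨i0, hi0⟩ : ∃ i0 : Fin k, m1 < (S.filter (fun v => σ0 v = i0)).card := by
    by_contra hno
    push Not at hno
    have hle : ∑ i : Fin k, (S.filter (fun v => σ0 v = i)).card ≤ ∑ _i : Fin k, m1 :=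
      Finset.sum_le_sum (fun i _ => hno i)
    rw [Finset.sum_const, Finset.card_univ, Fintype.card_fin, smul_eq_mul] at hle
    omega
  refine ⟨fun i => S.filter (fun v => σ0 v = i), ?_, ?_, ?_⟩
  · intro j
    by_cases hj : j = i0
    · subst hj
      exact lt_of_le_of_lt hT2 hi0
    · by_contra hlt
      have hle : (S.filter (fun v => σ0 v = j)).card ≤ d := not_lt.1 hlt
      have hc : 1 < (S.filter (fun v => σ0 v = i0)).card := by omega
      have hN := UCx.nbr hUC hp0 hj hc
      choose! u hu hue using hN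
      apply hSL
      right
      refine ⟨_, hle, le_trans hi0.le ?_⟩
      unfold einc
      apply Finset.card_le_card_of_injOn (fun v => s(v, u v))
      · intro v hv
        have hv' := Finset.mem_coe.1 hv
        have h1 := hu v hv'
        have h2 := hue v hv'
        have h3 := (Finset.mem_filter.1 h1).2
        have h4' := (Finset.mem_filter.1 hv').2
        rw [Finset.mem_coe, Finset.mem_filter]
        refine ⟨hηω h2, ?_, u v, ?_, h1⟩
        · rw [Sym2.mk_isDiag_iff]
          intro hvu
          rw [← hvu, h4'] at h3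
          exact hj h3.symm
        · exact Sym2.mem_mk_right _ _
      · intro v hv w hw hvw
        have hv' := Finset.mem_coe.1 hv
        have hw' := Finset.mem_coe.1 hw
        rcases Sym2.eq_iff.1 hvw with h | h
        · exact h.1
        · exfalso
          have h3 := (Finset.mem_filter.1 (hu w hw')).2
          rw [← h.1, (Finset.mem_filter.1 hv').2] at h3
          exact hj h3.symm
  · intro i j hij
    rw [Finset.disjoint_left]
    intro v hv hv'
    exact hij ((Finset.mem_filter.1 hv).2.symm.trans (Finset.mem_filter.1 hv').2)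
  · intro σ hσ
    obtain ⟨π, hπ⟩ := hUC.2.2 σ0 σ hp0 (UCx.proper_of_sol hηω hσ)
    refine ⟨π, fun i v hv => ?_⟩
    obtain ⟨hvS, hvi⟩ := Finset.mem_filter.1 hv
    rw [hπ v hvS, hvi]

end Pool.Agent.H624U
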