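import Pool.Agent.H624U.Basic

/-! Task UE of helper624 (helper155): uniquely colourable graphs are dense. -/

set_option autoImplicit false

namespace Pool.Agent.H624U

open Finset Pool.Agent.H624C
open scoped Classical

namespace UE

variable {k n : ℕ}

/-- the bipartite graph between two classes -/
def H (S : Finset (Fin n)) (η : Om n) (σ : KCol k n) (i j : Fin k) :
    SimpleGraph {v : Fin n // v ∈ S ∧ (σ v = i ∨ σ v = j)} where
  Adj a b := a ≠ b ∧ s(a.1, b.1) ∈ η
  symm := ⟨fun a b h => ⟨h.1.symm, by rw [Sym2.eq_swap]; exact h.2⟩⟩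
  loopless := ⟨fun a h => h.1 rfl⟩

lemma conn {S : Finset (Fin n)} {η : Om n} (hU : UC k S η) {σ : KCol k n}
    (hσ : KProper η S σ) {i j : Fin k} (hij : i ≠ j) : (H S η σ i j).Connected := by
  have hne : Nonempty {v : Fin n // v ∈ S ∧ (σ v = i ∨ σ v = j)} := by
    obtain ⟨v, hv, hvi⟩ := hU.2.1 σ hσ i
    exact ⟨⟨v, hv, Or.inl hvi⟩⟩
  refine ⟨?_⟩
  intro x y
  by_contra hxy
  set C : Set (Fin n) := {v | ∃ hv : v ∈ S ∧ (σ v = i ∨ σ v = j),
    (H S η σ i j).Reachable x ⟨v, hv⟩} with hC
  set τ : KCol k n := fun v => if v ∈ C then Equiv.swap i j (σ v) else σ v with hτ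
  have hin : ∀ v ∈ C, σ v = i ∨ σ v = j := by
    rintro v ⟨hv, -⟩
    exact hv.2
  have hτin : ∀ v ∈ C, τ v = i ∨ τ v = j := by
    intro v hv
    rw [hτ]
    simp only [hv, if_true]
    rcases hin v hv with h | h
    · rw [h, Equiv.swap_apply_left]; exact Or.inr rfl
    · rw [h, Equiv.swap_apply_right]; exact Or.inl rfl
  have key : ∀ a ∈ S, ∀ b ∈ S, a ≠ b → s(a, b) ∈ η → a ∈ C → b ∉ C → τ a ≠ τ b := by
    intro a ha b hb hab hm haC hbC
    have h1 := hτin a haC
    have h2 : τ b = σ b := by rw [hτ]; simp only [hbC, if_false]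
    rw [h2]
    intro h3
    apply hbC
    rw [h3] at h1
    refine ⟨⟨hb, h1⟩, ?_⟩
    obtain ⟨hv, hr⟩ := haC
    refine hr.trans (SimpleGraph.Adj.reachable ?_)
    refine ⟨?_, hm⟩
    intro h
    exact hab (congrArg Subtype.val h)
  have hτp : KProper η S τ := by
    intro a ha b hb hab hm
    by_cases haC : a ∈ C
    · by_cases hbC : b ∈ C
      · intro h
        rw [hτ] at h
        simp only [haC, hbC, if_true] at h
        exact hσ a ha b hb hab hm ((Equiv.swap i j).injective h)
      · exact key a ha b hb hab hm haC hbC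
    · by_cases hbC : b ∈ C
      · exact (key b hb a ha hab.symm (by rw [Sym2.eq_swap]; exact hm) hbC haC).symm
      · intro h
        rw [hτ] at h
        simp only [haC, hbC, if_false] at h
        exact hσ a ha b hb hab hm h
  obtain ⟨π, hπ⟩ := hU.2.2 σ τ hσ hτp
  have hxC : x.1 ∈ C := ⟨x.2, SimpleGraph.Reachable.refl _⟩
  have hyC : y.1 ∉ C := by
    rintro ⟨hv, hr⟩
    exact hxy hr
  have h1 := hπ x.1 x.2.1
  have h2 := hπ y.1 y.2.1
  rw [hτ] at h1 h2
  simp only [hxC, hyC, if_true, if_false] at h1 h2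
  by_cases hs : σ x.1 = σ y.1
  · rw [← hs, ← h1] at h2
    rcases x.2.2 with h | h
    · rw [h, Equiv.swap_apply_left] at h2
      exact hij h2
    · rw [h, Equiv.swap_apply_right] at h2
      exact hij h2.symm
  · have h3 : Equiv.swap i j (σ x.1) = σ y.1 := by
      rcases x.2.2 with h | h <;> rcases y.2.2 with h' | h'
      · exact absurd (h.trans h'.symm) hs
      · rw [h, h', Equiv.swap_apply_left]
      · rw [h, h', Equiv.swap_apply_right]
      · exact absurd (h.trans h'.symm) hs
    rw [h3] at h1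
    exact hs (π.injective (h1.symm.trans h2))

/-- ordered edges between the classes `i` and `j` -/
def O (S : Finset (Fin n)) (η : Om n) (σ : KCol k n) (i j : Fin k) : Finset (Fin n × Fin n) :=
  (S ×ˢ S).filter fun q => σ q.1 = i ∧ σ q.2 = j ∧ s(q.1, q.2) ∈ η

lemma card_O {S : Finset (Fin n)} {η : Om n} (hU : UC k S η) {σ : KCol k n}
    (hσ : KProper η S σ) {i j : Fin k} (hij : i ≠ j) :
    (S.filter fun v => σ v = i).card + (S.filter fun v => σ v = j).card ≤
      (O S η σ i j).card + 1 := by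
  have h1 := (conn hU hσ hij).card_vert_le_card_edgeSet_add_one
  have h2 : Nat.card {v : Fin n // v ∈ S ∧ (σ v = i ∨ σ v = j)} =
      (S.filter fun v => σ v = i).card + (S.filter fun v => σ v = j).card := by
    rw [Nat.card_eq_fintype_card, Fintype.card_subtype]
    rw [← Finset.card_union_of_disjoint]
    · congr 1
      ext v
      simp only [mem_filter, mem_univ, true_and, mem_union]
      tauto
    · rw [Finset.disjoint_left]
      intro v hv hv'
      simp only [mem_filter] at hv hv'
      exact hij (hv.2.symm.trans hv'.2)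
  have h3 : Nat.card (H S η σ i j).edgeSet ≤ (O S η σ i j).card := by
    have : (O S η σ i j).card = Nat.card {q // q ∈ O S η σ i j} := by
      rw [Nat.card_eq_fintype_card, Fintype.card_coe]
    rw [this]
    have hmem : ∀ q : {q // q ∈ O S η σ i j}, (q.1.1 ∈ S ∧ (σ q.1.1 = i ∨ σ q.1.1 = j)) ∧
        (q.1.2 ∈ S ∧ (σ q.1.2 = i ∨ σ q.1.2 = j)) := by
      intro q
      have := q.2
      simp only [O, mem_filter, mem_product] at this
      exact ⟨⟨this.1.1, Or.inl this.2.1⟩, ⟨this.1.2, Or.inr this.2.2.1⟩⟩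
    refine Nat.card_le_card_of_surjective (fun q : {q // q ∈ O S η σ i j} =>
      (⟨s(⟨q.1.1, (hmem q).1⟩, ⟨q.1.2, (hmem q).2⟩), ?_⟩ : (H S η σ i j).edgeSet)) ?_
    · rw [SimpleGraph.mem_edgeSet]
      have := q.2
      simp only [O, mem_filter, mem_product] at this
      refine ⟨?_, this.2.2.2⟩
      intro h
      have h' := congrArg Subtype.val h
      simp only at h'
      exact hij (this.2.1.symm.trans ((congrArg σ h').trans this.2.2.1))
    · rintro ⟨e, he⟩
      induction e using Sym2.ind with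
      | _ a b =>
        rw [SimpleGraph.mem_edgeSet] at he
        have hne := hσ a.1 a.2.1 b.1 b.2.1 (fun h => he.1 (Subtype.ext h)) he.2
        rcases a.2.2 with ha | ha <;> rcases b.2.2 with hb | hb
        · exact absurd (ha.trans hb.symm) hne
        · refine ⟨⟨(a.1, b.1), ?_⟩, ?_⟩
          · simp only [O, mem_filter, mem_product]
            exact ⟨⟨a.2.1, b.2.1⟩, ha, hb, he.2⟩
          · rfl
        · refine ⟨⟨(b.1, a.1), ?_⟩, ?_⟩
          · simp only [O, mem_filter, mem_product]
            exact ⟨⟨b.2.1, a.2.1⟩, hb, ha, by rw [Sym2.eq_swap]; exact he.2⟩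
          · apply Subtype.ext
            exact Sym2.eq_swap
        · exact absurd (ha.trans hb.symm) hne
  omega

lemma sum_O_le {S : Finset (Fin n)} {η : Om n} {σ : KCol k n} (r : Fin k → Fin k → Prop)
    (hr : ∀ i j, r i j → ¬ r j i) :
    ∑ q ∈ (univ : Finset (Fin k × Fin k)).filter (fun q => r q.1 q.2), (O S η σ q.1 q.2).card ≤
      ecount S η := by
  rw [← Finset.card_biUnion]
  · unfold ecount
    apply Finset.card_le_card_of_injOn (fun q => s(q.1, q.2))
    · intro q hq
      simp only [coe_biUnion, Set.mem_iUnion, mem_coe, O, mem_filter, mem_product] at hq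
      obtain ⟨z, ⟨-, hz⟩, ⟨h1, h2⟩, h3, h4, h5⟩ := hq
      simp only [coe_filter, Set.mem_ofPred_eq, Sym2.mk_isDiag_iff, Sym2.mem_iff]
      refine ⟨h5, ?_, ?_⟩
      · intro h
        have hzz : z.1 = z.2 := by rw [← h3, ← h4, h]
        rw [hzz] at hz
        exact hr _ _ hz hz
      · rintro v (rfl | rfl)
        · exact h1
        · exact h2
    · intro q hq q' hq' hqq
      simp only [coe_biUnion, Set.mem_iUnion, mem_coe, O, mem_filter, mem_product] at hq hq'
      obtain ⟨z, ⟨-, hz⟩, -, h3, h4, -⟩ := hq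
      obtain ⟨z', ⟨-, hz'⟩, -, h3', h4', -⟩ := hq'
      simp only [Sym2.eq_iff] at hqq
      rcases hqq with ⟨h, h'⟩ | ⟨h, h'⟩
      · exact Prod.ext h h'
      · exfalso
        rw [← h3, ← h4, h, h', h3', h4'] at hz
        exact hr _ _ hz hz'
  · intro z _ z' _ hzz
    rw [Function.onFun, Finset.disjoint_left]
    intro q hq hq'
    simp only [O, mem_filter] at hq hq'
    apply hzz
    exact Prod.ext (hq.2.1.symm.trans hq'.2.1) (hq.2.2.1.symm.trans hq'.2.2.1)

end UE

open UE in
theorem UE_thm : T_uce := by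
  intro k n S η hk hU hS3
  obtain ⟨σ, hσ⟩ := hU.1
  set a : Fin k → ℕ := fun i => (S.filter fun v => σ v = i).card with ha
  have hs : ∑ i, a i = S.card := by
    rw [Finset.card_eq_sum_card_fiberwise (f := σ) (t := univ) (fun _ _ => mem_univ _)]
  have ha1 : ∀ i, 1 ≤ a i := by
    intro i
    obtain ⟨v, hv, hvi⟩ := hU.2.1 σ hσ i
    exact Finset.card_pos.2 ⟨v, mem_filter.2 ⟨hv, hvi⟩⟩
  have hsk : k ≤ S.card := by
    rw [← hs]
    calc k = ∑ _i : Fin k, 1 := by simp
      _ ≤ _ := Finset.sum_le_sum fun i _ => ha1 i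
  have h1 := sum_O_le (S := S) (η := η) (σ := σ) (fun i j => i < j) (fun i j h => h.asymm)
  have h2 := sum_O_le (S := S) (η := η) (σ := σ) (fun i j => j < i) (fun i j h => h.asymm)
  have h3 : ∑ q ∈ (univ : Finset (Fin k)).offDiag, (O S η σ q.1 q.2).card ≤ 2 * ecount S η := by
    have : (univ : Finset (Fin k)).offDiag = (univ : Finset (Fin k × Fin k)).filter
        (fun q => q.1 < q.2) ∪ (univ : Finset (Fin k × Fin k)).filter (fun q => q.2 < q.1) := by
      ext q
      simp only [mem_offDiag, mem_univ, true_and, mem_union, mem_filter]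
      exact ne_iff_lt_or_gt
    rw [this, Finset.sum_union]
    · rw [two_mul]
      refine Nat.add_le_add (le_of_eq_of_le ?_ h1) (le_of_eq_of_le ?_ h2) <;> congr
    · rw [Finset.disjoint_left]
      intro q hq hq'
      simp only [mem_filter, mem_univ, true_and] at hq hq'
      exact absurd hq hq'.asymm
  have h4 : ∑ q ∈ (univ : Finset (Fin k)).offDiag, (a q.1 + a q.2) ≤
      ∑ q ∈ (univ : Finset (Fin k)).offDiag, ((O S η σ q.1 q.2).card + 1) := by
    apply Finset.sum_le_sum
    intro q hq
    exact card_O hU hσ (mem_offDiag.1 hq).2.2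
  have hcard : (univ : Finset (Fin k)).offDiag.card = k * k - k := by
    rw [Finset.offDiag_card, Finset.card_univ, Fintype.card_fin]
  have h5 : ∑ q ∈ (univ : Finset (Fin k)).offDiag, (a q.1 + a q.2) + 2 * S.card =
      2 * k * S.card := by
    have e1 : ∑ q ∈ (univ : Finset (Fin k)).offDiag, (a q.1 + a q.2) +
        ∑ q ∈ (univ : Finset (Fin k)).diag, (a q.1 + a q.2) =
        ∑ q : Fin k × Fin k, (a q.1 + a q.2) := by
      rw [← Finset.univ_product_univ, ← Finset.diag_union_offDiag, Finset.sum_union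
        (Finset.disjoint_diag_offDiag _), add_comm]
    have e2 : ∑ q ∈ (univ : Finset (Fin k)).diag, (a q.1 + a q.2) = 2 * S.card := by
      rw [Finset.sum_diag, ← hs, Finset.mul_sum]
      exact Finset.sum_congr rfl fun i _ => by ring
    have e3 : ∑ q : Fin k × Fin k, (a q.1 + a q.2) = 2 * k * S.card := by
      rw [Fintype.sum_prod_type]
      simp only [Finset.sum_add_distrib, Finset.sum_const, Finset.card_univ, Fintype.card_fin,
        smul_eq_mul, hs, ← Finset.mul_sum]
      ring
    rw [e2] at e1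
    rw [e1, e3]
  have h4' : ∑ q ∈ (univ : Finset (Fin k)).offDiag, ((O S η σ q.1 q.2).card + 1) =
      ∑ q ∈ (univ : Finset (Fin k)).offDiag, (O S η σ q.1 q.2).card + (k * k - k) := by
    rw [Finset.sum_add_distrib, Finset.sum_const, hcard, smul_eq_mul, mul_one]
  rw [h4'] at h4
  have hkk : k ≤ k * k := Nat.le_mul_self k
  have hS4 : 4 ≤ S.card := by omega
  refine ⟨hS4, ?_⟩
  -- arithmetic
  have h6 : 2 * k * S.card + k ≤ 2 * ecount S η + k * k + 2 * S.card := by omega
  by_cases hk3 : k = 3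
  · subst hk3
    omega
  · have hk4 : 4 ≤ k := by omega
    zify at h6 hsk hk4 ⊢
    nlinarith [mul_le_mul_of_nonneg_left hsk (by linarith : (0:ℤ) ≤ 4 * k - 9)]

end Pool.Agent.H624U
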