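import Pool.Agent.H624U.Basic
import Pool.Agent.H624U.Defs2

/-!
# VJ: star-jump mass
-/

set_option autoImplicit false

namespace Pool.Agent.H624U

open Finset Pool.Agent.H624C
open scoped Classical

theorem VJ_thm (hd : T_drop) (hs : T_star) : T_VJ := by
  intro ε' Λ' hε' hΛ'
  obtain ⟨R, Λ, c, γ, n1, hR, hΛ, hc, hγ, h1⟩ := hd ε' Λ' hε' hΛ'
  obtain ⟨ε, c', D, n2, hε, hεΛ, hc', h2⟩ := hs R Λ c hR hΛ hc
  refine ⟨R, Λ, ε, c', γ, D, max n1 n2, hR, hε, hεΛ, hc', hγ, ?_⟩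
  intro P hP N hN M hM t0 t1 ht0 ht1 hlow hhigh
  obtain ⟨n, hn1, hn2, h3⟩ := h1 P N (le_trans (le_max_left _ _) hN) M hM t1 ht1 hlow hhigh
  exact ⟨n, hn1, hn2, h2 P hP N (le_trans (le_max_right _ _) hN) M hM t0 t1 ht0 ht1 n hn1 hn2 h3⟩

end Pool.Agent.H624U
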