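import Pool.Agent.H624U.Defs2
import Pool.Agent.H624U.Basic

/-!
# VS: many good data are visited by the label process (helper152)
-/

set_option autoImplicit false

namespace Pool.Agent.H624U

open Finset Pool.Agent.H624C
open scoped Classical

namespace VS

/-- the number of visits -/
noncomputable def V (k m0 d m1 l : ℕ) (c : ℝ) (n M t0 t1 : ℕ) (w : Fin l → Fin n)
    (y : Slt k l → Fin n) : ℝ :=
  ∑ T : Lab n M, ind (∃ t, t0 ≤ t ∧ t < t1 ∧ Dat k m0 d m1 l c (op t T) w y)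

theorem card_dat (k m0 d m1 l : ℕ) (c : ℝ) {n : ℕ} (ω : Om n) :
    (((Finset.univ : Finset ((Fin l → Fin n) × (Slt k l → Fin n))).filter
        (fun q => Dat k m0 d m1 l c ω q.1 q.2)).card : ℝ) =
      ∑ w : Fin l → Fin n, ∑ y : Slt k l → Fin n, ind (Dat k m0 d m1 l c ω w y) := by
  rw [Finset.card_filter]
  push_cast
  rw [Fintype.sum_prod_type]
  refine Finset.sum_congr rfl fun w _ => Finset.sum_congr rfl fun z _ => ?_
  unfold ind
  split_ifs <;> rfl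

/-- lower bound by the mass of the data -/
theorem lower (k m0 d m1 l : ℕ) (c c3 : ℝ) (n M t0 t1 : ℕ) (hM : 0 < M) (ht1 : t1 ≤ M)
    (h : ∀ ω : Om n, c * (n : ℝ) ^ (l + 1) ≤ (DG k m0 d m1 l ω : ℝ) →
      c3 * (n : ℝ) ^ (l + Fintype.card (Slt k l)) ≤
      (((Finset.univ : Finset ((Fin l → Fin n) × (Slt k l → Fin n))).filter
        (fun q => Dat k m0 d m1 l c ω q.1 q.2)).card : ℝ)) :
    c3 * (n : ℝ) ^ (l + Fintype.card (Slt k l)) * ((n : ℝ) ^ 2 * ∑ t ∈ Ico t0 t1,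
      E ((t : ℝ) / M) (fun ω : Om n => ind (c * (n : ℝ) ^ (l + 1) ≤ (DG k m0 d m1 l ω : ℝ)))) ≤
    ∑ w : Fin l → Fin n, ∑ y : Slt k l → Fin n, ((n : ℝ) ^ 2 * ∑ t ∈ Ico t0 t1,
      E ((t : ℝ) / M) (fun ω : Om n => ind (Dat k m0 d m1 l c ω w y))) := by
  have hswap : ∑ w : Fin l → Fin n, ∑ y : Slt k l → Fin n, ((n : ℝ) ^ 2 * ∑ t ∈ Ico t0 t1,
      E ((t : ℝ) / M) (fun ω : Om n => ind (Dat k m0 d m1 l c ω w y))) =
      (n : ℝ) ^ 2 * ∑ t ∈ Ico t0 t1, E ((t : ℝ) / M) (fun ω : Om n =>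
        ∑ w : Fin l → Fin n, ∑ y : Slt k l → Fin n, ind (Dat k m0 d m1 l c ω w y)) := by
    simp_rw [← Finset.mul_sum]
    congr 1
    have e1 : ∀ t ∈ Ico t0 t1, E ((t : ℝ) / M) (fun ω : Om n =>
        ∑ w : Fin l → Fin n, ∑ y : Slt k l → Fin n, ind (Dat k m0 d m1 l c ω w y)) =
        ∑ w : Fin l → Fin n, ∑ y : Slt k l → Fin n,
          E ((t : ℝ) / M) (fun ω : Om n => ind (Dat k m0 d m1 l c ω w y)) := by
      intro t _
      rw [E_sum]
      refine Finset.sum_congr rfl fun w _ => ?_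
      rw [E_sum]
    rw [Finset.sum_congr rfl e1]
    symm
    refine (Finset.sum_comm (s := Ico t0 t1) (t := (Finset.univ : Finset (Fin l → Fin n)))
      (f := fun t w => ∑ y : Slt k l → Fin n,
        E ((t : ℝ) / M) (fun ω : Om n => ind (Dat k m0 d m1 l c ω w y)))).trans ?_
    refine Finset.sum_congr rfl fun w _ => ?_
    exact Finset.sum_comm (s := Ico t0 t1) (t := (Finset.univ : Finset (Slt k l → Fin n)))
      (f := fun t y =>
        E ((t : ℝ) / M) (fun ω : Om n => ind (Dat k m0 d m1 l c ω w y)))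
  rw [hswap]
  have e2 : c3 * (n : ℝ) ^ (l + Fintype.card (Slt k l)) * ((n : ℝ) ^ 2 * ∑ t ∈ Ico t0 t1,
      E ((t : ℝ) / M) (fun ω : Om n => ind (c * (n : ℝ) ^ (l + 1) ≤ (DG k m0 d m1 l ω : ℝ)))) =
      (n : ℝ) ^ 2 * ∑ t ∈ Ico t0 t1, E ((t : ℝ) / M) (fun ω : Om n =>
        (c3 * (n : ℝ) ^ (l + Fintype.card (Slt k l))) *
          ind (c * (n : ℝ) ^ (l + 1) ≤ (DG k m0 d m1 l ω : ℝ))) := by
    simp_rw [E_mul_left]
    rw [← Finset.mul_sum]
    ring
  rw [e2]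
  apply mul_le_mul_of_nonneg_left _ (by positivity)
  refine Finset.sum_le_sum fun t ht => ?_
  apply E_mono (by positivity)
  · rw [div_le_one (by exact_mod_cast hM)]
    have := (Finset.mem_Ico.1 ht).2
    exact_mod_cast (this.le.trans ht1)
  · intro ω
    rw [← card_dat]
    by_cases hω : c * (n : ℝ) ^ (l + 1) ≤ (DG k m0 d m1 l ω : ℝ)
    · rw [ind_true hω, mul_one]
      exact h ω hω
    · rw [ind_false hω, mul_zero]
      exact Nat.cast_nonneg _

theorem upper (k m0 d m1 l : ℕ) (c C : ℝ) (n M t0 t1 : ℕ) (hn : 0 < n)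
    (h : ∀ (w : Fin l → Fin n) (y : Slt k l → Fin n), (n : ℝ) ^ 2 * ∑ t ∈ Ico t0 t1,
      E ((t : ℝ) / M) (fun ω : Om n => ind (Dat k m0 d m1 l c ω w y)) ≤
      C * M * (V k m0 d m1 l c n M t0 t1 w y / (M : ℝ) ^ nI n + 1 / n)) :
    ∑ w : Fin l → Fin n, ∑ y : Slt k l → Fin n, ((n : ℝ) ^ 2 * ∑ t ∈ Ico t0 t1,
      E ((t : ℝ) / M) (fun ω : Om n => ind (Dat k m0 d m1 l c ω w y))) ≤
    C * M * ((∑ w : Fin l → Fin n, ∑ y : Slt k l → Fin n, V k m0 d m1 l c n M t0 t1 w y) /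
      (M : ℝ) ^ nI n + (n : ℝ) ^ (l + Fintype.card (Slt k l)) / n) := by
  refine (Finset.sum_le_sum fun w _ => Finset.sum_le_sum fun y _ => h w y).trans (le_of_eq ?_)
  simp_rw [← Finset.mul_sum]
  congr 1
  simp_rw [Finset.sum_add_distrib, Finset.sum_div]
  congr 1
  rw [Finset.sum_const, Finset.sum_const, Finset.card_univ, Finset.card_univ, Fintype.card_fun,
    Fintype.card_fun, Fintype.card_fin, Fintype.card_fin, nsmul_eq_mul, nsmul_eq_mul]
  push_cast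
  rw [pow_add]
  ring

end VS

theorem VS_thm (hgood : T_good) (hcnt : T_cnt) (hZ3 : T_Z3) (hdur : T_dur) : T_vis := by
  intro k hk
  obtain ⟨R, Λ, ε, c, c', δ, D, n1, hR, hε, hεΛ, hc, hc', hδ, hg⟩ := hgood k hk
  have hΛ : 0 < Λ := hε.trans hεΛ
  choose c3 nA hc3 hA using fun l : ℕ => hcnt k l c δ hk hc hδ
  choose c4 nB hc4 hB using fun l : ℕ => hZ3 k l c δ hk hc hδ
  choose C hC hCd using fun l : ℕ => hdur (c4 l) (hc4 l)
  set Sg : ℝ := ∑ l ∈ range (D + 1), C l / c3 l with hSg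
  have hterm : ∀ l ≤ D, C l / c3 l ≤ Sg := by
    intro l hl
    exact Finset.single_le_sum (f := fun l => C l / c3 l)
      (fun i _ => (div_pos (hC i) (hc3 i)).le) (Finset.mem_range.2 (by omega))
  have hSg0 : 0 < Sg := lt_of_lt_of_le (div_pos (hC 0) (hc3 0)) (hterm 0 (Nat.zero_le _))
  set n0 : ℕ := n1 + ∑ l ∈ range (D + 1), nA l + ∑ l ∈ range (D + 1), nB l + ⌈2 * Λ⌉₊ +
    ⌈2 * Sg / c'⌉₊ + 1 with hn0
  refine ⟨R, Λ, ε, c, c' / (2 * Sg), D, n0, hR, hε, hεΛ, hc, by positivity, ?_⟩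
  intro N hN M hM t0 t1 ht0 ht1
  obtain ⟨n, hnN, hnR, m0, d, m1, l, hThr, hdn, hδd, hl1, hlD, hmass⟩ :=
    hg N (by omega) M hM t0 t1 ht0 ht1
  refine ⟨n, hnN, hnR, m0, d, m1, l, hl1, hlD, ?_⟩
  have hN1 : 1 ≤ N := by omega
  have hNr : (0:ℝ) < N := by exact_mod_cast hN1
  have hn0' : 0 < n := by omega
  have hnr : (0:ℝ) < n := by exact_mod_cast hn0'
  have hM0 : 0 < M := by
    have : 0 < (R * N) ^ 5 := by positivity
    omega
  have hMr : (0:ℝ) < M := by exact_mod_cast hM0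
  have hceil : ∀ x : ℝ, ⌈x⌉₊ ≤ N → x ≤ N := fun x hx =>
    (Nat.le_ceil x).trans (by exact_mod_cast hx)
  have hNΛ : 2 * Λ ≤ N := hceil _ (by omega)
  have hNS : 2 * Sg / c' ≤ n := by
    refine (hceil _ (by omega)).trans ?_
    exact_mod_cast hnN
  have ht1' : (t1:ℝ) ≤ Λ * M / N := by
    rw [ht1]
    exact Nat.floor_le (by positivity)
  have ht1N : (t1:ℝ) * N ≤ Λ * M := by
    rwa [le_div_iff₀ hNr] at ht1'
  have h2t1 : 2 * t1 ≤ M := by
    have : 2 * (t1:ℝ) ≤ M := by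
      by_contra h
      push Not at h
      nlinarith
    exact_mod_cast this
  have hnAl : nA l ≤ n := by
    have h1 : nA l ≤ ∑ l ∈ range (D + 1), nA l :=
      Finset.single_le_sum (f := nA) (fun i _ => Nat.zero_le _) (Finset.mem_range.2 (by omega))
    omega
  have hnBl : nB l ≤ n := by
    have h1 : nB l ≤ ∑ l ∈ range (D + 1), nB l :=
      Finset.single_le_sum (f := nB) (fun i _ => Nat.zero_le _) (Finset.mem_range.2 (by omega))
    omega
  have hn5 : n ^ 5 ≤ M := le_trans (Nat.pow_le_pow_left (by omega) 5) hM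
  have hlow := VS.lower k m0 d m1 l c (c3 l) n M t0 t1 hM0 (by omega)
    (fun ω hω => hA l n hnAl m0 d m1 ω hThr hdn hδd hω)
  have hup := VS.upper k m0 d m1 l c (C l) n M t0 t1 hn0' (by
    intro w y
    exact hCd l k n M t0 t1 (KRY (Set.univ : Set (KCol k n)) (univ.image w))
      (fun ω => Dat k m0 d m1 l c ω w y) hn0' hn5 h2t1
      (fun ω hω => hB l n hnBl m0 d m1 ω w y hThr hdn hδd hω))
  set W : ℝ := ∑ w : Fin l → Fin n, ∑ y : Slt k l → Fin n, VS.V k m0 d m1 l c n M t0 t1 w y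
    with hW
  set S : ℝ := (n : ℝ) ^ (l + Fintype.card (Slt k l)) with hS
  have hSpos : 0 < S := by positivity
  have hMI : (0:ℝ) < (M : ℝ) ^ nI n := by positivity
  have h1 : c3 l * S * (c' * M) ≤ C l * M * (W / (M : ℝ) ^ nI n + S / n) :=
    (mul_le_mul_of_nonneg_left hmass (mul_nonneg (hc3 l).le hSpos.le)).trans (hlow.trans hup)
  have h2 : c3 l * S * c' ≤ C l * (W / (M : ℝ) ^ nI n + S / n) := by
    have e : (c3 l * S * c') * M ≤ (C l * (W / (M : ℝ) ^ nI n + S / n)) * M := by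
      calc (c3 l * S * c') * M = c3 l * S * (c' * M) := by ring
        _ ≤ C l * M * (W / (M : ℝ) ^ nI n + S / n) := h1
        _ = _ := by ring
    exact le_of_mul_le_mul_right e hMr
  have h3 : S * c' ≤ Sg * (W / (M : ℝ) ^ nI n + S / n) := by
    have hW0 : 0 ≤ W / (M : ℝ) ^ nI n + S / n := by
      have : 0 ≤ W := Finset.sum_nonneg fun w _ => Finset.sum_nonneg fun y _ =>
        Finset.sum_nonneg fun T _ => ind_nonneg _
      positivity
    calc S * c' ≤ C l / c3 l * (W / (M : ℝ) ^ nI n + S / n) := by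
          rw [div_mul_eq_mul_div, le_div_iff₀ (hc3 l)]
          calc S * c' * c3 l = c3 l * S * c' := by ring
            _ ≤ _ := h2
      _ ≤ Sg * (W / (M : ℝ) ^ nI n + S / n) := mul_le_mul_of_nonneg_right (hterm l hlD) hW0
  have h4 : Sg * (S / n) ≤ S * c' / 2 := by
    rw [div_le_iff₀ hc'] at hNS
    rw [← mul_div_assoc, div_le_iff₀ hnr]
    nlinarith
  have h5 : S * c' / 2 ≤ Sg * (W / (M : ℝ) ^ nI n) := by
    have : Sg * (W / (M : ℝ) ^ nI n + S / n) = Sg * (W / (M : ℝ) ^ nI n) + Sg * (S / n) := by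
      ring
    linarith
  have h6 : S * c' / 2 * (M : ℝ) ^ nI n ≤ Sg * W := by
    have e : Sg * (W / (M : ℝ) ^ nI n) * (M : ℝ) ^ nI n = Sg * W := by
      field_simp
    rw [← e]
    exact mul_le_mul_of_nonneg_right h5 hMI.le
  have h7 : c' / (2 * Sg) * S * (M : ℝ) ^ nI n ≤ W := by
    rw [div_mul_eq_mul_div, div_mul_eq_mul_div, div_le_iff₀ (by positivity)]
    linarith
  exact h7

end Pool.Agent.H624U
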