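import Pool.Agent.H624U.Defs2
import Pool.Agent.H624U.Basic

/-!
# VU: upper bound for the star-jump mass (helper152)
-/

set_option autoImplicit false

namespace Pool.Agent.H624U

open Finset Pool.Agent.H624C
open scoped Classical

namespace VU

noncomputable section

/-- the summand of a star `Y` -/
def Phi (Q : ∀ n : ℕ, Om n → Prop) {n : ℕ} (ω : Om n) (Y : Finset (Fin n)) : ℝ :=
  ∑ z : Fin n, ind (¬ Q (n + 1) (ext ω Y) ∧ Q (n + 1) (ext ω (insert z Y)))

theorem Phi_nonneg (Q : ∀ n : ℕ, Om n → Prop) {n : ℕ} (ω : Om n) (Y : Finset (Fin n)) :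
    0 ≤ Phi Q ω Y := Finset.sum_nonneg fun _ _ => ind_nonneg _

theorem card_image_eq (l n : ℕ) (Y : Finset (Fin n)) (hY : Y.card ≤ l) :
    ((Finset.univ : Finset (Fin l → Fin n)).filter (fun w => univ.image w = Y)).card ≤ l ^ l := by
  calc ((Finset.univ : Finset (Fin l → Fin n)).filter (fun w => univ.image w = Y)).card
      ≤ (Fintype.piFinset (fun _ : Fin l => Y)).card := by
        apply Finset.card_le_card
        intro w hw
        rw [Finset.mem_filter] at hw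
        rw [Fintype.mem_piFinset]
        intro i
        rw [← hw.2]
        exact Finset.mem_image_of_mem w (Finset.mem_univ i)
    _ = Y.card ^ l := by
        rw [Fintype.card_piFinset, Finset.prod_const, Finset.card_univ, Fintype.card_fin]
    _ ≤ l ^ l := Nat.pow_le_pow_left hY l

theorem DJ_le (Q : ∀ n : ℕ, Om n → Prop) (l : ℕ) {n : ℕ} (ω : Om n) :
    (DJ Q l ω : ℝ) ≤ (l:ℝ) ^ l *
      ∑ Y ∈ (Finset.univ : Finset (Finset (Fin n))).filter (fun Y => Y.card ≤ l), Phi Q ω Y := by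
  have h1 : (DJ Q l ω : ℝ) = ∑ w : Fin l → Fin n, Phi Q ω (univ.image w) := by
    unfold DJ Phi
    rw [Finset.card_filter]
    push_cast
    rw [Fintype.sum_prod_type]
    refine Finset.sum_congr rfl fun w _ => Finset.sum_congr rfl fun z _ => ?_
    unfold ind
    split_ifs <;> rfl
  rw [h1, ← Finset.sum_fiberwise_of_maps_to (s := (Finset.univ : Finset (Fin l → Fin n)))
    (t := (Finset.univ : Finset (Finset (Fin n))).filter (fun Y => Y.card ≤ l))
    (g := fun w => univ.image w), Finset.mul_sum]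
  · refine Finset.sum_le_sum fun Y hY => ?_
    rw [Finset.mem_filter] at hY
    have h2 : ∑ w ∈ (Finset.univ : Finset (Fin l → Fin n)).filter (fun w => univ.image w = Y),
        Phi Q ω (univ.image w) =
        (((Finset.univ : Finset (Fin l → Fin n)).filter (fun w => univ.image w = Y)).card : ℝ) *
          Phi Q ω Y := by
      rw [← nsmul_eq_mul, ← Finset.sum_const]
      refine Finset.sum_congr rfl fun w hw => ?_
      rw [(Finset.mem_filter.1 hw).2]
    rw [h2]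
    refine mul_le_mul_of_nonneg_right ?_ (Phi_nonneg Q ω Y)
    exact_mod_cast card_image_eq l n Y hY.2
  · intro w _
    rw [Finset.mem_filter]
    refine ⟨Finset.mem_univ _, ?_⟩
    refine Finset.card_image_le.trans ?_
    rw [Finset.card_univ, Fintype.card_fin]

/-- lower bound for the weight of a small star -/
theorem weight_le {ε B p : ℝ} {n l y : ℕ} (hε : 0 < ε) (hn : 0 < n) (hp0 : ε ≤ p * n)
    (hp1 : p ≤ 1 / 2) (hB : p * n ≤ B) (hy : y ≤ l) :
    1 ≤ (n:ℝ) ^ l * ((max 1 ε⁻¹) ^ l * Real.exp (2 * B) * (p ^ y * (1 - p) ^ (n - y))) := by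
  have hnr : (0:ℝ) < n := by exact_mod_cast hn
  have hn1 : (1:ℝ) ≤ n := by exact_mod_cast hn
  have hp : 0 < p := by
    by_contra h
    push Not at h
    nlinarith
  have h1 : 1 ≤ (n:ℝ) ^ y * ((max 1 ε⁻¹) ^ y * p ^ y) := by
    rw [← mul_pow, ← mul_pow]
    apply one_le_pow₀
    have h2 : ε⁻¹ ≤ max 1 ε⁻¹ := le_max_right _ _
    calc (1:ℝ) = ε⁻¹ * ε := by rw [inv_mul_cancel₀ hε.ne']
      _ ≤ ε⁻¹ * (p * n) := mul_le_mul_of_nonneg_left hp0 (by positivity)
      _ = n * (ε⁻¹ * p) := by ring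
      _ ≤ n * (max 1 ε⁻¹ * p) := by
          apply mul_le_mul_of_nonneg_left _ hnr.le
          exact mul_le_mul_of_nonneg_right h2 hp.le
  have h3 : 1 ≤ Real.exp (2 * B) * (1 - p) ^ (n - y) := by
    have e1 : 1 ≤ Real.exp (2 * p) * (1 - p) := by
      have := Real.add_one_le_exp (2 * p)
      have h5 : 0 ≤ 1 - p := by linarith
      calc (1:ℝ) ≤ (2 * p + 1) * (1 - p) := by nlinarith
        _ ≤ Real.exp (2 * p) * (1 - p) := mul_le_mul_of_nonneg_right this h5
    have e2 : 1 ≤ Real.exp (2 * p) ^ n * (1 - p) ^ n := by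
      rw [← mul_pow]
      exact one_le_pow₀ e1
    rw [← Real.exp_nat_mul] at e2
    calc (1:ℝ) ≤ Real.exp (n * (2 * p)) * (1 - p) ^ n := e2
      _ ≤ Real.exp (2 * B) * (1 - p) ^ (n - y) := by
          apply mul_le_mul
          · apply Real.exp_le_exp.2
            linarith
          · apply pow_le_pow_of_le_one (by linarith) (by linarith) (Nat.sub_le n y)
          · apply pow_nonneg
            linarith
          · positivity
  have h4 : (n:ℝ) ^ y ≤ (n:ℝ) ^ l := pow_le_pow_right₀ hn1 hy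
  have h5 : (max 1 ε⁻¹) ^ y ≤ (max 1 ε⁻¹) ^ l := pow_le_pow_right₀ (le_max_left _ _) hy
  have h6 : 0 ≤ 1 - p := by linarith
  calc (1:ℝ) = 1 * 1 := by norm_num
    _ ≤ ((n:ℝ) ^ y * ((max 1 ε⁻¹) ^ y * p ^ y)) * (Real.exp (2 * B) * (1 - p) ^ (n - y)) :=
        mul_le_mul h1 h3 (by norm_num) (by positivity)
    _ ≤ ((n:ℝ) ^ l * ((max 1 ε⁻¹) ^ l * p ^ y)) * (Real.exp (2 * B) * (1 - p) ^ (n - y)) := by
        apply mul_le_mul_of_nonneg_right _ (by positivity)
        apply mul_le_mul h4 _ (by positivity) (by positivity)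
        exact mul_le_mul_of_nonneg_right h5 (by positivity)
    _ = _ := by ring

theorem E_DJ_le (hdeg : T_deg) (Q : ∀ n : ℕ, Om n → Prop) (hQ : Fam Q) {ε B p : ℝ} {n l : ℕ}
    (hε : 0 < ε) (hn : 0 < n) (hp0 : ε ≤ p * n) (hp1 : p ≤ 1 / 2) (hB : p * n ≤ B) :
    (n:ℝ) ^ 2 * E p (fun ω : Om n => (DJ Q l ω : ℝ) / (n:ℝ) ^ (l + 1)) ≤
      2 * ((l:ℝ) ^ l * ((max 1 ε⁻¹) ^ l * Real.exp (2 * B))) *
        E p (fun ω : Om (n + 1) => ind (¬ Q (n + 1) ω) * (J (Q (n + 1)) ω : ℝ)) := by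
  have hnr : (0:ℝ) < n := by exact_mod_cast hn
  have hp : 0 ≤ p := by
    by_contra h
    push Not at h
    nlinarith
  have hp1' : p ≤ 1 := by linarith
  have h6 : 0 ≤ 1 - p := by linarith
  set A : ℝ := (max 1 ε⁻¹) ^ l * Real.exp (2 * B) with hA
  have hA0 : 0 ≤ A := by positivity
  have hpt : ∀ ω : Om n, (DJ Q l ω : ℝ) / (n:ℝ) ^ (l + 1) ≤
      ((l:ℝ) ^ l * A / n) * ∑ N : Finset (Fin n),
        p ^ N.card * (1 - p) ^ (n - N.card) * Phi Q ω N := by
    intro ω
    have h1 : (DJ Q l ω : ℝ) ≤ (l:ℝ) ^ l * ((n:ℝ) ^ l * A * ∑ N : Finset (Fin n),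
        p ^ N.card * (1 - p) ^ (n - N.card) * Phi Q ω N) := by
      refine (DJ_le Q l ω).trans (mul_le_mul_of_nonneg_left ?_ (by positivity))
      rw [Finset.mul_sum]
      calc ∑ Y ∈ (Finset.univ : Finset (Finset (Fin n))).filter (fun Y => Y.card ≤ l), Phi Q ω Y
          ≤ ∑ Y ∈ (Finset.univ : Finset (Finset (Fin n))).filter (fun Y => Y.card ≤ l),
            (n:ℝ) ^ l * A * (p ^ Y.card * (1 - p) ^ (n - Y.card) * Phi Q ω Y) := by
            refine Finset.sum_le_sum fun Y hY => ?_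
            have h2 := weight_le hε hn hp0 hp1 hB (Finset.mem_filter.1 hY).2
            have h3 := mul_le_mul_of_nonneg_right h2 (Phi_nonneg Q ω Y)
            rw [one_mul] at h3
            refine h3.trans (le_of_eq ?_)
            rw [hA]
            ring
        _ ≤ ∑ N : Finset (Fin n), (n:ℝ) ^ l * A *
            (p ^ N.card * (1 - p) ^ (n - N.card) * Phi Q ω N) := by
            apply Finset.sum_le_sum_of_subset_of_nonneg (Finset.subset_univ _)
            intro Y _ _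
            have := Phi_nonneg Q ω Y
            positivity
    rw [div_le_iff₀ (by positivity)]
    refine h1.trans (le_of_eq ?_)
    rw [pow_succ]
    field_simp
  have h1 := E_mono hp hp1' hpt
  rw [E_mul_left] at h1
  have h2 := hdeg Q hQ n p hp hp1'
  have hE0 : 0 ≤ E p (fun ω : Om n => ∑ N : Finset (Fin n),
      p ^ N.card * (1 - p) ^ (n - N.card) * Phi Q ω N) := by
    apply E_nonneg hp hp1'
    intro ω
    refine Finset.sum_nonneg fun N _ => ?_
    have := Phi_nonneg Q ω N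
    positivity
  set X := E p (fun ω : Om n => ∑ N : Finset (Fin n),
      p ^ N.card * (1 - p) ^ (n - N.card) * Phi Q ω N) with hX
  set Z := E p (fun ω : Om (n + 1) => ind (¬ Q (n + 1) ω) * (J (Q (n + 1)) ω : ℝ)) with hZ
  have h3 : ((n:ℝ) + 1) * X ≤ 2 * Z := h2
  calc (n:ℝ) ^ 2 * E p (fun ω : Om n => (DJ Q l ω : ℝ) / (n:ℝ) ^ (l + 1))
      ≤ (n:ℝ) ^ 2 * (((l:ℝ) ^ l * A / n) * X) := mul_le_mul_of_nonneg_left h1 (by positivity)
    _ = ((l:ℝ) ^ l * A) * (n * X) := by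
        field_simp
    _ ≤ ((l:ℝ) ^ l * A) * (2 * Z) := by
        apply mul_le_mul_of_nonneg_left _ (by positivity)
        nlinarith
    _ = _ := by ring

end

end VU

theorem VU_thm (h1 : T_deg) (h2 : T_mpu1) : T_VU := by
  intro ε Λ R l hε hΛ hR
  set C : ℝ := 2 * ((l:ℝ) ^ l * ((max 1 ε⁻¹) ^ l * Real.exp (2 * (R * Λ)))) with hC
  have hC0 : 0 ≤ C := by positivity
  refine ⟨C, ⌈2 * Λ⌉₊ + 1, hC0, ?_⟩
  intro Q hQ N hN M hM t0 t1 ht0 ht1 n hNn hnR
  have hN1 : 1 ≤ N := by omega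
  have hNr : (0:ℝ) < N := by exact_mod_cast hN1
  have hn0 : 0 < n := by omega
  have hnr : (0:ℝ) < n := by exact_mod_cast hn0
  have hN2 : 2 * Λ ≤ N := by
    have h3 : (⌈2 * Λ⌉₊ : ℝ) ≤ N := by
      have : ⌈2 * Λ⌉₊ ≤ N := by omega
      exact_mod_cast this
    exact (Nat.le_ceil _).trans h3
  have hM0 : 0 < M := by
    have : 0 < (R * N) ^ 5 := by positivity
    omega
  have hMr : (0:ℝ) < M := by exact_mod_cast hM0
  have ht1' : (t1:ℝ) ≤ Λ * M / N := by
    rw [ht1]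
    exact Nat.floor_le (by positivity)
  have ht1N : (t1:ℝ) * N ≤ Λ * M := by
    rwa [le_div_iff₀ hNr] at ht1'
  have ht1M : t1 ≤ M := by
    have : (t1:ℝ) ≤ M := by
      by_contra h
      push Not at h
      nlinarith
    exact_mod_cast this
  have hnRr : (n:ℝ) ≤ R * N := by exact_mod_cast hnR.le
  have hNnr : (N:ℝ) ≤ n := by exact_mod_cast hNn
  have hkey : ∀ t ∈ Ico t0 t1, (n:ℝ) ^ 2 * E ((t:ℝ) / M)
      (fun ω : Om n => (DJ Q l ω : ℝ) / (n:ℝ) ^ (l + 1)) ≤
      C * E ((t:ℝ) / M) (fun ω : Om (n + 1) => ind (¬ Q (n + 1) ω) * (J (Q (n + 1)) ω : ℝ)) := by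
    intro t ht
    rw [Finset.mem_Ico] at ht
    have ht0r : ε * M / N ≤ t := by
      have h3 : (t0:ℝ) ≤ t := by exact_mod_cast ht.1
      rw [ht0] at h3
      exact (Nat.le_ceil _).trans h3
    have ht1r : (t:ℝ) ≤ t1 := by exact_mod_cast ht.2.le
    apply VU.E_DJ_le h1 Q hQ hε hn0
    · rw [div_mul_eq_mul_div, le_div_iff₀ hMr]
      rw [div_le_iff₀ hNr] at ht0r
      have : (t:ℝ) * N ≤ t * n := mul_le_mul_of_nonneg_left hNnr (Nat.cast_nonneg t)
      linarith
    · rw [div_le_iff₀ hMr]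
      have h4 : (t:ℝ) * N ≤ Λ * M := (mul_le_mul_of_nonneg_right ht1r hNr.le).trans ht1N
      by_contra h
      push Not at h
      nlinarith
    · rw [div_mul_eq_mul_div, div_le_iff₀ hMr]
      have h4 : (t:ℝ) * N ≤ Λ * M := (mul_le_mul_of_nonneg_right ht1r hNr.le).trans ht1N
      calc (t:ℝ) * n ≤ t * (R * N) := mul_le_mul_of_nonneg_left hnRr (Nat.cast_nonneg t)
        _ = R * (t * N) := by ring
        _ ≤ R * (Λ * M) := mul_le_mul_of_nonneg_left h4 (Nat.cast_nonneg R)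
        _ = R * Λ * M := by ring
  have hn5 : (n + 1) ^ 5 ≤ M := le_trans (Nat.pow_le_pow_left (by omega) 5) hM
  have hmpu := h2 (n + 1) M t1 (Q (n + 1)) (by omega) hn5 ht1M (hQ.mono _)
  have hE1 : 0 ≤ E ((t1:ℝ) / M) (fun ω : Om (n + 1) => ind (Q (n + 1) ω)) := by
    apply E_nonneg (by positivity)
    · rw [div_le_one hMr]
      exact_mod_cast ht1M
    · intro ω
      exact ind_nonneg _
  calc (n:ℝ) ^ 2 * ∑ t ∈ Ico t0 t1, E ((t:ℝ) / M)
        (fun ω : Om n => (DJ Q l ω : ℝ) / (n:ℝ) ^ (l + 1))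
      = ∑ t ∈ Ico t0 t1, (n:ℝ) ^ 2 * E ((t:ℝ) / M)
        (fun ω : Om n => (DJ Q l ω : ℝ) / (n:ℝ) ^ (l + 1)) := Finset.mul_sum _ _ _
    _ ≤ ∑ t ∈ Ico t0 t1, C * E ((t:ℝ) / M)
        (fun ω : Om (n + 1) => ind (¬ Q (n + 1) ω) * (J (Q (n + 1)) ω : ℝ)) :=
        Finset.sum_le_sum hkey
    _ ≤ ∑ t ∈ range t1, C * E ((t:ℝ) / M)
        (fun ω : Om (n + 1) => ind (¬ Q (n + 1) ω) * (J (Q (n + 1)) ω : ℝ)) := by
        apply Finset.sum_le_sum_of_subset_of_nonneg
        · intro t ht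
          rw [Finset.mem_Ico] at ht
          exact Finset.mem_range.2 ht.2
        · intro t ht _
          apply mul_nonneg hC0
          apply E_nonneg (by positivity)
          · rw [div_le_one hMr]
            have := Finset.mem_range.1 ht
            exact_mod_cast (this.le.trans ht1M)
          · intro ω
            exact mul_nonneg (ind_nonneg _) (Nat.cast_nonneg _)
    _ = C * ∑ t ∈ range t1, E ((t:ℝ) / M)
        (fun ω : Om (n + 1) => ind (¬ Q (n + 1) ω) * (J (Q (n + 1)) ω : ℝ)) :=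
        (Finset.mul_sum _ _ _).symm
    _ ≤ C * (M * (E ((t1:ℝ) / M) (fun ω : Om (n + 1) => ind (Q (n + 1) ω)) +
        1 / ((n + 1 : ℕ) : ℝ))) := mul_le_mul_of_nonneg_left hmpu hC0
    _ ≤ C * (M * (E ((t1:ℝ) / M) (fun ω : Om (n + 1) => ind (Q (n + 1) ω)) + 1 / N)) := by
        apply mul_le_mul_of_nonneg_left _ hC0
        apply mul_le_mul_of_nonneg_left _ hMr.le
        have : (1:ℝ) / ((n + 1 : ℕ) : ℝ) ≤ 1 / N := by
          apply one_div_le_one_div_of_le hNr
          push_cast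
          linarith
        linarith
    _ = _ := by ring

end Pool.Agent.H624U
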