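import Pool.Agent.H624U.Basic
import Pool.Agent.H624U.Defs2

/-!
# Z3: two stars with different extra vertices
-/

set_option autoImplicit false

namespace Pool.Agent.H624U

open Finset Pool.Agent.H624C
open scoped Classical

namespace Z3

/-- an alive extension gives a solution missing a colour on the star -/
theorem alive_of_ext {k n : ℕ} {ω : Om n} {Y : Finset (Fin n)}
    (h : KAliveU k (ext ω Y)) :
    KAlive (KRY (Set.univ : Set (KCol k n)) Y) Finset.univ ω := by
  obtain ⟨σ, hσ, -⟩ := h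
  refine ⟨fun x => σ x.castSucc, ?_, Set.mem_univ _, σ (Fin.last n), ?_⟩
  · intro a _ b _ hab hm
    refine hσ a.castSucc (mem_univ _) b.castSucc (mem_univ _)
      (fun h => hab (Fin.castSucc_injective n h)) ?_
    unfold ext
    rw [mem_union]
    left
    rw [mem_image]
    exact ⟨s(a, b), hm, by simp⟩
  · intro y hy
    have := hσ (Fin.last n) (mem_univ _) y.castSucc (mem_univ _)
      (Fin.castSucc_ne_last y).symm (by
        unfold ext
        rw [mem_union]
        right
        rw [mem_image]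
        exact ⟨y, hy, rfl⟩)
    exact this.symm

/-- the pairs identified by all solutions with the constraint on `Y` -/
noncomputable def Q {k n : ℕ} (ω : Om n) (Y : Finset (Fin n)) : Finset (Fin n × Fin n) :=
  ((univ : Finset (Fin n)) ×ˢ (univ : Finset (Fin n))).filter (fun q => q.1 ≠ q.2 ∧
    KSame (KRY (Set.univ : Set (KCol k n)) Y) Finset.univ ω q.1 q.2)

theorem Q_card {k n : ℕ} (ω : Om n) (Y : Finset (Fin n)) :
    (Q (k := k) ω Y).card = KX (KRY (Set.univ : Set (KCol k n)) Y) Finset.univ ω := rfl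

theorem count {k n : ℕ} (ω : Om n) (Y : Finset (Fin n)) (B : Finset (Fin n)) (x : ℕ)
    (hB : ∀ b ∈ B, x ≤ (Q (k := k) ω (insert b Y)).card) :
    B.card * (B.card - 1) * (x * x) ≤
      Zm 3 (KRY (Set.univ : Set (KCol k n)) Y) ω := by
  set F : Finset (Σ _ : Fin n × Fin n, (Fin n × Fin n) × (Fin n × Fin n)) :=
    B.offDiag.sigma (fun p => Q (k := k) ω (insert p.1 Y) ×ˢ Q (k := k) ω (insert p.2 Y)) with hF
  have h1 : B.card * (B.card - 1) * (x * x) ≤ F.card := by
    rw [hF, card_sigma]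
    have h2 : B.card * (B.card - 1) = B.offDiag.card := by
      rw [offDiag_card, Nat.mul_sub, mul_one]
    rw [h2, ← smul_eq_mul, ← Finset.sum_const]
    refine sum_le_sum fun p hp => ?_
    rw [mem_offDiag] at hp
    rw [card_product]
    exact Nat.mul_le_mul (hB _ hp.1) (hB _ hp.2.1)
  refine h1.trans ?_
  unfold Zm
  refine card_le_card_of_injOn (fun z => ![z.1, z.2.1, z.2.2]) ?_ ?_
  · rintro ⟨⟨b, b'⟩, q, q'⟩ hz
    simp only [hF, coe_sigma, Set.mem_sigma_iff, mem_coe, mem_offDiag, mem_product] at hz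
    obtain ⟨⟨hb, hb', hbb⟩, hq, hq'⟩ := hz
    simp only [Q, mem_filter, mem_product, mem_univ, true_and] at hq hq'
    simp only [coe_filter, Set.mem_setOf_eq, mem_univ, true_and]
    refine ⟨?_, ?_⟩
    · intro i
      fin_cases i
      · exact hbb
      · exact hq.1
      · exact hq'.1
    · rintro σ ⟨hσ, -, s, hs⟩
      by_cases h : σ b = σ b'
      · exact ⟨0, h⟩
      · by_cases hbs : σ b = s
        · have hbs' : σ b' ≠ s := fun h' => h (hbs.trans h'.symm)
          refine ⟨2, hq'.2 σ ⟨hσ, Set.mem_univ _, s, ?_⟩⟩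
          intro y hy
          rcases mem_insert.1 hy with rfl | hy
          · exact hbs'
          · exact hs y hy
        · refine ⟨1, hq.2 σ ⟨hσ, Set.mem_univ _, s, ?_⟩⟩
          intro y hy
          rcases mem_insert.1 hy with rfl | hy
          · exact hbs
          · exact hs y hy
  · rintro ⟨p, q, q'⟩ _ ⟨p1, q1, q1'⟩ _ h
    have h0 := congrFun h 0
    have h1 := congrFun h 1
    have h2 := congrFun h 2
    simp at h0 h1 h2
    rw [h0, h1, h2]

end Z3

open Z3 in
/-- Z3 -/
theorem Z3_thm (hj : T_jump) : T_Z3 := by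
  intro k l c δ hk hc hδ
  refine ⟨c ^ 2 * δ ^ 4 / 32, max 1 (max ⌈4 / c⌉₊ ⌈2 / δ⌉₊), by positivity, ?_⟩
  intro n hn m0 d m1 ω w y hT hdn hd hD
  have hn1 : (1 : ℝ) ≤ n := by
    have : 1 ≤ n := le_trans (le_max_left _ _) hn
    exact_mod_cast this
  have hnc : 4 / c ≤ n := by
    have h1 : ⌈4 / c⌉₊ ≤ n := le_trans ((le_max_left _ _).trans (le_max_right _ _)) hn
    exact le_trans (Nat.le_ceil _) (by exact_mod_cast h1)
  have hnδ : 2 / δ ≤ n := by
    have h1 : ⌈2 / δ⌉₊ ≤ n := le_trans ((le_max_right _ _).trans (le_max_right _ _)) hn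
    exact le_trans (Nat.le_ceil _) (by exact_mod_cast h1)
  obtain ⟨hPV, hB, -, -⟩ := hD
  refine ⟨?_, ?_⟩
  · apply alive_of_ext
    by_contra hcon
    exact hPV (Or.inl hcon)
  · set Y := (univ : Finset (Fin l)).image w with hY
    set B := (Finset.univ : Finset (Fin n)).filter (fun b => gpair k m0 d m1 l ω (w, b)) with hBdef
    have h1 : ∀ b ∈ B, d * (d - 1) ≤ (Q (k := k) ω (insert b Y)).card := by
      intro b hb
      rw [hBdef, mem_filter] at hb
      obtain ⟨-, -, h2, h3⟩ := hb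
      rw [Q_card]
      exact (hj k m0 d m1 n ω (insert b Y) hk hT hdn h2 h3).2
    have h2 := count (k := k) ω Y B (d * (d - 1)) h1
    have hcn : 4 ≤ c * n := by
      rw [div_le_iff₀ hc] at hnc
      linarith
    have hδn : 2 ≤ δ * n := by
      rw [div_le_iff₀ hδ] at hnδ
      linarith
    have hBc : (2 : ℝ) ≤ B.card := by linarith
    have hBc1 : 1 ≤ B.card := by
      have : (1 : ℝ) ≤ B.card := by linarith
      exact_mod_cast this
    have hd1 : 1 ≤ d := hT.2.2
    have h3 : ((B.card * (B.card - 1) * ((d * (d - 1)) * (d * (d - 1))) : ℕ) : ℝ) ≤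
        (Zm 3 (KRY (Set.univ : Set (KCol k n)) Y) ω : ℝ) := by exact_mod_cast h2
    refine le_trans ?_ h3
    push_cast [Nat.cast_sub hBc1, Nat.cast_sub hd1]
    have e1 : c / 2 * n ≤ (B.card : ℝ) := hB
    have e2 : c / 4 * n ≤ (B.card : ℝ) - 1 := by linarith
    have e3 : δ / 2 * n ≤ (d : ℝ) - 1 := by linarith
    have f1 : (c / 2 * n) * (c / 4 * n) ≤ (B.card : ℝ) * ((B.card : ℝ) - 1) :=
      mul_le_mul e1 e2 (by positivity) (by linarith)
    have f2 : (δ * n) * (δ / 2 * n) ≤ (d : ℝ) * ((d : ℝ) - 1) :=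
      mul_le_mul hd e3 (by positivity) (by positivity)
    have f3 : ((δ * n) * (δ / 2 * n)) * ((δ * n) * (δ / 2 * n)) ≤
        ((d : ℝ) * ((d : ℝ) - 1)) * ((d : ℝ) * ((d : ℝ) - 1)) :=
      mul_le_mul f2 f2 (by positivity) (le_trans (by positivity) f2)
    have f4 := mul_le_mul f1 f3 (by positivity) (le_trans (by positivity) f1)
    refine le_trans (le_of_eq ?_) f4
    ring

end Pool.Agent.H624U
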